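import Pool.Agent.helper94.Aff.Pair8

/-!
# A verified checker for certificates of the twelve variable inequality
-/

namespace Aff

namespace Chk

/-! ### Linear and quadratic forms with integer coefficients -/

/-- Value of a linear form. -/
def ev : List ℤ → List ℝ → ℝ
  | [], _ => 0
  | _ :: _, [] => 0
  | a :: l, r :: x => (a : ℝ) * r + ev l x

/-- Sum of linear forms. -/
def add : List ℤ → List ℤ → List ℤ
  | [], m => m
  | a :: l, [] => a :: l
  | a :: l, b :: m => (a + b) :: add l m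

/-- Multiple of a linear form. -/
def smul (c : ℤ) : List ℤ → List ℤ
  | [] => []
  | a :: l => (c * a) :: smul c l

/-- Product of two linear forms (upper triangular coefficients). -/
def mul : List ℤ → List ℤ → List (List ℤ)
  | [], _ => []
  | _ :: _, [] => []
  | a :: l, b :: m => (a * b :: add (smul a m) (smul b l)) :: mul l m

/-- Value of a quadratic form. -/
def evQ : List (List ℤ) → List ℝ → ℝ
  | [], _ => 0
  | _ :: _, [] => 0
  | r :: R, a :: x => a * ev r (a :: x) + evQ R x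

/-- Sum of quadratic forms. -/
def addQ : List (List ℤ) → List (List ℤ) → List (List ℤ)
  | [], m => m
  | a :: l, [] => a :: l
  | a :: l, b :: m => add a b :: addQ l m

/-- Multiple of a quadratic form. -/
def smulQ (c : ℤ) : List (List ℤ) → List (List ℤ)
  | [] => []
  | a :: l => smul c a :: smulQ c l

/-- All coefficients are nonnegative. -/
def nn : List ℤ → Bool
  | [] => true
  | a :: l => decide (0 ≤ a) && nn l

/-- All coefficients are nonnegative. -/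
def nnQ : List (List ℤ) → Bool
  | [] => true
  | a :: l => nn a && nnQ l

theorem ev_nil_right (l : List ℤ) : ev l [] = 0 := by
  cases l <;> rfl

theorem ev_add (l m : List ℤ) (x : List ℝ) : ev (add l m) x = ev l x + ev m x := by
  induction l generalizing m x with
  | nil => simp [add, ev]
  | cons a l ih =>
    cases m with
    | nil => simp [add, ev]
    | cons b m =>
      cases x with
      | nil => simp [add, ev]
      | cons r x =>
        simp only [add, ev, ih]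
        push_cast
        ring

theorem ev_smul (c : ℤ) (l : List ℤ) (x : List ℝ) : ev (smul c l) x = c * ev l x := by
  induction l generalizing x with
  | nil => simp [smul, ev]
  | cons a l ih =>
    cases x with
    | nil => simp [smul, ev]
    | cons r x =>
      simp only [smul, ev, ih]
      push_cast
      ring

theorem evQ_nil_right (l : List (List ℤ)) : evQ l [] = 0 := by
  cases l <;> rfl

theorem evQ_add (l m : List (List ℤ)) (x : List ℝ) : evQ (addQ l m) x = evQ l x + evQ m x := by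
  induction l generalizing m x with
  | nil => simp [addQ, evQ]
  | cons a l ih =>
    cases m with
    | nil => simp [addQ, evQ]
    | cons b m =>
      cases x with
      | nil => simp [addQ, evQ]
      | cons r x =>
        simp only [addQ, evQ, ih, ev_add]
        ring

theorem evQ_smul (c : ℤ) (l : List (List ℤ)) (x : List ℝ) : evQ (smulQ c l) x = c * evQ l x := by
  induction l generalizing x with
  | nil => simp [smulQ, evQ]
  | cons a l ih =>
    cases x with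
    | nil => simp [smulQ, evQ]
    | cons r x =>
      simp only [smulQ, evQ, ih, ev_smul]
      ring

theorem evQ_mul (l m : List ℤ) (x : List ℝ) : evQ (mul l m) x = ev l x * ev m x := by
  induction l generalizing m x with
  | nil => simp [mul, ev, evQ]
  | cons a l ih =>
    cases m with
    | nil => simp [mul, ev, evQ]
    | cons b m =>
      cases x with
      | nil => simp [mul, ev, evQ]
      | cons r x =>
        simp only [mul, evQ, ev, ih, ev_add, ev_smul]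
        push_cast
        ring

theorem nn_cons {a : ℤ} {l : List ℤ} (h : nn (a :: l) = true) : 0 ≤ a ∧ nn l = true := by
  simp only [nn, Bool.and_eq_true, decide_eq_true_eq] at h
  exact h

theorem ev_nonneg {l : List ℤ} (h : nn l = true) {x : List ℝ} (hx : ∀ r ∈ x, 0 ≤ r) :
    0 ≤ ev l x := by
  induction l generalizing x with
  | nil => simp [ev]
  | cons a l ih =>
    cases x with
    | nil => simp [ev]
    | cons r x =>
      obtain ⟨h1, h2⟩ := nn_cons h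
      simp only [ev]
      have h3 : (0 : ℝ) ≤ a := by exact_mod_cast h1
      exact add_nonneg (mul_nonneg h3 (hx r (List.mem_cons_self ..)))
        (ih h2 fun s hs => hx s (List.mem_cons_of_mem _ hs))

theorem evQ_nonneg {R : List (List ℤ)} (h : nnQ R = true) {x : List ℝ} (hx : ∀ r ∈ x, 0 ≤ r) :
    0 ≤ evQ R x := by
  induction R generalizing x with
  | nil => simp [evQ]
  | cons a l ih =>
    cases x with
    | nil => simp [evQ]
    | cons r x =>
      simp only [nnQ, Bool.and_eq_true] at h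
      simp only [evQ]
      exact add_nonneg (mul_nonneg (hx r (List.mem_cons_self ..)) (ev_nonneg h.1 hx))
        (ih h.2 fun s hs => hx s (List.mem_cons_of_mem _ hs))

/-! ### Combinations of constraints -/

/-- The `i`-th constraint. -/
def nth : List (List ℤ) → ℕ → List ℤ
  | [], _ => []
  | a :: _, 0 => a
  | _ :: l, n + 1 => nth l n

/-- A nonnegative combination of constraints. -/
def comb (cs : List (List ℤ)) : List (ℕ × ℕ) → List ℤ
  | [] => []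
  | (i, k) :: ks => add (smul k (nth cs i)) (comb cs ks)

/-- A sum of products of constraints. -/
def prods (cs : List (List ℤ)) : List (ℕ × List (ℕ × ℕ)) → List (List ℤ)
  | [] => []
  | (i, ks) :: ps => addQ (mul (nth cs i) (comb cs ks)) (prods cs ps)

/-- A sum of squares. -/
def sqs : List (ℕ × List ℤ) → List (List ℤ)
  | [] => []
  | (k, l) :: ps => addQ (smulQ k (mul l l)) (sqs ps)

/-- All constraints hold. -/
def Ok (cs : List (List ℤ)) (x : List ℝ) : Prop := ∀ c ∈ cs, 0 ≤ ev c x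

theorem nth_nonneg {cs : List (List ℤ)} {x : List ℝ} (h : Ok cs x) (i : ℕ) :
    0 ≤ ev (nth cs i) x := by
  induction cs generalizing i with
  | nil => simp [nth, ev]
  | cons a l ih =>
    cases i with
    | zero => exact h a (List.mem_cons_self ..)
    | succ n => exact ih (fun c hc => h c (List.mem_cons_of_mem _ hc)) n

theorem comb_nonneg {cs : List (List ℤ)} {x : List ℝ} (h : Ok cs x) (ks : List (ℕ × ℕ)) :
    0 ≤ ev (comb cs ks) x := by
  induction ks with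
  | nil => simp [comb, ev]
  | cons p ks ih =>
    obtain ⟨i, k⟩ := p
    simp only [comb, ev_add, ev_smul]
    have h1 := nth_nonneg h i
    have h2 : (0 : ℝ) ≤ ((k : ℤ) : ℝ) := by exact_mod_cast Nat.zero_le k
    exact add_nonneg (mul_nonneg h2 h1) ih

theorem prods_nonneg {cs : List (List ℤ)} {x : List ℝ} (h : Ok cs x)
    (ps : List (ℕ × List (ℕ × ℕ))) : 0 ≤ evQ (prods cs ps) x := by
  induction ps with
  | nil => simp [prods, evQ]
  | cons p ps ih =>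
    obtain ⟨i, ks⟩ := p
    simp only [prods, evQ_add, evQ_mul]
    exact add_nonneg (mul_nonneg (nth_nonneg h i) (comb_nonneg h ks)) ih

theorem sqs_nonneg (x : List ℝ) (ps : List (ℕ × List ℤ)) : 0 ≤ evQ (sqs ps) x := by
  induction ps with
  | nil => simp [sqs, evQ]
  | cons p ps ih =>
    obtain ⟨k, l⟩ := p
    simp only [sqs, evQ_add, evQ_mul, evQ_smul]
    have h2 : (0 : ℝ) ≤ ((k : ℤ) : ℝ) := by exact_mod_cast Nat.zero_le k
    exact add_nonneg (mul_nonneg h2 (mul_self_nonneg _)) ih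

/-! ### Bounds for one Pollard term -/

/-- Difference of linear forms. -/
def sub (l m : List ℤ) : List ℤ := add l (smul (-1) m)

theorem ev_sub (l m : List ℤ) (x : List ℝ) : ev (sub l m) x = ev l x - ev m x := by
  unfold sub
  rw [ev_add, ev_smul]
  push_cast
  ring

/-- Difference of quadratic forms. -/
def subQ (l m : List (List ℤ)) : List (List ℤ) := addQ l (smulQ (-1) m)

theorem evQ_sub (l m : List (List ℤ)) (x : List ℝ) : evQ (subQ l m) x = evQ l x - evQ m x := by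
  unfold subQ
  rw [evQ_add, evQ_smul]
  push_cast
  ring

/-- The kind of a bound for `P x z y`: a product, or a Pollard level `τ / k` for one of the three
pairs, with certificates for `0 ≤ τ`, `τ ≤ k a`, `τ ≤ k b`. -/
inductive Kd where
  | xz : Kd
  | xy : Kd
  | zy : Kd
  | t1 (k : ℕ) (τ : List ℤ) (c1 c2 c3 : List (ℕ × ℕ)) : Kd
  | t2 (k : ℕ) (τ : List ℤ) (c1 c2 c3 : List (ℕ × ℕ)) : Kd
  | t3 (k : ℕ) (τ : List ℤ) (c1 c2 c3 : List (ℕ × ℕ)) : Kd

/-- The bound with level `τ / k`. -/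
def tb (a b c : List ℤ) (k : ℕ) (τ : List ℤ) : List (List ℤ) :=
  addQ (mul (sub (smul k a) τ) (sub (smul k b) τ)) (smulQ k (mul τ c))

/-- Validity of a level. -/
def okT (cs : List (List ℤ)) (a b : List ℤ) (k : ℕ) (τ : List ℤ) (c1 c2 c3 : List (ℕ × ℕ)) :
    Bool :=
  decide (0 < k) && nn (sub τ (comb cs c1)) &&
      nn (sub (sub (smul k a) τ) (comb cs c2)) && nn (sub (sub (smul k b) τ) (comb cs c3))

/-- The bound (times its denominator). -/
def bnd (x z y : List ℤ) : Kd → List (List ℤ)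
  | .xz => mul x z
  | .xy => mul x y
  | .zy => mul z y
  | .t1 k τ _ _ _ => tb x z y k τ
  | .t2 k τ _ _ _ => tb x y z k τ
  | .t3 k τ _ _ _ => tb z y x k τ

/-- The denominator. -/
def den : Kd → ℕ
  | .xz => 1
  | .xy => 1
  | .zy => 1
  | .t1 k _ _ _ _ => k * k
  | .t2 k _ _ _ _ => k * k
  | .t3 k _ _ _ _ => k * k

/-- Validity of a bound. -/
def okB (cs : List (List ℤ)) (x z y : List ℤ) : Kd → Bool
  | .xz => true
  | .xy => true
  | .zy => true
  | .t1 k τ c1 c2 c3 => okT cs x z k τ c1 c2 c3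
  | .t2 k τ c1 c2 c3 => okT cs x y k τ c1 c2 c3
  | .t3 k τ c1 c2 c3 => okT cs z y k τ c1 c2 c3

theorem nn_sub {cs : List (List ℤ)} {X : List ℝ} (hcs : Ok cs X) (hX : ∀ r ∈ X, 0 ≤ r)
    {l : List ℤ} {c : List (ℕ × ℕ)} (h : nn (sub l (comb cs c)) = true) : 0 ≤ ev l X := by
  have h1 := ev_nonneg h hX
  have h2 := comb_nonneg hcs c
  rw [ev_sub] at h1
  linarith

theorem okT_sound {cs : List (List ℤ)} {X : List ℝ} (hcs : Ok cs X) (hX : ∀ r ∈ X, 0 ≤ r)
    {a b : List ℤ} {k : ℕ} {τ : List ℤ} {c1 c2 c3 : List (ℕ × ℕ)}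
    (h : okT cs a b k τ c1 c2 c3 = true) :
    (0 : ℝ) < k ∧ 0 ≤ ev τ X / k ∧ ev τ X / k ≤ ev a X ∧ ev τ X / k ≤ ev b X := by
  simp only [okT, Bool.and_eq_true, decide_eq_true_eq] at h
  obtain ⟨⟨⟨hk, h1⟩, h2⟩, h3⟩ := h
  have g1 := nn_sub hcs hX h1
  have g2 := nn_sub hcs hX h2
  have g3 := nn_sub hcs hX h3
  rw [ev_sub, ev_smul] at g2 g3
  have hk' : (0 : ℝ) < k := by exact_mod_cast hk
  push_cast at g2 g3
  refine ⟨hk', div_nonneg g1 hk'.le, ?_, ?_⟩
  · rw [div_le_iff₀ hk']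
    linarith
  · rw [div_le_iff₀ hk']
    linarith

theorem tb_ev (a b c : List ℤ) {k : ℕ} (τ : List ℤ) (X : List ℝ) (hk : (0 : ℝ) < k) :
    evQ (tb a b c k τ) X = (k : ℝ) * k * ((ev a X - ev τ X / k) * (ev b X - ev τ X / k) +
      ev τ X / k * ev c X) := by
  simp only [tb, evQ_add, evQ_mul, evQ_smul, ev_sub, ev_smul]
  push_cast
  field_simp

theorem bnd_sound {cs : List (List ℤ)} {X : List ℝ} (hcs : Ok cs X) (hX : ∀ r ∈ X, 0 ≤ r)
    {x z y : List ℤ} (hx : 0 ≤ ev x X) (hz : 0 ≤ ev z X) (hy : 0 ≤ ev y X) {kd : Kd}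
    (h : okB cs x z y kd = true) :
    (den kd : ℝ) * P (ev x X) (ev z X) (ev y X) ≤ evQ (bnd x z y kd) X := by
  cases kd with
  | xz =>
    simp only [den, bnd, evQ_mul, Nat.cast_one, one_mul]
    exact P_le_mul hx hz hy
  | xy =>
    simp only [den, bnd, evQ_mul, Nat.cast_one, one_mul]
    exact P_le_mul_ac hx hz hy
  | zy =>
    simp only [den, bnd, evQ_mul, Nat.cast_one, one_mul]
    exact P_le_mul_bc hx hz hy
  | t1 k τ c1 c2 c3 =>
    obtain ⟨hk, h0, h1, h2⟩ := okT_sound hcs hX h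
    simp only [den, bnd]
    push_cast
    rw [tb_ev _ _ _ _ _ hk]
    exact mul_le_mul_of_nonneg_left (P_le hx hz hy h0 h1 h2) (by positivity)
  | t2 k τ c1 c2 c3 =>
    obtain ⟨hk, h0, h1, h2⟩ := okT_sound hcs hX h
    simp only [den, bnd]
    push_cast
    rw [tb_ev _ _ _ _ _ hk]
    exact mul_le_mul_of_nonneg_left (P_le_ac hx hz hy h0 h1 h2) (by positivity)
  | t3 k τ c1 c2 c3 =>
    obtain ⟨hk, h0, h1, h2⟩ := okT_sound hcs hX h
    simp only [den, bnd]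
    push_cast
    rw [tb_ev _ _ _ _ _ hk]
    exact mul_le_mul_of_nonneg_left (P_le_bc hx hz hy h0 h1 h2) (by positivity)

/-- Total weight. -/
def wsum : List (ℕ × Kd) → ℕ
  | [] => 0
  | (n, kd) :: l => n * den kd + wsum l

/-- Total bound. -/
def tsum (x z y : List ℤ) : List (ℕ × Kd) → List (List ℤ)
  | [] => []
  | (n, kd) :: l => addQ (smulQ n (bnd x z y kd)) (tsum x z y l)

/-- Validity of all bounds. -/
def okAll (cs : List (List ℤ)) (x z y : List ℤ) : List (ℕ × Kd) → Bool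
  | [] => true
  | (_, kd) :: l => okB cs x z y kd && okAll cs x z y l

theorem tsum_sound {cs : List (List ℤ)} {X : List ℝ} (hcs : Ok cs X) (hX : ∀ r ∈ X, 0 ≤ r)
    {x z y : List ℤ} (hx : 0 ≤ ev x X) (hz : 0 ≤ ev z X) (hy : 0 ≤ ev y X)
    {l : List (ℕ × Kd)} (h : okAll cs x z y l = true) {c : ℝ}
    (hc : c ≤ P (ev x X) (ev z X) (ev y X)) :
    (wsum l : ℝ) * c ≤ evQ (tsum x z y l) X := by
  refine le_trans (mul_le_mul_of_nonneg_left hc (Nat.cast_nonneg _)) ?_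
  induction l with
  | nil => simp [wsum, tsum, evQ]
  | cons p l ih =>
    obtain ⟨n, kd⟩ := p
    simp only [okAll, Bool.and_eq_true] at h
    have h1 := bnd_sound hcs hX hx hz hy h.1
    have h2 := ih h.2
    simp only [wsum, tsum, evQ_add, evQ_smul]
    push_cast
    have h3 := mul_le_mul_of_nonneg_left h1 (Nat.cast_nonneg n : (0 : ℝ) ≤ n)
    linarith

/-! ### The forms -/

/-- Unit vectors: order of variables `A0 A1 A2 B0 B1 B2 O0 O1 O2 w0 w2 v`. -/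
def vA0 : List ℤ := [1]
/-- `A1`. -/
def vA1 : List ℤ := [0, 1]
/-- `A2`. -/
def vA2 : List ℤ := [0, 0, 1]
/-- `B0`. -/
def vB0 : List ℤ := [0, 0, 0, 1]
/-- `B1`. -/
def vB1 : List ℤ := [0, 0, 0, 0, 1]
/-- `B2`. -/
def vB2 : List ℤ := [0, 0, 0, 0, 0, 1]
/-- `O0`. -/
def vO0 : List ℤ := [0, 0, 0, 0, 0, 0, 1]
/-- `O1`. -/
def vO1 : List ℤ := [0, 0, 0, 0, 0, 0, 0, 1]
/-- `O2`. -/
def vO2 : List ℤ := [0, 0, 0, 0, 0, 0, 0, 0, 1]
/-- `w0`. -/
def vw0 : List ℤ := [0, 0, 0, 0, 0, 0, 0, 0, 0, 1]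
/-- `w2`. -/
def vw2 : List ℤ := [0, 0, 0, 0, 0, 0, 0, 0, 0, 0, 1]
/-- `v`. -/
def vv : List ℤ := [0, 0, 0, 0, 0, 0, 0, 0, 0, 0, 0, 1]
/-- `E0`. -/
def vE0 : List ℤ := [1, 0, 0, 1]
/-- `E1`. -/
def vE1 : List ℤ := [0, 1, 0, 0, 1]
/-- `E2`. -/
def vE2 : List ℤ := [0, 0, 1, 0, 0, 1]
/-- `U0`. -/
def vU0 : List ℤ := [1, 0, 0, 1, 0, 0, 1]
/-- `U1`. -/
def vU1 : List ℤ := [0, 1, 0, 0, 1, 0, 0, 1]
/-- `U2`. -/
def vU2 : List ℤ := [0, 0, 1, 0, 0, 1, 0, 0, 1]
/-- `e`. -/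
def ve : List ℤ := [1, 1, 1, 1, 1, 1]
/-- `o`. -/
def vo : List ℤ := [0, 0, 0, 0, 0, 0, 1, 1, 1]
/-- `u`. -/
def vu : List ℤ := [1, 1, 1, 1, 1, 1, 1, 1, 1]
/-- `w0 + w2`. -/
def vW : List ℤ := [0, 0, 0, 0, 0, 0, 0, 0, 0, 1, 1]
/-- `w`. -/
def vw : List ℤ := [0, 0, 0, 0, 0, 0, 0, 0, 0, 1, 1, 1]
/-- `p = e - w0 - w2`. -/
def vp : List ℤ := [1, 1, 1, 1, 1, 1, 0, 0, 0, -1, -1]
/-- `q = o - v`. -/
def vq : List ℤ := [0, 0, 0, 0, 0, 0, 1, 1, 1, 0, 0, -1]

/-- `ΣE_t O_t`. -/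
def qEO : List (List ℤ) := addQ (mul vE0 vO0) (addQ (mul vE1 vO1) (mul vE2 vO2))

/-- `12 e o - 8 p q`. -/
def qT2 : List (List ℤ) := addQ (smulQ 12 (mul ve vo)) (smulQ (-8) (mul vp vq))

/-- `8 u w - 4 w ^ 2`. -/
def qT3 : List (List ℤ) := addQ (smulQ 8 (mul vu vw)) (smulQ (-4) (mul vw vw))

/-- `8 e W - 4 W ^ 2`. -/
def qT4 : List (List ℤ) := addQ (smulQ 8 (mul ve vW)) (smulQ (-4) (mul vW vW))

/-- `8 o v - 4 v ^ 2`. -/
def qT5 : List (List ℤ) := addQ (smulQ 8 (mul vo vv)) (smulQ (-4) (mul vv vv))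

/-! ### Columns -/

/-- Certificate for an even column. -/
structure ColE where
  /-- joint multiplicity -/
  j : ℕ
  /-- joint bounds -/
  bj : List (ℕ × Kd)
  /-- even-even, class 0 -/
  ea : List (ℕ × Kd)
  /-- even-even, class 2 -/
  eb : List (ℕ × Kd)
  /-- odd-even, class 0 -/
  ma : List (ℕ × Kd)
  /-- odd-even, class 2 -/
  mb : List (ℕ × Kd)

/-- Certificate for an odd column. -/
structure ColO where
  /-- joint multiplicity -/
  j : ℕ
  /-- joint bounds -/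
  bj : List (ℕ × Kd)
  /-- even-odd -/
  f : List (ℕ × Kd)
  /-- odd-odd -/
  g : List (ℕ × Kd)

/-- Bound for an even column. -/
def colEQ (E O U A B E' : List ℤ) (c : ColE) : List (List ℤ) :=
  addQ (tsum U E' vW c.bj) (addQ (tsum E A vw0 c.ea) (addQ (tsum E B vw2 c.eb)
    (addQ (tsum O A vw2 c.ma) (tsum O B vw0 c.mb))))

/-- Validity for an even column. -/
def colEOk (cs : List (List ℤ)) (E O U A B E' : List ℤ) (mE mM : ℕ) (c : ColE) : Bool :=
  decide (wsum c.bj = c.j) && decide (wsum c.ea + c.j = mE) && decide (wsum c.eb + c.j = mE) &&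
    decide (wsum c.ma + c.j = mM) && decide (wsum c.mb + c.j = mM) &&
    okAll cs U E' vW c.bj && okAll cs E A vw0 c.ea && okAll cs E B vw2 c.eb &&
    okAll cs O A vw2 c.ma && okAll cs O B vw0 c.mb

/-- Bound for an odd column. -/
def colOQ (E O U O' : List ℤ) (c : ColO) : List (List ℤ) :=
  addQ (tsum U O' vv c.bj) (addQ (tsum E O' vv c.f) (tsum O O' vv c.g))

/-- Validity for an odd column. -/
def colOOk (cs : List (List ℤ)) (E O U O' : List ℤ) (mF mG : ℕ) (c : ColO) : Bool :=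
  decide (wsum c.bj = c.j) && decide (wsum c.f + c.j = mF) && decide (wsum c.g + c.j = mG) &&
    okAll cs U O' vv c.bj && okAll cs E O' vv c.f && okAll cs O O' vv c.g

/-- Counts of an even column. -/
structure CntE (E A B O w0 w2 : ℝ) where
  /-- even-even, class 0 -/
  ea : ℝ
  /-- even-even, class 2 -/
  eb : ℝ
  /-- odd-even, class 0 -/
  ma : ℝ
  /-- odd-even, class 2 -/
  mb : ℝ
  hea : ea ≤ P E A w0
  heb : eb ≤ P E B w2
  hma : ma ≤ P O A w2
  hmb : mb ≤ P O B w0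
  hj : ea + eb + ma + mb ≤ P (E + O) (A + B) (w0 + w2)

/-- Counts of an odd column. -/
structure CntO (E O O' v : ℝ) where
  /-- even-odd -/
  f : ℝ
  /-- odd-odd -/
  g : ℝ
  hf : f ≤ P E O' v
  hg : g ≤ P O O' v
  hj : f + g ≤ P (E + O) O' v

theorem colE_sound {cs : List (List ℤ)} {X : List ℝ} (hcs : Ok cs X) (hX : ∀ r ∈ X, 0 ≤ r)
    {lE lO lU lA lB lE' : List ℤ} {E A B O w0 w2 : ℝ} (hE : ev lE X = E) (hO : ev lO X = O)
    (hU : ev lU X = E + O) (hA : ev lA X = A) (hB : ev lB X = B) (hE' : ev lE' X = A + B)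
    (hw0 : ev vw0 X = w0) (hw2 : ev vw2 X = w2) (hW : ev vW X = w0 + w2) (n1 : 0 ≤ E)
    (n2 : 0 ≤ A) (n3 : 0 ≤ B) (n4 : 0 ≤ O) (n5 : 0 ≤ w0) (n6 : 0 ≤ w2) {mE mM : ℕ} {c : ColE}
    (h : colEOk cs lE lO lU lA lB lE' mE mM c = true) (n : CntE E A B O w0 w2) :
    (mE : ℝ) * (n.ea + n.eb) + mM * (n.ma + n.mb) ≤ evQ (colEQ lE lO lU lA lB lE' c) X := by
  simp only [colEOk, Bool.and_eq_true, decide_eq_true_eq] at h
  obtain ⟨⟨⟨⟨⟨⟨⟨⟨⟨h1, h2⟩, h3⟩, h4⟩, h5⟩, h6⟩, h7⟩, h8⟩, h9⟩, h10⟩ := h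
  have k1 := tsum_sound (x := lU) (z := lE') (y := vW) hcs hX (by rw [hU]; linarith)
    (by rw [hE']; linarith) (by rw [hW]; linarith) h6 (c := n.ea + n.eb + n.ma + n.mb)
    (by rw [hU, hE', hW]; exact n.hj)
  have k2 := tsum_sound (x := lE) (z := lA) (y := vw0) hcs hX (by rw [hE]; exact n1)
    (by rw [hA]; exact n2) (by rw [hw0]; exact n5) h7 (c := n.ea)
    (by rw [hE, hA, hw0]; exact n.hea)
  have k3 := tsum_sound (x := lE) (z := lB) (y := vw2) hcs hX (by rw [hE]; exact n1)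
    (by rw [hB]; exact n3) (by rw [hw2]; exact n6) h8 (c := n.eb)
    (by rw [hE, hB, hw2]; exact n.heb)
  have k4 := tsum_sound (x := lO) (z := lA) (y := vw2) hcs hX (by rw [hO]; exact n4)
    (by rw [hA]; exact n2) (by rw [hw2]; exact n6) h9 (c := n.ma)
    (by rw [hO, hA, hw2]; exact n.hma)
  have k5 := tsum_sound (x := lO) (z := lB) (y := vw0) hcs hX (by rw [hO]; exact n4)
    (by rw [hB]; exact n3) (by rw [hw0]; exact n5) h10 (c := n.mb)
    (by rw [hO, hB, hw0]; exact n.hmb)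
  rw [h1] at k1
  have e2 : (wsum c.ea : ℝ) = mE - c.j := by
    rw [← h2]
    push_cast
    ring
  have e3 : (wsum c.eb : ℝ) = mE - c.j := by
    rw [← h3]
    push_cast
    ring
  have e4 : (wsum c.ma : ℝ) = mM - c.j := by
    rw [← h4]
    push_cast
    ring
  have e5 : (wsum c.mb : ℝ) = mM - c.j := by
    rw [← h5]
    push_cast
    ring
  rw [e2] at k2
  rw [e3] at k3
  rw [e4] at k4
  rw [e5] at k5
  simp only [colEQ, evQ_add]
  linarith only [k1, k2, k3, k4, k5]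

theorem colO_sound {cs : List (List ℤ)} {X : List ℝ} (hcs : Ok cs X) (hX : ∀ r ∈ X, 0 ≤ r)
    {lE lO lU lO' : List ℤ} {E O O' v : ℝ} (hE : ev lE X = E) (hO : ev lO X = O)
    (hU : ev lU X = E + O) (hO' : ev lO' X = O')
    (hv : ev vv X = v) (n1 : 0 ≤ E) (n2 : 0 ≤ O) (n3 : 0 ≤ O') (n4 : 0 ≤ v) {mF mG : ℕ} {c : ColO}
    (h : colOOk cs lE lO lU lO' mF mG c = true) (n : CntO E O O' v) :
    (mF : ℝ) * n.f + mG * n.g ≤ evQ (colOQ lE lO lU lO' c) X := by
  simp only [colOOk, Bool.and_eq_true, decide_eq_true_eq] at h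
  obtain ⟨⟨⟨⟨⟨h1, h2⟩, h3⟩, h4⟩, h5⟩, h6⟩ := h
  have k1 := tsum_sound (x := lU) (z := lO') (y := vv) hcs hX (by rw [hU]; linarith)
    (by rw [hO']; exact n3) (by rw [hv]; exact n4) h4 (c := n.f + n.g)
    (by rw [hU, hO', hv]; exact n.hj)
  have k2 := tsum_sound (x := lE) (z := lO') (y := vv) hcs hX (by rw [hE]; exact n1)
    (by rw [hO']; exact n3) (by rw [hv]; exact n4) h5 (c := n.f)
    (by rw [hE, hO', hv]; exact n.hf)
  have k3 := tsum_sound (x := lO) (z := lO') (y := vv) hcs hX (by rw [hO]; exact n2)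
    (by rw [hO']; exact n3) (by rw [hv]; exact n4) h6 (c := n.g)
    (by rw [hO, hO', hv]; exact n.hg)
  rw [h1] at k1
  have e2 : (wsum c.f : ℝ) = mF - c.j := by
    rw [← h2]
    push_cast
    ring
  have e3 : (wsum c.g : ℝ) = mG - c.j := by
    rw [← h3]
    push_cast
    ring
  rw [e2] at k2
  rw [e3] at k3
  simp only [colOQ, evQ_add]
  linarith only [k1, k2, k3]

/-! ### Leaves -/

/-- A certificate for a leaf. -/
structure Cert where
  /-- multiplier of the parity cut -/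
  l2 : ℕ
  /-- multiplier of the direct bound -/
  l3 : ℕ
  /-- multiplier of the parity cut with direct even part -/
  l4 : ℕ
  /-- multiplier of the parity cut with direct odd part -/
  l5 : ℕ
  /-- multiplier of the parity cut with both parts direct -/
  l6 : ℕ
  /-- even column 0 -/
  a0 : ColE
  /-- even column 1 -/
  a1 : ColE
  /-- even column 2 -/
  a2 : ColE
  /-- odd column 0 -/
  b0 : ColO
  /-- odd column 1 -/
  b1 : ColO
  /-- odd column 2 -/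
  b2 : ColO
  /-- first weight for the in-column part -/
  d1 : ℕ
  /-- second weight for the in-column part -/
  d2 : ℕ
  /-- products -/
  ps : List (ℕ × List (ℕ × ℕ))
  /-- squares -/
  sq : List (ℕ × List ℤ)

/-- The main part. -/
def mainQ (c : Cert) : List (List ℤ) :=
  addQ (smulQ (c.l2 + c.l4 + c.l5 + c.l6 : ℕ) qT2) (addQ (smulQ c.l3 qT3)
    (addQ (smulQ (c.l4 + c.l6 : ℕ) qT4) (smulQ (c.l5 + c.l6 : ℕ) qT5)))

/-- The hits. -/
def hitQ (c : Cert) : List (List ℤ) :=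
  addQ (colEQ vE0 vO0 vU0 vA1 vB1 vE1 c.a0) (addQ (colEQ vE1 vO1 vU1 vA2 vB2 vE2 c.a1)
    (addQ (colEQ vE2 vO2 vU2 vA0 vB0 vE0 c.a2) (addQ (colOQ vE0 vO0 vU0 vO1 c.b0)
      (addQ (colOQ vE1 vO1 vU1 vO2 c.b1) (colOQ vE2 vO2 vU2 vO0 c.b2)))))

/-- The residual form of a certificate. -/
def resid (cs : List (List ℤ)) (c : Cert) : List (List ℤ) :=
  subQ (mainQ c) (addQ (hitQ c)
    (addQ (smulQ (6 * (c.l2 + c.l4 + c.l5 + c.l6) + c.d1 : ℕ) qEO)
      (addQ (smulQ c.d2 (mul vo vo)) (addQ (prods cs c.ps) (sqs c.sq)))))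

/-- Validity of a leaf. -/
def leafOk (cs : List (List ℤ)) (c : Cert) : Bool :=
  decide (0 < c.l2 + c.l3 + c.l4 + c.l5 + c.l6) &&
    decide (c.d1 + 2 * c.d2 = 6 * (c.l2 + c.l4 + c.l5 + c.l6)) &&
    colEOk cs vE0 vO0 vU0 vA1 vB1 vE1 (12 * (c.l3 + c.l4 + c.l6))
      (12 * (c.l2 + c.l3 + c.l4 + c.l5 + c.l6)) c.a0 &&
    colEOk cs vE1 vO1 vU1 vA2 vB2 vE2 (12 * (c.l3 + c.l4 + c.l6))
      (12 * (c.l2 + c.l3 + c.l4 + c.l5 + c.l6)) c.a1 &&
    colEOk cs vE2 vO2 vU2 vA0 vB0 vE0 (12 * (c.l3 + c.l4 + c.l6))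
      (12 * (c.l2 + c.l3 + c.l4 + c.l5 + c.l6)) c.a2 &&
    colOOk cs vE0 vO0 vU0 vO1 (12 * (c.l2 + c.l3 + c.l4 + c.l5 + c.l6))
      (12 * (c.l3 + c.l5 + c.l6)) c.b0 &&
    colOOk cs vE1 vO1 vU1 vO2 (12 * (c.l2 + c.l3 + c.l4 + c.l5 + c.l6))
      (12 * (c.l3 + c.l5 + c.l6)) c.b1 &&
    colOOk cs vE2 vO2 vU2 vO0 (12 * (c.l2 + c.l3 + c.l4 + c.l5 + c.l6))
      (12 * (c.l3 + c.l5 + c.l6)) c.b2 &&
    nnQ (resid cs c)

/-- The conclusion, in terms of the total counts. -/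
def Concl (e o W v EO D CE M F G : ℝ) : Prop :=
  0 ≤ e * o - 2 / 3 * (e - W) * (o - v) - M - F - 1 / 2 * (EO + D) ∨
  0 ≤ 2 / 3 * (e + o) * (W + v) - 1 / 3 * (W + v) ^ 2 - CE - M - F - G ∨
  0 ≤ e * o - 2 / 3 * (e - W) * (o - v) - M - F - 1 / 2 * (EO + D) +
    (2 / 3 * e * W - 1 / 3 * W ^ 2 - CE) ∨
  0 ≤ e * o - 2 / 3 * (e - W) * (o - v) - M - F - 1 / 2 * (EO + D) +
    (2 / 3 * o * v - 1 / 3 * v ^ 2 - G) ∨
  0 ≤ e * o - 2 / 3 * (e - W) * (o - v) - M - F - 1 / 2 * (EO + D) +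
    (2 / 3 * e * W - 1 / 3 * W ^ 2 - CE) + (2 / 3 * o * v - 1 / 3 * v ^ 2 - G)

/-- The goal at a point. -/
def Goal (A0 A1 A2 B0 B1 B2 O0 O1 O2 w0 w2 v : ℝ) : Prop :=
  ∀ (a0 : CntE (A0 + B0) A1 B1 O0 w0 w2) (a1 : CntE (A1 + B1) A2 B2 O1 w0 w2)
    (a2 : CntE (A2 + B2) A0 B0 O2 w0 w2) (b0 : CntO (A0 + B0) O0 O1 v)
    (b1 : CntO (A1 + B1) O1 O2 v) (b2 : CntO (A2 + B2) O2 O0 v) (D : ℝ),
    D ≤ (A0 + B0) * O0 + (A1 + B1) * O1 + (A2 + B2) * O2 → D ≤ (O0 + O1 + O2) ^ 2 / 2 →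
    Concl (A0 + A1 + A2 + B0 + B1 + B2) (O0 + O1 + O2) (w0 + w2) v
      ((A0 + B0) * O0 + (A1 + B1) * O1 + (A2 + B2) * O2) D
      ((a0.ea + a0.eb) + (a1.ea + a1.eb) + (a2.ea + a2.eb))
      ((a0.ma + a0.mb) + (a1.ma + a1.mb) + (a2.ma + a2.mb)) (b0.f + b1.f + b2.f)
      (b0.g + b1.g + b2.g)

theorem five {a b c d e l2 l3 l4 l5 l6 : ℝ} (h2 : 0 ≤ l2) (h3 : 0 ≤ l3) (h4 : 0 ≤ l4)
    (h5 : 0 ≤ l5) (h6 : 0 ≤ l6) (hl : 0 < l2 + l3 + l4 + l5 + l6)
    (h : 0 ≤ l2 * a + l3 * b + l4 * c + l5 * d + l6 * e) :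
    0 ≤ a ∨ 0 ≤ b ∨ 0 ≤ c ∨ 0 ≤ d ∨ 0 ≤ e := by
  by_contra hcon
  push Not at hcon
  obtain ⟨ha, hb, hc, hd, he⟩ := hcon
  obtain ⟨m, hm0, m1, m2, m3, m4, m5⟩ : ∃ m : ℝ, m < 0 ∧ a ≤ m ∧ b ≤ m ∧ c ≤ m ∧ d ≤ m ∧ e ≤ m :=
    ⟨max a (max b (max c (max d e))), max_lt ha (max_lt hb (max_lt hc (max_lt hd he))),
      le_max_left _ _, (le_max_left _ _).trans (le_max_right _ _),
      ((le_max_left _ _).trans (le_max_right _ _)).trans (le_max_right _ _),
      (((le_max_left _ _).trans (le_max_right _ _)).trans (le_max_right _ _)).trans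
        (le_max_right _ _),
      (((le_max_right _ _).trans (le_max_right _ _)).trans (le_max_right _ _)).trans
        (le_max_right _ _)⟩
  have k1 := mul_le_mul_of_nonneg_left m1 h2
  have k2 := mul_le_mul_of_nonneg_left m2 h3
  have k3 := mul_le_mul_of_nonneg_left m3 h4
  have k4 := mul_le_mul_of_nonneg_left m4 h5
  have k5 := mul_le_mul_of_nonneg_left m5 h6
  have k6 := mul_neg_of_pos_of_neg hl hm0
  linarith

theorem leaf_sound {cs : List (List ℤ)} {c : Cert} {A0 A1 A2 B0 B1 B2 O0 O1 O2 w0 w2 v : ℝ}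
    (hX : ∀ r ∈ [A0, A1, A2, B0, B1, B2, O0, O1, O2, w0, w2, v], 0 ≤ r)
    (hcs : Ok cs [A0, A1, A2, B0, B1, B2, O0, O1, O2, w0, w2, v]) (h : leafOk cs c = true) :
    Goal A0 A1 A2 B0 B1 B2 O0 O1 O2 w0 w2 v := by
  intro a0 a1 a2 b0 b1 b2 D hD1 hD2
  simp only [leafOk, Bool.and_eq_true, decide_eq_true_eq] at h
  obtain ⟨⟨⟨⟨⟨⟨⟨⟨hl, hd⟩, hE0⟩, hE1⟩, hE2⟩, hO0⟩, hO1⟩, hO2⟩, hR⟩ := h
  set X : List ℝ := [A0, A1, A2, B0, B1, B2, O0, O1, O2, w0, w2, v] with hXdef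
  have nA0 : 0 ≤ A0 := hX _ (by simp [hXdef])
  have nA1 : 0 ≤ A1 := hX _ (by simp [hXdef])
  have nA2 : 0 ≤ A2 := hX _ (by simp [hXdef])
  have nB0 : 0 ≤ B0 := hX _ (by simp [hXdef])
  have nB1 : 0 ≤ B1 := hX _ (by simp [hXdef])
  have nB2 : 0 ≤ B2 := hX _ (by simp [hXdef])
  have nO0 : 0 ≤ O0 := hX _ (by simp [hXdef])
  have nO1 : 0 ≤ O1 := hX _ (by simp [hXdef])
  have nO2 : 0 ≤ O2 := hX _ (by simp [hXdef])
  have nw0 : 0 ≤ w0 := hX _ (by simp [hXdef])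
  have nw2 : 0 ≤ w2 := hX _ (by simp [hXdef])
  have nv : 0 ≤ v := hX _ (by simp [hXdef])
  have fE0 : ev vE0 X = A0 + B0 := by simp [hXdef, vE0, ev]
  have fE1 : ev vE1 X = A1 + B1 := by simp [hXdef, vE1, ev]
  have fE2 : ev vE2 X = A2 + B2 := by simp [hXdef, vE2, ev]
  have fA0 : ev vA0 X = A0 := by simp [hXdef, vA0, ev]
  have fA1 : ev vA1 X = A1 := by simp [hXdef, vA1, ev]
  have fA2 : ev vA2 X = A2 := by simp [hXdef, vA2, ev]
  have fB0 : ev vB0 X = B0 := by simp [hXdef, vB0, ev]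
  have fB1 : ev vB1 X = B1 := by simp [hXdef, vB1, ev]
  have fB2 : ev vB2 X = B2 := by simp [hXdef, vB2, ev]
  have fO0 : ev vO0 X = O0 := by simp [hXdef, vO0, ev]
  have fO1 : ev vO1 X = O1 := by simp [hXdef, vO1, ev]
  have fO2 : ev vO2 X = O2 := by simp [hXdef, vO2, ev]
  have fU0 : ev vU0 X = A0 + B0 + O0 := by simp [hXdef, vU0, ev]; ring
  have fU1 : ev vU1 X = A1 + B1 + O1 := by simp [hXdef, vU1, ev]; ring
  have fU2 : ev vU2 X = A2 + B2 + O2 := by simp [hXdef, vU2, ev]; ring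
  have fw0 : ev vw0 X = w0 := by simp [hXdef, vw0, ev]
  have fw2 : ev vw2 X = w2 := by simp [hXdef, vw2, ev]
  have fW : ev vW X = w0 + w2 := by simp [hXdef, vW, ev]
  have fv : ev vv X = v := by simp [hXdef, vv, ev]
  have tE0 := colE_sound hcs hX fE0 fO0 fU0 fA1 fB1 fE1 fw0 fw2 fW (add_nonneg nA0 nB0) nA1 nB1
    nO0 nw0 nw2 hE0 a0
  have tE1 := colE_sound hcs hX fE1 fO1 fU1 fA2 fB2 fE2 fw0 fw2 fW (add_nonneg nA1 nB1) nA2 nB2
    nO1 nw0 nw2 hE1 a1
  have tE2 := colE_sound hcs hX fE2 fO2 fU2 fA0 fB0 fE0 fw0 fw2 fW (add_nonneg nA2 nB2) nA0 nB0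
    nO2 nw0 nw2 hE2 a2
  have tO0 := colO_sound hcs hX fE0 fO0 fU0 fO1 fv (add_nonneg nA0 nB0) nO0 nO1 nv hO0 b0
  have tO1 := colO_sound hcs hX fE1 fO1 fU1 fO2 fv (add_nonneg nA1 nB1) nO1 nO2 nv hO1 b1
  have tO2 := colO_sound hcs hX fE2 fO2 fU2 fO0 fv (add_nonneg nA2 nB2) nO2 nO0 nv hO2 b2
  have hR' := evQ_nonneg hR hX
  have hps := prods_nonneg hcs c.ps
  have hsq := sqs_nonneg X c.sq
  have e2 : evQ qT2 X = 12 * ((A0 + A1 + A2 + B0 + B1 + B2) * (O0 + O1 + O2)) -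
      8 * ((A0 + A1 + A2 + B0 + B1 + B2 - (w0 + w2)) * (O0 + O1 + O2 - v)) := by
    simp only [hXdef, qT2, evQ_add, evQ_smul, evQ_mul, ve, vo, vp, vq, ev]
    push_cast
    ring
  have e3 : evQ qT3 X = 8 * ((A0 + A1 + A2 + B0 + B1 + B2 + (O0 + O1 + O2)) * (w0 + w2 + v)) -
      4 * (w0 + w2 + v) ^ 2 := by
    simp only [hXdef, qT3, evQ_add, evQ_smul, evQ_mul, vu, vw, ev]
    push_cast
    ring
  have e4 : evQ qT4 X =
      8 * ((A0 + A1 + A2 + B0 + B1 + B2) * (w0 + w2)) - 4 * (w0 + w2) ^ 2 := by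
    simp only [hXdef, qT4, evQ_add, evQ_smul, evQ_mul, ve, vW, ev]
    push_cast
    ring
  have e5 : evQ qT5 X = 8 * ((O0 + O1 + O2) * v) - 4 * v ^ 2 := by
    simp only [hXdef, qT5, evQ_add, evQ_smul, evQ_mul, vo, vv, ev]
    push_cast
    ring
  have eEO : evQ qEO X = (A0 + B0) * O0 + (A1 + B1) * O1 + (A2 + B2) * O2 := by
    simp only [hXdef, qEO, evQ_add, evQ_mul, vE0, vE1, vE2, vO0, vO1, vO2, ev]
    push_cast
    ring
  have eoo : evQ (mul vo vo) X = (O0 + O1 + O2) ^ 2 := by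
    simp only [hXdef, evQ_mul, vo, ev]
    push_cast
    ring
  unfold resid at hR'
  rw [evQ_sub] at hR'
  simp only [evQ_add, evQ_smul, mainQ, hitQ] at hR'
  rw [e2, e3, e4, e5, eEO, eoo] at hR'
  have hd' : (c.d1 : ℝ) + 2 * c.d2 = 6 * (c.l2 + c.l4 + c.l5 + c.l6) := by exact_mod_cast hd
  have hl' : (0 : ℝ) < (c.l2 : ℝ) + c.l3 + c.l4 + c.l5 + c.l6 := by exact_mod_cast hl
  have k1 := mul_le_mul_of_nonneg_left hD1 (Nat.cast_nonneg c.d1 : (0 : ℝ) ≤ c.d1)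
  have k2 := mul_le_mul_of_nonneg_left hD2 (Nat.cast_nonneg c.d2 : (0 : ℝ) ≤ c.d2)
  have k3 : 6 * ((c.l2 : ℝ) + c.l4 + c.l5 + c.l6) * D = c.d1 * D + 2 * (c.d2 * D) := by
    rw [← hd']
    ring
  push_cast at tE0 tE1 tE2 tO0 tO1 tO2 hR'
  generalize (A0 + B0) * O0 + (A1 + B1) * O1 + (A2 + B2) * O2 = EO at *
  generalize A0 + A1 + A2 + B0 + B1 + B2 = e at *
  generalize O0 + O1 + O2 = o at *
  generalize w0 + w2 = W at *
  generalize evQ (colEQ vE0 vO0 vU0 vA1 vB1 vE1 c.a0) X = q1 at *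
  generalize evQ (colEQ vE1 vO1 vU1 vA2 vB2 vE2 c.a1) X = q2 at *
  generalize evQ (colEQ vE2 vO2 vU2 vA0 vB0 vE0 c.a2) X = q3 at *
  generalize evQ (colOQ vE0 vO0 vU0 vO1 c.b0) X = q4 at *
  generalize evQ (colOQ vE1 vO1 vU1 vO2 c.b1) X = q5 at *
  generalize evQ (colOQ vE2 vO2 vU2 vO0 c.b2) X = q6 at *
  generalize evQ (prods cs c.ps) X = q7 at *
  generalize evQ (sqs c.sq) X = q8 at *
  unfold Concl
  refine five (Nat.cast_nonneg c.l2) (Nat.cast_nonneg c.l3) (Nat.cast_nonneg c.l4)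
    (Nat.cast_nonneg c.l5) (Nat.cast_nonneg c.l6) hl' ?_
  linarith only [tE0, tE1, tE2, tO0, tO1, tO2, hR', hps, hsq, k1, k2, k3]

/-! ### The tree -/

/-- A branching tree. -/
inductive Tree where
  | leaf (c : Cert) : Tree
  | node (l : List ℤ) (a b : Tree) : Tree

/-- The checker. -/
def chk : Tree → List (List ℤ) → Bool
  | .leaf c, cs => leafOk cs c
  | .node l a b, cs => chk a (cs ++ [l]) && chk b (cs ++ [smul (-1) l])

theorem Ok_append {cs : List (List ℤ)} {l : List ℤ} {X : List ℝ} (h : Ok cs X)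
    (hl : 0 ≤ ev l X) : Ok (cs ++ [l]) X := by
  intro c hc
  rcases List.mem_append.1 hc with h1 | h1
  · exact h c h1
  · rw [List.mem_singleton] at h1
    rw [h1]
    exact hl

/-- The property proved at a node. -/
def Holds (cs : List (List ℤ)) : Prop :=
  ∀ A0 A1 A2 B0 B1 B2 O0 O1 O2 w0 w2 v : ℝ,
    (∀ r ∈ [A0, A1, A2, B0, B1, B2, O0, O1, O2, w0, w2, v], 0 ≤ r) →
    Ok cs [A0, A1, A2, B0, B1, B2, O0, O1, O2, w0, w2, v] →
    Goal A0 A1 A2 B0 B1 B2 O0 O1 O2 w0 w2 v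

theorem holds_leaf {cs : List (List ℤ)} (c : Cert) (h : leafOk cs c = true) : Holds cs :=
  fun _ _ _ _ _ _ _ _ _ _ _ _ hX hcs => leaf_sound hX hcs h

theorem holds_node {cs : List (List ℤ)} (l : List ℤ) (ha : Holds (cs ++ [l]))
    (hb : Holds (cs ++ [smul (-1) l])) : Holds cs := by
  intro A0 A1 A2 B0 B1 B2 O0 O1 O2 w0 w2 v hX hcs
  rcases le_total 0 (ev l [A0, A1, A2, B0, B1, B2, O0, O1, O2, w0, w2, v]) with h1 | h1
  · exact ha _ _ _ _ _ _ _ _ _ _ _ _ hX (Ok_append hcs h1)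
  · refine hb _ _ _ _ _ _ _ _ _ _ _ _ hX (Ok_append hcs ?_)
    rw [ev_smul]
    push_cast
    linarith

theorem holds_chk (t : Tree) {cs : List (List ℤ)} (h : chk t cs = true) : Holds cs := by
  induction t generalizing cs with
  | leaf c => exact holds_leaf c h
  | node l a b iha ihb =>
    simp only [chk, Bool.and_eq_true] at h
    exact holds_node l (iha h.1) (ihb h.2)

/-- The root constraints: the variables, `e - o`, `p`, `q`. -/
def cs0 : List (List ℤ) :=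
  [vA0, vA1, vA2, vB0, vB1, vB2, vO0, vO1, vO2, vw0, vw2, vv, sub ve vo, vp, vq]

/-- The inequality for all admissible points. -/
def GoalAll : Prop :=
  ∀ A0 A1 A2 B0 B1 B2 O0 O1 O2 w0 w2 v : ℝ, 0 ≤ A0 → 0 ≤ A1 → 0 ≤ A2 → 0 ≤ B0 → 0 ≤ B1 →
    0 ≤ B2 → 0 ≤ O0 → 0 ≤ O1 → 0 ≤ O2 → 0 ≤ w0 → 0 ≤ w2 → 0 ≤ v →
    O0 + O1 + O2 ≤ A0 + A1 + A2 + B0 + B1 + B2 → w0 + w2 ≤ A0 + A1 + A2 + B0 + B1 + B2 →
    v ≤ O0 + O1 + O2 → B0 + B1 + B2 ≤ A0 + A1 + A2 → Goal A0 A1 A2 B0 B1 B2 O0 O1 O2 w0 w2 v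

theorem goal_of_holds (h : Holds cs0) : GoalAll := by
  intro A0 A1 A2 B0 B1 B2 O0 O1 O2 w0 w2 v hA0 hA1 hA2 hB0 hB1 hB2 hO0 hO1 hO2 hw0 hw2 hv h1 h2
    h3 _
  refine h _ _ _ _ _ _ _ _ _ _ _ _ ?_ ?_
  · intro r hr
    simp only [List.mem_cons, List.not_mem_nil, or_false] at hr
    rcases hr with rfl | rfl | rfl | rfl | rfl | rfl | rfl | rfl | rfl | rfl | rfl | rfl <;>
      assumption
  · intro c hc
    simp only [cs0, List.mem_cons, List.not_mem_nil, or_false] at hc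
    rcases hc with rfl | rfl | rfl | rfl | rfl | rfl | rfl | rfl | rfl | rfl | rfl | rfl | rfl |
      rfl | rfl
    · simpa [vA0, ev] using hA0
    · simpa [vA1, ev] using hA1
    · simpa [vA2, ev] using hA2
    · simpa [vB0, ev] using hB0
    · simpa [vB1, ev] using hB1
    · simpa [vB2, ev] using hB2
    · simpa [vO0, ev] using hO0
    · simpa [vO1, ev] using hO1
    · simpa [vO2, ev] using hO2
    · simpa [vw0, ev] using hw0
    · simpa [vw2, ev] using hw2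
    · simpa [vv, ev] using hv
    · rw [ev_sub]
      simp only [ve, vo, ev]
      push_cast
      linarith
    · simp only [vp, ev]
      push_cast
      linarith
    · simp only [vq, ev]
      push_cast
      linarith

end Chk

end Aff
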