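import Pool.Agent.helper94.Aff.Pair8

/-!
# Affine copies of {0,1,3}: the constant
-/

open Finset Filter

namespace Aff

/-- The number of affine copies of `{0,1,3}` in `A`: ordered pairs `(x, y)` of distinct elements
of `A` with `x + 3 (y - x) ∈ A`. -/
def TT (A : Finset ℤ) : ℕ :=
  ((A ×ˢ A).filter fun p => p.1 ≠ p.2 ∧ p.1 + 3 * (p.2 - p.1) ∈ A).card

/-- The maximum of `TT` over the sets of size `n`. -/
noncomputable def Mx (n : ℕ) : ℕ := sSup {t : ℕ | ∃ A : Finset ℤ, A.card = n ∧ TT A = t}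

theorem TT_add (A : Finset ℤ) : TT A + A.card = T0 A := by
  classical
  have h1 : TT A = ((A ×ˢ A).filter fun p => p.1 ≠ p.2 ∧ 3 * p.2 - 2 * p.1 ∈ A).card := by
    unfold TT
    congr 1
    refine Finset.filter_congr fun p _ => ?_
    have : p.1 + 3 * (p.2 - p.1) = 3 * p.2 - 2 * p.1 := by ring
    rw [this]
  have h2 : A.card = ((A ×ˢ A).filter fun p => ¬ p.1 ≠ p.2 ∧ 3 * p.2 - 2 * p.1 ∈ A).card := by
    refine Finset.card_bij (fun a _ => (a, a)) ?_ ?_ ?_
    · intro a ha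
      refine Finset.mem_filter.2 ⟨Finset.mem_product.2 ⟨ha, ha⟩, fun h => h rfl, ?_⟩
      have : 3 * a - 2 * a = a := by ring
      simpa only [this] using ha
    · intro a _ b _ h
      exact (Prod.mk.inj h).1
    · rintro ⟨a, b⟩ h
      obtain ⟨h3, h4, -⟩ := Finset.mem_filter.1 h
      have h5 : a = b := not_not.1 h4
      subst h5
      exact ⟨a, (Finset.mem_product.1 h3).1, rfl⟩
  have h3 : T0 A = ((A ×ˢ A).filter fun p => 3 * p.2 - 2 * p.1 ∈ A).card := rfl
  rw [h1, h3]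
  conv_lhs => rw [h2]
  rw [← Finset.card_filter_add_card_filter_not
    (s := (A ×ˢ A).filter fun p => 3 * p.2 - 2 * p.1 ∈ A) (fun p => p.1 ≠ p.2),
    Finset.filter_filter, Finset.filter_filter]
  congr 2
  · refine Finset.filter_congr fun p _ => ?_
    tauto
  · refine Finset.filter_congr fun p _ => ?_
    tauto

theorem TT_le (A : Finset ℤ) : TT A ≤ A.card * A.card :=
  (Finset.card_filter_le _ _).trans (Finset.card_product _ _).le

theorem bdd (n : ℕ) : BddAbove {t : ℕ | ∃ A : Finset ℤ, A.card = n ∧ TT A = t} := by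
  refine ⟨n * n, ?_⟩
  rintro t ⟨A, hA, rfl⟩
  rw [← hA]
  exact TT_le A

theorem Mx_mem (n : ℕ) : ∃ A : Finset ℤ, A.card = n ∧ TT A = Mx n := by
  classical
  have hne : {t : ℕ | ∃ A : Finset ℤ, A.card = n ∧ TT A = t}.Nonempty :=
    ⟨_, (Finset.range n).image fun i : ℕ => (i : ℤ), by
      rw [Finset.card_image_of_injective _ Nat.cast_injective, Finset.card_range], rfl⟩
  exact Nat.sSup_mem hne (bdd n)

theorem le_Mx {A : Finset ℤ} {n : ℕ} (h : A.card = n) : TT A ≤ Mx n := le_csSup (bdd n) ⟨A, h, rfl⟩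

theorem Mx_le_of {n : ℕ} (h : ∀ A : Finset ℤ, (T0 A : ℝ) ≤ 1 / 3 * (A.card : ℝ) ^ 2 + 14 * A.card) :
    (Mx n : ℝ) ≤ (n : ℝ) ^ 2 / 3 + 13 * n := by
  obtain ⟨A, hA, hM⟩ := Mx_mem n
  have h1 := TT_add A
  have h2 := h A
  have h3 : (TT A : ℝ) + A.card = T0 A := by exact_mod_cast h1
  rw [← hM]
  rw [hA] at h2 h3
  linarith

theorem T0_interval (n : ℕ) :
    (n : ℝ) ^ 2 / 3 ≤ T0 ((Finset.range n).image fun i : ℕ => (i : ℤ)) := by
  classical
  set U : Finset ℤ := (Finset.range n).image fun i : ℕ => (i : ℤ) with hU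
  have hmem : ∀ x : ℤ, x ∈ U ↔ 0 ≤ x ∧ x < n := by
    intro x
    rw [hU, Finset.mem_image]
    constructor
    · rintro ⟨i, hi, rfl⟩
      have := Finset.mem_range.1 hi
      omega
    · rintro ⟨h1, h2⟩
      exact ⟨x.toNat, Finset.mem_range.2 (by omega), by omega⟩
  have hcard : U.card = n := by
    rw [hU, Finset.card_image_of_injective _ Nat.cast_injective, Finset.card_range]
  have h1 : ∑ x ∈ U, ∑ z ∈ U, (if (z - x) % 3 = 0 then (1 : ℝ) else 0) ≤
      ∑ x ∈ U, ∑ z ∈ U, (if 2 * x + z ∈ tri U then (1 : ℝ) else 0) := by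
    refine Finset.sum_le_sum fun x hx => Finset.sum_le_sum fun z hz => ?_
    have hx' := (hmem x).1 hx
    have hz' := (hmem z).1 hz
    by_cases h : (z - x) % 3 = 0
    · have h2 : 2 * x + z ∈ tri U := mem_tri.2 ⟨(2 * x + z) / 3, (hmem _).2 (by omega), by omega⟩
      rw [if_pos h, if_pos h2]
    · rw [if_neg h]
      split_ifs <;> norm_num
  rw [cols_pairs, ← Q2_sum, tri_count] at h1
  have h2 : (n : ℝ) = co (m12 U) 0 + co (m12 U) 1 + co (m12 U) 2 := by
    have h3 := card_eq_cols U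
    have h4 : (U.card : ℝ) = (U.filter fun x => x % 3 = 0).card +
        (U.filter fun x => x % 3 = 1).card + (U.filter fun x => x % 3 = 2).card := by
      exact_mod_cast h3
    have c0 := card_colj U (j := 0) (by norm_num)
    have c1 := card_colj U (j := 1) (by norm_num)
    have c2 := card_colj U (j := 2) (by norm_num)
    push_cast at c0 c1 c2
    rw [c0, c1, c2, hcard] at h4
    exact h4
  rw [h2]
  nlinarith [sq_nonneg (co (m12 U) 0 - co (m12 U) 1), sq_nonneg (co (m12 U) 1 - co (m12 U) 2),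
    sq_nonneg (co (m12 U) 0 - co (m12 U) 2)]

theorem le_Mx_real (n : ℕ) : (n : ℝ) ^ 2 / 3 - n ≤ Mx n := by
  classical
  set U : Finset ℤ := (Finset.range n).image fun i : ℕ => (i : ℤ) with hU
  have hcard : U.card = n := by
    rw [hU, Finset.card_image_of_injective _ Nat.cast_injective, Finset.card_range]
  have h1 := T0_interval n
  rw [← hU] at h1
  have h2 : (TT U : ℝ) + U.card = T0 U := by exact_mod_cast TT_add U
  have h3 : (TT U : ℝ) ≤ Mx n := by exact_mod_cast le_Mx hcard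
  rw [hcard] at h2
  linarith

/-- The limit. -/
theorem tendsto_of (h : ∀ A : Finset ℤ, (T0 A : ℝ) ≤ 1 / 3 * (A.card : ℝ) ^ 2 + 14 * A.card) :
    Tendsto (fun n : ℕ => (Mx n : ℝ) / (n : ℝ) ^ 2) atTop (nhds (1 / 3)) := by
  have hl : Tendsto (fun n : ℕ => 1 / 3 - 1 * ((n : ℝ))⁻¹) atTop (nhds (1 / 3 - 1 * 0)) :=
    tendsto_const_nhds.sub (tendsto_inv_atTop_nhds_zero_nat.const_mul 1)
  have hr : Tendsto (fun n : ℕ => 1 / 3 + 13 * ((n : ℝ))⁻¹) atTop (nhds (1 / 3 + 13 * 0)) :=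
    tendsto_const_nhds.add (tendsto_inv_atTop_nhds_zero_nat.const_mul 13)
  rw [mul_zero, sub_zero] at hl
  rw [mul_zero, add_zero] at hr
  refine tendsto_of_tendsto_of_tendsto_of_le_of_le' hl hr ?_ ?_
  · filter_upwards [eventually_gt_atTop 0] with n hn
    have hn' : (0 : ℝ) < n := by exact_mod_cast hn
    rw [le_div_iff₀ (by positivity)]
    have h1 := le_Mx_real n
    have h2 : (1 / 3 - 1 * ((n : ℝ))⁻¹) * (n : ℝ) ^ 2 = (n : ℝ) ^ 2 / 3 - n := by
      field_simp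
    rw [h2]
    exact h1
  · filter_upwards [eventually_gt_atTop 0] with n hn
    have hn' : (0 : ℝ) < n := by exact_mod_cast hn
    rw [div_le_iff₀ (by positivity)]
    have h1 := Mx_le_of (n := n) h
    have h2 : (1 / 3 + 13 * ((n : ℝ))⁻¹) * (n : ℝ) ^ 2 = (n : ℝ) ^ 2 / 3 + 13 * n := by
      field_simp
    rw [h2]
    exact h1

/-- Everything, from the twelve variable inequality. -/
theorem final_of_FI12 (hF : FI12) :
    (∀ n : ℕ, (n : ℝ) ^ 2 / 3 - n ≤ Mx n ∧ (Mx n : ℝ) ≤ (n : ℝ) ^ 2 / 3 + 13 * n) ∧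
      limsup (fun n : ℕ => (Mx n : ℝ) / (n : ℝ) ^ 2) atTop = 1 / 3 :=
  ⟨fun n => ⟨le_Mx_real n, Mx_le_of (T0_le_12 hF)⟩, (tendsto_of (T0_le_12 hF)).limsup_eq⟩

end Aff
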