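import Pool.Agent.helper94.Aff.Chk
import Pool.Agent.helper94.Aff.Pair9

/-!
# Affine copies of {0,1,3}: from the checked inequality to the final bound
-/

open Finset Filter

namespace Aff

namespace Chk

/-- Joint bound with even targets. -/
theorem okC_four_even {a W : ℕ → ℝ} {C : ℕ → ℕ → ℝ} (h : okC a W C) {p p' q q' : ℕ} (hp : p < 6)
    (hp' : p' < 6) (hnp : p ≠ p')
    (hq : q < 12) (hq' : q' < 12) (hne : q ≠ q') (h1 : (q + 2 * p) % 3 = 1)
    (h1' : (q' + 2 * p) % 3 = 1) (h1p : (q + 2 * p') % 3 = 1)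
    (h1p' : (q' + 2 * p') % 3 = 1)
    (h2 : (2 * p + q) % 4 = 0 ∨ (2 * p + q) % 4 = 2)
    (h2' : (2 * p + q') % 4 = 0 ∨ (2 * p + q') % 4 = 2)
    (h2p : (2 * p' + q) % 4 = 0 ∨ (2 * p' + q) % 4 = 2)
    (h2p' : (2 * p' + q') % 4 = 0 ∨ (2 * p' + q') % 4 = 2) :
    C p q + C p q' + C p' q + C p' q' ≤ P (xx a p + xx a p') (a q + a q') (W 0 + W 2) := by
  classical
  have h3 := h {p, p'} {q, q'} {0, 2} (by
      intro x hx
      simp only [Finset.mem_insert, Finset.mem_singleton] at hx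
      rcases hx with rfl | rfl
      · simpa using hp
      · simpa using hp') (by
      intro x hx
      simp only [Finset.mem_insert, Finset.mem_singleton] at hx
      rcases hx with rfl | rfl
      · simpa using hq
      · simpa using hq')
    (by decide) (by
      intro s hs r hr
      simp only [Finset.mem_insert, Finset.mem_singleton] at hs hr ⊢
      rcases hs with rfl | rfl
      · rcases hr with rfl | rfl
        · exact ⟨h1, h2⟩
        · exact ⟨h1', h2'⟩
      · rcases hr with rfl | rfl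
        · exact ⟨h1p, h2p⟩
        · exact ⟨h1p', h2p'⟩)
  rw [Finset.sum_pair hnp, Finset.sum_pair hne, Finset.sum_pair hne, Finset.sum_pair hnp,
    Finset.sum_pair hne, Finset.sum_pair (by norm_num : (0 : ℕ) ≠ 2)] at h3
  linarith

/-- Counts of column 0. -/
noncomputable def mkE0 {a W : ℕ → ℝ} {C : ℕ → ℕ → ℝ} (hC : okC a W C) :
    CntE (a 0 + a 6) (a 4) (a 10) (a 3 + a 9) (W 0) (W 2) where
  ea := C 0 4
  eb := C 0 10
  ma := C 3 4
  mb := C 3 10
  hea := okC_one hC (p := 0) (q := 4) (k := 0) (by norm_num) (by norm_num) (by norm_num)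
    (by norm_num)
  heb := okC_one hC (p := 0) (q := 10) (k := 2) (by norm_num) (by norm_num) (by norm_num)
    (by norm_num)
  hma := okC_one hC (p := 3) (q := 4) (k := 2) (by norm_num) (by norm_num) (by norm_num)
    (by norm_num)
  hmb := okC_one hC (p := 3) (q := 10) (k := 0) (by norm_num) (by norm_num) (by norm_num)
    (by norm_num)
  hj := okC_four_even hC (p := 0) (p' := 3) (q := 4) (q' := 10) (by norm_num) (by norm_num)
    (by norm_num) (by norm_num) (by norm_num) (by norm_num) (by norm_num) (by norm_num)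
    (by norm_num) (by norm_num) (by norm_num) (by norm_num) (by norm_num) (by norm_num)

/-- Counts of column 1. -/
noncomputable def mkE1 {a W : ℕ → ℝ} {C : ℕ → ℕ → ℝ} (hC : okC a W C) :
    CntE (a 4 + a 10) (a 8) (a 2) (a 1 + a 7) (W 0) (W 2) where
  ea := C 4 8
  eb := C 4 2
  ma := C 1 8
  mb := C 1 2
  hea := okC_one hC (p := 4) (q := 8) (k := 0) (by norm_num) (by norm_num) (by norm_num)
    (by norm_num)
  heb := okC_one hC (p := 4) (q := 2) (k := 2) (by norm_num) (by norm_num) (by norm_num)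
    (by norm_num)
  hma := okC_one hC (p := 1) (q := 8) (k := 2) (by norm_num) (by norm_num) (by norm_num)
    (by norm_num)
  hmb := okC_one hC (p := 1) (q := 2) (k := 0) (by norm_num) (by norm_num) (by norm_num)
    (by norm_num)
  hj := okC_four_even hC (p := 4) (p' := 1) (q := 8) (q' := 2) (by norm_num) (by norm_num)
    (by norm_num) (by norm_num) (by norm_num) (by norm_num) (by norm_num) (by norm_num)
    (by norm_num) (by norm_num) (by norm_num) (by norm_num) (by norm_num) (by norm_num)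

/-- Counts of column 2. -/
noncomputable def mkE2 {a W : ℕ → ℝ} {C : ℕ → ℕ → ℝ} (hC : okC a W C) :
    CntE (a 8 + a 2) (a 0) (a 6) (a 5 + a 11) (W 0) (W 2) where
  ea := C 2 0
  eb := C 2 6
  ma := C 5 0
  mb := C 5 6
  hea := by
    have h := okC_one hC (p := 2) (q := 0) (k := 0) (by norm_num) (by norm_num) (by norm_num)
      (by norm_num)
    rwa [xx_two] at h
  heb := by
    have h := okC_one hC (p := 2) (q := 6) (k := 2) (by norm_num) (by norm_num) (by norm_num)
      (by norm_num)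
    rwa [xx_two] at h
  hma := okC_one hC (p := 5) (q := 0) (k := 2) (by norm_num) (by norm_num) (by norm_num)
    (by norm_num)
  hmb := okC_one hC (p := 5) (q := 6) (k := 0) (by norm_num) (by norm_num) (by norm_num)
    (by norm_num)
  hj := by
    have h := okC_four_even hC (p := 2) (p' := 5) (q := 0) (q' := 6) (by norm_num) (by norm_num)
      (by norm_num) (by norm_num) (by norm_num) (by norm_num) (by norm_num) (by norm_num)
      (by norm_num) (by norm_num) (by norm_num) (by norm_num) (by norm_num) (by norm_num)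
    rwa [xx_two] at h

/-- Odd counts of column 0. -/
noncomputable def mkO0 {a W : ℕ → ℝ} {C : ℕ → ℕ → ℝ} (hC : okC a W C) :
    CntO (a 0 + a 6) (a 3 + a 9) (a 1 + a 7) (W 1 + W 3) where
  f := C 0 1 + C 0 7
  g := C 3 1 + C 3 7
  hf := okC_two hC (p := 0) (q := 1) (q' := 7) (by norm_num) (by norm_num) (by norm_num)
    (by norm_num) (by norm_num) (by norm_num) (by norm_num) (by norm_num)
  hg := okC_two hC (p := 3) (q := 1) (q' := 7) (by norm_num) (by norm_num) (by norm_num)
    (by norm_num) (by norm_num) (by norm_num) (by norm_num) (by norm_num)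
  hj := by
    have h := okC_four hC (p := 0) (p' := 3) (q := 1) (q' := 7) (by norm_num) (by norm_num)
      (by norm_num) (by norm_num) (by norm_num) (by norm_num) (by norm_num) (by norm_num)
      (by norm_num) (by norm_num) (by norm_num) (by norm_num) (by norm_num) (by norm_num)
    rw [← add_assoc]
    exact h

/-- Odd counts of column 1. -/
noncomputable def mkO1 {a W : ℕ → ℝ} {C : ℕ → ℕ → ℝ} (hC : okC a W C) :
    CntO (a 4 + a 10) (a 1 + a 7) (a 5 + a 11) (W 1 + W 3) where
  f := C 4 5 + C 4 11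
  g := C 1 5 + C 1 11
  hf := okC_two hC (p := 4) (q := 5) (q' := 11) (by norm_num) (by norm_num) (by norm_num)
    (by norm_num) (by norm_num) (by norm_num) (by norm_num) (by norm_num)
  hg := okC_two hC (p := 1) (q := 5) (q' := 11) (by norm_num) (by norm_num) (by norm_num)
    (by norm_num) (by norm_num) (by norm_num) (by norm_num) (by norm_num)
  hj := by
    have h := okC_four hC (p := 4) (p' := 1) (q := 5) (q' := 11) (by norm_num) (by norm_num)
      (by norm_num) (by norm_num) (by norm_num) (by norm_num) (by norm_num) (by norm_num)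
      (by norm_num) (by norm_num) (by norm_num) (by norm_num) (by norm_num) (by norm_num)
    rw [← add_assoc]
    exact h

/-- Odd counts of column 2. -/
noncomputable def mkO2 {a W : ℕ → ℝ} {C : ℕ → ℕ → ℝ} (hC : okC a W C) :
    CntO (a 8 + a 2) (a 5 + a 11) (a 3 + a 9) (W 1 + W 3) where
  f := C 2 3 + C 2 9
  g := C 5 3 + C 5 9
  hf := by
    have h := okC_two hC (p := 2) (q := 3) (q' := 9) (by norm_num) (by norm_num) (by norm_num)
      (by norm_num) (by norm_num) (by norm_num) (by norm_num) (by norm_num)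
    rwa [xx_two] at h
  hg := okC_two hC (p := 5) (q := 3) (q' := 9) (by norm_num) (by norm_num) (by norm_num)
    (by norm_num) (by norm_num) (by norm_num) (by norm_num) (by norm_num)
  hj := by
    have h := okC_four hC (p := 2) (p' := 5) (q := 3) (q' := 9) (by norm_num) (by norm_num)
      (by norm_num) (by norm_num) (by norm_num) (by norm_num) (by norm_num) (by norm_num)
      (by norm_num) (by norm_num) (by norm_num) (by norm_num) (by norm_num) (by norm_num)
    rw [xx_two] at h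
    rw [← add_assoc]
    exact h

/-- Algebra of the five alternatives. -/
theorem fin_alg {e o W v EO D CE' CO' M F G cM dM mE mO Wt : ℝ} (hWt : Wt = W + v)
    (hE1 : 1 / 3 * (e - W) ^ 2 ≤ mE) (hE2 : 1 / 3 * e ^ 2 - CE' ≤ mE)
    (hO1 : 1 / 3 * (o - v) ^ 2 ≤ mO) (hO2 : 1 / 3 * o ^ 2 - CO' ≤ mO)
    (hcO : CO' = G) (hcM : cM = M + F) (hdM : dM ≤ EO + D)
    (h : Concl e o W v EO D CE' M F G) :
    0 ≤ mE + mO + e * o - cM - 1 / 2 * dM - 1 / 3 * (e + o - Wt) ^ 2 ∨
      0 ≤ 1 / 3 * (e + o) ^ 2 - (CE' + CO' + cM) - 1 / 3 * (e + o - Wt) ^ 2 := by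
  subst hWt hcO hcM
  rcases h with h | h | h | h | h
  · left; nlinarith only [h, hE1, hO1, hdM]
  · right; nlinarith only [h]
  · left; nlinarith only [h, hE2, hO1, hdM]
  · left; nlinarith only [h, hE1, hO2, hdM]
  · left; nlinarith only [h, hE2, hO2, hdM]

theorem bd_DE {a : ℕ → ℝ} {D : ℕ → ℕ → ℝ} (ha : ∀ q, 0 ≤ a q) (hD : okD a D) :
    D 3 0 + D 3 6 + D 1 4 + D 1 10 + D 5 8 + D 5 2 ≤
      (a 0 + a 6) * (a 3 + a 9) + (a 4 + a 10) * (a 1 + a 7) + (a 8 + a 2) * (a 5 + a 11) := by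
  have d30 := bd_D1 ha hD (p := 3) (q := 0) (by norm_num) (by norm_num) (by norm_num)
  have d36 := bd_D1 ha hD (p := 3) (q := 6) (by norm_num) (by norm_num) (by norm_num)
  have d14 := bd_D1 ha hD (p := 1) (q := 4) (by norm_num) (by norm_num) (by norm_num)
  have d110 := bd_D1 ha hD (p := 1) (q := 10) (by norm_num) (by norm_num) (by norm_num)
  have d58 := bd_D1 ha hD (p := 5) (q := 8) (by norm_num) (by norm_num) (by norm_num)
  have d52 := bd_D1 ha hD (p := 5) (q := 2) (by norm_num) (by norm_num) (by norm_num)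
  refine (add_le_add (add_le_add (add_le_add (add_le_add (add_le_add d30 d36) d14) d110) d58)
    d52).trans (le_of_eq ?_)
  unfold xx
  ring

theorem FIc_of_goal (hF : GoalAll) : FIc Nm0 := by
  intro a W C D ha hW hC0 hD0 hNm hE hO hwlt hcols hC hD
  obtain ⟨hoe, hBA⟩ := hNm
  have hmix := mixed_nonneg ha hW hC hD
  have hmaxE1 := le_max_left (1 / 3 * (max (evn a - (W 0 + W 2)) 0) ^ 2) (1 / 3 * evn a ^ 2 - CE C)
  have hmaxE2 := le_max_right (1 / 3 * (max (evn a - (W 0 + W 2)) 0) ^ 2) (1 / 3 * evn a ^ 2 - CE C)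
  have hmaxO1 := le_max_left (1 / 3 * (max (od a - (W 1 + W 3)) 0) ^ 2) (1 / 3 * od a ^ 2 - CO C)
  have hmaxO2 := le_max_right (1 / 3 * (max (od a - (W 1 + W 3)) 0) ^ 2) (1 / 3 * od a ^ 2 - CO C)
  have hwt : wt W = W 0 + W 2 + (W 1 + W 3) := by unfold wt; ring
  rcases lt_or_ge (od a) (W 1 + W 3) with hv | hv
  · -- the odd part of `W` is large
    left
    unfold S24
    rw [hwt] at hwlt ⊢
    have h1 : 0 < evn a - (W 0 + W 2) := by linarith only [hwlt, hv]
    rw [max_eq_left h1.le] at hmaxE1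
    have h2 : 0 ≤ 1 / 3 * (max (od a - (W 1 + W 3)) 0) ^ 2 := by positivity
    have h3 := sq_le_of_lt (s := evn a + od a - (W 0 + W 2 + (W 1 + W 3)))
      (r := evn a - (W 0 + W 2)) (by linarith only [hwlt]) (by linarith only [hv])
    rw [max_eq_left h1.le]
    linarith only [h3, h2, hmaxE1, hmaxO1, hmix]
  rcases lt_or_ge (evn a) (W 0 + W 2) with hv' | hv'
  · left
    unfold S24
    rw [hwt] at hwlt ⊢
    have h1 : 0 < od a - (W 1 + W 3) := by linarith only [hwlt, hv']
    rw [max_eq_left h1.le] at hmaxO1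
    have h2 : 0 ≤ 1 / 3 * (max (evn a - (W 0 + W 2)) 0) ^ 2 := by positivity
    have h3 := sq_le_of_lt (s := evn a + od a - (W 0 + W 2 + (W 1 + W 3)))
      (r := od a - (W 1 + W 3)) (by linarith only [hwlt]) (by linarith only [hv'])
    rw [max_eq_left h1.le]
    linarith only [h3, h2, hmaxE1, hmaxO1, hmix]
  -- main case
  have eE : evn a = a 0 + a 4 + a 8 + a 6 + a 10 + a 2 := by
    unfold evn u4
    norm_num
    ring
  have eO : od a = (a 3 + a 9) + (a 1 + a 7) + (a 5 + a 11) := by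
    unfold od u4
    norm_num
    ring
  have hBA' : a 6 + a 10 + a 2 ≤ a 0 + a 4 + a 8 := by
    unfold u4 at hBA
    norm_num at hBA
    linarith only [hBA]
  have hDO := bd_DO ha hD
  have hDE := bd_DE ha hD
  have hfin := hF (a 0) (a 4) (a 8) (a 6) (a 10) (a 2) (a 3 + a 9) (a 1 + a 7) (a 5 + a 11)
    (W 0) (W 2) (W 1 + W 3) (ha _) (ha _) (ha _) (ha _) (ha _) (ha _)
    (add_nonneg (ha _) (ha _)) (add_nonneg (ha _) (ha _)) (add_nonneg (ha _) (ha _))
    (hW _) (hW _) (add_nonneg (hW _) (hW _))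
    (by rw [← eE, ← eO]; exact hoe) (by rw [← eE]; exact hv') (by rw [← eO]; exact hv) hBA'
    (mkE0 hC) (mkE1 hC) (mkE2 hC) (mkO0 hC) (mkO1 hC) (mkO2 hC)
    (D 0 3 + D 0 9 + D 4 1 + D 4 7 + D 2 5 + D 2 11) (hDO.trans (min_le_left _ _))
    (hDO.trans (min_le_right _ _))
  simp only [mkE0, mkE1, mkE2, mkO0, mkO1, mkO2] at hfin
  have hE0 : 0 ≤ evn a - (W 0 + W 2) := by linarith only [hv']
  have hO0 : 0 ≤ od a - (W 1 + W 3) := by linarith only [hv]
  rw [max_eq_left hE0] at hmaxE1 hmaxE2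
  rw [max_eq_left hO0] at hmaxO1 hmaxO2
  rw [← eE, ← eO] at hfin
  have eCE : C 0 4 + C 0 10 + (C 4 8 + C 4 2) + (C 2 0 + C 2 6) = CE C := by
    rw [CE_expand]
    ring
  have eCO : C 3 1 + C 3 7 + (C 1 5 + C 1 11) + (C 5 3 + C 5 9) = CO C := by
    rw [CO_expand]
    ring
  rw [eCE, eCO] at hfin
  unfold S24 S3c
  rw [max_eq_left hE0, max_eq_left hO0]
  refine fin_alg hwt hmaxE1 hmaxE2 hmaxO1 hmaxO2 rfl ?_ ?_ hfin
  · rw [CM_expand]
    ring
  · rw [DM_expand]
    exact add_le_add hDE le_rfl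

/-- Everything, from the checked inequality. -/
theorem final_of_goal (hF : GoalAll) :
    (∀ n : ℕ, (n : ℝ) ^ 2 / 3 - n ≤ Mx n ∧ (Mx n : ℝ) ≤ (n : ℝ) ^ 2 / 3 + 13 * n) ∧
      limsup (fun n : ℕ => (Mx n : ℝ) / (n : ℝ) ^ 2) atTop = 1 / 3 :=
  ⟨fun n => ⟨le_Mx_real n, Mx_le_of (T0_le_Nm0 (FIc_of_goal hF))⟩,
    (tendsto_of (T0_le_Nm0 (FIc_of_goal hF))).limsup_eq⟩

end Chk

end Aff
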