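import Pool.Agent.helper94.Aff.Pollard

/-!
# Affine copies of {0,1,3}: class sums and the strong induction
-/

open Finset

namespace Aff

/-- Number of ordered pairs `(x, y) ∈ A × A` with `3 y - 2 x ∈ A` (including `x = y`). -/
def T0 (A : Finset ℤ) : ℕ := N A A A

/-- The part of `A` in the class of `r` modulo `m`. -/
def cls (m : ℕ) (A : Finset ℤ) (r : ℕ) : Finset ℤ := A.filter fun x => x % (m : ℤ) = r

theorem mem_cls {m : ℕ} {A : Finset ℤ} {r : ℕ} {x : ℤ} :
    x ∈ cls m A r ↔ x ∈ A ∧ x % (m : ℤ) = r := Finset.mem_filter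

/-- Class masses modulo 36. -/
noncomputable def ww (A : Finset ℤ) (q : ℕ) : ℝ := (cls 36 A q).card

theorem ww_nonneg (A : Finset ℤ) (q : ℕ) : 0 ≤ ww A q := Nat.cast_nonneg _

/-- Mass modulo 18. -/
def al (w : ℕ → ℝ) (r : ℕ) : ℝ := w r + w (r + 18)

/-- Mass modulo 12. -/
def be (w : ℕ → ℝ) (s : ℕ) : ℝ := w s + w (s + 12) + w (s + 24)

theorem card_cls18 (A : Finset ℤ) {r : ℕ} (hr : r < 18) :
    ((cls 18 A r).card : ℝ) = al (ww A) r := by
  classical
  have h : cls 18 A r = cls 36 A r ∪ cls 36 A (r + 18) := by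
    ext x
    simp only [mem_cls, Finset.mem_union]
    push_cast
    constructor
    · rintro ⟨h1, h2⟩
      have : x % 36 = r ∨ x % 36 = r + 18 := by omega
      tauto
    · rintro (⟨h1, h2⟩ | ⟨h1, h2⟩)
      · exact ⟨h1, by omega⟩
      · exact ⟨h1, by omega⟩
  have hd : Disjoint (cls 36 A r) (cls 36 A (r + 18)) := by
    rw [Finset.disjoint_left]
    intro x h1 h2
    have h1' := (mem_cls.1 h1).2
    have h2' := (mem_cls.1 h2).2
    push_cast at h1' h2'
    omega
  rw [h, Finset.card_union_of_disjoint hd]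
  simp only [al, ww]
  push_cast
  ring

theorem card_cls12 (A : Finset ℤ) {s : ℕ} (hs : s < 12) :
    ((cls 12 A s).card : ℝ) = be (ww A) s := by
  classical
  have h : cls 12 A s = (cls 36 A s ∪ cls 36 A (s + 12)) ∪ cls 36 A (s + 24) := by
    ext x
    simp only [mem_cls, Finset.mem_union]
    push_cast
    constructor
    · rintro ⟨h1, h2⟩
      have : x % 36 = s ∨ x % 36 = s + 12 ∨ x % 36 = s + 24 := by omega
      tauto
    · rintro ((⟨h1, h2⟩ | ⟨h1, h2⟩) | ⟨h1, h2⟩)
      · exact ⟨h1, by omega⟩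
      · exact ⟨h1, by omega⟩
      · exact ⟨h1, by omega⟩
  have hd1 : Disjoint (cls 36 A s) (cls 36 A (s + 12)) := by
    rw [Finset.disjoint_left]
    intro x h1 h2
    have h1' := (mem_cls.1 h1).2
    have h2' := (mem_cls.1 h2).2
    push_cast at h1' h2'
    omega
  have hd2 : Disjoint (cls 36 A s ∪ cls 36 A (s + 12)) (cls 36 A (s + 24)) := by
    rw [Finset.disjoint_left]
    intro x h1 h2
    have h2' := (mem_cls.1 h2).2
    rcases Finset.mem_union.1 h1 with h1 | h1
    · have h1' := (mem_cls.1 h1).2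
      push_cast at h1' h2'
      omega
    · have h1' := (mem_cls.1 h1).2
      push_cast at h1' h2'
      omega
  rw [h, Finset.card_union_of_disjoint hd2, Finset.card_union_of_disjoint hd1]
  simp only [be, ww]
  push_cast
  ring

theorem res_lt (m : ℕ) (hm : 0 < m) (x : ℤ) : (x % (m : ℤ)).toNat < m := by
  have h1 := Int.emod_nonneg x (by omega : (m : ℤ) ≠ 0)
  have h2 := Int.emod_lt_of_pos x (by omega : (0 : ℤ) < m)
  omega

theorem res_cast (m : ℕ) (hm : 0 < m) (x : ℤ) : ((x % (m : ℤ)).toNat : ℤ) = x % (m : ℤ) := by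
  have h1 := Int.emod_nonneg x (by omega : (m : ℤ) ≠ 0)
  omega

theorem sum_ww_filter (A : Finset ℤ) (p : ℕ → Prop) [DecidablePred p] :
    ((A.filter fun x => p (x % 36).toNat).card : ℝ) =
      ∑ q ∈ range 36, if p q then ww A q else 0 := by
  classical
  have h := Finset.card_eq_sum_card_fiberwise (s := A.filter fun x => p (x % 36).toNat)
    (f := fun x => (x % 36).toNat) (t := range 36)
    (fun x _ => Finset.mem_coe.2 (Finset.mem_range.2 (res_lt 36 (by norm_num) x)))
  rw [h]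
  push_cast
  refine Finset.sum_congr rfl fun q hq => ?_
  split_ifs with hpq
  · simp only [ww]
    congr 1
    refine congrArg Finset.card ?_
    ext x
    simp only [Finset.mem_filter, mem_cls]
    constructor
    · rintro ⟨⟨h1, h2⟩, h3⟩
      refine ⟨h1, ?_⟩
      push_cast
      omega
    · rintro ⟨h1, h2⟩
      push_cast at h2
      have h3 : (x % 36).toNat = q := by omega
      exact ⟨⟨h1, by rw [h3]; exact hpq⟩, h3⟩
  · have : ((A.filter fun x => p (x % 36).toNat).filter fun x => (x % 36).toNat = q) = ∅ := by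
      rw [Finset.filter_eq_empty_iff]
      intro x hx hxq
      exact hpq (hxq ▸ (Finset.mem_filter.1 hx).2)
    simp [this]

theorem card_eq_sum_ww (A : Finset ℤ) : (A.card : ℝ) = ∑ q ∈ range 36, ww A q := by
  have := sum_ww_filter A (fun _ => True)
  simpa using this

/-! ### Colourings of the classes modulo 6 -/

/-- Colour of an integer. -/
def col (f : ℕ → Fin 6) (x : ℤ) : Fin 6 := f (x % 6).toNat

/-- The triple class `(r, s)` is monochromatic. -/
def Mono (f : ℕ → Fin 6) (r s : ℕ) : Prop :=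
  f (r % 6) = f (s % 6) ∧ f (r % 6) = f ((3 * s + 34 * r) % 36 % 6)

instance (f : ℕ → Fin 6) (r s : ℕ) : Decidable (Mono f r s) := by unfold Mono; infer_instance

/-- Pollard bound for the non monochromatic triples. -/
noncomputable def cross (w : ℕ → ℝ) (f : ℕ → Fin 6) : ℝ :=
  ∑ r ∈ range 18, ∑ s ∈ range 12,
    if Mono f r s then 0 else P (al w r) (be w s) (w ((3 * s + 34 * r) % 36))

theorem class_z {x y : ℤ} {r s : ℕ} (hx : x % 18 = r) (hy : y % 12 = s) :
    (3 * y - 2 * x) % 36 = ((3 * s + 34 * r) % 36 : ℕ) := by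
  push_cast
  omega

theorem N_mono {X Y Z X' Y' Z' : Finset ℤ} (hX : X ⊆ X') (hY : Y ⊆ Y') (hZ : Z ⊆ Z') :
    N X Y Z ≤ N X' Y' Z' := by
  refine Finset.card_le_card fun p hp => ?_
  obtain ⟨h1, h2⟩ := Finset.mem_filter.1 hp
  obtain ⟨h3, h4⟩ := Finset.mem_product.1 h1
  exact Finset.mem_filter.2 ⟨Finset.mem_product.2 ⟨hX h3, hY h4⟩, hZ h2⟩

theorem T0_le_cross (A : Finset ℤ) (f : ℕ → Fin 6) :
    (T0 A : ℝ) ≤ ∑ B : Fin 6, (T0 (A.filter fun x => col f x = B) : ℝ) + cross (ww A) f + 54 := by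
  classical
  set F := (A ×ˢ A).filter fun p => 3 * p.2 - 2 * p.1 ∈ A with hF
  have hT : T0 A = F.card := rfl
  set mono : ℤ × ℤ → Prop := fun p => col f p.1 = col f p.2 ∧
    col f p.1 = col f (3 * p.2 - 2 * p.1) with hmono
  have hsplit : (F.filter mono).card + (F.filter fun p => ¬ mono p).card = F.card :=
    Finset.card_filter_add_card_filter_not (s := F) mono
  have h1 : (F.filter mono).card ≤ ∑ B : Fin 6, T0 (A.filter fun x => col f x = B) := by
    rw [Finset.card_eq_sum_card_fiberwise (s := F.filter mono) (f := fun p => col f p.1)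
      (t := Finset.univ) (fun _ _ => Finset.mem_coe.2 (Finset.mem_univ _))]
    refine Finset.sum_le_sum fun B _ => Finset.card_le_card fun p hp => ?_
    obtain ⟨h1, h2⟩ := Finset.mem_filter.1 hp
    obtain ⟨h3, h4, h5⟩ := Finset.mem_filter.1 h1
    obtain ⟨h6, h7⟩ := Finset.mem_filter.1 h3
    obtain ⟨h8, h9⟩ := Finset.mem_product.1 h6
    refine Finset.mem_filter.2 ⟨Finset.mem_product.2 ⟨Finset.mem_filter.2 ⟨h8, h2⟩,
      Finset.mem_filter.2 ⟨h9, ?_⟩⟩, Finset.mem_filter.2 ⟨h7, ?_⟩⟩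
    · rw [← h4]; exact h2
    · rw [← h5]; exact h2
  have h2 : (F.filter fun p => ¬ mono p).card ≤ ∑ r ∈ range 18, ∑ s ∈ range 12,
      if Mono f r s then 0 else N (cls 18 A r) (cls 12 A s) (cls 36 A ((3 * s + 34 * r) % 36)) := by
    rw [← Finset.sum_product', Finset.card_eq_sum_card_fiberwise
      (s := F.filter fun p => ¬ mono p)
      (f := fun p => ((p.1 % 18).toNat, (p.2 % 12).toNat)) (t := range 18 ×ˢ range 12)
      (fun p _ => Finset.mem_coe.2 (Finset.mem_product.2
        ⟨Finset.mem_range.2 (res_lt 18 (by norm_num) _),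
          Finset.mem_range.2 (res_lt 12 (by norm_num) _)⟩))]
    refine Finset.sum_le_sum fun q _ => ?_
    obtain ⟨r, s⟩ := q
    simp only
    split_ifs with hm
    · rw [Nat.le_zero, Finset.card_eq_zero, Finset.filter_eq_empty_iff]
      rintro ⟨x, y⟩ hp hq
      obtain ⟨h3, h4⟩ := Finset.mem_filter.1 hp
      apply h4
      simp only [Prod.mk.injEq] at hq
      obtain ⟨hr, hs⟩ := hq
      have hx : x % 18 = r := by omega
      have hy : y % 12 = s := by omega
      have hz := class_z hx hy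
      have e1 : (x % 6).toNat = r % 6 := by omega
      have e2 : (y % 6).toNat = s % 6 := by omega
      have e3 : ((3 * y - 2 * x) % 6).toNat = (3 * s + 34 * r) % 36 % 6 := by omega
      simp only [hmono, col, e1, e2, e3]
      exact hm
    · refine Finset.card_le_card ?_
      rintro ⟨x, y⟩ hp
      obtain ⟨h3, h4⟩ := Finset.mem_filter.1 hp
      obtain ⟨h5, h6⟩ := Finset.mem_filter.1 (Finset.mem_filter.1 h3).1
      obtain ⟨h7, h8⟩ := Finset.mem_product.1 h5
      simp only [Prod.mk.injEq] at h4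
      obtain ⟨hr, hs⟩ := h4
      have hx : x % 18 = r := by omega
      have hy : y % 12 = s := by omega
      exact Finset.mem_filter.2 ⟨Finset.mem_product.2 ⟨mem_cls.2 ⟨h7, by exact_mod_cast hx⟩,
        mem_cls.2 ⟨h8, by exact_mod_cast hy⟩⟩, mem_cls.2 ⟨h6, by exact_mod_cast class_z hx hy⟩⟩
  have h3 : ((F.filter fun p => ¬ mono p).card : ℝ) ≤ cross (ww A) f + 54 := by
    have h4 : ((F.filter fun p => ¬ mono p).card : ℝ) ≤ ((∑ r ∈ range 18, ∑ s ∈ range 12,
      if Mono f r s then 0 else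
        N (cls 18 A r) (cls 12 A s) (cls 36 A ((3 * s + 34 * r) % 36)) : ℕ) : ℝ) := by
      exact_mod_cast h2
    refine h4.trans ?_
    push_cast
    have h5 : ∀ r ∈ range 18, ∀ s ∈ range 12,
        (((if Mono f r s then 0 else
          N (cls 18 A r) (cls 12 A s) (cls 36 A ((3 * s + 34 * r) % 36)) : ℕ)) : ℝ) ≤
        (if Mono f r s then 0 else P (al (ww A) r) (be (ww A) s)
          (ww A ((3 * s + 34 * r) % 36))) + 1 / 4 := by
      intro r hr s hs
      split_ifs
      · norm_num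
      · have := N_le_P (cls 18 A r) (cls 12 A s) (cls 36 A ((3 * s + 34 * r) % 36))
        rw [card_cls18 A (Finset.mem_range.1 hr), card_cls12 A (Finset.mem_range.1 hs)] at this
        exact this
    push_cast at h5
    have h6 := Finset.sum_le_sum fun r hr => Finset.sum_le_sum fun s hs => h5 r hr s hs
    refine h6.trans ?_
    simp only [Finset.sum_add_distrib, cross]
    simp only [Finset.sum_const, Finset.card_range, nsmul_eq_mul]
    norm_num
  have h4 : ((F.filter mono).card : ℝ) ≤ ∑ B : Fin 6, (T0 (A.filter fun x => col f x = B) : ℝ) := by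
    exact_mod_cast h1
  rw [hT, ← hsplit]
  push_cast
  linarith

/-! ### Degrees -/

/-- Pollard bound for the triples with `x` in the class `q`. -/
noncomputable def dgx (w : ℕ → ℝ) (q : ℕ) : ℝ :=
  ∑ s ∈ range 12, P (w q) (be w s) (w ((3 * s + 34 * q) % 36))

/-- Pollard bound for the triples with `y` in the class `q`. -/
noncomputable def dgy (w : ℕ → ℝ) (q : ℕ) : ℝ :=
  ∑ r ∈ range 18, P (al w r) (w q) (w ((3 * q + 34 * r) % 36))

/-- Pollard bound for the triples with `3 y - 2 x` in the class `q`. -/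
noncomputable def dgz (w : ℕ → ℝ) (q : ℕ) : ℝ :=
  ∑ r ∈ range 18, ∑ s ∈ range 12,
    if (3 * s + 34 * r) % 36 = q then P (al w r) (be w s) (w q) else 0

theorem cntx (A : Finset ℤ) (q : ℕ) :
    (N (cls 36 A q) A A : ℝ) ≤ dgx (ww A) q + 3 := by
  classical
  set F := ((cls 36 A q) ×ˢ A).filter fun p => 3 * p.2 - 2 * p.1 ∈ A with hF
  have h1 : F.card ≤ ∑ s ∈ range 12, N (cls 36 A q) (cls 12 A s)
      (cls 36 A ((3 * s + 34 * q) % 36)) := by
    rw [Finset.card_eq_sum_card_fiberwise (s := F) (f := fun p => (p.2 % 12).toNat)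
      (t := range 12) (fun p _ => Finset.mem_coe.2
        (Finset.mem_range.2 (res_lt 12 (by norm_num) _)))]
    refine Finset.sum_le_sum fun s _ => Finset.card_le_card ?_
    rintro ⟨x, y⟩ hp
    obtain ⟨h3, h4⟩ := Finset.mem_filter.1 hp
    obtain ⟨h5, h6⟩ := Finset.mem_filter.1 h3
    obtain ⟨h7, h8⟩ := Finset.mem_product.1 h5
    simp only at h4 h6 h7 h8
    have hx := (mem_cls.1 h7).2
    push_cast at hx
    have hy : y % 12 = s := by omega
    refine Finset.mem_filter.2 ⟨Finset.mem_product.2 ⟨h7,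
      mem_cls.2 ⟨h8, by exact_mod_cast hy⟩⟩, mem_cls.2 ⟨h6, ?_⟩⟩
    push_cast
    omega
  have h2 : (N (cls 36 A q) A A : ℝ) ≤ ∑ s ∈ range 12, (N (cls 36 A q) (cls 12 A s)
      (cls 36 A ((3 * s + 34 * q) % 36)) : ℝ) := by exact_mod_cast h1
  refine h2.trans ?_
  have h3 : ∀ s ∈ range 12, (N (cls 36 A q) (cls 12 A s)
      (cls 36 A ((3 * s + 34 * q) % 36)) : ℝ) ≤
      P (ww A q) (be (ww A) s) (ww A ((3 * s + 34 * q) % 36)) + 1 / 4 := by
    intro s hs
    have := N_le_P (cls 36 A q) (cls 12 A s) (cls 36 A ((3 * s + 34 * q) % 36))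
    rw [card_cls12 A (Finset.mem_range.1 hs)] at this
    exact this
  refine (Finset.sum_le_sum h3).trans ?_
  simp only [Finset.sum_add_distrib, dgx, Finset.sum_const, Finset.card_range, nsmul_eq_mul]
  norm_num

theorem cnty (A : Finset ℤ) (q : ℕ) :
    (N A (cls 36 A q) A : ℝ) ≤ dgy (ww A) q + 9 / 2 := by
  classical
  set F := (A ×ˢ (cls 36 A q)).filter fun p => 3 * p.2 - 2 * p.1 ∈ A with hF
  have h1 : F.card ≤ ∑ r ∈ range 18, N (cls 18 A r) (cls 36 A q)
      (cls 36 A ((3 * q + 34 * r) % 36)) := by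
    rw [Finset.card_eq_sum_card_fiberwise (s := F) (f := fun p => (p.1 % 18).toNat)
      (t := range 18) (fun p _ => Finset.mem_coe.2
        (Finset.mem_range.2 (res_lt 18 (by norm_num) _)))]
    refine Finset.sum_le_sum fun r _ => Finset.card_le_card ?_
    rintro ⟨x, y⟩ hp
    obtain ⟨h3, h4⟩ := Finset.mem_filter.1 hp
    obtain ⟨h5, h6⟩ := Finset.mem_filter.1 h3
    obtain ⟨h7, h8⟩ := Finset.mem_product.1 h5
    simp only at h4 h6 h7 h8
    have hy := (mem_cls.1 h8).2
    push_cast at hy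
    have hx : x % 18 = r := by omega
    refine Finset.mem_filter.2 ⟨Finset.mem_product.2 ⟨mem_cls.2 ⟨h7, by exact_mod_cast hx⟩,
      h8⟩, mem_cls.2 ⟨h6, ?_⟩⟩
    push_cast
    omega
  have h2 : (N A (cls 36 A q) A : ℝ) ≤ ∑ r ∈ range 18, (N (cls 18 A r) (cls 36 A q)
      (cls 36 A ((3 * q + 34 * r) % 36)) : ℝ) := by exact_mod_cast h1
  refine h2.trans ?_
  have h3 : ∀ r ∈ range 18, (N (cls 18 A r) (cls 36 A q)
      (cls 36 A ((3 * q + 34 * r) % 36)) : ℝ) ≤
      P (al (ww A) r) (ww A q) (ww A ((3 * q + 34 * r) % 36)) + 1 / 4 := by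
    intro r hr
    have := N_le_P (cls 18 A r) (cls 36 A q) (cls 36 A ((3 * q + 34 * r) % 36))
    rw [card_cls18 A (Finset.mem_range.1 hr)] at this
    exact this
  refine (Finset.sum_le_sum h3).trans ?_
  simp only [Finset.sum_add_distrib, dgy, Finset.sum_const, Finset.card_range, nsmul_eq_mul]
  norm_num

/-- Number of pairs `(r, s)` with `3 s - 2 r` in a given class. -/
theorem count_rs (q : ℕ) : (∑ r ∈ range 18, ∑ s ∈ range 12,
    if (3 * s + 34 * r) % 36 = q then (1 : ℕ) else 0) ≤ 6 := by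
  rcases lt_or_ge q 36 with h | h
  · have : ∀ q ∈ range 36, (∑ r ∈ range 18, ∑ s ∈ range 12,
      if (3 * s + 34 * r) % 36 = q then (1 : ℕ) else 0) ≤ 6 := by decide +kernel
    exact this q (Finset.mem_range.2 h)
  · rw [Finset.sum_eq_zero]
    · omega
    · intro r _
      refine Finset.sum_eq_zero fun s _ => ?_
      rw [if_neg]
      omega

theorem cntz (A : Finset ℤ) (q : ℕ) :
    (N A A (cls 36 A q) : ℝ) ≤ dgz (ww A) q + 3 / 2 := by
  classical
  set F := (A ×ˢ A).filter fun p => 3 * p.2 - 2 * p.1 ∈ cls 36 A q with hF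
  have h1 : F.card ≤ ∑ r ∈ range 18, ∑ s ∈ range 12, if (3 * s + 34 * r) % 36 = q then
      N (cls 18 A r) (cls 12 A s) (cls 36 A q) else 0 := by
    rw [← Finset.sum_product', Finset.card_eq_sum_card_fiberwise (s := F)
      (f := fun p => ((p.1 % 18).toNat, (p.2 % 12).toNat)) (t := range 18 ×ˢ range 12)
      (fun p _ => Finset.mem_coe.2 (Finset.mem_product.2
        ⟨Finset.mem_range.2 (res_lt 18 (by norm_num) _),
          Finset.mem_range.2 (res_lt 12 (by norm_num) _)⟩))]
    refine Finset.sum_le_sum fun rs _ => ?_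
    obtain ⟨r, s⟩ := rs
    simp only
    split_ifs with hm
    · refine Finset.card_le_card ?_
      rintro ⟨x, y⟩ hp
      obtain ⟨h3, h4⟩ := Finset.mem_filter.1 hp
      obtain ⟨h5, h6⟩ := Finset.mem_filter.1 h3
      obtain ⟨h7, h8⟩ := Finset.mem_product.1 h5
      simp only [Prod.mk.injEq] at h4
      obtain ⟨hr, hs⟩ := h4
      have hx : x % 18 = r := by omega
      have hy : y % 12 = s := by omega
      exact Finset.mem_filter.2 ⟨Finset.mem_product.2 ⟨mem_cls.2 ⟨h7, by exact_mod_cast hx⟩,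
        mem_cls.2 ⟨h8, by exact_mod_cast hy⟩⟩, h6⟩
    · rw [Nat.le_zero, Finset.card_eq_zero, Finset.filter_eq_empty_iff]
      rintro ⟨x, y⟩ hp hq
      obtain ⟨h3, h4⟩ := Finset.mem_filter.1 hp
      have h5 := (mem_cls.1 h4).2
      simp only [Prod.mk.injEq] at hq
      obtain ⟨hr, hs⟩ := hq
      have hx : x % 18 = r := by omega
      have hy : y % 12 = s := by omega
      have hz := class_z hx hy
      push_cast at h5
      rw [hz] at h5
      exact hm (by exact_mod_cast h5)
  have h2 : (N A A (cls 36 A q) : ℝ) ≤ ((∑ r ∈ range 18, ∑ s ∈ range 12,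
      if (3 * s + 34 * r) % 36 = q then
      N (cls 18 A r) (cls 12 A s) (cls 36 A q) else 0 : ℕ) : ℝ) := by exact_mod_cast h1
  refine h2.trans ?_
  push_cast
  have h3 : ∀ r ∈ range 18, ∀ s ∈ range 12, (if (3 * s + 34 * r) % 36 = q then
      (N (cls 18 A r) (cls 12 A s) (cls 36 A q) : ℝ) else 0) ≤
      (if (3 * s + 34 * r) % 36 = q then P (al (ww A) r) (be (ww A) s) (ww A q) else 0) +
      (1 / 4) * (if (3 * s + 34 * r) % 36 = q then (1 : ℝ) else 0) := by
    intro r hr s hs
    split_ifs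
    · have := N_le_P (cls 18 A r) (cls 12 A s) (cls 36 A q)
      rw [card_cls18 A (Finset.mem_range.1 hr), card_cls12 A (Finset.mem_range.1 hs)] at this
      simp only [mul_one]
      exact this
    · norm_num
  refine (Finset.sum_le_sum fun r hr => Finset.sum_le_sum fun s hs => h3 r hr s hs).trans ?_
  simp only [Finset.sum_add_distrib, dgz, ← Finset.mul_sum]
  have h4 : (∑ r ∈ range 18, ∑ s ∈ range 12,
    if (3 * s + 34 * r) % 36 = q then (1 : ℝ) else 0) ≤ 6 := by
    have := count_rs q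
    have h5 : ((∑ r ∈ range 18, ∑ s ∈ range 12,
      if (3 * s + 34 * r) % 36 = q then (1 : ℕ) else 0 : ℕ) : ℝ) ≤ 6 := by exact_mod_cast this
    push_cast at h5
    exact h5
  linarith

/-- There is an element of the class `q` of small degree. -/
theorem exists_small_deg (A : Finset ℤ) (q : ℕ) (hq : 0 < ww A q) :
    ∃ a ∈ A, ww A q * ((T0 A : ℝ) - T0 (A.erase a)) ≤
      dgx (ww A) q + dgy (ww A) q + dgz (ww A) q + 9 := by
  classical
  set F := (A ×ˢ A).filter fun p => 3 * p.2 - 2 * p.1 ∈ A with hF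
  set D : ℤ → ℕ := fun a => (F.filter fun p => p.1 = a).card + (F.filter fun p => p.2 = a).card +
    (F.filter fun p => 3 * p.2 - 2 * p.1 = a).card with hD
  have hstep : ∀ a, T0 A ≤ T0 (A.erase a) + D a := by
    intro a
    have h1 : F ⊆ (((A.erase a) ×ˢ (A.erase a)).filter fun p => 3 * p.2 - 2 * p.1 ∈ A.erase a) ∪
        (((F.filter fun p => p.1 = a) ∪ (F.filter fun p => p.2 = a)) ∪
        (F.filter fun p => 3 * p.2 - 2 * p.1 = a)) := by
      intro p hp
      have hp' := hp
      obtain ⟨h2, h3⟩ := Finset.mem_filter.1 hp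
      obtain ⟨h4, h5⟩ := Finset.mem_product.1 h2
      by_cases c1 : p.1 = a
      · exact Finset.mem_union_right _ (Finset.mem_union_left _ (Finset.mem_union_left _
          (Finset.mem_filter.2 ⟨hp', c1⟩)))
      by_cases c2 : p.2 = a
      · exact Finset.mem_union_right _ (Finset.mem_union_left _ (Finset.mem_union_right _
          (Finset.mem_filter.2 ⟨hp', c2⟩)))
      by_cases c3 : 3 * p.2 - 2 * p.1 = a
      · exact Finset.mem_union_right _ (Finset.mem_union_right _
          (Finset.mem_filter.2 ⟨hp', c3⟩))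
      exact Finset.mem_union_left _ (Finset.mem_filter.2 ⟨Finset.mem_product.2
        ⟨Finset.mem_erase.2 ⟨c1, h4⟩, Finset.mem_erase.2 ⟨c2, h5⟩⟩,
          Finset.mem_erase.2 ⟨c3, h3⟩⟩)
    have h2 := (Finset.card_le_card h1).trans (Finset.card_union_le _ _)
    have h3 := Finset.card_union_le ((F.filter fun p => p.1 = a) ∪ (F.filter fun p => p.2 = a))
      (F.filter fun p => 3 * p.2 - 2 * p.1 = a)
    have h4 := Finset.card_union_le (F.filter fun p => p.1 = a) (F.filter fun p => p.2 = a)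
    have h5 : T0 A = F.card := rfl
    have h6 : T0 (A.erase a) = (((A.erase a) ×ˢ (A.erase a)).filter
      fun p => 3 * p.2 - 2 * p.1 ∈ A.erase a).card := rfl
    simp only [hD]
    omega
  have hsum : ∑ a ∈ cls 36 A q, D a = N (cls 36 A q) A A + N A (cls 36 A q) A +
      N A A (cls 36 A q) := by
    simp only [hD, Finset.sum_add_distrib]
    congr 1
    · congr 1
      · rw [N, Finset.card_eq_sum_card_fiberwise (f := fun p : ℤ × ℤ => p.1) (t := cls 36 A q)
          (fun p hp => Finset.mem_coe.2 (Finset.mem_product.1 (Finset.mem_filter.1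
            (Finset.mem_coe.1 hp)).1).1)]
        refine Finset.sum_congr rfl fun a ha => congrArg Finset.card ?_
        ext p
        simp only [hF, Finset.mem_filter, Finset.mem_product]
        constructor
        · rintro ⟨⟨⟨h1, h2⟩, h3⟩, h4⟩
          exact ⟨⟨⟨h4 ▸ ha, h2⟩, h3⟩, h4⟩
        · rintro ⟨⟨⟨h1, h2⟩, h3⟩, h4⟩
          exact ⟨⟨⟨(mem_cls.1 h1).1, h2⟩, h3⟩, h4⟩
      · rw [N, Finset.card_eq_sum_card_fiberwise (f := fun p : ℤ × ℤ => p.2) (t := cls 36 A q)
          (fun p hp => Finset.mem_coe.2 (Finset.mem_product.1 (Finset.mem_filter.1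
            (Finset.mem_coe.1 hp)).1).2)]
        refine Finset.sum_congr rfl fun a ha => congrArg Finset.card ?_
        ext p
        simp only [hF, Finset.mem_filter, Finset.mem_product]
        constructor
        · rintro ⟨⟨⟨h1, h2⟩, h3⟩, h4⟩
          exact ⟨⟨⟨h1, h4 ▸ ha⟩, h3⟩, h4⟩
        · rintro ⟨⟨⟨h1, h2⟩, h3⟩, h4⟩
          exact ⟨⟨⟨h1, (mem_cls.1 h2).1⟩, h3⟩, h4⟩
    · rw [N, Finset.card_eq_sum_card_fiberwise (f := fun p : ℤ × ℤ => 3 * p.2 - 2 * p.1)
        (t := cls 36 A q)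
        (fun p hp => Finset.mem_coe.2 (Finset.mem_filter.1 (Finset.mem_coe.1 hp)).2)]
      refine Finset.sum_congr rfl fun a ha => congrArg Finset.card ?_
      ext p
      simp only [hF, Finset.mem_filter, Finset.mem_product]
      constructor
      · rintro ⟨⟨⟨h1, h2⟩, h3⟩, h4⟩
        exact ⟨⟨⟨h1, h2⟩, h4 ▸ ha⟩, h4⟩
      · rintro ⟨⟨⟨h1, h2⟩, h3⟩, h4⟩
        exact ⟨⟨⟨h1, h2⟩, (mem_cls.1 h3).1⟩, h4⟩
  have hne : (cls 36 A q).Nonempty := by
    rw [← Finset.card_pos]
    have : (0 : ℝ) < (cls 36 A q).card := hq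
    exact_mod_cast this
  by_contra hcon
  push Not at hcon
  have h1 : ∀ a ∈ cls 36 A q, dgx (ww A) q + dgy (ww A) q + dgz (ww A) q + 9 <
      ww A q * D a := by
    intro a ha
    have h2 := hcon a (mem_cls.1 ha).1
    have h3 : (T0 A : ℝ) ≤ T0 (A.erase a) + D a := by exact_mod_cast hstep a
    have h4 : ww A q * ((T0 A : ℝ) - T0 (A.erase a)) ≤ ww A q * D a :=
      mul_le_mul_of_nonneg_left (by linarith) hq.le
    linarith
  have h2 := Finset.sum_lt_sum_of_nonempty hne h1
  rw [Finset.sum_const, nsmul_eq_mul, ← Finset.mul_sum] at h2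
  have h3 : ((∑ a ∈ cls 36 A q, D a : ℕ) : ℝ) = N (cls 36 A q) A A + N A (cls 36 A q) A +
      N A A (cls 36 A q) := by exact_mod_cast hsum
  push_cast at h3
  rw [h3] at h2
  have h4 : ((cls 36 A q).card : ℝ) = ww A q := rfl
  rw [h4] at h2
  have h5 := cntx A q
  have h6 := cnty A q
  have h7 := cntz A q
  have h8 := lt_of_mul_lt_mul_left h2 hq.le
  linarith

end Aff
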