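import Pool.Agent.helper94.Aff.Count

/-!
# Affine copies of {0,1,3}: rescaling and strong induction
-/

open Finset

namespace Aff

/-! ### Rescaling -/

theorem T0_image (B : Finset ℤ) (x₀ k : ℤ) (hk : k ≠ 0) :
    T0 (B.image fun x => x₀ + k * x) = T0 B := by
  classical
  have hinj : Function.Injective fun x : ℤ => x₀ + k * x := by
    intro a b h
    simp only at h
    have : k * a = k * b := by linarith
    exact mul_left_cancel₀ hk this
  symm
  refine Finset.card_bij (fun p _ => (x₀ + k * p.1, x₀ + k * p.2)) ?_ ?_ ?_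
  · intro p hp
    obtain ⟨h1, h2⟩ := Finset.mem_filter.1 hp
    obtain ⟨h3, h4⟩ := Finset.mem_product.1 h1
    refine Finset.mem_filter.2 ⟨Finset.mem_product.2 ⟨Finset.mem_image.2 ⟨_, h3, rfl⟩,
      Finset.mem_image.2 ⟨_, h4, rfl⟩⟩, Finset.mem_image.2 ⟨_, h2, ?_⟩⟩
    simp only
    ring
  · intro p _ q _ h
    simp only [Prod.mk.injEq] at h
    exact Prod.ext (hinj h.1) (hinj h.2)
  · rintro ⟨x, y⟩ hp
    obtain ⟨h1, h2⟩ := Finset.mem_filter.1 hp
    obtain ⟨h3, h4⟩ := Finset.mem_product.1 h1
    obtain ⟨a, ha, rfl⟩ := Finset.mem_image.1 h3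
    obtain ⟨b, hb, rfl⟩ := Finset.mem_image.1 h4
    obtain ⟨c, hc, hcc⟩ := Finset.mem_image.1 h2
    refine ⟨(a, b), Finset.mem_filter.2 ⟨Finset.mem_product.2 ⟨ha, hb⟩, ?_⟩, rfl⟩
    simp only at hcc
    have h5 : k * c = k * (3 * b - 2 * a) := by linarith
    have h6 := mul_left_cancel₀ hk h5
    simp only [← h6]
    exact hc

/-- Spread of a finite set. -/
def spread (A : Finset ℤ) : ℕ := ∑ x ∈ A, ∑ y ∈ A, (x - y).natAbs

theorem spread_image (B : Finset ℤ) (x₀ k : ℤ) (hk : k ≠ 0) :
    spread (B.image fun x => x₀ + k * x) = k.natAbs * spread B := by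
  classical
  have hinj : Set.InjOn (fun x : ℤ => x₀ + k * x) B := by
    intro a _ b _ h
    simp only at h
    have : k * a = k * b := by linarith
    exact mul_left_cancel₀ hk this
  unfold spread
  rw [Finset.sum_image hinj, Finset.mul_sum]
  refine Finset.sum_congr rfl fun a _ => ?_
  rw [Finset.sum_image hinj, Finset.mul_sum]
  refine Finset.sum_congr rfl fun b _ => ?_
  rw [← Int.natAbs_mul]
  congr 1
  ring

theorem spread_pos {A : Finset ℤ} (h : 2 ≤ A.card) : 0 < spread A := by
  classical
  obtain ⟨a, ha, b, hb, hab⟩ := Finset.one_lt_card.1 (by omega : 1 < A.card)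
  have h1 : (a - b).natAbs ≤ ∑ y ∈ A, (a - y).natAbs :=
    Finset.single_le_sum (f := fun y => (a - y).natAbs) (fun _ _ => Nat.zero_le _) hb
  have h2 : ∑ y ∈ A, (a - y).natAbs ≤ spread A :=
    Finset.single_le_sum (f := fun x => ∑ y ∈ A, (x - y).natAbs) (fun _ _ => Nat.zero_le _) ha
  have h3 : 0 < (a - b).natAbs := by omega
  omega

theorem shrink {A : Finset ℤ} {m : ℤ} (hm : 2 ≤ m) (hA : 2 ≤ A.card)
    (h : ∀ x ∈ A, ∀ y ∈ A, x % m = y % m) :
    ∃ B : Finset ℤ, B.card = A.card ∧ T0 B = T0 A ∧ spread B < spread A := by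
  classical
  obtain ⟨x₀, hx₀⟩ : A.Nonempty := Finset.card_pos.1 (by omega)
  set B := A.image fun x => (x - x₀) / m with hB
  have hm0 : m ≠ 0 := by omega
  have hdiv : ∀ x ∈ A, x₀ + m * ((x - x₀) / m) = x := by
    intro x hx
    have h1 := h x hx x₀ hx₀
    have h2 : m ∣ x - x₀ := Int.ModEq.dvd (Eq.symm h1 : x₀ % m = x % m)
    rw [Int.mul_ediv_cancel' h2]
    ring
  have hAB : A = B.image fun x => x₀ + m * x := by
    rw [hB, Finset.image_image]
    ext x
    simp only [Finset.mem_image, Function.comp]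
    constructor
    · intro hx
      exact ⟨x, hx, hdiv x hx⟩
    · rintro ⟨y, hy, rfl⟩
      rw [hdiv y hy]
      exact hy
  have hcard : B.card = A.card := by
    rw [hB]
    refine Finset.card_image_of_injOn ?_
    intro a ha b hb hab
    simp only at hab
    rw [← hdiv a ha, ← hdiv b hb, hab]
  refine ⟨B, hcard, ?_, ?_⟩
  · conv_rhs => rw [hAB]
    rw [T0_image B x₀ m hm0]
  · have h1 : spread A = m.natAbs * spread B := by
      conv_lhs => rw [hAB]
      exact spread_image B x₀ m hm0
    have h2 : 0 < spread B := spread_pos (by omega)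
    have h3 : 2 ≤ m.natAbs := by omega
    rw [h1]
    nlinarith

theorem rescale : ∀ (k : ℕ) (A : Finset ℤ), spread A = k → 2 ≤ A.card →
    ∃ B : Finset ℤ, B.card = A.card ∧ T0 B = T0 A ∧
      (∃ x ∈ B, ∃ y ∈ B, x % 2 ≠ y % 2) ∧ (∃ x ∈ B, ∃ y ∈ B, x % 3 ≠ y % 3) := by
  intro k
  induction k using Nat.strong_induction_on with
  | _ k ih =>
    intro A hk hA
    by_cases h2 : ∀ x ∈ A, ∀ y ∈ A, x % 2 = y % 2
    · obtain ⟨B, h3, h4, h5⟩ := shrink (by norm_num) hA h2
      obtain ⟨C, h6, h7, h8⟩ := ih (spread B) (by omega) B rfl (by omega)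
      exact ⟨C, by omega, by omega, h8⟩
    by_cases h3 : ∀ x ∈ A, ∀ y ∈ A, x % 3 = y % 3
    · obtain ⟨B, h3, h4, h5⟩ := shrink (by norm_num) hA h3
      obtain ⟨C, h6, h7, h8⟩ := ih (spread B) (by omega) B rfl (by omega)
      exact ⟨C, by omega, by omega, h8⟩
    push Not at h2 h3
    exact ⟨A, rfl, rfl, h2, h3⟩

/-! ### The induction -/

/-- Total mass. -/
noncomputable def tot (w : ℕ → ℝ) : ℝ := ∑ q ∈ range 36, w q

/-- Mass of a colour. -/
noncomputable def mass (w : ℕ → ℝ) (f : ℕ → Fin 6) (B : Fin 6) : ℝ :=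
  ∑ q ∈ range 36, if f (q % 6) = B then w q else 0

/-- A colouring that can be used as a cut. -/
def Cut (c : ℝ) (w : ℕ → ℝ) (f : ℕ → Fin 6) : Prop :=
  (∃ q < 36, ∃ q' < 36, 0 < w q ∧ 0 < w q' ∧ f (q % 6) ≠ f (q' % 6)) ∧
    cross w f ≤ c * (tot w ^ 2 - ∑ B : Fin 6, mass w f B ^ 2)

/-- A class whose elements have small average degree. -/
def LowDeg (c : ℝ) (w : ℕ → ℝ) (q : ℕ) : Prop :=
  q < 36 ∧ 0 < w q ∧ dgx w q + dgy w q + dgz w q ≤ 2 * c * tot w * w q

/-- The finite condition. -/
def Cert (c : ℝ) : Prop :=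
  ∀ w : ℕ → ℝ, (∀ q, 0 ≤ w q) → (∃ q < 36, 0 < w q ∧ q % 2 = 0) →
    (∃ q < 36, 0 < w q ∧ q % 2 = 1) →
    (∃ q < 36, ∃ q' < 36, 0 < w q ∧ 0 < w q' ∧ q % 3 ≠ q' % 3) →
    (∃ f : ℕ → Fin 6, Cut c w f) ∨ ∃ q, LowDeg c w q

theorem ww_pos {A : Finset ℤ} {x : ℤ} (hx : x ∈ A) : 0 < ww A (x % 36).toNat := by
  have h1 : x ∈ cls 36 A (x % 36).toNat := by
    refine mem_cls.2 ⟨hx, ?_⟩
    push_cast
    omega
  have h2 : 0 < (cls 36 A (x % 36).toNat).card := Finset.card_pos.2 ⟨x, h1⟩
  unfold ww
  exact_mod_cast h2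

theorem ww_pos' {A : Finset ℤ} {q : ℕ} (hq : 0 < ww A q) :
    ∃ x ∈ A, (x % 36).toNat = q := by
  have h2 : 0 < (cls 36 A q).card := by
    have : (0 : ℝ) < (cls 36 A q).card := hq
    exact_mod_cast this
  obtain ⟨x, hx⟩ := Finset.card_pos.1 h2
  obtain ⟨h3, h4⟩ := mem_cls.1 hx
  push_cast at h4
  exact ⟨x, h3, by omega⟩

theorem main_ind {c : ℝ} (hc : 0 ≤ c) (hG : Cert c) :
    ∀ (n : ℕ) (A : Finset ℤ), A.card = n → A.Nonempty →
      (T0 A : ℝ) ≤ c * (A.card : ℝ) ^ 2 + (c + 63) * A.card - 54 := by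
  classical
  intro n
  induction n using Nat.strong_induction_on with
  | _ n ih =>
    intro A hAn hAne
    rcases Nat.lt_or_ge A.card 2 with hlt | hge
    · have h1 : A.card = 1 := by
        have := Finset.card_pos.2 hAne
        omega
      have h2 : T0 A ≤ 1 := by
        have : T0 A ≤ A.card * A.card :=
          (Finset.card_filter_le _ _).trans (Finset.card_product _ _).le
        rw [h1] at this
        exact this
      have h3 : (T0 A : ℝ) ≤ 1 := by exact_mod_cast h2
      rw [h1]
      push_cast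
      linarith
    obtain ⟨B, hBc, hBT, hB2, hB3⟩ := rescale _ A rfl hge
    rw [← hBT, ← hBc]
    have hBn : B.card = n := by omega
    have hBge : 2 ≤ B.card := by omega
    clear hBT hBc hAn hAne hge A
    have hBne : B.Nonempty := Finset.card_pos.1 (by omega)
    have hn : (2 : ℝ) ≤ B.card := by exact_mod_cast hBge
    have htot : tot (ww B) = B.card := (card_eq_sum_ww B).symm
    have hcert := hG (ww B) (ww_nonneg B) ?_ ?_ ?_
    · rcases hcert with ⟨f, ⟨q, hq, q', hq', hwq, hwq', hff⟩, hcr⟩ | ⟨q, hq, hwq, hdeg⟩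
      · -- cut
        have hmass : ∀ b : Fin 6, mass (ww B) f b = ((B.filter fun x => col f x = b).card : ℝ) := by
          intro b
          have h1 := sum_ww_filter B (fun q => f (q % 6) = b)
          have h2 : (B.filter fun x => f ((x % 36).toNat % 6) = b) =
              B.filter fun x => col f x = b := by
            refine Finset.filter_congr fun x _ => ?_
            have : (x % 36).toNat % 6 = (x % 6).toNat := by omega
            rw [this, col]
          rw [h2] at h1
          rw [mass, h1]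
        have hle := T0_le_cross B f
        obtain ⟨x, hx, hxq⟩ := ww_pos' hwq
        obtain ⟨y, hy, hyq⟩ := ww_pos' hwq'
        have hcx : col f x = f (q % 6) := by
          have : (x % 6).toNat = q % 6 := by omega
          rw [col, this]
        have hcy : col f y = f (q' % 6) := by
          have : (y % 6).toNat = q' % 6 := by omega
          rw [col, this]
        -- bound for each colour
        have hcol : ∀ b : Fin 6, (T0 (B.filter fun x => col f x = b) : ℝ) ≤
            c * mass (ww B) f b ^ 2 + (c + 63) * mass (ww B) f b -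
              54 * (if (B.filter fun x => col f x = b).Nonempty then 1 else 0) := by
          intro b
          rw [hmass b]
          split_ifs with hne
          · rw [mul_one]
            refine ih _ ?_ _ rfl hne
            have hex : ∃ z ∈ B, col f z ≠ b := by
              by_cases hb : col f x = b
              · exact ⟨y, hy, by rw [← hb, hcx, hcy]; exact fun h => hff h.symm⟩
              · exact ⟨x, hx, hb⟩
            obtain ⟨z, hz, hzb⟩ := hex
            rw [← hBn]
            refine Finset.card_lt_card (Finset.filter_ssubset.2 ⟨z, hz, hzb⟩)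
          · rw [Finset.not_nonempty_iff_eq_empty] at hne
            rw [hne]
            simp [T0, N]
        have hsum := Finset.sum_le_sum fun b (_ : b ∈ Finset.univ) => hcol b
        have hmtot : ∑ b : Fin 6, mass (ww B) f b = B.card := by
          rw [← htot]
          unfold mass tot
          rw [Finset.sum_comm]
          refine Finset.sum_congr rfl fun q _ => ?_
          simp
        have hcnt : (2 : ℝ) ≤ ∑ b : Fin 6,
            (if (B.filter fun x => col f x = b).Nonempty then (1 : ℝ) else 0) := by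
          have h1 : ∑ b ∈ ({f (q % 6), f (q' % 6)} : Finset (Fin 6)),
              (if (B.filter fun x => col f x = b).Nonempty then (1 : ℝ) else 0) ≤
              ∑ b : Fin 6, (if (B.filter fun x => col f x = b).Nonempty then (1 : ℝ) else 0) := by
            refine Finset.sum_le_sum_of_subset_of_nonneg (Finset.subset_univ _) ?_
            intro b _ _
            split_ifs <;> norm_num
          rw [Finset.sum_pair hff, if_pos ⟨x, Finset.mem_filter.2 ⟨hx, hcx⟩⟩,
            if_pos ⟨y, Finset.mem_filter.2 ⟨hy, hcy⟩⟩] at h1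
          linarith
        simp only [Finset.sum_add_distrib, Finset.sum_sub_distrib, ← Finset.mul_sum] at hsum
        rw [hmtot] at hsum
        rw [htot] at hcr
        have e1 : c * ((B.card : ℝ) ^ 2 - ∑ b : Fin 6, mass (ww B) f b ^ 2) =
            c * (B.card : ℝ) ^ 2 - c * ∑ b : Fin 6, mass (ww B) f b ^ 2 := by ring
        rw [e1] at hcr
        linarith
      · -- small degree
        obtain ⟨a, ha, hda⟩ := exists_small_deg B q hwq
        have hw1 : 1 ≤ ww B q := by
          have h1 : (0 : ℝ) < ((cls 36 B q).card : ℝ) := hwq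
          have h2 : 0 < (cls 36 B q).card := by exact_mod_cast h1
          have h3 : (1 : ℝ) ≤ ((cls 36 B q).card : ℝ) := by exact_mod_cast h2
          exact h3
        rw [htot] at hdeg
        have h1 : ww B q * ((T0 B : ℝ) - T0 (B.erase a)) ≤ ww B q * (2 * c * B.card + 9) := by
          have : ww B q * (2 * c * B.card + 9) = 2 * c * B.card * ww B q + 9 * ww B q := by ring
          rw [this]
          linarith
        have h2 := le_of_mul_le_mul_left h1 hwq
        have hce : (B.erase a).card = B.card - 1 := Finset.card_erase_of_mem ha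
        have h3 := ih (B.erase a).card (by omega) (B.erase a) rfl
          (Finset.card_pos.1 (by omega))
        have h4 : ((B.erase a).card : ℝ) = B.card - 1 := by
          rw [hce, Nat.cast_sub (by omega)]
          norm_num
        rw [h4] at h3
        nlinarith
    · obtain ⟨x, hx, y, hy, hxy⟩ := hB2
      rcases Int.emod_two_eq_zero_or_one x with h | h
      · exact ⟨(x % 36).toNat, res_lt 36 (by norm_num) x, ww_pos hx, by omega⟩
      · exact ⟨(y % 36).toNat, res_lt 36 (by norm_num) y, ww_pos hy, by omega⟩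
    · obtain ⟨x, hx, y, hy, hxy⟩ := hB2
      rcases Int.emod_two_eq_zero_or_one x with h | h
      · exact ⟨(y % 36).toNat, res_lt 36 (by norm_num) y, ww_pos hy, by omega⟩
      · exact ⟨(x % 36).toNat, res_lt 36 (by norm_num) x, ww_pos hx, by omega⟩
    · obtain ⟨x, hx, y, hy, hxy⟩ := hB3
      exact ⟨(x % 36).toNat, res_lt 36 (by norm_num) x, (y % 36).toNat,
        res_lt 36 (by norm_num) y, ww_pos hx, ww_pos hy, by omega⟩

/-- The pipeline: a finite certificate gives the bound for all finite sets. -/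
theorem pipeline {c : ℝ} (hc : 0 ≤ c) (hG : Cert c) (A : Finset ℤ) :
    (T0 A : ℝ) ≤ c * (A.card : ℝ) ^ 2 + (c + 63) * A.card := by
  rcases A.eq_empty_or_nonempty with rfl | hne
  · simp [T0, N]
  · have := main_ind hc hG A.card A rfl hne
    linarith

end Aff
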