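import Pool.Agent.helper94.Aff.Induct

/-!
# Affine copies of {0,1,3}: the pairwise deficit (helper19's pairwise lemma)
-/

open Finset

namespace Aff

/-- Three times a set. -/
def tri (U : Finset ℤ) : Finset ℤ := U.image fun y => 3 * y

theorem mem_tri {U : Finset ℤ} {v : ℤ} : v ∈ tri U ↔ ∃ y ∈ U, 3 * y = v := Finset.mem_image

open Classical in
/-- Local deficit. -/
noncomputable def mm (d : ℤ) (U W : Finset ℤ) (x z : ℤ) : ℝ :=
  (if (z - x) % 3 = d ∧ 2 * x + z ∉ W then 1 else 0) +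
    (if (z - x) % 3 = 0 ∧ 2 * x + z ∉ tri U then 1 / 2 else 0)

theorem mm_nonneg (d : ℤ) (U W : Finset ℤ) (x z : ℤ) : 0 ≤ mm d U W x z := by
  unfold mm
  split_ifs <;> norm_num

/-- The deficit of the pair `(U, W)`. -/
noncomputable def MM (d : ℤ) (U W : Finset ℤ) : ℝ := ∑ x ∈ U, ∑ z ∈ U, mm d U W x z

theorem MM_nonneg (d : ℤ) (U W : Finset ℤ) : 0 ≤ MM d U W :=
  Finset.sum_nonneg fun _ _ => Finset.sum_nonneg fun _ _ => mm_nonneg _ _ _ _ _

/-- The statement of the pairwise lemma for one pair. -/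
def PWat (d : ℤ) (U W : Finset ℤ) : Prop :=
  1 / 3 * (max ((U.card : ℝ) - W.card) 0) ^ 2 - 7 * U.card + 6 ≤ MM d U W

/-- The pairwise lemma for all sets of size `n`. -/
def PW (n : ℕ) : Prop :=
  ∀ U W : Finset ℤ, U.card = n → U.Nonempty → ∀ d : ℤ, (d = 1 ∨ d = 2) → PWat d U W

/-! ### Column decomposition of `T0` -/

/-- Column `r`, rescaled. -/
def col3 (A : Finset ℤ) (r : ℤ) : Finset ℤ := (A.filter fun x => x % 3 = r).image fun x => x / 3

/-- Column `s`, shifted by `-r`. -/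
def sh3 (A : Finset ℤ) (s r : ℤ) : Finset ℤ := (A.filter fun x => x % 3 = s).image fun x => x - r

theorem card_col3 (A : Finset ℤ) (r : ℤ) : (col3 A r).card = (A.filter fun x => x % 3 = r).card := by
  classical
  refine Finset.card_image_of_injOn ?_
  intro a ha b hb hab
  have h1 := (Finset.mem_filter.1 (Finset.mem_coe.1 ha)).2
  have h2 := (Finset.mem_filter.1 (Finset.mem_coe.1 hb)).2
  simp only at hab
  omega

theorem card_sh3 (A : Finset ℤ) (s r : ℤ) : (sh3 A s r).card = (A.filter fun x => x % 3 = s).card := by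
  classical
  refine Finset.card_image_of_injOn ?_
  intro a _ b _ hab
  simp only at hab
  omega

theorem mem_col3 {A : Finset ℤ} {r : ℤ} (hr0 : 0 ≤ r) (hr3 : r < 3) {x : ℤ} :
    x ∈ col3 A r ↔ 3 * x + r ∈ A := by
  unfold col3
  rw [Finset.mem_image]
  constructor
  · rintro ⟨y, hy, rfl⟩
    obtain ⟨h1, h2⟩ := Finset.mem_filter.1 hy
    have : 3 * (y / 3) + r = y := by omega
    rw [this]
    exact h1
  · intro h
    exact ⟨3 * x + r, Finset.mem_filter.2 ⟨h, by omega⟩, by omega⟩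

theorem mem_sh3 {A : Finset ℤ} {s r v : ℤ} : v ∈ sh3 A s r ↔ v + r ∈ A ∧ (v + r) % 3 = s := by
  unfold sh3
  rw [Finset.mem_image]
  constructor
  · rintro ⟨y, hy, rfl⟩
    obtain ⟨h1, h2⟩ := Finset.mem_filter.1 hy
    have : y - r + r = y := by ring
    rw [this]
    exact ⟨h1, h2⟩
  · rintro ⟨h1, h2⟩
    exact ⟨v + r, Finset.mem_filter.2 ⟨h1, h2⟩, by ring⟩

theorem mem_tri_col3 {A : Finset ℤ} {r : ℤ} (hr0 : 0 ≤ r) (hr3 : r < 3) {v : ℤ} (hv : v % 3 = 0) :
    v ∈ tri (col3 A r) ↔ v + r ∈ A := by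
  rw [mem_tri]
  constructor
  · rintro ⟨y, hy, rfl⟩
    exact (mem_col3 hr0 hr3).1 hy
  · intro h
    refine ⟨v / 3, (mem_col3 hr0 hr3).2 ?_, by omega⟩
    have : 3 * (v / 3) + r = v + r := by omega
    rw [this]
    exact h

/-- Pointwise identity. -/
theorem mm_add (A : Finset ℤ) (r : ℤ) (hr0 : 0 ≤ r) (hr3 : r < 3) (x z : ℤ) :
    mm 1 (col3 A r) (sh3 A ((r + 1) % 3) r) x z + mm 2 (col3 A r) (sh3 A ((r + 2) % 3) r) x z =
      1 - (if 2 * x + z + r ∈ A then 1 else 0) := by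
  classical
  have h3 : (z - x) % 3 = 0 ∨ (z - x) % 3 = 1 ∨ (z - x) % 3 = 2 := by omega
  unfold mm
  rcases h3 with h | h | h
  · have e1 : ¬ ((z - x) % 3 = 1) := by omega
    have e2 : ¬ ((z - x) % 3 = 2) := by omega
    have e3 : 2 * x + z ∈ tri (col3 A r) ↔ 2 * x + z + r ∈ A := mem_tri_col3 hr0 hr3 (by omega)
    simp only [e1, e2, h, false_and, true_and, if_false, e3]
    by_cases hA : 2 * x + z + r ∈ A
    · simp [hA]
    · simp [hA]
      norm_num
  · have e1 : ¬ ((z - x) % 3 = 0) := by omega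
    have e2 : ¬ ((z - x) % 3 = 2) := by omega
    have e3 : 2 * x + z ∈ sh3 A ((r + 1) % 3) r ↔ 2 * x + z + r ∈ A := by
      rw [mem_sh3]
      constructor
      · exact fun h => h.1
      · exact fun h => ⟨h, by omega⟩
    simp only [e1, e2, h, false_and, true_and, if_false, e3]
    by_cases hA : 2 * x + z + r ∈ A
    · simp [hA]
    · simp [hA]
  · have e1 : ¬ ((z - x) % 3 = 0) := by omega
    have e2 : ¬ ((z - x) % 3 = 1) := by omega
    have e3 : 2 * x + z ∈ sh3 A ((r + 2) % 3) r ↔ 2 * x + z + r ∈ A := by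
      rw [mem_sh3]
      constructor
      · exact fun h => h.1
      · exact fun h => ⟨h, by omega⟩
    simp only [e1, e2, h, false_and, true_and, if_false, e3]
    by_cases hA : 2 * x + z + r ∈ A
    · simp [hA]
    · simp [hA]

/-- Number of completed pairs in column `r`. -/
noncomputable def GG (A : Finset ℤ) (r : ℤ) : ℕ :=
  ((col3 A r ×ˢ col3 A r).filter fun p => 2 * p.1 + p.2 + r ∈ A).card

theorem GG_eq (A : Finset ℤ) (r : ℤ) (hr0 : 0 ≤ r) (hr3 : r < 3) :
    (GG A r : ℝ) = ((col3 A r).card : ℝ) ^ 2 -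
      MM 1 (col3 A r) (sh3 A ((r + 1) % 3) r) - MM 2 (col3 A r) (sh3 A ((r + 2) % 3) r) := by
  classical
  have h1 : (GG A r : ℝ) = ∑ x ∈ col3 A r, ∑ z ∈ col3 A r,
      (if 2 * x + z + r ∈ A then (1 : ℝ) else 0) := by
    unfold GG
    rw [Finset.card_filter, Finset.sum_product]
    push_cast
    rfl
  have h2 : MM 1 (col3 A r) (sh3 A ((r + 1) % 3) r) + MM 2 (col3 A r) (sh3 A ((r + 2) % 3) r) =
      ∑ x ∈ col3 A r, ∑ z ∈ col3 A r, (1 - (if 2 * x + z + r ∈ A then (1 : ℝ) else 0)) := by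
    unfold MM
    rw [← Finset.sum_add_distrib]
    refine Finset.sum_congr rfl fun x _ => ?_
    rw [← Finset.sum_add_distrib]
    exact Finset.sum_congr rfl fun z _ => mm_add A r hr0 hr3 x z
  have h3 : ∑ x ∈ col3 A r, ∑ z ∈ col3 A r, (1 - (if 2 * x + z + r ∈ A then (1 : ℝ) else 0)) =
      ((col3 A r).card : ℝ) ^ 2 - (GG A r : ℝ) := by
    rw [h1]
    simp only [Finset.sum_sub_distrib, Finset.sum_const, nsmul_eq_mul, mul_one]
    ring
  linarith

theorem T0_eq_GG (A : Finset ℤ) : T0 A = GG A 0 + GG A 1 + GG A 2 := by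
  classical
  -- pairs (x, y) with 3 y - 2 x ∈ A, sorted by x mod 3
  set F := (A ×ˢ A).filter fun p => 3 * p.2 - 2 * p.1 ∈ A with hF
  have key : ∀ r : ℤ, 0 ≤ r → r < 3 → (F.filter fun p => p.1 % 3 = r).card = GG A r := by
    intro r hr0 hr3
    refine Finset.card_bij (fun p _ => (p.1 / 3, (3 * p.2 - 2 * p.1) / 3)) ?_ ?_ ?_
    · intro p hp
      obtain ⟨h1, h2⟩ := Finset.mem_filter.1 hp
      obtain ⟨h3, h4⟩ := Finset.mem_filter.1 h1
      obtain ⟨h5, h6⟩ := Finset.mem_product.1 h3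
      refine Finset.mem_filter.2 ⟨Finset.mem_product.2 ⟨(mem_col3 hr0 hr3).2 ?_,
        (mem_col3 hr0 hr3).2 ?_⟩, ?_⟩
      · have : 3 * (p.1 / 3) + r = p.1 := by omega
        simp only
        rw [this]
        exact h5
      · have : 3 * ((3 * p.2 - 2 * p.1) / 3) + r = 3 * p.2 - 2 * p.1 := by omega
        simp only
        rw [this]
        exact h4
      · have : 2 * (p.1 / 3) + (3 * p.2 - 2 * p.1) / 3 + r = p.2 := by omega
        simp only
        rw [this]
        exact h6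
    · intro p hp q hq h
      obtain ⟨h1, h2⟩ := Finset.mem_filter.1 hp
      obtain ⟨h1', h2'⟩ := Finset.mem_filter.1 hq
      simp only [Prod.mk.injEq] at h
      exact Prod.ext (by omega) (by omega)
    · rintro ⟨x, z⟩ hp
      obtain ⟨h1, h2⟩ := Finset.mem_filter.1 hp
      obtain ⟨h3, h4⟩ := Finset.mem_product.1 h1
      have h5 := (mem_col3 hr0 hr3).1 h3
      have h6 := (mem_col3 hr0 hr3).1 h4
      simp only at h2 h5 h6
      refine ⟨(3 * x + r, 2 * x + z + r), Finset.mem_filter.2 ⟨Finset.mem_filter.2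
        ⟨Finset.mem_product.2 ⟨h5, h2⟩, ?_⟩, ?_⟩, ?_⟩
      · have : 3 * (2 * x + z + r) - 2 * (3 * x + r) = 3 * z + r := by ring
        simp only [this]
        exact h6
      · simp only
        omega
      · simp only [Prod.mk.injEq]
        constructor <;> omega
  have h0 := key 0 (by norm_num) (by norm_num)
  have h1 := key 1 (by norm_num) (by norm_num)
  have h2 := key 2 (by norm_num) (by norm_num)
  have hT : T0 A = F.card := rfl
  have s1 : (F.filter fun p => p.1 % 3 = 0).card + (F.filter fun p => ¬ p.1 % 3 = 0).card = F.card :=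
    Finset.card_filter_add_card_filter_not (s := F) (fun p => p.1 % 3 = 0)
  have s2 : ((F.filter fun p => ¬ p.1 % 3 = 0).filter fun p => p.1 % 3 = 1).card +
      ((F.filter fun p => ¬ p.1 % 3 = 0).filter fun p => ¬ p.1 % 3 = 1).card =
      (F.filter fun p => ¬ p.1 % 3 = 0).card :=
    Finset.card_filter_add_card_filter_not (s := F.filter fun p => ¬ p.1 % 3 = 0)
      (fun p => p.1 % 3 = 1)
  have s3 : ((F.filter fun p => ¬ p.1 % 3 = 0).filter fun p => p.1 % 3 = 1) =
      F.filter fun p => p.1 % 3 = 1 := by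
    ext p
    simp only [Finset.mem_filter]
    constructor
    · rintro ⟨⟨h, -⟩, h'⟩
      exact ⟨h, h'⟩
    · rintro ⟨h, h'⟩
      exact ⟨⟨h, by omega⟩, h'⟩
  have s4 : ((F.filter fun p => ¬ p.1 % 3 = 0).filter fun p => ¬ p.1 % 3 = 1) =
      F.filter fun p => p.1 % 3 = 2 := by
    ext p
    simp only [Finset.mem_filter]
    constructor
    · rintro ⟨⟨h, h1⟩, h'⟩
      exact ⟨h, by omega⟩
    · rintro ⟨h, h'⟩
      exact ⟨⟨h, by omega⟩, by omega⟩
  rw [s3, s4] at s2
  omega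

theorem card_eq_cols (A : Finset ℤ) : A.card = (A.filter fun x => x % 3 = 0).card +
    (A.filter fun x => x % 3 = 1).card + (A.filter fun x => x % 3 = 2).card := by
  classical
  have s1 : (A.filter fun x => x % 3 = 0).card + (A.filter fun x => ¬ x % 3 = 0).card = A.card :=
    Finset.card_filter_add_card_filter_not (s := A) (fun x => x % 3 = 0)
  have s2 : ((A.filter fun x => ¬ x % 3 = 0).filter fun x => x % 3 = 1).card +
      ((A.filter fun x => ¬ x % 3 = 0).filter fun x => ¬ x % 3 = 1).card =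
      (A.filter fun x => ¬ x % 3 = 0).card :=
    Finset.card_filter_add_card_filter_not (s := A.filter fun x => ¬ x % 3 = 0)
      (fun x => x % 3 = 1)
  have s3 : ((A.filter fun x => ¬ x % 3 = 0).filter fun x => x % 3 = 1) =
      A.filter fun x => x % 3 = 1 := by
    ext p
    simp only [Finset.mem_filter]
    constructor
    · rintro ⟨⟨h, -⟩, h'⟩
      exact ⟨h, h'⟩
    · rintro ⟨h, h'⟩
      exact ⟨⟨h, by omega⟩, h'⟩
  have s4 : ((A.filter fun x => ¬ x % 3 = 0).filter fun x => ¬ x % 3 = 1) =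
      A.filter fun x => x % 3 = 2 := by
    ext p
    simp only [Finset.mem_filter]
    constructor
    · rintro ⟨⟨h, h1⟩, h'⟩
      exact ⟨h, by omega⟩
    · rintro ⟨h, h'⟩
      exact ⟨⟨h, by omega⟩, by omega⟩
  rw [s3, s4] at s2
  omega

/-- One column contribution. -/
theorem GG_le {A : Finset ℤ} {r : ℤ} (hr0 : 0 ≤ r) (hr3 : r < 3)
    (h : PW (A.filter fun x => x % 3 = r).card) :
    (GG A r : ℝ) ≤ ((A.filter fun x => x % 3 = r).card : ℝ) ^ 2 -
      1 / 3 * (max (((A.filter fun x => x % 3 = r).card : ℝ) -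
        (A.filter fun x => x % 3 = (r + 1) % 3).card) 0) ^ 2 -
      1 / 3 * (max (((A.filter fun x => x % 3 = r).card : ℝ) -
        (A.filter fun x => x % 3 = (r + 2) % 3).card) 0) ^ 2 +
      14 * (A.filter fun x => x % 3 = r).card -
      (if (A.filter fun x => x % 3 = r).Nonempty then 12 else 0) := by
  classical
  rw [GG_eq A r hr0 hr3, card_col3]
  split_ifs with hne
  · have hne' : (col3 A r).Nonempty := by
      rw [← Finset.card_pos, card_col3]
      exact Finset.card_pos.2 hne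
    have h1 := h (col3 A r) (sh3 A ((r + 1) % 3) r) (card_col3 A r) hne' 1 (Or.inl rfl)
    have h2 := h (col3 A r) (sh3 A ((r + 2) % 3) r) (card_col3 A r) hne' 2 (Or.inr rfl)
    unfold PWat at h1 h2
    rw [card_col3, card_sh3] at h1 h2
    linarith
  · rw [Finset.not_nonempty_iff_eq_empty] at hne
    have m1 := MM_nonneg 1 (col3 A r) (sh3 A ((r + 1) % 3) r)
    have m2 := MM_nonneg 2 (col3 A r) (sh3 A ((r + 2) % 3) r)
    rw [hne]
    have e1 : max (((∅ : Finset ℤ).card : ℝ) -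
        (A.filter fun x => x % 3 = (r + 1) % 3).card) 0 = 0 := by
      refine max_eq_right ?_
      have : (0 : ℝ) ≤ ((A.filter fun x => x % 3 = (r + 1) % 3).card : ℝ) := Nat.cast_nonneg _
      simp only [Finset.card_empty, Nat.cast_zero]
      linarith
    have e2 : max (((∅ : Finset ℤ).card : ℝ) -
        (A.filter fun x => x % 3 = (r + 2) % 3).card) 0 = 0 := by
      refine max_eq_right ?_
      have : (0 : ℝ) ≤ ((A.filter fun x => x % 3 = (r + 2) % 3).card : ℝ) := Nat.cast_nonneg _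
      simp only [Finset.card_empty, Nat.cast_zero]
      linarith
    rw [e1, e2]
    simp only [Finset.card_empty, Nat.cast_zero]
    linarith

theorem max_sq_add (a b : ℝ) : (max (a - b) 0) ^ 2 + (max (b - a) 0) ^ 2 = (a - b) ^ 2 := by
  rcases le_total a b with h | h
  · rw [max_eq_right (by linarith : a - b ≤ 0), max_eq_left (by linarith : 0 ≤ b - a)]
    ring
  · rw [max_eq_left (by linarith : 0 ≤ a - b), max_eq_right (by linarith : b - a ≤ 0)]
    ring

/-- The bound for `T0` of a set with at least two columns. -/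
theorem T0_le_of_PW {B : Finset ℤ} (hPW : ∀ m < B.card, PW m)
    (h3 : ∃ x ∈ B, ∃ y ∈ B, x % 3 ≠ y % 3) :
    (T0 B : ℝ) ≤ 1 / 3 * (B.card : ℝ) ^ 2 + 14 * B.card - 24 := by
  classical
  obtain ⟨x, hx, y, hy, hxy⟩ := h3
  have hlt : ∀ r : ℤ, (B.filter fun x => x % 3 = r).card < B.card := by
    intro r
    refine Finset.card_lt_card (Finset.filter_ssubset.2 ?_)
    by_cases h : x % 3 = r
    · exact ⟨y, hy, fun h' => hxy (by rw [h, h'])⟩
    · exact ⟨x, hx, h⟩
  have g0 := GG_le (A := B) (r := 0) (by norm_num) (by norm_num) (hPW _ (hlt 0))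
  have g1 := GG_le (A := B) (r := 1) (by norm_num) (by norm_num) (hPW _ (hlt 1))
  have g2 := GG_le (A := B) (r := 2) (by norm_num) (by norm_num) (hPW _ (hlt 2))
  have n1 : ((0 : ℤ) + 1) % 3 = 1 := by norm_num
  have n2 : ((0 : ℤ) + 2) % 3 = 2 := by norm_num
  have n3 : ((1 : ℤ) + 1) % 3 = 2 := by norm_num
  have n4 : ((1 : ℤ) + 2) % 3 = 0 := by norm_num
  have n5 : ((2 : ℤ) + 1) % 3 = 0 := by norm_num
  have n6 : ((2 : ℤ) + 2) % 3 = 1 := by norm_num
  rw [n1, n2] at g0
  rw [n3, n4] at g1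
  rw [n5, n6] at g2
  have hT : (T0 B : ℝ) = GG B 0 + GG B 1 + GG B 2 := by
    rw [T0_eq_GG]
    push_cast
    ring
  have hc : (B.card : ℝ) = (B.filter fun x => x % 3 = 0).card +
      (B.filter fun x => x % 3 = 1).card + (B.filter fun x => x % 3 = 2).card := by
    exact_mod_cast card_eq_cols B
  have hcnt : (24 : ℝ) ≤ (if (B.filter fun x => x % 3 = 0).Nonempty then 12 else 0) +
      (if (B.filter fun x => x % 3 = 1).Nonempty then 12 else 0) +
      (if (B.filter fun x => x % 3 = 2).Nonempty then 12 else 0) := by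
    have hm : ∀ v ∈ B, (v % 3 = 0 ∧ (B.filter fun x => x % 3 = 0).Nonempty) ∨
        (v % 3 = 1 ∧ (B.filter fun x => x % 3 = 1).Nonempty) ∨
        (v % 3 = 2 ∧ (B.filter fun x => x % 3 = 2).Nonempty) := by
      intro v hv
      have : v % 3 = 0 ∨ v % 3 = 1 ∨ v % 3 = 2 := by omega
      rcases this with h | h | h
      · exact Or.inl ⟨h, v, Finset.mem_filter.2 ⟨hv, h⟩⟩
      · exact Or.inr (Or.inl ⟨h, v, Finset.mem_filter.2 ⟨hv, h⟩⟩)
      · exact Or.inr (Or.inr ⟨h, v, Finset.mem_filter.2 ⟨hv, h⟩⟩)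
    rcases hm x hx with ⟨a1, a2⟩ | ⟨a1, a2⟩ | ⟨a1, a2⟩ <;>
      rcases hm y hy with ⟨b1, b2⟩ | ⟨b1, b2⟩ | ⟨b1, b2⟩
    · exact absurd (a1.trans b1.symm) hxy
    · rw [if_pos a2, if_pos b2]; split_ifs <;> norm_num
    · rw [if_pos a2, if_pos b2]; split_ifs <;> norm_num
    · rw [if_pos a2, if_pos b2]; split_ifs <;> norm_num
    · exact absurd (a1.trans b1.symm) hxy
    · rw [if_pos a2, if_pos b2]; split_ifs <;> norm_num
    · rw [if_pos a2, if_pos b2]; split_ifs <;> norm_num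
    · rw [if_pos a2, if_pos b2]; split_ifs <;> norm_num
    · exact absurd (a1.trans b1.symm) hxy
  rw [hT, hc]
  set a : ℝ := ((B.filter fun x => x % 3 = 0).card : ℝ)
  set b : ℝ := ((B.filter fun x => x % 3 = 1).card : ℝ)
  set c : ℝ := ((B.filter fun x => x % 3 = 2).card : ℝ)
  have s1 := max_sq_add a b
  have s2 := max_sq_add b c
  have s3 := max_sq_add a c
  nlinarith

end Aff
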