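import Pool.Agent.helper94.Aff.Pair1

/-!
# Affine copies of {0,1,3}: class sums for the pairwise deficit
-/

open Finset

namespace Aff

/-- Pairs `(x, z)` with `2 x + z ∈ W`. -/
def Q2 (X Z W : Finset ℤ) : ℕ := ((X ×ˢ Z).filter fun p => 2 * p.1 + p.2 ∈ W).card

theorem Q2_le_P (X Z W : Finset ℤ) : (Q2 X Z W : ℝ) ≤ P X.card Z.card W.card + 1 / 4 := by
  classical
  have h1 : Q2 X Z W ≤ R (X.image fun x => 2 * x) Z W := by
    refine Finset.card_le_card_of_injOn (fun p => (2 * p.1, p.2)) ?_ ?_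
    · intro p hp
      obtain ⟨hp1, hp2⟩ := Finset.mem_filter.1 (Finset.mem_coe.1 hp)
      obtain ⟨hpX, hpZ⟩ := Finset.mem_product.1 hp1
      exact Finset.mem_coe.2 (Finset.mem_filter.2 ⟨Finset.mem_product.2
        ⟨Finset.mem_image_of_mem _ hpX, hpZ⟩, hp2⟩)
    · intro p _ q _ h
      simp only [Prod.mk.injEq] at h
      exact Prod.ext (by omega) (by omega)
  have e1 : (X.image fun x => 2 * x).card = X.card :=
    Finset.card_image_of_injective _ fun a b (h : _ = _) => by simpa using h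
  have hX : (0 : ℝ) ≤ X.card := Nat.cast_nonneg _
  have hZ : (0 : ℝ) ≤ Z.card := Nat.cast_nonneg _
  have h2 := pollard_real (X.image fun x => 2 * x) Z W
    (tp_nonneg (X.card : ℝ) Z.card W.card) (by rw [e1]; exact tp_le_left _ hX)
    (tp_le_right _ hZ)
  rw [e1] at h2
  have h3 : (Q2 X Z W : ℝ) ≤ R (X.image fun x => 2 * x) Z W := by exact_mod_cast h1
  exact h3.trans h2

/-- The gap. -/
noncomputable def gap (x z w : ℝ) : ℝ := x * z - P x z w

/-- Masses modulo 12. -/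
noncomputable def m12 (U : Finset ℤ) (q : ℕ) : ℝ := (cls 12 U q).card

/-- Masses modulo 4. -/
noncomputable def m4 (W : Finset ℤ) (h : ℕ) : ℝ := (cls 4 W h).card

theorem m12_nonneg (U : Finset ℤ) (q : ℕ) : 0 ≤ m12 U q := Nat.cast_nonneg _

theorem m4_nonneg (W : Finset ℤ) (h : ℕ) : 0 ≤ m4 W h := Nat.cast_nonneg _

/-- Mass modulo 6 from masses modulo 12. -/
def xx (a : ℕ → ℝ) (p : ℕ) : ℝ := a p + a (p + 6)

/-- Mass modulo 4 from masses modulo 12. -/
def u4 (a : ℕ → ℝ) (h : ℕ) : ℝ := a h + a (h + 4) + a (h + 8)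

theorem card_cls6 (A : Finset ℤ) {p : ℕ} (hp : p < 6) :
    ((cls 6 A p).card : ℝ) = xx (m12 A) p := by
  classical
  have h : cls 6 A p = cls 12 A p ∪ cls 12 A (p + 6) := by
    ext x
    simp only [mem_cls, Finset.mem_union]
    push_cast
    constructor
    · rintro ⟨h1, h2⟩
      have : x % 12 = p ∨ x % 12 = p + 6 := by omega
      tauto
    · rintro (⟨h1, h2⟩ | ⟨h1, h2⟩)
      · exact ⟨h1, by omega⟩
      · exact ⟨h1, by omega⟩
  have hd : Disjoint (cls 12 A p) (cls 12 A (p + 6)) := by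
    rw [Finset.disjoint_left]
    intro x h1 h2
    have h1' := (mem_cls.1 h1).2
    have h2' := (mem_cls.1 h2).2
    push_cast at h1' h2'
    omega
  rw [h, Finset.card_union_of_disjoint hd]
  simp only [xx, m12]
  push_cast
  ring

theorem card_cls4 (A : Finset ℤ) {h : ℕ} (hh : h < 4) :
    ((cls 4 A h).card : ℝ) = u4 (m12 A) h := by
  classical
  have e : cls 4 A h = (cls 12 A h ∪ cls 12 A (h + 4)) ∪ cls 12 A (h + 8) := by
    ext x
    simp only [mem_cls, Finset.mem_union]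
    push_cast
    constructor
    · rintro ⟨h1, h2⟩
      have : x % 12 = h ∨ x % 12 = h + 4 ∨ x % 12 = h + 8 := by omega
      tauto
    · rintro ((⟨h1, h2⟩ | ⟨h1, h2⟩) | ⟨h1, h2⟩)
      · exact ⟨h1, by omega⟩
      · exact ⟨h1, by omega⟩
      · exact ⟨h1, by omega⟩
  have hd1 : Disjoint (cls 12 A h) (cls 12 A (h + 4)) := by
    rw [Finset.disjoint_left]
    intro x h1 h2
    have h1' := (mem_cls.1 h1).2
    have h2' := (mem_cls.1 h2).2
    push_cast at h1' h2'
    omega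
  have hd2 : Disjoint (cls 12 A h ∪ cls 12 A (h + 4)) (cls 12 A (h + 8)) := by
    rw [Finset.disjoint_left]
    intro x h1 h2
    have h2' := (mem_cls.1 h2).2
    push_cast at h2'
    rcases Finset.mem_union.1 h1 with h1 | h1
    · have h1' := (mem_cls.1 h1).2
      push_cast at h1'
      omega
    · have h1' := (mem_cls.1 h1).2
      push_cast at h1'
      omega
  rw [e, Finset.card_union_of_disjoint hd2, Finset.card_union_of_disjoint hd1]
  simp only [u4, m12]
  push_cast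
  ring

/-- Splitting a sum over residue classes. -/
theorem sum_cls (m : ℕ) (hm : 0 < m) (U : Finset ℤ) (f : ℤ → ℝ) :
    ∑ x ∈ U, f x = ∑ p ∈ range m, ∑ x ∈ cls m U p, f x := by
  classical
  have hm' : (0 : ℤ) < m := by exact_mod_cast hm
  have h1 : ∀ x ∈ U, (x % (m : ℤ)).toNat ∈ range m := by
    intro x _
    rw [Finset.mem_range]
    have h2 := Int.emod_nonneg x hm'.ne'
    have h3 := Int.emod_lt_of_pos x hm'
    omega
  rw [← Finset.sum_fiberwise_of_maps_to h1]
  refine Finset.sum_congr rfl fun p _ => ?_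
  refine Finset.sum_congr ?_ fun _ _ => rfl
  ext x
  simp only [cls, Finset.mem_filter]
  have h2 := Int.emod_nonneg x hm'.ne'
  constructor
  · rintro ⟨h3, h4⟩
    exact ⟨h3, by omega⟩
  · rintro ⟨h3, h4⟩
    exact ⟨h3, by omega⟩

/-- Sum of an indicator over a product. -/
theorem sum_ind (X Z : Finset ℤ) (p : ℤ → ℤ → Prop) [∀ x z, Decidable (p x z)] :
    ∑ x ∈ X, ∑ z ∈ Z, (if p x z then (1 : ℝ) else 0) =
      (((X ×ˢ Z).filter fun v => p v.1 v.2).card : ℝ) := by
  rw [Finset.card_filter, Finset.sum_product]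
  push_cast
  rfl

/-- The class contributions. -/
noncomputable def LL (a W : ℕ → ℝ) (p q : ℕ) : ℝ :=
  if (q + 2 * p) % 3 = 1 then gap (xx a p) (a q) (W ((2 * p + q) % 4))
  else if (q + 2 * p) % 3 = 0 then 1 / 2 * gap (xx a p) (a q) (u4 a ((2 * p + 3 * q) % 4))
  else 0

/-- Off-column pairs. -/
theorem cls_pair_one (U W : Finset ℤ) {p q : ℕ} (hp : p < 6) (hpq : (q + 2 * p) % 3 = 1) :
    gap (xx (m12 U) p) (m12 U q) (m4 W ((2 * p + q) % 4)) - 1 / 4 ≤
      ∑ x ∈ cls 6 U p, ∑ z ∈ cls 12 U q,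
        (if (z - x) % 3 = 1 ∧ 2 * x + z ∉ W then (1 : ℝ) else 0) := by
  classical
  have h1 : ∑ x ∈ cls 6 U p, ∑ z ∈ cls 12 U q,
      (if (z - x) % 3 = 1 ∧ 2 * x + z ∉ W then (1 : ℝ) else 0) =
      ∑ x ∈ cls 6 U p, ∑ z ∈ cls 12 U q,
        (1 - (if 2 * x + z ∈ cls 4 W ((2 * p + q) % 4) then (1 : ℝ) else 0)) := by
    refine Finset.sum_congr rfl fun x hx => Finset.sum_congr rfl fun z hz => ?_
    have hx' := (mem_cls.1 hx).2
    have hz' := (mem_cls.1 hz).2
    push_cast at hx' hz'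
    have e1 : (z - x) % 3 = 1 := by omega
    have e2 : 2 * x + z ∈ cls 4 W ((2 * p + q) % 4) ↔ 2 * x + z ∈ W := by
      rw [mem_cls]
      constructor
      · exact fun h => h.1
      · intro h
        refine ⟨h, ?_⟩
        push_cast
        omega
    simp only [e1, true_and, e2]
    by_cases h : 2 * x + z ∈ W
    · simp [h]
    · simp [h]
  rw [h1]
  have h2 : ∑ x ∈ cls 6 U p, ∑ z ∈ cls 12 U q,
      (1 - (if 2 * x + z ∈ cls 4 W ((2 * p + q) % 4) then (1 : ℝ) else 0)) =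
      ((cls 6 U p).card : ℝ) * (cls 12 U q).card -
        Q2 (cls 6 U p) (cls 12 U q) (cls 4 W ((2 * p + q) % 4)) := by
    have h3 := sum_ind (cls 6 U p) (cls 12 U q)
      (fun x z => 2 * x + z ∈ cls 4 W ((2 * p + q) % 4))
    rw [Q2, ← h3]
    simp only [Finset.sum_sub_distrib, Finset.sum_const, nsmul_eq_mul, mul_one]
  rw [h2]
  have h4 := Q2_le_P (cls 6 U p) (cls 12 U q) (cls 4 W ((2 * p + q) % 4))
  unfold gap
  rw [card_cls6 U hp] at h4 ⊢
  unfold m12 m4 at *
  linarith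

/-- In-column pairs. -/
theorem cls_pair_zero (U : Finset ℤ) {p q : ℕ} (hp : p < 6) (hpq : (q + 2 * p) % 3 = 0) :
    1 / 2 * gap (xx (m12 U) p) (m12 U q) (u4 (m12 U) ((2 * p + 3 * q) % 4)) - 1 / 8 ≤
      ∑ x ∈ cls 6 U p, ∑ z ∈ cls 12 U q,
        (if (z - x) % 3 = 0 ∧ 2 * x + z ∉ tri U then (1 / 2 : ℝ) else 0) := by
  classical
  set V := tri (cls 4 U ((2 * p + 3 * q) % 4)) with hV
  have h1 : ∑ x ∈ cls 6 U p, ∑ z ∈ cls 12 U q,
      (if (z - x) % 3 = 0 ∧ 2 * x + z ∉ tri U then (1 / 2 : ℝ) else 0) =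
      ∑ x ∈ cls 6 U p, ∑ z ∈ cls 12 U q,
        (1 / 2 * (1 - (if 2 * x + z ∈ V then (1 : ℝ) else 0))) := by
    refine Finset.sum_congr rfl fun x hx => Finset.sum_congr rfl fun z hz => ?_
    have hx' := (mem_cls.1 hx).2
    have hz' := (mem_cls.1 hz).2
    push_cast at hx' hz'
    have e1 : (z - x) % 3 = 0 := by omega
    have e2 : 2 * x + z ∈ V ↔ 2 * x + z ∈ tri U := by
      rw [hV, mem_tri, mem_tri]
      constructor
      · rintro ⟨y, hy, h⟩
        exact ⟨y, (mem_cls.1 hy).1, h⟩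
      · rintro ⟨y, hy, h⟩
        refine ⟨y, mem_cls.2 ⟨hy, ?_⟩, h⟩
        push_cast
        omega
    simp only [e1, true_and, e2]
    by_cases h : 2 * x + z ∈ tri U
    · simp [h]
    · simp [h]
  rw [h1]
  have h2 : ∑ x ∈ cls 6 U p, ∑ z ∈ cls 12 U q,
      (1 / 2 * (1 - (if 2 * x + z ∈ V then (1 : ℝ) else 0))) =
      1 / 2 * (((cls 6 U p).card : ℝ) * (cls 12 U q).card -
        Q2 (cls 6 U p) (cls 12 U q) V) := by
    have h3 := sum_ind (cls 6 U p) (cls 12 U q) (fun x z => 2 * x + z ∈ V)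
    rw [Q2, ← h3]
    simp only [← Finset.mul_sum, Finset.sum_sub_distrib, Finset.sum_const, nsmul_eq_mul, mul_one]
  rw [h2]
  have h4 := Q2_le_P (cls 6 U p) (cls 12 U q) V
  have h5 : (V.card : ℝ) = u4 (m12 U) ((2 * p + 3 * q) % 4) := by
    rw [← card_cls4 U (Nat.mod_lt _ (by norm_num)), hV]
    unfold tri
    rw [Finset.card_image_of_injective _ fun a b (h : _ = _) => by simpa using h]
  rw [h5] at h4
  unfold gap
  rw [card_cls6 U hp] at h4 ⊢
  unfold m12 at *
  linarith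

theorem cls_pair (U W : Finset ℤ) {p q : ℕ} (hp : p < 6) :
    LL (m12 U) (m4 W) p q - (if (q + 2 * p) % 3 = 1 then 1 / 4 else
      if (q + 2 * p) % 3 = 0 then 1 / 8 else 0) ≤
      ∑ x ∈ cls 6 U p, ∑ z ∈ cls 12 U q, mm 1 U W x z := by
  classical
  unfold LL mm
  simp only [Finset.sum_add_distrib]
  split_ifs with h1 h2
  · have h3 := cls_pair_one U W hp h1
    have h4 : 0 ≤ ∑ x ∈ cls 6 U p, ∑ z ∈ cls 12 U q,
        (if (z - x) % 3 = 0 ∧ 2 * x + z ∉ tri U then (1 / 2 : ℝ) else 0) :=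
      Finset.sum_nonneg fun _ _ => Finset.sum_nonneg fun _ _ => by split_ifs <;> norm_num
    linarith
  · have h3 := cls_pair_zero U hp h2
    have h4 : 0 ≤ ∑ x ∈ cls 6 U p, ∑ z ∈ cls 12 U q,
        (if (z - x) % 3 = 1 ∧ 2 * x + z ∉ W then (1 : ℝ) else 0) :=
      Finset.sum_nonneg fun _ _ => Finset.sum_nonneg fun _ _ => by split_ifs <;> norm_num
    linarith
  · have h3 : 0 ≤ ∑ x ∈ cls 6 U p, ∑ z ∈ cls 12 U q,
        (if (z - x) % 3 = 0 ∧ 2 * x + z ∉ tri U then (1 / 2 : ℝ) else 0) :=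
      Finset.sum_nonneg fun _ _ => Finset.sum_nonneg fun _ _ => by split_ifs <;> norm_num
    have h4 : 0 ≤ ∑ x ∈ cls 6 U p, ∑ z ∈ cls 12 U q,
        (if (z - x) % 3 = 1 ∧ 2 * x + z ∉ W then (1 : ℝ) else 0) :=
      Finset.sum_nonneg fun _ _ => Finset.sum_nonneg fun _ _ => by split_ifs <;> norm_num
    linarith

/-! ### The parity split -/

theorem mm_even {U W : Finset ℤ} {x z : ℤ} {i : ℤ} (hx : x % 2 = i) (hz : z % 2 = i) :
    mm 1 U W x z = mm 1 (U.filter fun x => x % 2 = i) (W.filter fun x => x % 2 = i) x z := by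
  classical
  unfold mm
  have e1 : 2 * x + z ∈ W ↔ 2 * x + z ∈ W.filter fun x => x % 2 = i := by
    rw [Finset.mem_filter]
    constructor
    · exact fun h => ⟨h, by omega⟩
    · exact fun h => h.1
  have e2 : 2 * x + z ∈ tri U ↔ 2 * x + z ∈ tri (U.filter fun x => x % 2 = i) := by
    rw [mem_tri, mem_tri]
    constructor
    · rintro ⟨y, hy, h⟩
      exact ⟨y, Finset.mem_filter.2 ⟨hy, by omega⟩, h⟩
    · rintro ⟨y, hy, h⟩
      exact ⟨y, (Finset.mem_filter.1 hy).1, h⟩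
  simp only [e1, e2]

theorem sum_split2 (U : Finset ℤ) (f : ℤ → ℝ) :
    ∑ x ∈ U, f x = ∑ x ∈ U.filter (fun x => x % 2 = 0), f x +
      ∑ x ∈ U.filter (fun x => x % 2 = 1), f x := by
  classical
  rw [← Finset.sum_filter_add_sum_filter_not U (fun x => x % 2 = 0) f]
  congr 1
  refine Finset.sum_congr ?_ fun _ _ => rfl
  refine Finset.filter_congr fun x _ => ?_
  omega

theorem MM_split (U W : Finset ℤ) :
    MM 1 U W = MM 1 (U.filter fun x => x % 2 = 0) (W.filter fun x => x % 2 = 0) +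
      MM 1 (U.filter fun x => x % 2 = 1) (W.filter fun x => x % 2 = 1) +
      ∑ x ∈ U, ∑ z ∈ U, (if (x + z) % 2 = 1 then mm 1 U W x z else 0) := by
  classical
  have hE : MM 1 (U.filter fun x => x % 2 = 0) (W.filter fun x => x % 2 = 0) =
      ∑ x ∈ U.filter (fun x => x % 2 = 0), ∑ z ∈ U.filter (fun x => x % 2 = 0), mm 1 U W x z := by
    unfold MM
    refine Finset.sum_congr rfl fun x hx => Finset.sum_congr rfl fun z hz => ?_
    exact (mm_even (Finset.mem_filter.1 hx).2 (Finset.mem_filter.1 hz).2).symm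
  have hO : MM 1 (U.filter fun x => x % 2 = 1) (W.filter fun x => x % 2 = 1) =
      ∑ x ∈ U.filter (fun x => x % 2 = 1), ∑ z ∈ U.filter (fun x => x % 2 = 1), mm 1 U W x z := by
    unfold MM
    refine Finset.sum_congr rfl fun x hx => Finset.sum_congr rfl fun z hz => ?_
    exact (mm_even (Finset.mem_filter.1 hx).2 (Finset.mem_filter.1 hz).2).symm
  rw [hE, hO]
  unfold MM
  rw [sum_split2 U (fun x => ∑ z ∈ U, mm 1 U W x z),
    sum_split2 U (fun x => ∑ z ∈ U, (if (x + z) % 2 = 1 then mm 1 U W x z else 0))]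
  have k0 : ∀ x ∈ U.filter (fun x => x % 2 = 0), ∑ z ∈ U, mm 1 U W x z =
      ∑ z ∈ U.filter (fun x => x % 2 = 0), mm 1 U W x z +
        ∑ z ∈ U, (if (x + z) % 2 = 1 then mm 1 U W x z else 0) := by
    intro x hx
    have hx' := (Finset.mem_filter.1 hx).2
    rw [sum_split2 U (fun z => mm 1 U W x z), ← Finset.sum_filter]
    congr 1
    refine Finset.sum_congr ?_ fun _ _ => rfl
    refine Finset.filter_congr fun z _ => ?_
    omega
  have k1 : ∀ x ∈ U.filter (fun x => x % 2 = 1), ∑ z ∈ U, mm 1 U W x z =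
      ∑ z ∈ U.filter (fun x => x % 2 = 1), mm 1 U W x z +
        ∑ z ∈ U, (if (x + z) % 2 = 1 then mm 1 U W x z else 0) := by
    intro x hx
    have hx' := (Finset.mem_filter.1 hx).2
    rw [sum_split2 U (fun z => mm 1 U W x z), ← Finset.sum_filter, add_comm]
    congr 1
    refine Finset.sum_congr ?_ fun _ _ => rfl
    refine Finset.filter_congr fun z _ => ?_
    omega
  rw [Finset.sum_congr rfl k0, Finset.sum_congr rfl k1, Finset.sum_add_distrib,
    Finset.sum_add_distrib]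
  ring

/-- The mixed part is bounded by class sums. -/
theorem mixed_ge (U W : Finset ℤ) :
    ∑ p ∈ range 6, ∑ q ∈ range 12, (if (p + q) % 2 = 1 then LL (m12 U) (m4 W) p q else 0) -
      9 / 2 ≤ ∑ x ∈ U, ∑ z ∈ U, (if (x + z) % 2 = 1 then mm 1 U W x z else 0) := by
  classical
  have h1 : ∑ x ∈ U, ∑ z ∈ U, (if (x + z) % 2 = 1 then mm 1 U W x z else 0) =
      ∑ p ∈ range 6, ∑ q ∈ range 12, ∑ x ∈ cls 6 U p, ∑ z ∈ cls 12 U q,
        (if (x + z) % 2 = 1 then mm 1 U W x z else 0) := by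
    rw [sum_cls 6 (by norm_num) U]
    refine Finset.sum_congr rfl fun p _ => ?_
    symm
    rw [Finset.sum_comm]
    refine Finset.sum_congr rfl fun x _ => ?_
    exact (sum_cls 12 (by norm_num) U _).symm
  have h2 : ∀ p ∈ range 6, ∀ q ∈ range 12,
      (if (p + q) % 2 = 1 then LL (m12 U) (m4 W) p q else 0) -
        (if (p + q) % 2 = 1 then (if (q + 2 * p) % 3 = 1 then (1 / 4 : ℝ) else
          if (q + 2 * p) % 3 = 0 then 1 / 8 else 0) else 0) ≤
      ∑ x ∈ cls 6 U p, ∑ z ∈ cls 12 U q,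
        (if (x + z) % 2 = 1 then mm 1 U W x z else 0) := by
    intro p hp q hq
    have hp' := Finset.mem_range.1 hp
    by_cases hpq : (p + q) % 2 = 1
    · rw [if_pos hpq, if_pos hpq]
      refine (cls_pair U W hp').trans (le_of_eq ?_)
      refine Finset.sum_congr rfl fun x hx => Finset.sum_congr rfl fun z hz => ?_
      have hx' := (mem_cls.1 hx).2
      have hz' := (mem_cls.1 hz).2
      push_cast at hx' hz'
      rw [if_pos (by omega)]
    · rw [if_neg hpq, if_neg hpq, sub_zero]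
      exact Finset.sum_nonneg fun _ _ => Finset.sum_nonneg fun _ _ => by
        split_ifs
        · exact mm_nonneg _ _ _ _ _
        · exact le_rfl
  rw [h1]
  have h3 := Finset.sum_le_sum fun p hp => Finset.sum_le_sum fun q hq => h2 p hp q hq
  refine le_trans (le_of_eq ?_) h3
  simp only [Finset.sum_sub_distrib]
  congr 1
  simp [Finset.sum_range_succ]
  norm_num

end Aff
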