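import Pool.Agent.helper94.Aff.Pair2

/-!
# Affine copies of {0,1,3}: induction for the pairwise lemma
-/

open Finset

namespace Aff

/-- Even mass. -/
def evn (a : ℕ → ℝ) : ℝ := u4 a 0 + u4 a 2

/-- Odd mass. -/
def od (a : ℕ → ℝ) : ℝ := u4 a 1 + u4 a 3

/-- Column mass. -/
def co (a : ℕ → ℝ) (j : ℕ) : ℝ := a j + a (j + 3) + a (j + 6) + a (j + 9)

/-- Total mass of `W`. -/
def wt (W : ℕ → ℝ) : ℝ := W 0 + W 1 + W 2 + W 3

/-- The parity cut. -/
noncomputable def S2 (a W : ℕ → ℝ) : ℝ :=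
  1 / 3 * (max (evn a - (W 0 + W 2)) 0) ^ 2 + 1 / 3 * (max (od a - (W 1 + W 3)) 0) ^ 2 +
    ∑ p ∈ range 6, ∑ q ∈ range 12, (if (p + q) % 2 = 1 then LL a W p q else 0) -
    1 / 3 * (max (evn a + od a - wt W) 0) ^ 2

/-- The direct bound. -/
noncomputable def S3 (a W : ℕ → ℝ) : ℝ :=
  ∑ p ∈ range 6, ∑ q ∈ range 12,
      (if (q + 2 * p) % 3 = 1 then gap (xx a p) (a q) (W ((2 * p + q) % 4)) else 0) +
    1 / 6 * ((co a 0 - co a 1) ^ 2 + (co a 1 - co a 2) ^ 2 + (co a 0 - co a 2) ^ 2) -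
    1 / 3 * (max (evn a + od a - wt W) 0) ^ 2

/-- The finite inequality. -/
def FI : Prop :=
  ∀ a W : ℕ → ℝ, (∀ q, 0 ≤ a q) → (∀ h, 0 ≤ W h) → 0 < evn a → 0 < od a →
    (∃ i < 3, ∃ j < 3, i ≠ j ∧ 0 < co a i ∧ 0 < co a j) → 0 ≤ S2 a W ∨ 0 ≤ S3 a W

/-! ### Masses -/

theorem card_even (U : Finset ℤ) : ((U.filter fun x => x % 2 = 0).card : ℝ) = evn (m12 U) := by
  classical
  have h : (U.filter fun x => x % 2 = 0) = cls 4 U 0 ∪ cls 4 U 2 := by
    ext x
    simp only [mem_cls, Finset.mem_union, Finset.mem_filter]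
    push_cast
    constructor
    · rintro ⟨h1, h2⟩
      have : x % 4 = 0 ∨ x % 4 = 2 := by omega
      tauto
    · rintro (⟨h1, h2⟩ | ⟨h1, h2⟩)
      · exact ⟨h1, by omega⟩
      · exact ⟨h1, by omega⟩
  have hd : Disjoint (cls 4 U 0) (cls 4 U 2) := by
    rw [Finset.disjoint_left]
    intro x h1 h2
    have h1' := (mem_cls.1 h1).2
    have h2' := (mem_cls.1 h2).2
    push_cast at h1' h2'
    omega
  rw [h, Finset.card_union_of_disjoint hd]
  push_cast
  rw [card_cls4 U (by norm_num), card_cls4 U (by norm_num)]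
  rfl

theorem card_odd (U : Finset ℤ) : ((U.filter fun x => x % 2 = 1).card : ℝ) = od (m12 U) := by
  classical
  have h : (U.filter fun x => x % 2 = 1) = cls 4 U 1 ∪ cls 4 U 3 := by
    ext x
    simp only [mem_cls, Finset.mem_union, Finset.mem_filter]
    push_cast
    constructor
    · rintro ⟨h1, h2⟩
      have : x % 4 = 1 ∨ x % 4 = 3 := by omega
      tauto
    · rintro (⟨h1, h2⟩ | ⟨h1, h2⟩)
      · exact ⟨h1, by omega⟩
      · exact ⟨h1, by omega⟩
  have hd : Disjoint (cls 4 U 1) (cls 4 U 3) := by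
    rw [Finset.disjoint_left]
    intro x h1 h2
    have h1' := (mem_cls.1 h1).2
    have h2' := (mem_cls.1 h2).2
    push_cast at h1' h2'
    omega
  rw [h, Finset.card_union_of_disjoint hd]
  push_cast
  rw [card_cls4 U (by norm_num), card_cls4 U (by norm_num)]
  rfl

theorem card_evenW (W : Finset ℤ) :
    ((W.filter fun x => x % 2 = 0).card : ℝ) = m4 W 0 + m4 W 2 := by
  have := card_even W
  rw [this]
  unfold evn
  rw [← card_cls4 W (by norm_num), ← card_cls4 W (by norm_num)]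
  rfl

theorem card_oddW (W : Finset ℤ) :
    ((W.filter fun x => x % 2 = 1).card : ℝ) = m4 W 1 + m4 W 3 := by
  have := card_odd W
  rw [this]
  unfold od
  rw [← card_cls4 W (by norm_num), ← card_cls4 W (by norm_num)]
  rfl

theorem card_two (U : Finset ℤ) : (U.card : ℝ) =
    (U.filter fun x => x % 2 = 0).card + (U.filter fun x => x % 2 = 1).card := by
  classical
  have h1 : (U.filter fun x => x % 2 = 0).card + (U.filter fun x => ¬ x % 2 = 0).card = U.card :=
    Finset.card_filter_add_card_filter_not (s := U) (fun x => x % 2 = 0)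
  have h2 : (U.filter fun x => ¬ x % 2 = 0) = U.filter fun x => x % 2 = 1 :=
    Finset.filter_congr fun x _ => by omega
  rw [h2] at h1
  rw [← h1]
  push_cast
  ring

theorem card_colj (U : Finset ℤ) {j : ℕ} (hj : j < 3) :
    ((U.filter fun x => x % 3 = (j : ℤ)).card : ℝ) = co (m12 U) j := by
  have h1 := sum_cls 12 (by norm_num) (U.filter fun x => x % 3 = (j : ℤ)) (fun _ => (1 : ℝ))
  simp only [Finset.sum_const, nsmul_eq_mul, mul_one] at h1
  rw [h1]
  have h2 : ∀ q : ℕ, ((cls 12 (U.filter fun x => x % 3 = (j : ℤ)) q).card : ℝ) =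
      if q % 3 = j then m12 U q else 0 := by
    intro q
    split_ifs with h
    · unfold m12
      congr 2
      ext x
      simp only [mem_cls, Finset.mem_filter]
      push_cast
      constructor
      · rintro ⟨⟨h1, h2⟩, h3⟩
        exact ⟨h1, h3⟩
      · rintro ⟨h1, h3⟩
        exact ⟨⟨h1, by omega⟩, h3⟩
    · rw [Nat.cast_eq_zero, Finset.card_eq_zero]
      ext x
      simp only [mem_cls, Finset.mem_filter]
      push_cast
      constructor
      · rintro ⟨⟨h1, h2⟩, h3⟩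
        omega
      · intro h
        simp at h
  simp only [h2]
  unfold co
  interval_cases j <;> simp [Finset.sum_range_succ] <;> ring

/-! ### The direct bound -/

theorem tri_count (U : Finset ℤ) : Q2 U U (tri U) = T0 U := by
  classical
  unfold Q2 T0 N
  refine Finset.card_bij (fun p _ => (p.1, (2 * p.1 + p.2) / 3)) ?_ ?_ ?_
  · intro p hp
    obtain ⟨h1, h2⟩ := Finset.mem_filter.1 hp
    obtain ⟨h3, h4⟩ := Finset.mem_product.1 h1
    obtain ⟨y, hy, h5⟩ := mem_tri.1 h2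
    have h6 : (2 * p.1 + p.2) / 3 = y := by omega
    refine Finset.mem_filter.2 ⟨Finset.mem_product.2 ⟨h3, ?_⟩, ?_⟩
    · simp only
      rw [h6]
      exact hy
    · simp only
      rw [h6]
      have : 3 * y - 2 * p.1 = p.2 := by omega
      rw [this]
      exact h4
  · intro p hp q hq h
    obtain ⟨h1, h2⟩ := Finset.mem_filter.1 hp
    obtain ⟨h1', h2'⟩ := Finset.mem_filter.1 hq
    obtain ⟨y, hy, h5⟩ := mem_tri.1 h2
    obtain ⟨y', hy', h5'⟩ := mem_tri.1 h2'
    simp only [Prod.mk.injEq] at h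
    exact Prod.ext (by omega) (by omega)
  · rintro ⟨x, y⟩ hp
    obtain ⟨h1, h2⟩ := Finset.mem_filter.1 hp
    obtain ⟨h3, h4⟩ := Finset.mem_product.1 h1
    simp only at h2 h3 h4
    refine ⟨(x, 3 * y - 2 * x), Finset.mem_filter.2 ⟨Finset.mem_product.2 ⟨h3, h2⟩,
      mem_tri.2 ⟨y, h4, by ring⟩⟩, ?_⟩
    exact Prod.ext rfl (show (2 * x + (3 * y - 2 * x)) / 3 = y by omega)

theorem cols_pairs (U : Finset ℤ) :
    ∑ x ∈ U, ∑ z ∈ U, (if (z - x) % 3 = 0 then (1 : ℝ) else 0) =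
      co (m12 U) 0 ^ 2 + co (m12 U) 1 ^ 2 + co (m12 U) 2 ^ 2 := by
  classical
  rw [sum_cls 3 (by norm_num) U]
  have h : ∀ j ∈ range 3, ∑ x ∈ cls 3 U j, ∑ z ∈ U, (if (z - x) % 3 = 0 then (1 : ℝ) else 0) =
      co (m12 U) j ^ 2 := by
    intro j hj
    have hj' := Finset.mem_range.1 hj
    have h1 : ∀ x ∈ cls 3 U j, ∑ z ∈ U, (if (z - x) % 3 = 0 then (1 : ℝ) else 0) =
        co (m12 U) j := by
      intro x hx
      have hx' := (mem_cls.1 hx).2
      push_cast at hx'
      rw [← Finset.sum_filter, Finset.sum_const, nsmul_eq_mul, mul_one, ← card_colj U hj']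
      congr 2
      refine Finset.filter_congr fun z _ => ?_
      omega
    rw [Finset.sum_congr rfl h1, Finset.sum_const, nsmul_eq_mul]
    have h2 : ((cls 3 U j).card : ℝ) = co (m12 U) j := by
      rw [← card_colj U hj']
      rfl
    rw [h2]
    ring
  rw [Finset.sum_congr rfl h]
  simp [Finset.sum_range_succ]

theorem MM_direct (U W : Finset ℤ) :
    ∑ p ∈ range 6, ∑ q ∈ range 12, (if (q + 2 * p) % 3 = 1 then
      gap (xx (m12 U) p) (m12 U q) (m4 W ((2 * p + q) % 4)) else 0) - 6 +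
      1 / 2 * (co (m12 U) 0 ^ 2 + co (m12 U) 1 ^ 2 + co (m12 U) 2 ^ 2 - T0 U) ≤ MM 1 U W := by
  classical
  have h0 : MM 1 U W = ∑ x ∈ U, ∑ z ∈ U,
      (if (z - x) % 3 = 1 ∧ 2 * x + z ∉ W then (1 : ℝ) else 0) +
      ∑ x ∈ U, ∑ z ∈ U, (if (z - x) % 3 = 0 ∧ 2 * x + z ∉ tri U then (1 / 2 : ℝ) else 0) := by
    unfold MM mm
    simp only [Finset.sum_add_distrib]
  have h1 : ∑ x ∈ U, ∑ z ∈ U, (if (z - x) % 3 = 0 ∧ 2 * x + z ∉ tri U then (1 / 2 : ℝ) else 0) =
      1 / 2 * (co (m12 U) 0 ^ 2 + co (m12 U) 1 ^ 2 + co (m12 U) 2 ^ 2 - T0 U) := by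
    rw [← cols_pairs U, ← tri_count U, Q2, ← sum_ind U U (fun x z => 2 * x + z ∈ tri U),
      ← Finset.sum_sub_distrib, Finset.mul_sum]
    refine Finset.sum_congr rfl fun x _ => ?_
    rw [← Finset.sum_sub_distrib, Finset.mul_sum]
    refine Finset.sum_congr rfl fun z _ => ?_
    by_cases h : 2 * x + z ∈ tri U
    · obtain ⟨y, _, h5⟩ := mem_tri.1 h
      have e : (z - x) % 3 = 0 := by omega
      simp [h, e]
    · by_cases e : (z - x) % 3 = 0
      · simp [h, e]
      · simp [h, e]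
  have h2 : ∑ p ∈ range 6, ∑ q ∈ range 12, (if (q + 2 * p) % 3 = 1 then
      gap (xx (m12 U) p) (m12 U q) (m4 W ((2 * p + q) % 4)) else 0) - 6 ≤
      ∑ x ∈ U, ∑ z ∈ U, (if (z - x) % 3 = 1 ∧ 2 * x + z ∉ W then (1 : ℝ) else 0) := by
    have g1 : ∑ x ∈ U, ∑ z ∈ U, (if (z - x) % 3 = 1 ∧ 2 * x + z ∉ W then (1 : ℝ) else 0) =
        ∑ p ∈ range 6, ∑ q ∈ range 12, ∑ x ∈ cls 6 U p, ∑ z ∈ cls 12 U q,
          (if (z - x) % 3 = 1 ∧ 2 * x + z ∉ W then (1 : ℝ) else 0) := by
      rw [sum_cls 6 (by norm_num) U]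
      refine Finset.sum_congr rfl fun p _ => ?_
      symm
      rw [Finset.sum_comm]
      refine Finset.sum_congr rfl fun x _ => ?_
      exact (sum_cls 12 (by norm_num) U _).symm
    have g2 : ∀ p ∈ range 6, ∀ q ∈ range 12,
        (if (q + 2 * p) % 3 = 1 then
          gap (xx (m12 U) p) (m12 U q) (m4 W ((2 * p + q) % 4)) else 0) -
          (if (q + 2 * p) % 3 = 1 then (1 / 4 : ℝ) else 0) ≤
        ∑ x ∈ cls 6 U p, ∑ z ∈ cls 12 U q,
          (if (z - x) % 3 = 1 ∧ 2 * x + z ∉ W then (1 : ℝ) else 0) := by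
      intro p hp q hq
      have hp' := Finset.mem_range.1 hp
      by_cases hpq : (q + 2 * p) % 3 = 1
      · rw [if_pos hpq, if_pos hpq]
        exact cls_pair_one U W hp' hpq
      · rw [if_neg hpq, if_neg hpq, sub_zero]
        exact Finset.sum_nonneg fun _ _ => Finset.sum_nonneg fun _ _ => by
          split_ifs <;> norm_num
    rw [g1]
    have g3 := Finset.sum_le_sum fun p hp => Finset.sum_le_sum fun q hq => g2 p hp q hq
    refine le_trans (le_of_eq ?_) g3
    simp only [Finset.sum_sub_distrib]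
    congr 1
    simp [Finset.sum_range_succ]
    norm_num
  rw [h0, h1]
  linarith

/-! ### The main step -/

theorem step {U W : Finset ℤ} (hF : FI) (hPW : ∀ m < U.card, PW m)
    (h2 : ∃ x ∈ U, ∃ y ∈ U, x % 2 ≠ y % 2) (h3 : ∃ x ∈ U, ∃ y ∈ U, x % 3 ≠ y % 3) :
    PWat 1 U W := by
  classical
  have hT := T0_le_of_PW hPW h3
  obtain ⟨x, hx, y, hy, hxy⟩ := h2
  have hEne : (U.filter fun x => x % 2 = 0).Nonempty := by
    rcases Int.emod_two_eq_zero_or_one x with h | h
    · exact ⟨x, Finset.mem_filter.2 ⟨hx, h⟩⟩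
    · exact ⟨y, Finset.mem_filter.2 ⟨hy, by omega⟩⟩
  have hOne : (U.filter fun x => x % 2 = 1).Nonempty := by
    rcases Int.emod_two_eq_zero_or_one x with h | h
    · exact ⟨y, Finset.mem_filter.2 ⟨hy, by omega⟩⟩
    · exact ⟨x, Finset.mem_filter.2 ⟨hx, h⟩⟩
  have hcU := card_two U
  have hcW := card_two W
  have hEpos : 0 < evn (m12 U) := by
    rw [← card_even]
    exact_mod_cast Finset.card_pos.2 hEne
  have hOpos : 0 < od (m12 U) := by
    rw [← card_odd]
    exact_mod_cast Finset.card_pos.2 hOne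
  have hcols : ∃ i < 3, ∃ j < 3, i ≠ j ∧ 0 < co (m12 U) i ∧ 0 < co (m12 U) j := by
    obtain ⟨u, hu, v, hv, huv⟩ := h3
    have hpos : ∀ t ∈ U, 0 < co (m12 U) (t % 3).toNat := by
      intro t ht
      have hlt : (t % 3).toNat < 3 := by omega
      rw [← card_colj U hlt]
      have : (U.filter fun x => x % 3 = ((t % 3).toNat : ℤ)).Nonempty :=
        ⟨t, Finset.mem_filter.2 ⟨ht, by omega⟩⟩
      exact_mod_cast Finset.card_pos.2 this
    exact ⟨(u % 3).toNat, by omega, (v % 3).toNat, by omega, by omega, hpos u hu, hpos v hv⟩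
  rcases hF (m12 U) (m4 W) (m12_nonneg U) (m4_nonneg W) hEpos hOpos hcols with h | h
  · -- parity cut
    have hElt : (U.filter fun x => x % 2 = 0).card < U.card := by
      have h1 : (0 : ℝ) < (U.filter fun x => x % 2 = 1).card := by
        exact_mod_cast Finset.card_pos.2 hOne
      have : ((U.filter fun x => x % 2 = 0).card : ℝ) < U.card := by linarith
      exact_mod_cast this
    have hOlt : (U.filter fun x => x % 2 = 1).card < U.card := by
      have h1 : (0 : ℝ) < (U.filter fun x => x % 2 = 0).card := by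
        exact_mod_cast Finset.card_pos.2 hEne
      have : ((U.filter fun x => x % 2 = 1).card : ℝ) < U.card := by linarith
      exact_mod_cast this
    have iE := hPW _ hElt (U.filter fun x => x % 2 = 0) (W.filter fun x => x % 2 = 0) rfl hEne
      1 (Or.inl rfl)
    have iO := hPW _ hOlt (U.filter fun x => x % 2 = 1) (W.filter fun x => x % 2 = 1) rfl hOne
      1 (Or.inl rfl)
    have hs := MM_split U W
    have hm := mixed_ge U W
    unfold PWat at iE iO ⊢
    unfold S2 wt at h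
    rw [hs]
    rw [card_even, card_evenW] at iE
    rw [card_odd, card_oddW] at iO
    rw [card_even, card_odd] at hcU
    rw [card_evenW, card_oddW] at hcW
    rw [hcU, hcW]
    have e1 : m4 W 0 + m4 W 2 + (m4 W 1 + m4 W 3) = m4 W 0 + m4 W 1 + m4 W 2 + m4 W 3 := by ring
    rw [e1]
    linarith
  · -- direct bound
    have hd := MM_direct U W
    unfold PWat
    unfold S3 wt at h
    have hcol : evn (m12 U) + od (m12 U) = co (m12 U) 0 + co (m12 U) 1 + co (m12 U) 2 := by
      unfold evn od u4 co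
      norm_num
      ring
    rw [card_even, card_odd] at hcU
    rw [card_evenW, card_oddW] at hcW
    rw [hcU] at hT ⊢
    rw [hcW]
    have e1 : m4 W 0 + m4 W 2 + (m4 W 1 + m4 W 3) = m4 W 0 + m4 W 1 + m4 W 2 + m4 W 3 := by ring
    rw [e1]
    have e2 : (evn (m12 U) + od (m12 U)) ^ 2 =
        (co (m12 U) 0 + co (m12 U) 1 + co (m12 U) 2) ^ 2 := by rw [hcol]
    rw [e2] at hT
    nlinarith

end Aff
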