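import Pool.Agent.helper94.Aff.Pair3

/-!
# Affine copies of {0,1,3}: the pairwise lemma for all sets and the final bound
-/

open Finset

namespace Aff

/-! ### Negation -/

theorem MM_neg (U W : Finset ℤ) :
    MM 2 U W = MM 1 (U.image fun x => -x) (W.image fun x => -x) := by
  classical
  unfold MM
  have hinj : ∀ S : Finset ℤ, Set.InjOn (fun x : ℤ => -x) S := by
    intro S a _ b _ h
    simp only at h
    omega
  rw [Finset.sum_image (hinj U)]
  refine Finset.sum_congr rfl fun x _ => ?_
  rw [Finset.sum_image (hinj U)]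
  refine Finset.sum_congr rfl fun z _ => ?_
  unfold mm
  have e1 : (z - x) % 3 = 2 ↔ (-z - -x) % 3 = 1 := by omega
  have e2 : (z - x) % 3 = 0 ↔ (-z - -x) % 3 = 0 := by omega
  have e3 : 2 * x + z ∈ W ↔ 2 * -x + -z ∈ W.image fun x => -x := by
    rw [Finset.mem_image]
    constructor
    · exact fun h => ⟨_, h, by ring⟩
    · rintro ⟨v, hv, h⟩
      have : 2 * x + z = v := by omega
      rw [this]
      exact hv
  have e4 : 2 * x + z ∈ tri U ↔ 2 * -x + -z ∈ tri (U.image fun x => -x) := by
    rw [mem_tri, mem_tri]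
    constructor
    · rintro ⟨y, hy, h⟩
      exact ⟨-y, Finset.mem_image_of_mem _ hy, by omega⟩
    · rintro ⟨y, hy, h⟩
      obtain ⟨v, hv, rfl⟩ := Finset.mem_image.1 hy
      exact ⟨v, hv, by omega⟩
  simp only [e1, e2, e3, e4]

theorem card_neg (U : Finset ℤ) : (U.image fun x => -x).card = U.card :=
  Finset.card_image_of_injective _ fun a b (h : _ = _) => by simpa using h

theorem PWat_neg {U W : Finset ℤ} (h : PWat 1 (U.image fun x => -x) (W.image fun x => -x)) :
    PWat 2 U W := by
  unfold PWat at *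
  rw [MM_neg]
  rwa [card_neg, card_neg] at h

theorem step' {U W : Finset ℤ} (hF : FI) (hPW : ∀ m < U.card, PW m)
    (h2 : ∃ x ∈ U, ∃ y ∈ U, x % 2 ≠ y % 2) (h3 : ∃ x ∈ U, ∃ y ∈ U, x % 3 ≠ y % 3)
    {d : ℤ} (hd : d = 1 ∨ d = 2) : PWat d U W := by
  rcases hd with rfl | rfl
  · exact step hF hPW h2 h3
  · refine PWat_neg (step hF (by rw [card_neg]; exact hPW) ?_ ?_)
    · obtain ⟨x, hx, y, hy, h⟩ := h2
      exact ⟨-x, Finset.mem_image_of_mem _ hx, -y, Finset.mem_image_of_mem _ hy, by omega⟩
    · obtain ⟨x, hx, y, hy, h⟩ := h3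
      exact ⟨-x, Finset.mem_image_of_mem _ hx, -y, Finset.mem_image_of_mem _ hy, by omega⟩

/-! ### One parity class -/

theorem halve {U W : Finset ℤ} (hU : 2 ≤ U.card) (h : ∀ x ∈ U, ∀ y ∈ U, x % 2 = y % 2)
    {d : ℤ} (hd : d = 1 ∨ d = 2) :
    ∃ U' W' : Finset ℤ, ∃ d' : ℤ, (d' = 1 ∨ d' = 2) ∧ U'.card = U.card ∧ W'.card ≤ W.card ∧
      spread U' < spread U ∧ MM d U W = MM d' U' W' := by
  classical
  obtain ⟨x₀, hx₀⟩ : U.Nonempty := Finset.card_pos.1 (by omega)
  set f : ℤ → ℤ := fun x => (x - x₀) / 2 with hf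
  set U' := U.image f with hU'
  set W' := (W.filter fun w => (w - 3 * x₀) % 2 = 0).image (fun w => (w - 3 * x₀) / 2) with hW'
  have hdiv : ∀ x ∈ U, x₀ + 2 * f x = x := by
    intro x hx
    have := h x hx x₀ hx₀
    simp only [hf]
    omega
  have hinj : Set.InjOn f U := by
    intro a ha b hb hab
    rw [← hdiv a ha, ← hdiv b hb, hab]
  have hcard : U'.card = U.card := Finset.card_image_of_injOn hinj
  have hcW : W'.card ≤ W.card :=
    Finset.card_image_le.trans (Finset.card_filter_le _ _)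
  have hUU : U = U'.image fun x => x₀ + 2 * x := by
    rw [hU', Finset.image_image]
    ext x
    simp only [Finset.mem_image, Function.comp]
    constructor
    · intro hx
      exact ⟨x, hx, hdiv x hx⟩
    · rintro ⟨y, hy, rfl⟩
      rw [hdiv y hy]
      exact hy
  have hspread : spread U' < spread U := by
    have h1 : spread U = (2 : ℤ).natAbs * spread U' := by
      conv_lhs => rw [hUU]
      exact spread_image U' x₀ 2 (by norm_num)
    have h2 : 0 < spread U' := spread_pos (by omega)
    have h3 : (2 : ℤ).natAbs = 2 := rfl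
    rw [h3] at h1
    omega
  refine ⟨U', W', (2 * d) % 3, ?_, hcard, hcW, hspread, ?_⟩
  · rcases hd with rfl | rfl
    · right; norm_num
    · left; norm_num
  · unfold MM
    rw [hU', Finset.sum_image hinj]
    refine Finset.sum_congr rfl fun x hx => ?_
    rw [Finset.sum_image hinj]
    refine Finset.sum_congr rfl fun z hz => ?_
    have hx1 := hdiv x hx
    have hz1 := hdiv z hz
    rw [← hU']
    unfold mm
    have e1 : (z - x) % 3 = d ↔ (f z - f x) % 3 = (2 * d) % 3 := by
      rcases hd with rfl | rfl <;> omega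
    have e2 : (z - x) % 3 = 0 ↔ (f z - f x) % 3 = 0 := by omega
    have e3 : 2 * x + z ∈ W ↔ 2 * f x + f z ∈ W' := by
      rw [hW', Finset.mem_image]
      constructor
      · intro hm
        exact ⟨_, Finset.mem_filter.2 ⟨hm, by omega⟩, by omega⟩
      · rintro ⟨v, hv, hv2⟩
        obtain ⟨hv3, hv4⟩ := Finset.mem_filter.1 hv
        have : 2 * x + z = v := by omega
        rw [this]
        exact hv3
    have e4 : 2 * x + z ∈ tri U ↔ 2 * f x + f z ∈ tri U' := by
      rw [mem_tri, mem_tri]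
      constructor
      · rintro ⟨y, hy, hy2⟩
        have hy1 := hdiv y hy
        exact ⟨f y, Finset.mem_image_of_mem _ hy, by omega⟩
      · rintro ⟨y, hy, hy2⟩
        obtain ⟨v, hv, rfl⟩ := Finset.mem_image.1 hy
        have hv1 := hdiv v hv
        exact ⟨v, hv, by omega⟩
    simp only [e1, e2, e3, e4]

/-! ### The induction -/

theorem MM_ge_single {U W : Finset ℤ} {d : ℤ} (h3 : ∀ x ∈ U, ∀ y ∈ U, x % 3 = y % 3) :
    1 / 2 * ((U.card : ℝ) ^ 2 - T0 U) ≤ MM d U W := by
  classical
  have h1 : 1 / 2 * ((U.card : ℝ) ^ 2 - T0 U) =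
      ∑ x ∈ U, ∑ z ∈ U, (if (z - x) % 3 = 0 ∧ 2 * x + z ∉ tri U then (1 / 2 : ℝ) else 0) := by
    have e1 : (U.card : ℝ) ^ 2 = ∑ x ∈ U, ∑ z ∈ U, (1 : ℝ) := by
      simp only [Finset.sum_const, nsmul_eq_mul, mul_one]
      ring
    rw [e1, ← tri_count U, Q2, ← sum_ind U U (fun x z => 2 * x + z ∈ tri U),
      ← Finset.sum_sub_distrib, Finset.mul_sum]
    refine Finset.sum_congr rfl fun x hx => ?_
    rw [← Finset.sum_sub_distrib, Finset.mul_sum]
    refine Finset.sum_congr rfl fun z hz => ?_
    have e : (z - x) % 3 = 0 := by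
      have := h3 x hx z hz
      omega
    by_cases h : 2 * x + z ∈ tri U
    · simp [h, e]
    · simp [h, e]
  rw [h1]
  unfold MM
  refine Finset.sum_le_sum fun x _ => Finset.sum_le_sum fun z _ => ?_
  unfold mm
  have : (0 : ℝ) ≤ (if (z - x) % 3 = d ∧ 2 * x + z ∉ W then (1 : ℝ) else 0) := by
    split_ifs <;> norm_num
  linarith

theorem max_sq_le {u w w' : ℝ} (h : w' ≤ w) : (max (u - w) 0) ^ 2 ≤ (max (u - w') 0) ^ 2 := by
  have h1 : max (u - w) 0 ≤ max (u - w') 0 := max_le_max (by linarith) le_rfl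
  have h2 : 0 ≤ max (u - w) 0 := le_max_right _ _
  exact pow_le_pow_left₀ h2 h1 2

theorem PW_all (hF : FI) : ∀ n, PW n := by
  classical
  intro n
  induction n using Nat.strong_induction_on with
  | _ n ih =>
    have hT : ∀ U : Finset ℤ, U.card = n → 2 ≤ n →
        (T0 U : ℝ) ≤ 1 / 3 * (U.card : ℝ) ^ 2 + 14 * U.card - 24 := by
      intro U hU hn
      obtain ⟨B, hB1, hB2, -, hB4⟩ := rescale _ U rfl (by omega)
      rw [← hB2, ← hB1]
      refine T0_le_of_PW ?_ hB4
      rw [hB1, hU]
      exact ih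
    have key : ∀ k : ℕ, ∀ U W : Finset ℤ, spread U = k → U.card = n → 2 ≤ n →
        ∀ d : ℤ, (d = 1 ∨ d = 2) → PWat d U W := by
      intro k
      induction k using Nat.strong_induction_on with
      | _ k ihk =>
        intro U W hk hU hn d hd
        by_cases h2 : ∀ x ∈ U, ∀ y ∈ U, x % 2 = y % 2
        · obtain ⟨U', W', d', hd', hc, hcW, hs, hM⟩ := halve (W := W) (by omega) h2 hd
          have h4 := ihk (spread U') (by omega) U' W' rfl (by omega) hn d' hd'
          unfold PWat at *
          rw [hM]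
          rw [hc] at h4
          have hW : (W'.card : ℝ) ≤ W.card := by exact_mod_cast hcW
          have := max_sq_le (u := (U.card : ℝ)) hW
          linarith
        by_cases h3 : ∀ x ∈ U, ∀ y ∈ U, x % 3 = y % 3
        · have h4 := MM_ge_single (W := W) (d := d) h3
          have h5 := hT U hU hn
          unfold PWat
          have h6 : (max ((U.card : ℝ) - W.card) 0) ^ 2 ≤ (U.card : ℝ) ^ 2 := by
            have h7 : (0 : ℝ) ≤ W.card := Nat.cast_nonneg _
            have h8 : (0 : ℝ) ≤ U.card := Nat.cast_nonneg _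
            have h9 : max ((U.card : ℝ) - W.card) 0 ≤ U.card := max_le (by linarith) h8
            exact pow_le_pow_left₀ (le_max_right _ _) h9 2
          linarith
        push Not at h2 h3
        exact step' hF (by rw [hU]; exact ih) h2 h3 hd
    intro U W hU hne d hd
    rcases Nat.lt_or_ge n 2 with hlt | hge
    · have h1 : U.card = 1 := by
        have := Finset.card_pos.2 hne
        omega
      unfold PWat
      have h2 := MM_nonneg d U W
      rw [h1]
      have h3 : (0 : ℝ) ≤ W.card := Nat.cast_nonneg _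
      have h4 : max (((1 : ℕ) : ℝ) - W.card) 0 ≤ 1 := max_le (by push_cast; linarith) (by norm_num)
      have h5 : (max (((1 : ℕ) : ℝ) - W.card) 0) ^ 2 ≤ 1 ^ 2 :=
        pow_le_pow_left₀ (le_max_right _ _) h4 2
      push_cast at *
      linarith
    · exact key _ U W rfl hU hge d hd

/-- The bound for all finite sets, from the finite inequality. -/
theorem T0_le (hF : FI) (A : Finset ℤ) :
    (T0 A : ℝ) ≤ 1 / 3 * (A.card : ℝ) ^ 2 + 14 * A.card := by
  rcases Nat.lt_or_ge A.card 2 with hlt | hge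
  · have h2 : T0 A ≤ A.card * A.card :=
      (Finset.card_filter_le _ _).trans (Finset.card_product _ _).le
    have h4 : T0 A ≤ A.card := by
      have : A.card * A.card ≤ A.card * 1 := Nat.mul_le_mul_left _ (by omega)
      omega
    have h3 : (T0 A : ℝ) ≤ A.card := by exact_mod_cast h4
    have h5 : (0 : ℝ) ≤ A.card := Nat.cast_nonneg _
    nlinarith [sq_nonneg (A.card : ℝ)]
  · obtain ⟨B, hB1, hB2, -, hB4⟩ := rescale _ A rfl hge
    rw [← hB2, ← hB1]
    have := T0_le_of_PW (fun m _ => PW_all hF m) hB4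
    linarith

end Aff
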