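import Pool.Agent.helper94.Aff.Pair4

/-!
# Affine copies of {0,1,3}: the finite inequality with count variables
-/

open Finset

namespace Aff

/-! ### Unions of classes -/

/-- Union of residue classes. -/
def clsS (m : ℕ) (U : Finset ℤ) (A : Finset ℕ) : Finset ℤ :=
  U.filter fun x => (x % (m : ℤ)).toNat ∈ A

theorem sum_clsS {m : ℕ} (hm : 0 < m) (U : Finset ℤ) {A : Finset ℕ} (_hA : A ⊆ range m)
    (f : ℤ → ℝ) : ∑ x ∈ clsS m U A, f x = ∑ p ∈ A, ∑ x ∈ cls m U p, f x := by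
  classical
  have hm' : (0 : ℤ) < m := by exact_mod_cast hm
  have h1 : ∀ x ∈ clsS m U A, (x % (m : ℤ)).toNat ∈ A := fun x hx => (Finset.mem_filter.1 hx).2
  rw [← Finset.sum_fiberwise_of_maps_to h1]
  refine Finset.sum_congr rfl fun p hp => ?_
  refine Finset.sum_congr ?_ fun _ _ => rfl
  ext x
  simp only [cls, clsS, Finset.mem_filter]
  have h2 := Int.emod_nonneg x hm'.ne'
  constructor
  · rintro ⟨⟨h3, h4⟩, h5⟩
    exact ⟨h3, by omega⟩
  · rintro ⟨h3, h4⟩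
    have h5 : (x % (m : ℤ)).toNat = p := by omega
    exact ⟨⟨h3, by rw [h5]; exact hp⟩, h5⟩

theorem card_clsS {m : ℕ} (hm : 0 < m) (U : Finset ℤ) {A : Finset ℕ} (hA : A ⊆ range m) :
    ((clsS m U A).card : ℝ) = ∑ p ∈ A, ((cls m U p).card : ℝ) := by
  have h := sum_clsS hm U hA (fun _ => (1 : ℝ))
  simpa only [Finset.sum_const, nsmul_eq_mul, mul_one] using h

theorem Q2_sum (X Z W : Finset ℤ) :
    (Q2 X Z W : ℝ) = ∑ x ∈ X, ∑ z ∈ Z, (if 2 * x + z ∈ W then (1 : ℝ) else 0) :=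
  (sum_ind X Z fun x z => 2 * x + z ∈ W).symm

theorem Q2_group (U V : Finset ℤ) {A B : Finset ℕ} (hA : A ⊆ range 6) (hB : B ⊆ range 12) :
    ∑ p ∈ A, ∑ q ∈ B, (Q2 (cls 6 U p) (cls 12 U q) V : ℝ) = Q2 (clsS 6 U A) (clsS 12 U B) V := by
  rw [Q2_sum, sum_clsS (by norm_num) U hA]
  refine Finset.sum_congr rfl fun p _ => ?_
  have h1 : ∀ x ∈ cls 6 U p, ∑ z ∈ clsS 12 U B, (if 2 * x + z ∈ V then (1 : ℝ) else 0) =
      ∑ q ∈ B, ∑ z ∈ cls 12 U q, (if 2 * x + z ∈ V then (1 : ℝ) else 0) := fun x _ =>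
    sum_clsS (by norm_num) U hB _
  rw [Finset.sum_congr rfl h1, Finset.sum_comm]
  refine Finset.sum_congr rfl fun q _ => ?_
  rw [Q2_sum]

theorem P_nonneg {a b c : ℝ} (ha : 0 ≤ a) (hb : 0 ≤ b) (hc : 0 ≤ c) : 0 ≤ P a b c := by
  rcases P_cases ha hb hc with ⟨h, e⟩ | ⟨h, e⟩ | ⟨h, e⟩ | ⟨h1, h2, h3, e⟩ <;> rw [e]
  · exact mul_nonneg ha hb
  · exact mul_nonneg ha hc
  · exact mul_nonneg hb hc
  · have h4 : (a + b - c) / 2 ≤ a := by linarith
    have h5 : (a + b - c) / 2 ≤ b := by linarith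
    have h6 : 0 ≤ (a + b - c) / 2 := by linarith
    nlinarith [mul_le_mul h4 h5 h6 ha]

/-- Shaving off `1/4`. -/
theorem shave {ι : Type*} (s : Finset ι) (n : ι → ℝ) (hn : ∀ i ∈ s, 0 ≤ n i) {X : ℝ}
    (hX : 0 ≤ X) (h : ∑ i ∈ s, n i ≤ X + 1 / 4) : ∑ i ∈ s, max (n i - 1 / 4) 0 ≤ X := by
  classical
  by_cases h1 : ∃ i ∈ s, 1 / 4 ≤ n i
  · obtain ⟨i, hi, h2⟩ := h1
    rw [← Finset.add_sum_erase s _ hi] at h ⊢
    have h3 : ∑ j ∈ s.erase i, max (n j - 1 / 4) 0 ≤ ∑ j ∈ s.erase i, n j := by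
      refine Finset.sum_le_sum fun j hj => ?_
      have := hn j (Finset.mem_of_mem_erase hj)
      exact max_le (by linarith) this
    rw [max_eq_left (by linarith)]
    linarith
  · push Not at h1
    have h3 : ∑ i ∈ s, max (n i - 1 / 4) 0 = 0 := by
      refine Finset.sum_eq_zero fun i hi => ?_
      have := h1 i hi
      exact max_eq_right (by linarith)
    rw [h3]
    exact hX

/-! ### Count variables -/

/-- Group bounds for off-column counts. -/
def okC (a W : ℕ → ℝ) (C : ℕ → ℕ → ℝ) : Prop :=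
  ∀ A B H : Finset ℕ, A ⊆ range 6 → B ⊆ range 12 → H ⊆ range 4 →
    (∀ p ∈ A, ∀ q ∈ B, (q + 2 * p) % 3 = 1 ∧ (2 * p + q) % 4 ∈ H) →
    ∑ p ∈ A, ∑ q ∈ B, C p q ≤ P (∑ p ∈ A, xx a p) (∑ q ∈ B, a q) (∑ h ∈ H, W h)

/-- Group bounds for in-column counts. -/
def okD (a : ℕ → ℝ) (D : ℕ → ℕ → ℝ) : Prop :=
  ∀ A B H : Finset ℕ, A ⊆ range 6 → B ⊆ range 12 → H ⊆ range 4 →
    (∀ p ∈ A, ∀ q ∈ B, (q + 2 * p) % 3 = 0 ∧ (2 * p + 3 * q) % 4 ∈ H) →
    ∑ p ∈ A, ∑ q ∈ B, D p q ≤ P (∑ p ∈ A, xx a p) (∑ q ∈ B, a q) (∑ h ∈ H, u4 a h)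

/-- Even off-column counts. -/
noncomputable def CE (C : ℕ → ℕ → ℝ) : ℝ :=
  ∑ p ∈ range 6, ∑ q ∈ range 12, if (q + 2 * p) % 3 = 1 ∧ p % 2 = 0 ∧ q % 2 = 0 then C p q else 0

/-- Odd off-column counts. -/
noncomputable def CO (C : ℕ → ℕ → ℝ) : ℝ :=
  ∑ p ∈ range 6, ∑ q ∈ range 12, if (q + 2 * p) % 3 = 1 ∧ p % 2 = 1 ∧ q % 2 = 1 then C p q else 0

/-- Mixed off-column counts. -/
noncomputable def CM (C : ℕ → ℕ → ℝ) : ℝ :=
  ∑ p ∈ range 6, ∑ q ∈ range 12, if (q + 2 * p) % 3 = 1 ∧ (p + q) % 2 = 1 then C p q else 0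

/-- Mixed in-column counts. -/
noncomputable def DM (D : ℕ → ℕ → ℝ) : ℝ :=
  ∑ p ∈ range 6, ∑ q ∈ range 12, if (q + 2 * p) % 3 = 0 ∧ (p + q) % 2 = 1 then D p q else 0

/-- The parity cut, with the better of the two bounds on each parity class. -/
noncomputable def S24 (a W : ℕ → ℝ) (C D : ℕ → ℕ → ℝ) : ℝ :=
  max (1 / 3 * (max (evn a - (W 0 + W 2)) 0) ^ 2) (1 / 3 * evn a ^ 2 - CE C) +
    max (1 / 3 * (max (od a - (W 1 + W 3)) 0) ^ 2) (1 / 3 * od a ^ 2 - CO C) +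
    evn a * od a - CM C - 1 / 2 * DM D - 1 / 3 * (evn a + od a - wt W) ^ 2

/-- The direct bound. -/
noncomputable def S3c (a W : ℕ → ℝ) (C : ℕ → ℕ → ℝ) : ℝ :=
  1 / 3 * (evn a + od a) ^ 2 - (CE C + CO C + CM C) - 1 / 3 * (evn a + od a - wt W) ^ 2

/-- The finite inequality with count variables, under a normalisation `Nm`. -/
def FIc (Nm : (ℕ → ℝ) → (ℕ → ℝ) → Prop) : Prop :=
  ∀ (a W : ℕ → ℝ) (C D : ℕ → ℕ → ℝ), (∀ q, 0 ≤ a q) → (∀ h, 0 ≤ W h) → (∀ p q, 0 ≤ C p q) →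
    (∀ p q, 0 ≤ D p q) → Nm a W → 0 < evn a → 0 < od a → wt W < evn a + od a →
    (∃ i < 3, ∃ j < 3, i ≠ j ∧ 0 < co a i ∧ 0 < co a j) → okC a W C → okD a D →
    0 ≤ S24 a W C D ∨ 0 ≤ S3c a W C

/-! ### Actual counts -/

/-- Actual off-column counts. -/
noncomputable def nC (U W : Finset ℤ) (p q : ℕ) : ℝ := Q2 (cls 6 U p) (cls 12 U q) W

/-- Actual in-column counts. -/
noncomputable def nD (U : Finset ℤ) (p q : ℕ) : ℝ := Q2 (cls 6 U p) (cls 12 U q) (tri U)

theorem nC_nonneg (U W : Finset ℤ) (p q : ℕ) : 0 ≤ nC U W p q := Nat.cast_nonneg _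

theorem nD_nonneg (U : Finset ℤ) (p q : ℕ) : 0 ≤ nD U p q := Nat.cast_nonneg _

/-- Shaved off-column counts. -/
noncomputable def sC (U W : Finset ℤ) (p q : ℕ) : ℝ := max (nC U W p q - 1 / 4) 0

/-- Shaved in-column counts. -/
noncomputable def sD (U : Finset ℤ) (p q : ℕ) : ℝ := max (nD U p q - 1 / 4) 0

theorem Q2_mono_W (X Z : Finset ℤ) {W W' : Finset ℤ}
    (h : ∀ x ∈ X, ∀ z ∈ Z, 2 * x + z ∈ W → 2 * x + z ∈ W') : Q2 X Z W ≤ Q2 X Z W' := by
  classical
  refine Finset.card_le_card fun p hp => ?_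
  obtain ⟨h1, h2⟩ := Finset.mem_filter.1 hp
  obtain ⟨h3, h4⟩ := Finset.mem_product.1 h1
  exact Finset.mem_filter.2 ⟨h1, h _ h3 _ h4 h2⟩

theorem card_tri (U : Finset ℤ) : (tri U).card = U.card :=
  Finset.card_image_of_injective _ fun a b (h : _ = _) => by simpa using h

theorem sC_ok (U W : Finset ℤ) : okC (m12 U) (m4 W) (sC U W) := by
  classical
  intro A B H hA hB hH hAB
  rw [← Finset.sum_product']
  have hx : ∑ p ∈ A, xx (m12 U) p = ((clsS 6 U A).card : ℝ) := by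
    rw [card_clsS (by norm_num) U hA]
    exact Finset.sum_congr rfl fun p hp => (card_cls6 U (Finset.mem_range.1 (hA hp))).symm
  have hz : ∑ q ∈ B, m12 U q = ((clsS 12 U B).card : ℝ) := by
    rw [card_clsS (by norm_num) U hB]
    rfl
  have hw : ∑ h ∈ H, m4 W h = ((clsS 4 W H).card : ℝ) := by
    rw [card_clsS (by norm_num) W hH]
    rfl
  rw [hx, hz, hw]
  unfold sC
  refine shave (A ×ˢ B) (fun v => nC U W v.1 v.2) (fun v _ => nC_nonneg _ _ _ _)
    (P_nonneg (Nat.cast_nonneg _) (Nat.cast_nonneg _) (Nat.cast_nonneg _)) ?_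
  rw [Finset.sum_product]
  unfold nC
  rw [Q2_group U W hA hB]
  refine le_trans ?_ (Q2_le_P _ _ _)
  have h1 : Q2 (clsS 6 U A) (clsS 12 U B) W ≤ Q2 (clsS 6 U A) (clsS 12 U B) (clsS 4 W H) := by
    refine Q2_mono_W _ _ fun x hx z hz hw => ?_
    obtain ⟨-, hx2⟩ := Finset.mem_filter.1 hx
    obtain ⟨-, hz2⟩ := Finset.mem_filter.1 hz
    refine Finset.mem_filter.2 ⟨hw, ?_⟩
    have h2 := (hAB _ hx2 _ hz2).2
    push_cast at hx2 hz2 h2 ⊢
    have h3 : ((2 * x + z) % 4).toNat = (2 * (x % 6).toNat + (z % 12).toNat) % 4 := by omega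
    rw [h3]
    exact h2
  exact_mod_cast h1

theorem sD_ok (U : Finset ℤ) : okD (m12 U) (sD U) := by
  classical
  intro A B H hA hB hH hAB
  rw [← Finset.sum_product']
  have hx : ∑ p ∈ A, xx (m12 U) p = ((clsS 6 U A).card : ℝ) := by
    rw [card_clsS (by norm_num) U hA]
    exact Finset.sum_congr rfl fun p hp => (card_cls6 U (Finset.mem_range.1 (hA hp))).symm
  have hz : ∑ q ∈ B, m12 U q = ((clsS 12 U B).card : ℝ) := by
    rw [card_clsS (by norm_num) U hB]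
    rfl
  have hw : ∑ h ∈ H, u4 (m12 U) h = ((tri (clsS 4 U H)).card : ℝ) := by
    rw [card_tri, card_clsS (by norm_num) U hH]
    exact Finset.sum_congr rfl fun p hp => (card_cls4 U (Finset.mem_range.1 (hH hp))).symm
  rw [hx, hz, hw]
  unfold sD
  refine shave (A ×ˢ B) (fun v => nD U v.1 v.2) (fun v _ => nD_nonneg _ _ _)
    (P_nonneg (Nat.cast_nonneg _) (Nat.cast_nonneg _) (Nat.cast_nonneg _)) ?_
  rw [Finset.sum_product]
  unfold nD
  rw [Q2_group U (tri U) hA hB]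
  refine le_trans ?_ (Q2_le_P _ _ _)
  have h1 : Q2 (clsS 6 U A) (clsS 12 U B) (tri U) ≤
      Q2 (clsS 6 U A) (clsS 12 U B) (tri (clsS 4 U H)) := by
    refine Q2_mono_W _ _ fun x hx z hz hw => ?_
    obtain ⟨-, hx2⟩ := Finset.mem_filter.1 hx
    obtain ⟨-, hz2⟩ := Finset.mem_filter.1 hz
    obtain ⟨y, hy, hy2⟩ := mem_tri.1 hw
    refine mem_tri.2 ⟨y, Finset.mem_filter.2 ⟨hy, ?_⟩, hy2⟩
    have h2 := (hAB _ hx2 _ hz2).2
    push_cast at hx2 hz2 h2 ⊢
    have h3 : (y % 4).toNat = (2 * (x % 6).toNat + 3 * (z % 12).toNat) % 4 := by omega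
    rw [h3]
    exact h2
  exact_mod_cast h1

theorem nC_le (U W : Finset ℤ) (p q : ℕ) : nC U W p q ≤ sC U W p q + 1 / 4 := by
  have := le_max_left (nC U W p q - 1 / 4) 0
  unfold sC
  linarith

theorem nD_le (U : Finset ℤ) (p q : ℕ) : nD U p q ≤ sD U p q + 1 / 4 := by
  have := le_max_left (nD U p q - 1 / 4) 0
  unfold sD
  linarith

/-! ### Identities for the deficit -/

/-- Off-column hits. -/
noncomputable def NN (U W : Finset ℤ) : ℝ :=
  ∑ x ∈ U, ∑ z ∈ U, (if (z - x) % 3 = 1 ∧ 2 * x + z ∈ W then (1 : ℝ) else 0)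

theorem pairs_half (U : Finset ℤ) :
    ∑ x ∈ U, ∑ z ∈ U, (if (z - x) % 3 = 1 then (1 : ℝ) else 0) +
      1 / 2 * ∑ x ∈ U, ∑ z ∈ U, (if (z - x) % 3 = 0 then (1 : ℝ) else 0) =
      1 / 2 * (U.card : ℝ) ^ 2 := by
  classical
  have h1 : ∑ x ∈ U, ∑ z ∈ U, (if (z - x) % 3 = 1 then (1 : ℝ) else 0) =
      ∑ x ∈ U, ∑ z ∈ U, (if (z - x) % 3 = 2 then (1 : ℝ) else 0) := by
    rw [Finset.sum_comm]
    refine Finset.sum_congr rfl fun x _ => Finset.sum_congr rfl fun z _ => ?_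
    have : (x - z) % 3 = 1 ↔ (z - x) % 3 = 2 := by omega
    simp only [this]
  have h2 : ∑ x ∈ U, ∑ z ∈ U, (if (z - x) % 3 = 0 then (1 : ℝ) else 0) +
      ∑ x ∈ U, ∑ z ∈ U, (if (z - x) % 3 = 1 then (1 : ℝ) else 0) +
      ∑ x ∈ U, ∑ z ∈ U, (if (z - x) % 3 = 2 then (1 : ℝ) else 0) = (U.card : ℝ) ^ 2 := by
    have e1 : (U.card : ℝ) ^ 2 = ∑ x ∈ U, ∑ z ∈ U, (1 : ℝ) := by
      simp only [Finset.sum_const, nsmul_eq_mul, mul_one]
      ring
    rw [e1, ← Finset.sum_add_distrib, ← Finset.sum_add_distrib]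
    refine Finset.sum_congr rfl fun x _ => ?_
    rw [← Finset.sum_add_distrib, ← Finset.sum_add_distrib]
    refine Finset.sum_congr rfl fun z _ => ?_
    have h3 : (z - x) % 3 = 0 ∨ (z - x) % 3 = 1 ∨ (z - x) % 3 = 2 := by omega
    rcases h3 with h | h | h <;> simp [h]
  linarith

theorem MM_eq (U W : Finset ℤ) :
    MM 1 U W = 1 / 2 * (U.card : ℝ) ^ 2 - NN U W - 1 / 2 * T0 U := by
  classical
  have h0 : MM 1 U W = ∑ x ∈ U, ∑ z ∈ U,
      ((if (z - x) % 3 = 1 then (1 : ℝ) else 0) + 1 / 2 * (if (z - x) % 3 = 0 then (1 : ℝ) else 0) -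
        (if (z - x) % 3 = 1 ∧ 2 * x + z ∈ W then (1 : ℝ) else 0) -
        1 / 2 * (if 2 * x + z ∈ tri U then (1 : ℝ) else 0)) := by
    unfold MM mm
    refine Finset.sum_congr rfl fun x _ => Finset.sum_congr rfl fun z _ => ?_
    have h3 : (z - x) % 3 = 0 ∨ (z - x) % 3 = 1 ∨ (z - x) % 3 = 2 := by omega
    have h4 : 2 * x + z ∈ tri U → (z - x) % 3 = 0 := by
      intro h
      obtain ⟨y, _, h5⟩ := mem_tri.1 h
      omega
    by_cases hw : 2 * x + z ∈ W <;> by_cases ht : 2 * x + z ∈ tri U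
    · have := h4 ht
      simp [hw, ht, this]
    · rcases h3 with h | h | h <;> simp [hw, ht, h]
    · have := h4 ht
      simp [hw, ht, this]
    · rcases h3 with h | h | h <;> simp [hw, ht, h]
  have h1 := pairs_half U
  have h2 : (T0 U : ℝ) = ∑ x ∈ U, ∑ z ∈ U, (if 2 * x + z ∈ tri U then (1 : ℝ) else 0) := by
    rw [← tri_count U, Q2_sum]
  rw [h0, h2]
  unfold NN
  simp only [Finset.sum_sub_distrib, Finset.sum_add_distrib, ← Finset.mul_sum]
  linarith

/-- Splitting a double sum into cells. -/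
theorem cells (U : Finset ℤ) (f : ℤ → ℤ → ℝ) :
    ∑ x ∈ U, ∑ z ∈ U, f x z =
      ∑ p ∈ range 6, ∑ q ∈ range 12, ∑ x ∈ cls 6 U p, ∑ z ∈ cls 12 U q, f x z := by
  rw [sum_cls 6 (by norm_num) U]
  refine Finset.sum_congr rfl fun p _ => ?_
  symm
  rw [Finset.sum_comm]
  refine Finset.sum_congr rfl fun x _ => ?_
  exact (sum_cls 12 (by norm_num) U _).symm

theorem NN_eq (U W : Finset ℤ) : NN U W = CE (nC U W) + CO (nC U W) + CM (nC U W) := by
  classical
  unfold NN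
  rw [cells]
  unfold CE CO CM
  rw [← Finset.sum_add_distrib, ← Finset.sum_add_distrib]
  refine Finset.sum_congr rfl fun p _ => ?_
  rw [← Finset.sum_add_distrib, ← Finset.sum_add_distrib]
  refine Finset.sum_congr rfl fun q _ => ?_
  by_cases hpq : (q + 2 * p) % 3 = 1
  · have h1 : ∑ x ∈ cls 6 U p, ∑ z ∈ cls 12 U q,
        (if (z - x) % 3 = 1 ∧ 2 * x + z ∈ W then (1 : ℝ) else 0) = nC U W p q := by
      unfold nC
      rw [Q2_sum]
      refine Finset.sum_congr rfl fun x hx => Finset.sum_congr rfl fun z hz => ?_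
      have hx' := (mem_cls.1 hx).2
      have hz' := (mem_cls.1 hz).2
      push_cast at hx' hz'
      have e1 : (z - x) % 3 = 1 := by omega
      simp only [e1, true_and]
    rw [h1]
    have h2 : p % 2 = 0 ∨ p % 2 = 1 := by omega
    have h3 : q % 2 = 0 ∨ q % 2 = 1 := by omega
    rcases h2 with h2 | h2 <;> rcases h3 with h3 | h3
    · have : ¬ (p + q) % 2 = 1 := by omega
      simp [hpq, h2, h3, this]
    · have : (p + q) % 2 = 1 := by omega
      simp [hpq, h2, h3, this]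
    · have : (p + q) % 2 = 1 := by omega
      simp [hpq, h2, h3, this]
    · have : ¬ (p + q) % 2 = 1 := by omega
      simp [hpq, h2, h3, this]
  · simp only [hpq, false_and, if_false, add_zero]
    refine Finset.sum_eq_zero fun x hx => Finset.sum_eq_zero fun z hz => ?_
    have hx' := (mem_cls.1 hx).2
    have hz' := (mem_cls.1 hz).2
    push_cast at hx' hz'
    have e1 : ¬ (z - x) % 3 = 1 := by omega
    simp only [e1, false_and, if_false]

theorem NN_parity (U W : Finset ℤ) {i : ℕ} (hi : i < 2) :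
    NN (U.filter fun x => x % 2 = (i : ℤ)) (W.filter fun x => x % 2 = (i : ℤ)) =
      ∑ p ∈ range 6, ∑ q ∈ range 12,
        if (q + 2 * p) % 3 = 1 ∧ p % 2 = i ∧ q % 2 = i then nC U W p q else 0 := by
  classical
  have h0 : NN (U.filter fun x => x % 2 = (i : ℤ)) (W.filter fun x => x % 2 = (i : ℤ)) =
      ∑ x ∈ U, ∑ z ∈ U, (if (z - x) % 3 = 1 ∧ x % 2 = (i : ℤ) ∧ z % 2 = (i : ℤ) ∧ 2 * x + z ∈ W
        then (1 : ℝ) else 0) := by
    unfold NN
    rw [Finset.sum_filter]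
    refine Finset.sum_congr rfl fun x _ => ?_
    split_ifs with h1
    · rw [Finset.sum_filter]
      refine Finset.sum_congr rfl fun z _ => ?_
      by_cases h2 : z % 2 = (i : ℤ)
      · have h3 : 2 * x + z ∈ W.filter (fun x => x % 2 = (i : ℤ)) ↔ 2 * x + z ∈ W := by
          rw [Finset.mem_filter]
          constructor
          · exact fun h => h.1
          · exact fun h => ⟨h, by omega⟩
        simp only [h1, h2, h3, true_and, if_true]
      · simp [h2]
    · symm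
      refine Finset.sum_eq_zero fun z _ => ?_
      simp [h1]
  rw [h0, cells]
  refine Finset.sum_congr rfl fun p _ => Finset.sum_congr rfl fun q _ => ?_
  split_ifs with h
  · obtain ⟨h1, h2, h3⟩ := h
    unfold nC
    rw [Q2_sum]
    refine Finset.sum_congr rfl fun x hx => Finset.sum_congr rfl fun z hz => ?_
    have hx' := (mem_cls.1 hx).2
    have hz' := (mem_cls.1 hz).2
    push_cast at hx' hz'
    have e1 : (z - x) % 3 = 1 := by omega
    have e2 : x % 2 = (i : ℤ) := by omega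
    have e3 : z % 2 = (i : ℤ) := by omega
    simp only [e1, e2, e3, true_and]
  · refine Finset.sum_eq_zero fun x hx => Finset.sum_eq_zero fun z hz => ?_
    have hx' := (mem_cls.1 hx).2
    have hz' := (mem_cls.1 hz).2
    push_cast at hx' hz'
    refine if_neg ?_
    rintro ⟨h1, h2, h3, -⟩
    exact h ⟨by omega, by omega, by omega⟩

/-- The mixed part. -/
theorem mixed_eq (U W : Finset ℤ) :
    ∑ x ∈ U, ∑ z ∈ U, (if (x + z) % 2 = 1 then mm 1 U W x z else 0) =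
      evn (m12 U) * od (m12 U) - CM (nC U W) - 1 / 2 * DM (nD U) := by
  classical
  have h1 : ∑ x ∈ U, ∑ z ∈ U, (if (x + z) % 2 = 1 then mm 1 U W x z else 0) =
      ∑ p ∈ range 6, ∑ q ∈ range 12,
        ((if (q + 2 * p) % 3 = 1 ∧ (p + q) % 2 = 1 then xx (m12 U) p * m12 U q else 0) +
        1 / 2 * (if (q + 2 * p) % 3 = 0 ∧ (p + q) % 2 = 1 then xx (m12 U) p * m12 U q else 0) -
        (if (q + 2 * p) % 3 = 1 ∧ (p + q) % 2 = 1 then nC U W p q else 0) -
        1 / 2 * (if (q + 2 * p) % 3 = 0 ∧ (p + q) % 2 = 1 then nD U p q else 0)) := by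
    rw [cells]
    refine Finset.sum_congr rfl fun p hp => Finset.sum_congr rfl fun q _ => ?_
    have hp' := Finset.mem_range.1 hp
    by_cases hpar : (p + q) % 2 = 1
    · have h3 : (q + 2 * p) % 3 = 0 ∨ (q + 2 * p) % 3 = 1 ∨ (q + 2 * p) % 3 = 2 := by omega
      have hcard : xx (m12 U) p * m12 U q = ∑ x ∈ cls 6 U p, ∑ z ∈ cls 12 U q, (1 : ℝ) := by
        rw [← card_cls6 U hp']
        simp only [Finset.sum_const, nsmul_eq_mul, mul_one]
        rfl
      rcases h3 with h | h | h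
      · have e1 : ¬ ((q + 2 * p) % 3 = 1 ∧ (p + q) % 2 = 1) := by omega
        have e1' : (q + 2 * p) % 3 = 0 ∧ (p + q) % 2 = 1 := ⟨h, hpar⟩
        simp only [if_neg e1, if_pos e1']
        rw [hcard, nD, Q2_sum]
        rw [show ∀ u v w t : ℝ, u + 1 / 2 * v - w - 1 / 2 * t = (u - w) + 1 / 2 * (v - t) from
          fun u v w t => by ring, sub_zero, zero_add, ← Finset.sum_sub_distrib, Finset.mul_sum]
        refine Finset.sum_congr rfl fun x hx => ?_
        rw [← Finset.sum_sub_distrib, Finset.mul_sum]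
        refine Finset.sum_congr rfl fun z hz => ?_
        have hx' := (mem_cls.1 hx).2
        have hz' := (mem_cls.1 hz).2
        push_cast at hx' hz'
        have e2 : (x + z) % 2 = 1 := by omega
        have e3 : (z - x) % 3 = 0 := by omega
        unfold mm
        by_cases ht : 2 * x + z ∈ tri U
        · simp [e2, e3, ht]
        · simp [e2, e3, ht]
      · have e1 : ¬ ((q + 2 * p) % 3 = 0 ∧ (p + q) % 2 = 1) := by omega
        have e1' : (q + 2 * p) % 3 = 1 ∧ (p + q) % 2 = 1 := ⟨h, hpar⟩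
        simp only [if_neg e1, if_pos e1']
        rw [hcard, nC, Q2_sum]
        rw [mul_zero, add_zero, sub_zero, ← Finset.sum_sub_distrib]
        refine Finset.sum_congr rfl fun x hx => ?_
        rw [← Finset.sum_sub_distrib]
        refine Finset.sum_congr rfl fun z hz => ?_
        have hx' := (mem_cls.1 hx).2
        have hz' := (mem_cls.1 hz).2
        push_cast at hx' hz'
        have e2 : (x + z) % 2 = 1 := by omega
        have e3 : (z - x) % 3 = 1 := by omega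
        unfold mm
        by_cases ht : 2 * x + z ∈ W
        · simp [e2, e3, ht]
        · simp [e2, e3, ht]
      · have e1 : ¬ (q + 2 * p) % 3 = 0 := by omega
        have e4 : ¬ (q + 2 * p) % 3 = 1 := by omega
        simp only [e1, e4, false_and, if_false]
        rw [mul_zero, add_zero, sub_zero, sub_zero]
        refine Finset.sum_eq_zero fun x hx => Finset.sum_eq_zero fun z hz => ?_
        have hx' := (mem_cls.1 hx).2
        have hz' := (mem_cls.1 hz).2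
        push_cast at hx' hz'
        have e3 : (z - x) % 3 = 2 := by omega
        unfold mm
        simp [e3]
    · simp only [hpar, and_false, if_false]
      rw [mul_zero, add_zero, sub_zero, sub_zero]
      refine Finset.sum_eq_zero fun x hx => Finset.sum_eq_zero fun z hz => ?_
      have hx' := (mem_cls.1 hx).2
      have hz' := (mem_cls.1 hz).2
      push_cast at hx' hz'
      rw [if_neg (by omega)]
  have h2 : ∑ p ∈ range 6, ∑ q ∈ range 12,
        (if (q + 2 * p) % 3 = 1 ∧ (p + q) % 2 = 1 then xx (m12 U) p * m12 U q else 0) +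
      1 / 2 * ∑ p ∈ range 6, ∑ q ∈ range 12,
        (if (q + 2 * p) % 3 = 0 ∧ (p + q) % 2 = 1 then xx (m12 U) p * m12 U q else 0) =
      evn (m12 U) * od (m12 U) := by
    generalize m12 U = a
    unfold evn od u4 xx
    simp [Finset.sum_range_succ]
    ring
  rw [h1]
  unfold CM DM
  simp only [Finset.sum_sub_distrib, Finset.sum_add_distrib, ← Finset.mul_sum]
  rw [h2]

end Aff
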