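import Pool.Agent.helper94.Aff.Pair5

/-!
# Affine copies of {0,1,3}: the pairwise lemma from the count form of the finite inequality
-/

open Finset

namespace Aff

theorem NN_nonneg (U W : Finset ℤ) : 0 ≤ NN U W :=
  Finset.sum_nonneg fun _ _ => Finset.sum_nonneg fun _ _ => by split_ifs <;> norm_num

theorem CE_le (U W : Finset ℤ) : CE (nC U W) ≤ CE (sC U W) + 3 / 2 := by
  have h : CE (nC U W) ≤ ∑ p ∈ range 6, ∑ q ∈ range 12,
      ((if (q + 2 * p) % 3 = 1 ∧ p % 2 = 0 ∧ q % 2 = 0 then sC U W p q else 0) +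
        (if (q + 2 * p) % 3 = 1 ∧ p % 2 = 0 ∧ q % 2 = 0 then (1 / 4 : ℝ) else 0)) := by
    unfold CE
    refine Finset.sum_le_sum fun p _ => Finset.sum_le_sum fun q _ => ?_
    have := nC_le U W p q
    split_ifs <;> linarith
  refine h.trans (le_of_eq ?_)
  simp only [Finset.sum_add_distrib]
  unfold CE
  congr 1
  simp [Finset.sum_range_succ]
  norm_num

theorem CO_le (U W : Finset ℤ) : CO (nC U W) ≤ CO (sC U W) + 3 / 2 := by
  have h : CO (nC U W) ≤ ∑ p ∈ range 6, ∑ q ∈ range 12,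
      ((if (q + 2 * p) % 3 = 1 ∧ p % 2 = 1 ∧ q % 2 = 1 then sC U W p q else 0) +
        (if (q + 2 * p) % 3 = 1 ∧ p % 2 = 1 ∧ q % 2 = 1 then (1 / 4 : ℝ) else 0)) := by
    unfold CO
    refine Finset.sum_le_sum fun p _ => Finset.sum_le_sum fun q _ => ?_
    have := nC_le U W p q
    split_ifs <;> linarith
  refine h.trans (le_of_eq ?_)
  simp only [Finset.sum_add_distrib]
  unfold CO
  congr 1
  simp [Finset.sum_range_succ]
  norm_num

theorem CM_le (U W : Finset ℤ) : CM (nC U W) ≤ CM (sC U W) + 3 := by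
  have h : CM (nC U W) ≤ ∑ p ∈ range 6, ∑ q ∈ range 12,
      ((if (q + 2 * p) % 3 = 1 ∧ (p + q) % 2 = 1 then sC U W p q else 0) +
        (if (q + 2 * p) % 3 = 1 ∧ (p + q) % 2 = 1 then (1 / 4 : ℝ) else 0)) := by
    unfold CM
    refine Finset.sum_le_sum fun p _ => Finset.sum_le_sum fun q _ => ?_
    have := nC_le U W p q
    split_ifs <;> linarith
  refine h.trans (le_of_eq ?_)
  simp only [Finset.sum_add_distrib]
  unfold CM
  congr 1
  simp [Finset.sum_range_succ]
  norm_num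

theorem DM_le (U : Finset ℤ) : DM (nD U) ≤ DM (sD U) + 3 := by
  have h : DM (nD U) ≤ ∑ p ∈ range 6, ∑ q ∈ range 12,
      ((if (q + 2 * p) % 3 = 0 ∧ (p + q) % 2 = 1 then sD U p q else 0) +
        (if (q + 2 * p) % 3 = 0 ∧ (p + q) % 2 = 1 then (1 / 4 : ℝ) else 0)) := by
    unfold DM
    refine Finset.sum_le_sum fun p _ => Finset.sum_le_sum fun q _ => ?_
    have := nD_le U p q
    split_ifs <;> linarith
  refine h.trans (le_of_eq ?_)
  simp only [Finset.sum_add_distrib]
  unfold DM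
  congr 1
  simp [Finset.sum_range_succ]
  norm_num

theorem sC_nonneg (U W : Finset ℤ) (p q : ℕ) : 0 ≤ sC U W p q := le_max_right _ _

theorem sD_nonneg (U : Finset ℤ) (p q : ℕ) : 0 ≤ sD U p q := le_max_right _ _

theorem CE_nonneg {C : ℕ → ℕ → ℝ} (h : ∀ p q, 0 ≤ C p q) : 0 ≤ CE C :=
  Finset.sum_nonneg fun _ _ => Finset.sum_nonneg fun _ _ => by
    split_ifs
    · exact h _ _
    · exact le_rfl

theorem CO_nonneg {C : ℕ → ℕ → ℝ} (h : ∀ p q, 0 ≤ C p q) : 0 ≤ CO C :=
  Finset.sum_nonneg fun _ _ => Finset.sum_nonneg fun _ _ => by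
    split_ifs
    · exact h _ _
    · exact le_rfl

/-- The bound for `T0` of smaller sets. -/
theorem T0_small {n : ℕ} (hPW : ∀ m < n, PW m) (V : Finset ℤ) (hV : V.card < n)
    (h2 : 2 ≤ V.card) : (T0 V : ℝ) ≤ 1 / 3 * (V.card : ℝ) ^ 2 + 14 * V.card - 24 := by
  obtain ⟨B, hB1, hB2, -, hB4⟩ := rescale _ V rfl h2
  rw [← hB2, ← hB1]
  refine T0_le_of_PW ?_ hB4
  intro m hm
  exact hPW m (by omega)

/-- The two bounds on a parity class. -/
theorem half_bound {n : ℕ} (hPW : ∀ m < n, PW m) {V W : Finset ℤ} (hV : V.card < n)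
    (hne : V.Nonempty) {c : ℝ} (hc : 0 ≤ c) (hN : NN V W ≤ c + 3 / 2) :
    max (1 / 3 * (max ((V.card : ℝ) - W.card) 0) ^ 2) (1 / 3 * (V.card : ℝ) ^ 2 - c) -
      7 * V.card + 6 ≤ MM 1 V W := by
  have h1 := hPW _ hV V W rfl hne 1 (Or.inl rfl)
  unfold PWat at h1
  have h2 : 1 / 3 * (V.card : ℝ) ^ 2 - c - 7 * V.card + 6 ≤ MM 1 V W := by
    rcases Nat.lt_or_ge V.card 2 with hlt | hge
    · have h3 : V.card = 1 := by
        have := Finset.card_pos.2 hne
        omega
      have h4 := MM_nonneg 1 V W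
      rw [h3]
      push_cast
      linarith
    · have h3 := T0_small hPW V hV hge
      rw [MM_eq]
      linarith
  have h3 : max (1 / 3 * (max ((V.card : ℝ) - W.card) 0) ^ 2) (1 / 3 * (V.card : ℝ) ^ 2 - c) ≤
      MM 1 V W + 7 * V.card - 6 := max_le (by linarith) (by linarith)
  linarith

/-- The main step, count form. -/
theorem stepc {U W : Finset ℤ} (hPW : ∀ m < U.card, PW m)
    (h2 : ∃ x ∈ U, ∃ y ∈ U, x % 2 ≠ y % 2) (h3 : ∃ x ∈ U, ∃ y ∈ U, x % 3 ≠ y % 3)
    (hlt : W.card < U.card)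
    (hS : 0 ≤ S24 (m12 U) (m4 W) (sC U W) (sD U) ∨ 0 ≤ S3c (m12 U) (m4 W) (sC U W)) :
    PWat 1 U W := by
  classical
  have hT := T0_le_of_PW hPW h3
  obtain ⟨x, hx, y, hy, hxy⟩ := h2
  have hEne : (U.filter fun x => x % 2 = 0).Nonempty := by
    rcases Int.emod_two_eq_zero_or_one x with h | h
    · exact ⟨x, Finset.mem_filter.2 ⟨hx, h⟩⟩
    · exact ⟨y, Finset.mem_filter.2 ⟨hy, by omega⟩⟩
  have hOne : (U.filter fun x => x % 2 = 1).Nonempty := by
    rcases Int.emod_two_eq_zero_or_one x with h | h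
    · exact ⟨y, Finset.mem_filter.2 ⟨hy, by omega⟩⟩
    · exact ⟨x, Finset.mem_filter.2 ⟨hx, h⟩⟩
  have hcU := card_two U
  have hcW := card_two W
  have hlt' : (W.card : ℝ) ≤ U.card := by exact_mod_cast hlt.le
  have hcE := CE_le U W
  have hcO := CO_le U W
  have hcM := CM_le U W
  have hdM := DM_le U
  unfold PWat
  rw [max_eq_left (by linarith : (0 : ℝ) ≤ (U.card : ℝ) - W.card)]
  rcases hS with h | h
  · -- parity cut
    have hElt : (U.filter fun x => x % 2 = 0).card < U.card := by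
      have h1 : (0 : ℝ) < (U.filter fun x => x % 2 = 1).card := by
        exact_mod_cast Finset.card_pos.2 hOne
      have : ((U.filter fun x => x % 2 = 0).card : ℝ) < U.card := by linarith
      exact_mod_cast this
    have hOlt : (U.filter fun x => x % 2 = 1).card < U.card := by
      have h1 : (0 : ℝ) < (U.filter fun x => x % 2 = 0).card := by
        exact_mod_cast Finset.card_pos.2 hEne
      have : ((U.filter fun x => x % 2 = 1).card : ℝ) < U.card := by linarith
      exact_mod_cast this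
    have nE := NN_parity U W (i := 0) (by norm_num)
    have nO := NN_parity U W (i := 1) (by norm_num)
    push_cast at nE nO
    have nE' : NN (U.filter fun x => x % 2 = 0) (W.filter fun x => x % 2 = 0) ≤
        CE (sC U W) + 3 / 2 := by
      rw [nE]
      exact hcE
    have nO' : NN (U.filter fun x => x % 2 = 1) (W.filter fun x => x % 2 = 1) ≤
        CO (sC U W) + 3 / 2 := by
      rw [nO]
      exact hcO
    have iE := half_bound hPW hElt hEne (CE_nonneg (sC_nonneg U W)) nE'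
    have iO := half_bound hPW hOlt hOne (CO_nonneg (sC_nonneg U W)) nO'
    have hs := MM_split U W
    have hm := mixed_eq U W
    unfold S24 wt at h
    rw [hs, hm]
    rw [card_even, card_evenW] at iE
    rw [card_odd, card_oddW] at iO
    rw [card_even, card_odd] at hcU
    rw [card_evenW, card_oddW] at hcW
    rw [hcU, hcW]
    have e1 : m4 W 0 + m4 W 2 + (m4 W 1 + m4 W 3) = m4 W 0 + m4 W 1 + m4 W 2 + m4 W 3 := by ring
    rw [e1]
    linarith
  · -- direct bound
    have hd := MM_eq U W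
    have hn := NN_eq U W
    unfold S3c wt at h
    rw [card_even, card_odd] at hcU
    rw [card_evenW, card_oddW] at hcW
    rw [hd, hn]
    rw [hcU] at hT ⊢
    rw [hcW]
    have e1 : m4 W 0 + m4 W 2 + (m4 W 1 + m4 W 3) = m4 W 0 + m4 W 1 + m4 W 2 + m4 W 3 := by ring
    rw [e1]
    linarith

/-! ### Translations -/

/-- Translate. -/
def shf (U : Finset ℤ) (t : ℤ) : Finset ℤ := U.image fun x => x + t

theorem mem_shf {U : Finset ℤ} {t x : ℤ} : x ∈ shf U t ↔ x - t ∈ U := by
  unfold shf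
  rw [Finset.mem_image]
  constructor
  · rintro ⟨y, hy, rfl⟩
    rwa [add_sub_cancel_right]
  · intro h
    exact ⟨x - t, h, by ring⟩

theorem card_shf (U : Finset ℤ) (t : ℤ) : (shf U t).card = U.card :=
  Finset.card_image_of_injective _ fun a b (h : _ = _) => by simpa using h

theorem MM_shf (d : ℤ) (U W : Finset ℤ) (t : ℤ) : MM d (shf U t) (shf W (3 * t)) = MM d U W := by
  classical
  unfold MM
  have hinj : ∀ S : Finset ℤ, Set.InjOn (fun x : ℤ => x + t) S := by
    intro S a _ b _ h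
    simpa using h
  rw [shf, Finset.sum_image (hinj U)]
  refine Finset.sum_congr rfl fun x _ => ?_
  rw [Finset.sum_image (hinj U)]
  refine Finset.sum_congr rfl fun z _ => ?_
  unfold mm
  have e1 : z + t - (x + t) = z - x := by ring
  have e3 : 2 * (x + t) + (z + t) ∈ shf W (3 * t) ↔ 2 * x + z ∈ W := by
    rw [mem_shf]
    have : 2 * (x + t) + (z + t) - 3 * t = 2 * x + z := by ring
    rw [this]
  have e4 : 2 * (x + t) + (z + t) ∈ tri (U.image fun x => x + t) ↔ 2 * x + z ∈ tri U := by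
    rw [mem_tri, mem_tri]
    constructor
    · rintro ⟨y, hy, h⟩
      obtain ⟨v, hv, rfl⟩ := Finset.mem_image.1 hy
      exact ⟨v, hv, by linarith⟩
    · rintro ⟨y, hy, h⟩
      exact ⟨y + t, Finset.mem_image_of_mem _ hy, by linarith⟩
  simp only [e1, e3, e4]

theorem PWat_shf {U W : Finset ℤ} (t : ℤ) (h : PWat 1 (shf U t) (shf W (3 * t))) :
    PWat 1 U W := by
  unfold PWat at *
  rw [MM_shf, card_shf, card_shf] at h
  exact h

/-- A normalisation which can always be reached by a translation. -/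
def Reach (Nm : (ℕ → ℝ) → (ℕ → ℝ) → Prop) : Prop :=
  ∀ U W : Finset ℤ, ∃ t : ℤ, Nm (m12 (shf U t)) (m4 (shf W (3 * t)))

theorem step2 {Nm : (ℕ → ℝ) → (ℕ → ℝ) → Prop} (hN : Reach Nm) (hF : FIc Nm) {U W : Finset ℤ}
    (hPW : ∀ m < U.card, PW m) (h2 : ∃ x ∈ U, ∃ y ∈ U, x % 2 ≠ y % 2)
    (h3 : ∃ x ∈ U, ∃ y ∈ U, x % 3 ≠ y % 3) : PWat 1 U W := by
  classical
  rcases Nat.lt_or_ge W.card U.card with hlt | hge
  · obtain ⟨t, ht⟩ := hN U W
    refine PWat_shf t ?_
    have hmem : ∀ x ∈ U, x + t ∈ shf U t := fun x hx => Finset.mem_image_of_mem _ hx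
    have h2' : ∃ x ∈ shf U t, ∃ y ∈ shf U t, x % 2 ≠ y % 2 := by
      obtain ⟨x, hx, y, hy, h⟩ := h2
      exact ⟨x + t, hmem x hx, y + t, hmem y hy, by omega⟩
    have h3' : ∃ x ∈ shf U t, ∃ y ∈ shf U t, x % 3 ≠ y % 3 := by
      obtain ⟨x, hx, y, hy, h⟩ := h3
      exact ⟨x + t, hmem x hx, y + t, hmem y hy, by omega⟩
    have hlt' : (shf W (3 * t)).card < (shf U t).card := by
      rw [card_shf, card_shf]
      exact hlt
    refine stepc (by rw [card_shf]; exact hPW) h2' h3' hlt' ?_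
    generalize shf U t = U' at *
    generalize shf W (3 * t) = W' at *
    obtain ⟨x, hx, y, hy, hxy⟩ := h2'
    have hEne : (U'.filter fun x => x % 2 = 0).Nonempty := by
      rcases Int.emod_two_eq_zero_or_one x with h | h
      · exact ⟨x, Finset.mem_filter.2 ⟨hx, h⟩⟩
      · exact ⟨y, Finset.mem_filter.2 ⟨hy, by omega⟩⟩
    have hOne : (U'.filter fun x => x % 2 = 1).Nonempty := by
      rcases Int.emod_two_eq_zero_or_one x with h | h
      · exact ⟨y, Finset.mem_filter.2 ⟨hy, by omega⟩⟩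
      · exact ⟨x, Finset.mem_filter.2 ⟨hx, h⟩⟩
    have hEpos : 0 < evn (m12 U') := by
      rw [← card_even]
      exact_mod_cast Finset.card_pos.2 hEne
    have hOpos : 0 < od (m12 U') := by
      rw [← card_odd]
      exact_mod_cast Finset.card_pos.2 hOne
    have hcols : ∃ i < 3, ∃ j < 3, i ≠ j ∧ 0 < co (m12 U') i ∧ 0 < co (m12 U') j := by
      obtain ⟨u, hu, v, hv, huv⟩ := h3'
      have hpos : ∀ t ∈ U', 0 < co (m12 U') (t % 3).toNat := by
        intro t ht
        have hlt : (t % 3).toNat < 3 := by omega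
        rw [← card_colj U' hlt]
        have : (U'.filter fun x => x % 3 = ((t % 3).toNat : ℤ)).Nonempty :=
          ⟨t, Finset.mem_filter.2 ⟨ht, by omega⟩⟩
        exact_mod_cast Finset.card_pos.2 this
      exact ⟨(u % 3).toNat, by omega, (v % 3).toNat, by omega, by omega, hpos u hu, hpos v hv⟩
    have hw : wt (m4 W') < evn (m12 U') + od (m12 U') := by
      rw [← card_even, ← card_odd, ← card_two]
      have h4 := card_two W'
      rw [card_evenW, card_oddW] at h4
      have h5 : (W'.card : ℝ) < U'.card := by exact_mod_cast hlt'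
      unfold wt
      linarith
    exact hF (m12 U') (m4 W') (sC U' W') (sD U') (m12_nonneg U') (m4_nonneg W') (sC_nonneg U' W')
      (sD_nonneg U') ht hEpos hOpos hw hcols (sC_ok U' W') (sD_ok U')
  · unfold PWat
    have h4 := MM_nonneg 1 U W
    have h5 : (U.card : ℝ) ≤ W.card := by exact_mod_cast hge
    have h6 : (1 : ℝ) ≤ U.card := by
      obtain ⟨x, hx, -⟩ := h2
      exact_mod_cast Finset.card_pos.2 ⟨x, hx⟩
    rw [max_eq_right (by linarith : (U.card : ℝ) - W.card ≤ 0)]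
    linarith

theorem step2' {Nm : (ℕ → ℝ) → (ℕ → ℝ) → Prop} (hN : Reach Nm) (hF : FIc Nm) {U W : Finset ℤ}
    (hPW : ∀ m < U.card, PW m) (h2 : ∃ x ∈ U, ∃ y ∈ U, x % 2 ≠ y % 2)
    (h3 : ∃ x ∈ U, ∃ y ∈ U, x % 3 ≠ y % 3) {d : ℤ} (hd : d = 1 ∨ d = 2) : PWat d U W := by
  rcases hd with rfl | rfl
  · exact step2 hN hF hPW h2 h3
  · refine PWat_neg (step2 hN hF (by rw [card_neg]; exact hPW) ?_ ?_)
    · obtain ⟨x, hx, y, hy, h⟩ := h2
      exact ⟨-x, Finset.mem_image_of_mem _ hx, -y, Finset.mem_image_of_mem _ hy, by omega⟩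
    · obtain ⟨x, hx, y, hy, h⟩ := h3
      exact ⟨-x, Finset.mem_image_of_mem _ hx, -y, Finset.mem_image_of_mem _ hy, by omega⟩

theorem PW_all_of_step (hstep : ∀ U W : Finset ℤ, (∀ m < U.card, PW m) →
    (∃ x ∈ U, ∃ y ∈ U, x % 2 ≠ y % 2) → (∃ x ∈ U, ∃ y ∈ U, x % 3 ≠ y % 3) →
    ∀ d : ℤ, (d = 1 ∨ d = 2) → PWat d U W) : ∀ n, PW n := by
  classical
  intro n
  induction n using Nat.strong_induction_on with
  | _ n ih =>
    have hT : ∀ U : Finset ℤ, U.card = n → 2 ≤ n →
        (T0 U : ℝ) ≤ 1 / 3 * (U.card : ℝ) ^ 2 + 14 * U.card - 24 := by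
      intro U hU hn
      obtain ⟨B, hB1, hB2, -, hB4⟩ := rescale _ U rfl (by omega)
      rw [← hB2, ← hB1]
      refine T0_le_of_PW ?_ hB4
      rw [hB1, hU]
      exact ih
    have key : ∀ k : ℕ, ∀ U W : Finset ℤ, spread U = k → U.card = n → 2 ≤ n →
        ∀ d : ℤ, (d = 1 ∨ d = 2) → PWat d U W := by
      intro k
      induction k using Nat.strong_induction_on with
      | _ k ihk =>
        intro U W hk hU hn d hd
        by_cases h2 : ∀ x ∈ U, ∀ y ∈ U, x % 2 = y % 2
        · obtain ⟨U', W', d', hd', hc, hcW, hs, hM⟩ := halve (W := W) (by omega) h2 hd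
          have h4 := ihk (spread U') (by omega) U' W' rfl (by omega) hn d' hd'
          unfold PWat at *
          rw [hM]
          rw [hc] at h4
          have hW : (W'.card : ℝ) ≤ W.card := by exact_mod_cast hcW
          have := max_sq_le (u := (U.card : ℝ)) hW
          linarith
        by_cases h3 : ∀ x ∈ U, ∀ y ∈ U, x % 3 = y % 3
        · have h4 := MM_ge_single (W := W) (d := d) h3
          have h5 := hT U hU hn
          unfold PWat
          have h6 : (max ((U.card : ℝ) - W.card) 0) ^ 2 ≤ (U.card : ℝ) ^ 2 := by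
            have h7 : (0 : ℝ) ≤ W.card := Nat.cast_nonneg _
            have h8 : (0 : ℝ) ≤ U.card := Nat.cast_nonneg _
            have h9 : max ((U.card : ℝ) - W.card) 0 ≤ U.card := max_le (by linarith) h8
            exact pow_le_pow_left₀ (le_max_right _ _) h9 2
          linarith
        push Not at h2 h3
        exact hstep U W (by rw [hU]; exact ih) h2 h3 d hd
    intro U W hU hne d hd
    rcases Nat.lt_or_ge n 2 with hlt | hge
    · have h1 : U.card = 1 := by
        have := Finset.card_pos.2 hne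
        omega
      unfold PWat
      have h2 := MM_nonneg d U W
      rw [h1]
      have h3 : (0 : ℝ) ≤ W.card := Nat.cast_nonneg _
      have h4 : max (((1 : ℕ) : ℝ) - W.card) 0 ≤ 1 := max_le (by push_cast; linarith) (by norm_num)
      have h5 : (max (((1 : ℕ) : ℝ) - W.card) 0) ^ 2 ≤ 1 ^ 2 :=
        pow_le_pow_left₀ (le_max_right _ _) h4 2
      push_cast at *
      linarith
    · exact key _ U W rfl hU hge d hd

theorem T0_le_of_PW_all (h : ∀ n, PW n) (A : Finset ℤ) :
    (T0 A : ℝ) ≤ 1 / 3 * (A.card : ℝ) ^ 2 + 14 * A.card := by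
  rcases Nat.lt_or_ge A.card 2 with hlt | hge
  · have h2 : T0 A ≤ A.card * A.card :=
      (Finset.card_filter_le _ _).trans (Finset.card_product _ _).le
    have h4 : T0 A ≤ A.card := by
      have : A.card * A.card ≤ A.card * 1 := Nat.mul_le_mul_left _ (by omega)
      omega
    have h3 : (T0 A : ℝ) ≤ A.card := by exact_mod_cast h4
    have h5 : (0 : ℝ) ≤ A.card := Nat.cast_nonneg _
    nlinarith [sq_nonneg (A.card : ℝ)]
  · obtain ⟨B, hB1, hB2, -, hB4⟩ := rescale _ A rfl hge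
    rw [← hB2, ← hB1]
    have := T0_le_of_PW (fun m _ => h m) hB4
    linarith

/-- The bound for all finite sets, from the count form of the finite inequality. -/
theorem T0_le_c {Nm : (ℕ → ℝ) → (ℕ → ℝ) → Prop} (hN : Reach Nm) (hF : FIc Nm) (A : Finset ℤ) :
    (T0 A : ℝ) ≤ 1 / 3 * (A.card : ℝ) ^ 2 + 14 * A.card :=
  T0_le_of_PW_all (PW_all_of_step fun _ _ hPW h2 h3 _ hd => step2' hN hF hPW h2 h3 hd) A

end Aff
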