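import Pool.Agent.helper94.Aff.Pair6

/-!
# Affine copies of {0,1,3}: the normalisation by translation
-/

open Finset

namespace Aff

/-- The standard normalisation. -/
def Nm0 (a _W : ℕ → ℝ) : Prop := od a ≤ evn a ∧ u4 a 2 ≤ u4 a 0

theorem u4_shf (U : Finset ℤ) (t : ℤ) {h k : ℕ} (hh : h < 4) (hk : k < 4)
    (hkt : ((k : ℤ) + t) % 4 = h) : u4 (m12 (shf U t)) h = u4 (m12 U) k := by
  classical
  rw [← card_cls4 _ hh, ← card_cls4 _ hk]
  have h1 : cls 4 (shf U t) h = (cls 4 U k).image fun x => x + t := by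
    ext x
    simp only [mem_cls, mem_shf, Finset.mem_image]
    push_cast
    constructor
    · rintro ⟨h2, h3⟩
      exact ⟨x - t, ⟨h2, by omega⟩, by ring⟩
    · rintro ⟨y, ⟨h2, h3⟩, rfl⟩
      refine ⟨?_, by omega⟩
      rwa [add_sub_cancel_right]
  rw [h1, Finset.card_image_of_injective _ fun a b (h : _ = _) => by simpa using h]

theorem reach_Nm0 : Reach Nm0 := by
  intro U W
  have key : ∀ t : ℤ, ∀ k0 k1 k2 k3 : ℕ, k0 < 4 → k1 < 4 → k2 < 4 → k3 < 4 →
      ((k0 : ℤ) + t) % 4 = 0 → ((k1 : ℤ) + t) % 4 = 1 → ((k2 : ℤ) + t) % 4 = 2 →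
      ((k3 : ℤ) + t) % 4 = 3 →
      u4 (m12 U) k1 + u4 (m12 U) k3 ≤ u4 (m12 U) k0 + u4 (m12 U) k2 →
      u4 (m12 U) k2 ≤ u4 (m12 U) k0 → Nm0 (m12 (shf U t)) (m4 (shf W (3 * t))) := by
    intro t k0 k1 k2 k3 h0 h1 h2 h3 e0 e1 e2 e3 hs ht
    have g0 := u4_shf U t (h := 0) (by norm_num) h0 (by simpa using e0)
    have g1 := u4_shf U t (h := 1) (by norm_num) h1 (by simpa using e1)
    have g2 := u4_shf U t (h := 2) (by norm_num) h2 (by simpa using e2)
    have g3 := u4_shf U t (h := 3) (by norm_num) h3 (by simpa using e3)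
    constructor
    · unfold od evn
      rw [g0, g1, g2, g3]
      exact hs
    · rw [g0, g2]
      exact ht
  rcases le_total (u4 (m12 U) 1 + u4 (m12 U) 3) (u4 (m12 U) 0 + u4 (m12 U) 2) with h | h
  · rcases le_total (u4 (m12 U) 2) (u4 (m12 U) 0) with h' | h'
    · exact ⟨0, key 0 0 1 2 3 (by norm_num) (by norm_num) (by norm_num) (by norm_num)
        (by norm_num) (by norm_num) (by norm_num) (by norm_num) h h'⟩
    · exact ⟨2, key 2 2 3 0 1 (by norm_num) (by norm_num) (by norm_num) (by norm_num)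
        (by norm_num) (by norm_num) (by norm_num) (by norm_num) (by linarith) h'⟩
  · rcases le_total (u4 (m12 U) 3) (u4 (m12 U) 1) with h' | h'
    · exact ⟨3, key 3 1 2 3 0 (by norm_num) (by norm_num) (by norm_num) (by norm_num)
        (by norm_num) (by norm_num) (by norm_num) (by norm_num) (by linarith) h'⟩
    · exact ⟨1, key 1 3 0 1 2 (by norm_num) (by norm_num) (by norm_num) (by norm_num)
        (by norm_num) (by norm_num) (by norm_num) (by norm_num) (by linarith) h'⟩

/-- The bound for all finite sets, from the normalised finite inequality. -/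
theorem T0_le_Nm0 (hF : FIc Nm0) (A : Finset ℤ) :
    (T0 A : ℝ) ≤ 1 / 3 * (A.card : ℝ) ^ 2 + 14 * A.card := T0_le_c reach_Nm0 hF A

end Aff
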