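import Pool.Agent.helper94.Aff.Pair7

/-!
# Affine copies of {0,1,3}: reduction of the finite inequality to twelve variables
-/

open Finset

namespace Aff

theorem P_le_mul {a b c : ℝ} (ha : 0 ≤ a) (hb : 0 ≤ b) (hc : 0 ≤ c) : P a b c ≤ a * b := by
  have := P_le ha hb hc (t := 0) le_rfl ha hb
  linarith

theorem P_le_mul_ac {a b c : ℝ} (ha : 0 ≤ a) (hb : 0 ≤ b) (hc : 0 ≤ c) : P a b c ≤ a * c := by
  have := P_le_ac ha hb hc (t := 0) le_rfl ha hc
  linarith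

theorem P_le_mul_bc {a b c : ℝ} (ha : 0 ≤ a) (hb : 0 ≤ b) (hc : 0 ≤ c) : P a b c ≤ b * c := by
  have := P_le_bc ha hb hc (t := 0) le_rfl hb hc
  linarith

/-- Even-even hits. -/
noncomputable def cpE (A0 A1 A2 B0 B1 B2 w0 w2 : ℝ) : ℝ :=
  P (A0 + B0) A1 w0 + P (A0 + B0) B1 w2 + P (A1 + B1) A2 w0 + P (A1 + B1) B2 w2 +
    P (A2 + B2) A0 w0 + P (A2 + B2) B0 w2

/-- Odd-even hits. -/
noncomputable def cmE (A0 A1 A2 B0 B1 B2 O0 O1 O2 w0 w2 : ℝ) : ℝ :=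
  P O0 A1 w2 + P O0 B1 w0 + P O1 A2 w2 + P O1 B2 w0 + P O2 A0 w2 + P O2 B0 w0

/-- Even-odd hits. -/
noncomputable def cmO (A0 A1 A2 B0 B1 B2 O0 O1 O2 v : ℝ) : ℝ :=
  min (min ((A0 + B0) * O1) ((A0 + B0) * v)) (O1 * v) +
    min (min ((A1 + B1) * O2) ((A1 + B1) * v)) (O2 * v) +
    min (min ((A2 + B2) * O0) ((A2 + B2) * v)) (O0 * v)

/-- Joint hits with odd `z`. -/
noncomputable def jO (A0 A1 A2 B0 B1 B2 O0 O1 O2 v : ℝ) : ℝ :=
  P (A0 + B0 + O0) O1 v + P (A1 + B1 + O1) O2 v + P (A2 + B2 + O2) O0 v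

/-- In-column hits. -/
noncomputable def dd (A0 A1 A2 B0 B1 B2 O0 O1 O2 : ℝ) : ℝ :=
  (A0 + B0) * O0 + (A1 + B1) * O1 + (A2 + B2) * O2 +
    min ((A0 + B0) * O0 + (A1 + B1) * O1 + (A2 + B2) * O2) ((O0 + O1 + O2) ^ 2 / 2)

/-- First alternative. -/
noncomputable def s2 (A0 A1 A2 B0 B1 B2 O0 O1 O2 w0 w2 v : ℝ) : ℝ :=
  (A0 + A1 + A2 + B0 + B1 + B2) * (O0 + O1 + O2) -
    2 / 3 * (A0 + A1 + A2 + B0 + B1 + B2 - w0 - w2) * (O0 + O1 + O2 - v) -
    cmE A0 A1 A2 B0 B1 B2 O0 O1 O2 w0 w2 - cmO A0 A1 A2 B0 B1 B2 O0 O1 O2 v -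
    1 / 2 * dd A0 A1 A2 B0 B1 B2 O0 O1 O2

/-- Second alternative. -/
noncomputable def s3 (A0 A1 A2 B0 B1 B2 O0 O1 O2 w0 w2 v : ℝ) : ℝ :=
  2 / 3 * (A0 + A1 + A2 + B0 + B1 + B2 + O0 + O1 + O2) * (w0 + w2 + v) -
    1 / 3 * (w0 + w2 + v) ^ 2 - cpE A0 A1 A2 B0 B1 B2 w0 w2 -
    cmE A0 A1 A2 B0 B1 B2 O0 O1 O2 w0 w2 - jO A0 A1 A2 B0 B1 B2 O0 O1 O2 v

/-- Third alternative. -/
noncomputable def s4 (A0 A1 A2 B0 B1 B2 O0 O1 O2 w0 w2 v : ℝ) : ℝ :=
  s2 A0 A1 A2 B0 B1 B2 O0 O1 O2 w0 w2 v +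
    2 / 3 * (A0 + A1 + A2 + B0 + B1 + B2) * (w0 + w2) - 1 / 3 * (w0 + w2) ^ 2 -
    cpE A0 A1 A2 B0 B1 B2 w0 w2

/-- helper4's twelve variable inequality. -/
def FI12 : Prop :=
  ∀ A0 A1 A2 B0 B1 B2 O0 O1 O2 w0 w2 v : ℝ, 0 ≤ A0 → 0 ≤ A1 → 0 ≤ A2 → 0 ≤ B0 → 0 ≤ B1 →
    0 ≤ B2 → 0 ≤ O0 → 0 ≤ O1 → 0 ≤ O2 → 0 ≤ w0 → 0 ≤ w2 → 0 ≤ v →
    O0 + O1 + O2 ≤ A0 + A1 + A2 + B0 + B1 + B2 → w0 + w2 ≤ A0 + A1 + A2 + B0 + B1 + B2 →
    v ≤ O0 + O1 + O2 →
    0 ≤ s2 A0 A1 A2 B0 B1 B2 O0 O1 O2 w0 w2 v ∨ 0 ≤ s3 A0 A1 A2 B0 B1 B2 O0 O1 O2 w0 w2 v ∨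
      0 ≤ s4 A0 A1 A2 B0 B1 B2 O0 O1 O2 w0 w2 v

theorem CE_expand (C : ℕ → ℕ → ℝ) : CE C = C 0 4 + C 0 10 + C 4 8 + C 4 2 + C 2 0 + C 2 6 := by
  unfold CE
  simp [Finset.sum_range_succ]
  ring

theorem CO_expand (C : ℕ → ℕ → ℝ) : CO C = C 3 1 + C 3 7 + C 1 5 + C 1 11 + C 5 3 + C 5 9 := by
  unfold CO
  simp [Finset.sum_range_succ]
  ring

theorem CM_expand (C : ℕ → ℕ → ℝ) : CM C = (C 3 4 + C 3 10 + C 1 8 + C 1 2 + C 5 0 + C 5 6) +
    (C 0 1 + C 0 7 + C 4 5 + C 4 11 + C 2 3 + C 2 9) := by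
  unfold CM
  simp [Finset.sum_range_succ]
  ring

theorem DM_expand (D : ℕ → ℕ → ℝ) : DM D = (D 3 0 + D 3 6 + D 1 4 + D 1 10 + D 5 8 + D 5 2) +
    (D 0 3 + D 0 9 + D 4 1 + D 4 7 + D 2 5 + D 2 11) := by
  unfold DM
  simp [Finset.sum_range_succ]
  ring

/-- Single cells. -/
theorem okC_one {a W : ℕ → ℝ} {C : ℕ → ℕ → ℝ} (h : okC a W C) {p q k : ℕ} (hp : p < 6)
    (hq : q < 12) (h1 : (q + 2 * p) % 3 = 1) (h2 : (2 * p + q) % 4 = k) :
    C p q ≤ P (xx a p) (a q) (W k) := by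
  have h3 := h {p} {q} {k} (by simpa using hp) (by simpa using hq)
    (by rw [← h2]; simpa using Nat.mod_lt _ (by norm_num)) (by
      intro p' hp' q' hq'
      rw [Finset.mem_singleton] at hp' hq'
      rw [hp', hq', Finset.mem_singleton]
      exact ⟨h1, h2⟩)
  simpa using h3

theorem okC_two {a W : ℕ → ℝ} {C : ℕ → ℕ → ℝ} (h : okC a W C) {p q q' : ℕ} (hp : p < 6)
    (hq : q < 12) (hq' : q' < 12) (hne : q ≠ q') (h1 : (q + 2 * p) % 3 = 1)
    (h1' : (q' + 2 * p) % 3 = 1)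
    (h2 : (2 * p + q) % 4 = 1 ∨ (2 * p + q) % 4 = 3)
    (h2' : (2 * p + q') % 4 = 1 ∨ (2 * p + q') % 4 = 3) :
    C p q + C p q' ≤ P (xx a p) (a q + a q') (W 1 + W 3) := by
  classical
  have h3 := h {p} {q, q'} {1, 3} (by simpa using hp) (by
      intro x hx
      simp only [Finset.mem_insert, Finset.mem_singleton] at hx
      rcases hx with rfl | rfl
      · simpa using hq
      · simpa using hq')
    (by decide) (by
      intro p' hp' r hr
      rw [Finset.mem_singleton] at hp'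
      simp only [Finset.mem_insert, Finset.mem_singleton] at hr ⊢
      rcases hr with rfl | rfl
      · rw [hp']; exact ⟨h1, h2⟩
      · rw [hp']; exact ⟨h1', h2'⟩)
  simpa [Finset.sum_pair hne] using h3

theorem okC_four {a W : ℕ → ℝ} {C : ℕ → ℕ → ℝ} (h : okC a W C) {p p' q q' : ℕ} (hp : p < 6)
    (hp' : p' < 6) (hnp : p ≠ p')
    (hq : q < 12) (hq' : q' < 12) (hne : q ≠ q') (h1 : (q + 2 * p) % 3 = 1)
    (h1' : (q' + 2 * p) % 3 = 1) (h1p : (q + 2 * p') % 3 = 1)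
    (h1p' : (q' + 2 * p') % 3 = 1)
    (h2 : (2 * p + q) % 4 = 1 ∨ (2 * p + q) % 4 = 3)
    (h2' : (2 * p + q') % 4 = 1 ∨ (2 * p + q') % 4 = 3)
    (h2p : (2 * p' + q) % 4 = 1 ∨ (2 * p' + q) % 4 = 3)
    (h2p' : (2 * p' + q') % 4 = 1 ∨ (2 * p' + q') % 4 = 3) :
    C p q + C p q' + C p' q + C p' q' ≤ P (xx a p + xx a p') (a q + a q') (W 1 + W 3) := by
  classical
  have h3 := h {p, p'} {q, q'} {1, 3} (by
      intro x hx
      simp only [Finset.mem_insert, Finset.mem_singleton] at hx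
      rcases hx with rfl | rfl
      · simpa using hp
      · simpa using hp') (by
      intro x hx
      simp only [Finset.mem_insert, Finset.mem_singleton] at hx
      rcases hx with rfl | rfl
      · simpa using hq
      · simpa using hq')
    (by decide) (by
      intro s hs r hr
      simp only [Finset.mem_insert, Finset.mem_singleton] at hs hr ⊢
      rcases hs with rfl | rfl
      · rcases hr with rfl | rfl
        · exact ⟨h1, h2⟩
        · exact ⟨h1', h2'⟩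
      · rcases hr with rfl | rfl
        · exact ⟨h1p, h2p⟩
        · exact ⟨h1p', h2p'⟩)
  rw [Finset.sum_pair hnp, Finset.sum_pair hne, Finset.sum_pair hne, Finset.sum_pair hnp,
    Finset.sum_pair hne, Finset.sum_pair (by norm_num : (1 : ℕ) ≠ 3)] at h3
  linarith

theorem okD_one {a : ℕ → ℝ} {D : ℕ → ℕ → ℝ} (h : okD a D) {p q k : ℕ} (hp : p < 6)
    (hq : q < 12) (h1 : (q + 2 * p) % 3 = 0) (h2 : (2 * p + 3 * q) % 4 = k) :
    D p q ≤ P (xx a p) (a q) (u4 a k) := by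
  have h3 := h {p} {q} {k} (by simpa using hp) (by simpa using hq)
    (by rw [← h2]; simpa using Nat.mod_lt _ (by norm_num)) (by
      intro p' hp' q' hq'
      rw [Finset.mem_singleton] at hp' hq'
      rw [hp', hq', Finset.mem_singleton]
      exact ⟨h1, h2⟩)
  simpa using h3

/-- The product identity. -/
theorem prod_ident (a : ℕ → ℝ) :
    CM (fun p q => xx a p * a q) + 1 / 2 * DM (fun p q => xx a p * a q) = evn a * od a := by
  rw [CM_expand, DM_expand]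
  unfold evn od u4 xx
  ring

theorem mixed_nonneg {a W : ℕ → ℝ} {C D : ℕ → ℕ → ℝ} (ha : ∀ q, 0 ≤ a q) (hW : ∀ h, 0 ≤ W h)
    (hC : okC a W C) (hD : okD a D) : 0 ≤ evn a * od a - CM C - 1 / 2 * DM D := by
  have hx : ∀ p, 0 ≤ xx a p := fun p => add_nonneg (ha _) (ha _)
  have hu : ∀ k, 0 ≤ u4 a k := fun k => add_nonneg (add_nonneg (ha _) (ha _)) (ha _)
  have h1 : ∀ p q, p < 6 → q < 12 → (q + 2 * p) % 3 = 1 → C p q ≤ xx a p * a q :=
    fun p q hp hq h => (okC_one hC hp hq h rfl).trans (P_le_mul (hx p) (ha q) (hW _))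
  have h2 : ∀ p q, p < 6 → q < 12 → (q + 2 * p) % 3 = 0 → D p q ≤ xx a p * a q :=
    fun p q hp hq h => (okD_one hD hp hq h rfl).trans (P_le_mul (hx p) (ha q) (hu _))
  have hCM : CM C ≤ CM (fun p q => xx a p * a q) := by
    unfold CM
    refine Finset.sum_le_sum fun p hp => Finset.sum_le_sum fun q hq => ?_
    split_ifs with h
    · exact h1 p q (Finset.mem_range.1 hp) (Finset.mem_range.1 hq) h.1
    · exact le_rfl
  have hDM : DM D ≤ DM (fun p q => xx a p * a q) := by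
    unfold DM
    refine Finset.sum_le_sum fun p hp => Finset.sum_le_sum fun q hq => ?_
    split_ifs with h
    · exact h2 p q (Finset.mem_range.1 hp) (Finset.mem_range.1 hq) h.1
    · exact le_rfl
  have := prod_ident a
  linarith

theorem sq_le_of_lt {s r : ℝ} (h0 : 0 < s) (h1 : s ≤ r) : s ^ 2 ≤ r ^ 2 :=
  pow_le_pow_left₀ h0.le h1 2

theorem fin_s2 {A0 A1 A2 B0 B1 B2 O0 O1 O2 w0 w2 v mE mO cM dM e o w : ℝ}
    (he : e = A0 + A1 + A2 + B0 + B1 + B2) (ho : o = O0 + O1 + O2) (hw : w = w0 + w2 + v)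
    (hE : 1 / 3 * (e - (w0 + w2)) ^ 2 ≤ mE) (hO : 1 / 3 * (o - v) ^ 2 ≤ mO)
    (hc : cM ≤ cmE A0 A1 A2 B0 B1 B2 O0 O1 O2 w0 w2 + cmO A0 A1 A2 B0 B1 B2 O0 O1 O2 v)
    (hd : dM ≤ dd A0 A1 A2 B0 B1 B2 O0 O1 O2)
    (h : 0 ≤ s2 A0 A1 A2 B0 B1 B2 O0 O1 O2 w0 w2 v) :
    0 ≤ mE + mO + e * o - cM - 1 / 2 * dM - 1 / 3 * (e + o - w) ^ 2 := by
  subst he ho hw
  unfold s2 at h
  linarith

theorem fin_s4 {A0 A1 A2 B0 B1 B2 O0 O1 O2 w0 w2 v mE mO cE cM dM e o w : ℝ}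
    (he : e = A0 + A1 + A2 + B0 + B1 + B2) (ho : o = O0 + O1 + O2) (hw : w = w0 + w2 + v)
    (hE : 1 / 3 * e ^ 2 - cE ≤ mE) (hO : 1 / 3 * (o - v) ^ 2 ≤ mO)
    (hcE : cE ≤ cpE A0 A1 A2 B0 B1 B2 w0 w2)
    (hc : cM ≤ cmE A0 A1 A2 B0 B1 B2 O0 O1 O2 w0 w2 + cmO A0 A1 A2 B0 B1 B2 O0 O1 O2 v)
    (hd : dM ≤ dd A0 A1 A2 B0 B1 B2 O0 O1 O2)
    (h : 0 ≤ s4 A0 A1 A2 B0 B1 B2 O0 O1 O2 w0 w2 v) :
    0 ≤ mE + mO + e * o - cM - 1 / 2 * dM - 1 / 3 * (e + o - w) ^ 2 := by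
  subst he ho hw
  unfold s4 s2 at h
  linarith

theorem fin_s3 {A0 A1 A2 B0 B1 B2 O0 O1 O2 w0 w2 v cE cO cM c1 c2 e o w : ℝ}
    (he : e = A0 + A1 + A2 + B0 + B1 + B2) (ho : o = O0 + O1 + O2) (hw : w = w0 + w2 + v)
    (hcE : cE ≤ cpE A0 A1 A2 B0 B1 B2 w0 w2) (hcM : cM = c1 + c2)
    (hc1 : c1 ≤ cmE A0 A1 A2 B0 B1 B2 O0 O1 O2 w0 w2)
    (hj : cO + c2 ≤ jO A0 A1 A2 B0 B1 B2 O0 O1 O2 v)
    (h : 0 ≤ s3 A0 A1 A2 B0 B1 B2 O0 O1 O2 w0 w2 v) :
    0 ≤ 1 / 3 * (e + o) ^ 2 - (cE + cO + cM) - 1 / 3 * (e + o - w) ^ 2 := by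
  subst he ho hw hcM
  unfold s3 at h
  linarith

theorem xx_two (a : ℕ → ℝ) : xx a 2 = a 8 + a 2 := by unfold xx; ring

theorem bd_E {a W : ℕ → ℝ} {C : ℕ → ℕ → ℝ} (hC : okC a W C) :
    CE C ≤ cpE (a 0) (a 4) (a 8) (a 6) (a 10) (a 2) (W 0) (W 2) := by
  have p04 := okC_one hC (p := 0) (q := 4) (k := 0) (by norm_num) (by norm_num) (by norm_num)
    (by norm_num)
  have p010 := okC_one hC (p := 0) (q := 10) (k := 2) (by norm_num) (by norm_num) (by norm_num)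
    (by norm_num)
  have p48 := okC_one hC (p := 4) (q := 8) (k := 0) (by norm_num) (by norm_num) (by norm_num)
    (by norm_num)
  have p42 := okC_one hC (p := 4) (q := 2) (k := 2) (by norm_num) (by norm_num) (by norm_num)
    (by norm_num)
  have p20 := okC_one hC (p := 2) (q := 0) (k := 0) (by norm_num) (by norm_num) (by norm_num)
    (by norm_num)
  have p26 := okC_one hC (p := 2) (q := 6) (k := 2) (by norm_num) (by norm_num) (by norm_num)
    (by norm_num)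
  rw [xx_two] at p20 p26
  rw [CE_expand]
  unfold cpE
  exact add_le_add (add_le_add (add_le_add (add_le_add (add_le_add p04 p010) p48) p42) p20) p26

theorem bd_ME {a W : ℕ → ℝ} {C : ℕ → ℕ → ℝ} (hC : okC a W C) :
    C 3 4 + C 3 10 + C 1 8 + C 1 2 + C 5 0 + C 5 6 ≤
      cmE (a 0) (a 4) (a 8) (a 6) (a 10) (a 2) (a 3 + a 9) (a 1 + a 7) (a 5 + a 11)
        (W 0) (W 2) := by
  have p34 := okC_one hC (p := 3) (q := 4) (k := 2) (by norm_num) (by norm_num) (by norm_num)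
    (by norm_num)
  have p310 := okC_one hC (p := 3) (q := 10) (k := 0) (by norm_num) (by norm_num) (by norm_num)
    (by norm_num)
  have p18 := okC_one hC (p := 1) (q := 8) (k := 2) (by norm_num) (by norm_num) (by norm_num)
    (by norm_num)
  have p12 := okC_one hC (p := 1) (q := 2) (k := 0) (by norm_num) (by norm_num) (by norm_num)
    (by norm_num)
  have p50 := okC_one hC (p := 5) (q := 0) (k := 2) (by norm_num) (by norm_num) (by norm_num)
    (by norm_num)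
  have p56 := okC_one hC (p := 5) (q := 6) (k := 0) (by norm_num) (by norm_num) (by norm_num)
    (by norm_num)
  unfold cmE
  exact add_le_add (add_le_add (add_le_add (add_le_add (add_le_add p34 p310) p18) p12) p50) p56

theorem bd_two {x z v c : ℝ} (hx : 0 ≤ x) (hz : 0 ≤ z) (hv : 0 ≤ v) (h : c ≤ P x z v) :
    c ≤ min (min (x * z) (x * v)) (z * v) :=
  le_min (le_min (h.trans (P_le_mul hx hz hv)) (h.trans (P_le_mul_ac hx hz hv)))
    (h.trans (P_le_mul_bc hx hz hv))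

theorem bd_MO {a W : ℕ → ℝ} {C : ℕ → ℕ → ℝ} (ha : ∀ q, 0 ≤ a q) (hW : ∀ h, 0 ≤ W h)
    (hC : okC a W C) :
    C 0 1 + C 0 7 + C 4 5 + C 4 11 + C 2 3 + C 2 9 ≤
      cmO (a 0) (a 4) (a 8) (a 6) (a 10) (a 2) (a 3 + a 9) (a 1 + a 7) (a 5 + a 11)
        (W 1 + W 3) := by
  have hw13 : 0 ≤ W 1 + W 3 := add_nonneg (hW _) (hW _)
  have t0 := okC_two hC (p := 0) (q := 1) (q' := 7) (by norm_num) (by norm_num) (by norm_num)
    (by norm_num) (by norm_num) (by norm_num) (by norm_num) (by norm_num)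
  have t4 := okC_two hC (p := 4) (q := 5) (q' := 11) (by norm_num) (by norm_num) (by norm_num)
    (by norm_num) (by norm_num) (by norm_num) (by norm_num) (by norm_num)
  have t2 := okC_two hC (p := 2) (q := 3) (q' := 9) (by norm_num) (by norm_num) (by norm_num)
    (by norm_num) (by norm_num) (by norm_num) (by norm_num) (by norm_num)
  rw [xx_two] at t2
  have g0 := bd_two (add_nonneg (ha 0) (ha 6)) (add_nonneg (ha 1) (ha 7)) hw13 t0
  have g4 := bd_two (add_nonneg (ha 4) (ha 10)) (add_nonneg (ha 5) (ha 11)) hw13 t4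
  have g2 := bd_two (add_nonneg (ha 8) (ha 2)) (add_nonneg (ha 3) (ha 9)) hw13 t2
  unfold cmO
  have := add_le_add (add_le_add g0 g4) g2
  linarith only [this]

theorem bd_J {a W : ℕ → ℝ} {C : ℕ → ℕ → ℝ} (hC : okC a W C) :
    CO C + (C 0 1 + C 0 7 + C 4 5 + C 4 11 + C 2 3 + C 2 9) ≤
      jO (a 0) (a 4) (a 8) (a 6) (a 10) (a 2) (a 3 + a 9) (a 1 + a 7) (a 5 + a 11)
        (W 1 + W 3) := by
  have f0 := okC_four hC (p := 0) (p' := 3) (q := 1) (q' := 7) (by norm_num) (by norm_num)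
    (by norm_num) (by norm_num) (by norm_num) (by norm_num) (by norm_num) (by norm_num)
    (by norm_num) (by norm_num) (by norm_num) (by norm_num) (by norm_num) (by norm_num)
  have f4 := okC_four hC (p := 4) (p' := 1) (q := 5) (q' := 11) (by norm_num) (by norm_num)
    (by norm_num) (by norm_num) (by norm_num) (by norm_num) (by norm_num) (by norm_num)
    (by norm_num) (by norm_num) (by norm_num) (by norm_num) (by norm_num) (by norm_num)
  have f2 := okC_four hC (p := 2) (p' := 5) (q := 3) (q' := 9) (by norm_num) (by norm_num)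
    (by norm_num) (by norm_num) (by norm_num) (by norm_num) (by norm_num) (by norm_num)
    (by norm_num) (by norm_num) (by norm_num) (by norm_num) (by norm_num) (by norm_num)
  rw [xx_two] at f2
  have f := add_le_add (add_le_add f0 f4) f2
  rw [CO_expand]
  unfold jO
  refine le_trans (le_of_eq (by ring)) f

theorem bd_D1 {a : ℕ → ℝ} {D : ℕ → ℕ → ℝ} (ha : ∀ q, 0 ≤ a q) (hD : okD a D) {p q : ℕ}
    (hp : p < 6) (hq : q < 12) (h : (q + 2 * p) % 3 = 0) : D p q ≤ xx a p * a q := by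
  have hx : 0 ≤ xx a p := add_nonneg (ha _) (ha _)
  have hu : ∀ k, 0 ≤ u4 a k := fun k => add_nonneg (add_nonneg (ha _) (ha _)) (ha _)
  exact (okD_one hD hp hq h rfl).trans (P_le_mul hx (ha q) (hu _))

theorem bd_D2 {a : ℕ → ℝ} {D : ℕ → ℕ → ℝ} (ha : ∀ q, 0 ≤ a q) (hD : okD a D) {p q k : ℕ}
    (hp : p < 6) (hq : q < 12) (h : (q + 2 * p) % 3 = 0) (hk : (2 * p + 3 * q) % 4 = k) :
    D p q ≤ a q * u4 a k := by
  have hx : 0 ≤ xx a p := add_nonneg (ha _) (ha _)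
  have hu : ∀ k, 0 ≤ u4 a k := fun k => add_nonneg (add_nonneg (ha _) (ha _)) (ha _)
  exact (okD_one hD hp hq h hk).trans (P_le_mul_bc hx (ha q) (hu _))

theorem sq_half {a b s : ℝ} (h : s = a + b) : 2 * (a * b) ≤ s ^ 2 / 2 := by
  subst h
  nlinarith [sq_nonneg (a - b)]

theorem bd_DO {a : ℕ → ℝ} {D : ℕ → ℕ → ℝ} (ha : ∀ q, 0 ≤ a q) (hD : okD a D) :
    D 0 3 + D 0 9 + D 4 1 + D 4 7 + D 2 5 + D 2 11 ≤
      min ((a 0 + a 6) * (a 3 + a 9) + (a 4 + a 10) * (a 1 + a 7) + (a 8 + a 2) * (a 5 + a 11))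
        (((a 3 + a 9) + (a 1 + a 7) + (a 5 + a 11)) ^ 2 / 2) := by
  refine le_min ?_ ?_
  · have f03 := bd_D1 ha hD (p := 0) (q := 3) (by norm_num) (by norm_num) (by norm_num)
    have f09 := bd_D1 ha hD (p := 0) (q := 9) (by norm_num) (by norm_num) (by norm_num)
    have f41 := bd_D1 ha hD (p := 4) (q := 1) (by norm_num) (by norm_num) (by norm_num)
    have f47 := bd_D1 ha hD (p := 4) (q := 7) (by norm_num) (by norm_num) (by norm_num)
    have f25 := bd_D1 ha hD (p := 2) (q := 5) (by norm_num) (by norm_num) (by norm_num)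
    have f211 := bd_D1 ha hD (p := 2) (q := 11) (by norm_num) (by norm_num) (by norm_num)
    rw [xx_two] at f25 f211
    refine (add_le_add (add_le_add (add_le_add (add_le_add (add_le_add f03 f09) f41) f47) f25)
      f211).trans (le_of_eq ?_)
    unfold xx
    ring
  · have f03 := bd_D2 ha hD (p := 0) (q := 3) (k := 1) (by norm_num) (by norm_num) (by norm_num)
      (by norm_num)
    have f09 := bd_D2 ha hD (p := 0) (q := 9) (k := 3) (by norm_num) (by norm_num) (by norm_num)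
      (by norm_num)
    have f41 := bd_D2 ha hD (p := 4) (q := 1) (k := 3) (by norm_num) (by norm_num) (by norm_num)
      (by norm_num)
    have f47 := bd_D2 ha hD (p := 4) (q := 7) (k := 1) (by norm_num) (by norm_num) (by norm_num)
      (by norm_num)
    have f25 := bd_D2 ha hD (p := 2) (q := 5) (k := 3) (by norm_num) (by norm_num) (by norm_num)
      (by norm_num)
    have f211 := bd_D2 ha hD (p := 2) (q := 11) (k := 1) (by norm_num) (by norm_num)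
      (by norm_num) (by norm_num)
    refine (add_le_add (add_le_add (add_le_add (add_le_add (add_le_add f03 f09) f41) f47) f25)
      f211).trans ?_
    have hu1 : u4 a 1 = a 1 + a 5 + a 9 := rfl
    have hu3 : u4 a 3 = a 3 + a 7 + a 11 := rfl
    have hs := sq_half (a := u4 a 1) (b := u4 a 3)
      (s := (a 3 + a 9) + (a 1 + a 7) + (a 5 + a 11)) (by rw [hu1, hu3]; ring)
    refine le_trans (le_of_eq ?_) hs
    rw [hu1, hu3]
    ring

theorem bd_DM {a : ℕ → ℝ} {D : ℕ → ℕ → ℝ} (ha : ∀ q, 0 ≤ a q) (hD : okD a D) :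
    DM D ≤ dd (a 0) (a 4) (a 8) (a 6) (a 10) (a 2) (a 3 + a 9) (a 1 + a 7)
      (a 5 + a 11) := by
  have d30 := bd_D1 ha hD (p := 3) (q := 0) (by norm_num) (by norm_num) (by norm_num)
  have d36 := bd_D1 ha hD (p := 3) (q := 6) (by norm_num) (by norm_num) (by norm_num)
  have d14 := bd_D1 ha hD (p := 1) (q := 4) (by norm_num) (by norm_num) (by norm_num)
  have d110 := bd_D1 ha hD (p := 1) (q := 10) (by norm_num) (by norm_num) (by norm_num)
  have d58 := bd_D1 ha hD (p := 5) (q := 8) (by norm_num) (by norm_num) (by norm_num)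
  have d52 := bd_D1 ha hD (p := 5) (q := 2) (by norm_num) (by norm_num) (by norm_num)
  rw [DM_expand]
  unfold dd
  refine add_le_add ?_ (bd_DO ha hD)
  refine (add_le_add (add_le_add (add_le_add (add_le_add (add_le_add d30 d36) d14) d110) d58)
    d52).trans (le_of_eq ?_)
  unfold xx
  ring

theorem FIc_of_FI12 (hF : FI12) : FIc Nm0 := by
  intro a W C D ha hW hC0 hD0 hNm hE hO hwlt hcols hC hD
  obtain ⟨hoe, hBA⟩ := hNm
  have hmix := mixed_nonneg ha hW hC hD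
  have hmaxE1 := le_max_left (1 / 3 * (max (evn a - (W 0 + W 2)) 0) ^ 2) (1 / 3 * evn a ^ 2 - CE C)
  have hmaxE2 := le_max_right (1 / 3 * (max (evn a - (W 0 + W 2)) 0) ^ 2) (1 / 3 * evn a ^ 2 - CE C)
  have hmaxO1 := le_max_left (1 / 3 * (max (od a - (W 1 + W 3)) 0) ^ 2) (1 / 3 * od a ^ 2 - CO C)
  have hwt : wt W = W 0 + W 2 + (W 1 + W 3) := by unfold wt; ring
  rcases lt_or_ge (od a) (W 1 + W 3) with hv | hv
  · -- the odd part of `W` is large
    left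
    unfold S24
    rw [hwt] at hwlt ⊢
    have h1 : 0 < evn a - (W 0 + W 2) := by linarith only [hwlt, hv]
    rw [max_eq_left h1.le] at hmaxE1
    have h2 : 0 ≤ 1 / 3 * (max (od a - (W 1 + W 3)) 0) ^ 2 := by positivity
    have h3 := sq_le_of_lt (s := evn a + od a - (W 0 + W 2 + (W 1 + W 3)))
      (r := evn a - (W 0 + W 2)) (by linarith only [hwlt]) (by linarith only [hv])
    rw [max_eq_left h1.le]
    linarith only [h3, h2, hmaxE1, hmaxO1, hmix]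
  rcases lt_or_ge (evn a) (W 0 + W 2) with hv' | hv'
  · left
    unfold S24
    rw [hwt] at hwlt ⊢
    have h1 : 0 < od a - (W 1 + W 3) := by linarith only [hwlt, hv']
    rw [max_eq_left h1.le] at hmaxO1
    have h2 : 0 ≤ 1 / 3 * (max (evn a - (W 0 + W 2)) 0) ^ 2 := by positivity
    have h3 := sq_le_of_lt (s := evn a + od a - (W 0 + W 2 + (W 1 + W 3)))
      (r := od a - (W 1 + W 3)) (by linarith only [hwlt]) (by linarith only [hv'])
    rw [max_eq_left h1.le]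
    linarith only [h3, h2, hmaxE1, hmaxO1, hmix]
  -- main case
  have eE : evn a = a 0 + a 4 + a 8 + a 6 + a 10 + a 2 := by
    unfold evn u4
    norm_num
    ring
  have eO : od a = (a 3 + a 9) + (a 1 + a 7) + (a 5 + a 11) := by
    unfold od u4
    norm_num
    ring
  have hCE := bd_E hC
  have hCmE := bd_ME hC
  have hCmO := bd_MO ha hW hC
  have hJ := bd_J hC
  have hDM := bd_DM ha hD
  have hfin := hF (a 0) (a 4) (a 8) (a 6) (a 10) (a 2) (a 3 + a 9) (a 1 + a 7) (a 5 + a 11)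
    (W 0) (W 2) (W 1 + W 3) (ha _) (ha _) (ha _) (ha _) (ha _) (ha _)
    (add_nonneg (ha _) (ha _)) (add_nonneg (ha _) (ha _)) (add_nonneg (ha _) (ha _))
    (hW _) (hW _) (add_nonneg (hW _) (hW _))
    (by rw [← eE, ← eO]; exact hoe) (by rw [← eE]; exact hv') (by rw [← eO]; exact hv)
  have hCM := CM_expand C
  have hE0 : 0 ≤ evn a - (W 0 + W 2) := by linarith only [hv']
  have hO0 : 0 ≤ od a - (W 1 + W 3) := by linarith only [hv]
  rw [max_eq_left hE0] at hmaxE1 hmaxE2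
  rw [max_eq_left hO0] at hmaxO1
  have hcM : CM C ≤ cmE (a 0) (a 4) (a 8) (a 6) (a 10) (a 2) (a 3 + a 9) (a 1 + a 7) (a 5 + a 11)
        (W 0) (W 2) + cmO (a 0) (a 4) (a 8) (a 6) (a 10) (a 2) (a 3 + a 9) (a 1 + a 7)
        (a 5 + a 11) (W 1 + W 3) := by
    rw [hCM]
    exact add_le_add hCmE hCmO
  rcases hfin with h | h | h
  · left
    unfold S24
    rw [max_eq_left hE0, max_eq_left hO0]
    exact fin_s2 eE eO hwt hmaxE1 hmaxO1 hcM hDM h
  · right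
    unfold S3c
    exact fin_s3 eE eO hwt hCE hCM hCmE hJ h
  · left
    unfold S24
    rw [max_eq_left hE0, max_eq_left hO0]
    exact fin_s4 eE eO hwt hmaxE2 hmaxO1 hCE hcM hDM h

/-- The bound for all finite sets, from the twelve variable inequality. -/
theorem T0_le_12 (hF : FI12) (A : Finset ℤ) :
    (T0 A : ℝ) ≤ 1 / 3 * (A.card : ℝ) ^ 2 + 14 * A.card := T0_le_Nm0 (FIc_of_FI12 hF) A

end Aff
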