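import Pool.Agent.helper94.Aff.PkDef

/-!
# Packed certificates: digits
-/

namespace Aff

namespace Pk

open Finset

/-- Positions. -/
def mk : Fin 12 → ℕ := ![0, 2, 6, 24, 29, 40, 43, 55, 68, 75, 76, 85]

theorem mk_inj : ∀ i j : Fin 12, mk i = mk j → i = j := by decide

theorem mk_sidon : ∀ i j k l : Fin 12, mk i + mk j = mk k + mk l →
    (i = k ∧ j = l) ∨ (i = l ∧ j = k) := by decide +kernel

theorem mk_lt (i : Fin 12) : mk i < 171 := by
  revert i
  decide

theorem mk2_lt (i j : Fin 12) : mk i + mk j < 171 := by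
  revert i j
  decide

theorem sum_lt {B : ℕ} {f : ℕ → ℕ} (hf : ∀ k, f k < B) (n : ℕ) :
    ∑ j ∈ range n, f j * B ^ j < B ^ n := by
  induction n with
  | zero => simp
  | succ n ih =>
    rw [sum_range_succ, pow_succ]
    have h1 : f n + 1 ≤ B := hf n
    have h2 := Nat.mul_le_mul_right (B ^ n) h1
    nlinarith

theorem split_at {B : ℕ} (f : ℕ → ℕ) {n k : ℕ} (hk : k < n) :
    ∃ r, ∑ j ∈ range n, f j * B ^ j =
      ∑ j ∈ range k, f j * B ^ j + f k * B ^ k + B ^ (k + 1) * r := by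
  obtain ⟨m, rfl⟩ := Nat.exists_eq_add_of_lt hk
  refine ⟨∑ j ∈ range m, f (k + 1 + j) * B ^ j, ?_⟩
  rw [show k + m + 1 = (k + 1) + m by ring, sum_range_add, sum_range_succ, mul_sum]
  congr 1
  refine sum_congr rfl fun j _ => ?_
  rw [pow_add]
  ring

theorem dig_get {B : ℕ} {f : ℕ → ℕ} (hf : ∀ k, f k < B) {n k : ℕ} (hk : k < n) :
    (∑ j ∈ range n, f j * B ^ j) / B ^ k % B = f k := by
  obtain ⟨r, hr⟩ := split_at (B := B) f hk
  have hB : 0 < B := lt_of_le_of_lt (Nat.zero_le _) (hf 0)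
  have h1 := sum_lt hf k
  have h2 : ∑ j ∈ range k, f j * B ^ j + f k * B ^ k + B ^ (k + 1) * r =
      ∑ j ∈ range k, f j * B ^ j + B ^ k * (f k + B * r) := by
    rw [pow_succ]
    ring
  rw [hr, h2, Nat.add_mul_div_left _ _ (pow_pos hB k), Nat.div_eq_of_lt h1, zero_add,
    Nat.add_mul_mod_self_left, Nat.mod_eq_of_lt (hf k)]

/-- Regrouping a sum by positions. -/
theorem fib {ι : Type} [Fintype ι] (p : ι → ℕ) (N : ℕ) (hp : ∀ i, p i < N) (f : ι → ℕ) (B : ℕ) :
    ∑ i, f i * B ^ p i =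
      ∑ k ∈ range N, (∑ i ∈ univ.filter (fun i => p i = k), f i) * B ^ k := by
  rw [← sum_fiberwise_of_maps_to (t := range N) (g := p) (fun i _ => mem_range.2 (hp i))]
  refine sum_congr rfl fun k _ => ?_
  rw [sum_mul]
  refine sum_congr rfl fun i hi => ?_
  rw [(mem_filter.1 hi).2]

theorem fib_le {ι : Type} [Fintype ι] (p : ι → ℕ) (f : ι → ℕ) (k : ℕ) :
    ∑ i ∈ univ.filter (fun i => p i = k), f i ≤ ∑ i, f i :=
  sum_le_sum_of_subset (filter_subset _ _)

theorem fibR {ι : Type} [Fintype ι] (p : ι → ℕ) (N : ℕ) (hp : ∀ i, p i < N) (f : ι → ℕ)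
    (Z : ℕ → ℝ) :
    ∑ i, (f i : ℝ) * Z (p i) =
      ∑ k ∈ range N, ((∑ i ∈ univ.filter (fun i => p i = k), f i : ℕ) : ℝ) * Z k := by
  rw [← sum_fiberwise_of_maps_to (t := range N) (g := p) (fun i _ => mem_range.2 (hp i))]
  refine sum_congr rfl fun k _ => ?_
  push_cast
  rw [sum_mul]
  refine sum_congr rfl fun i hi => ?_
  rw [(mem_filter.1 hi).2]

theorem sum_pos_lt {ι : Type} [Fintype ι] (p : ι → ℕ) (N : ℕ) (hp : ∀ i, p i < N) (f : ι → ℕ)
    {B : ℕ} (hB : ∑ i, f i < B) : ∑ i, f i * B ^ p i < B ^ N := by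
  rw [fib p N hp f B]
  exact sum_lt (fun k => lt_of_le_of_lt (fib_le p f k) hB) N

theorem eq_of_sum_eq {ι : Type} [Fintype ι] [DecidableEq ι] (p : ι → ℕ) (N : ℕ)
    (hp : ∀ i, p i < N)
    (hinj : ∀ i j, p i = p j → i = j) (f g : ι → ℕ) {B : ℕ} (hf : ∑ i, f i < B)
    (hg : ∑ i, g i < B) (h : ∑ i, f i * B ^ p i = ∑ i, g i * B ^ p i) : ∀ i, f i = g i := by
  intro i
  have key : ∀ f : ι → ℕ, ∑ i, f i < B → (∑ i, f i * B ^ p i) / B ^ p i % B = f i := by
    intro f hf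
    rw [fib p N hp f B, dig_get (fun k => lt_of_le_of_lt (fib_le p f k) hf) (hp i)]
    have h1 : univ.filter (fun j => p j = p i) = {i} := by
      ext j
      simp only [mem_filter, mem_univ, true_and, mem_singleton]
      exact ⟨fun h => hinj _ _ h, fun h => by rw [h]⟩
    rw [h1, sum_singleton]
  rw [← key f hf, h, key g hg]

theorem cmpD_zero (B u v : ℕ) : cmpD B 0 u v = true := rfl

theorem cmpD_succ (B t u v : ℕ) (h : cmpD B (t + 1) u v = true) :
    v % B ≤ u % B ∧ cmpD B t (u / B) (v / B) = true := by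
  change Bool.rec false (cmpD B t (u / B) (v / B)) (Nat.ble (v % B) (u % B)) = true at h
  cases hb : Nat.ble (v % B) (u % B) with
  | false => rw [hb] at h; exact absurd h Bool.false_ne_true
  | true =>
    rw [hb] at h
    exact ⟨Nat.le_of_ble_eq_true hb, h⟩

theorem cmpD_sound {B : ℕ} {t u v : ℕ} (h : cmpD B t u v = true) :
    ∀ k < t, v / B ^ k % B ≤ u / B ^ k % B := by
  induction t generalizing u v with
  | zero => intro k hk; omega
  | succ t ih =>
    obtain ⟨h1, h2⟩ := cmpD_succ B t u v h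
    intro k hk
    cases k with
    | zero => simpa using h1
    | succ k =>
      have h3 := ih h2 k (by omega)
      rw [Nat.div_div_eq_div_mul, Nat.div_div_eq_div_mul, ← pow_succ'] at h3
      exact h3

/-! ### Values of packed linear forms -/

/-- `n` represents a linear form with value `x`. -/
def RL (B : ℕ) (X : Fin 12 → ℝ) (n : ℕ) (x : ℝ) : Prop :=
  ∃ (d : Fin 12 → ℕ) (k : ℕ), n = ∑ i, d i * B ^ mk i + k * B ^ 171 ∧
    x = ∑ i, ((d i : ℝ) - k) * X i ∧ ∀ i, d i ≤ 2 * k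

/-- `n` represents a quadratic form with value `y`. -/
def RQ (B : ℕ) (X : Fin 12 → ℝ) (n : ℕ) (y : ℝ) : Prop :=
  ∃ (q : Fin 12 × Fin 12 → ℕ) (l : Fin 12 → ℕ) (c : ℕ),
    n = ∑ p, q p * B ^ (mk p.1 + mk p.2) + (∑ i, l i * B ^ mk i) * B ^ 171 +
      c * (B ^ 171 * B ^ 171) ∧
    y = ∑ p, (q p : ℝ) * (X p.1 * X p.2) - (∑ i, (l i : ℝ) * X i) * (∑ i, X i) +
      c * ((∑ i, X i) * (∑ i, X i)) ∧
    (∀ p, q p ≤ 4 * c) ∧ ∀ i, l i ≤ 4 * c

variable {B : ℕ} {X : Fin 12 → ℝ}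

theorem RL.zero : RL B X 0 0 := ⟨fun _ => 0, 0, by simp, by simp, by simp⟩

theorem RL.add {n m : ℕ} {x y : ℝ} (hn : RL B X n x) (hm : RL B X m y) :
    RL B X (n + m) (x + y) := by
  obtain ⟨d, k, h1, h2, h3⟩ := hn
  obtain ⟨d', k', h1', h2', h3'⟩ := hm
  refine ⟨fun i => d i + d' i, k + k', ?_, ?_, fun i => ?_⟩
  · rw [h1, h1']
    simp only [add_mul, sum_add_distrib]
    ring
  · rw [h2, h2', ← sum_add_distrib]
    refine sum_congr rfl fun i _ => ?_
    push_cast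
    ring
  · have := h3 i
    have := h3' i
    show d i + d' i ≤ 2 * (k + k')
    omega

theorem RL.smul {n : ℕ} {x : ℝ} (c : ℕ) (hn : RL B X n x) : RL B X (c * n) (c * x) := by
  obtain ⟨d, k, h1, h2, h3⟩ := hn
  refine ⟨fun i => c * d i, c * k, ?_, ?_, fun i => ?_⟩
  · rw [h1, mul_add, mul_sum]
    congr 1
    · exact sum_congr rfl fun i _ => by ring
    · ring
  · rw [h2, mul_sum]
    refine sum_congr rfl fun i _ => ?_
    push_cast
    ring
  · have := Nat.mul_le_mul_left c (h3 i)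
    show c * d i ≤ 2 * (c * k)
    rw [Nat.mul_left_comm 2 c k]
    exact this

theorem RQ.zero : RQ B X 0 0 := ⟨fun _ => 0, fun _ => 0, 0, by simp, by simp, by simp, by simp⟩

theorem RQ.add {n m : ℕ} {x y : ℝ} (hn : RQ B X n x) (hm : RQ B X m y) :
    RQ B X (n + m) (x + y) := by
  obtain ⟨q, l, c, h1, h2, h3, h4⟩ := hn
  obtain ⟨q', l', c', h1', h2', h3', h4'⟩ := hm
  refine ⟨fun p => q p + q' p, fun i => l i + l' i, c + c', ?_, ?_, fun p => ?_, fun i => ?_⟩
  · rw [h1, h1']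
    simp only [add_mul, sum_add_distrib]
    ring
  · rw [h2, h2']
    push_cast
    simp only [add_mul, sum_add_distrib]
    ring
  · have := h3 p
    have := h3' p
    show q p + q' p ≤ 4 * (c + c')
    omega
  · have := h4 i
    have := h4' i
    show l i + l' i ≤ 4 * (c + c')
    omega

theorem RQ.smul {n : ℕ} {y : ℝ} (a : ℕ) (hn : RQ B X n y) : RQ B X (a * n) (a * y) := by
  obtain ⟨q, l, c, h1, h2, h3, h4⟩ := hn
  refine ⟨fun p => a * q p, fun i => a * l i, a * c, ?_, ?_, fun p => ?_, fun i => ?_⟩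
  · have e1 : ∑ p : Fin 12 × Fin 12, a * q p * B ^ (mk p.1 + mk p.2) =
        a * ∑ p : Fin 12 × Fin 12, q p * B ^ (mk p.1 + mk p.2) := by
      rw [mul_sum]
      exact sum_congr rfl fun p _ => by ring
    have e2 : ∑ i, a * l i * B ^ mk i = a * ∑ i, l i * B ^ mk i := by
      rw [mul_sum]
      exact sum_congr rfl fun p _ => by ring
    rw [h1, e1, e2]
    ring
  · have e1 : ∑ p : Fin 12 × Fin 12, ((a * q p : ℕ) : ℝ) * (X p.1 * X p.2) =
        a * ∑ p : Fin 12 × Fin 12, (q p : ℝ) * (X p.1 * X p.2) := by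
      rw [mul_sum]
      exact sum_congr rfl fun p _ => by push_cast; ring
    have e2 : ∑ i, ((a * l i : ℕ) : ℝ) * X i = a * ∑ i, (l i : ℝ) * X i := by
      rw [mul_sum]
      exact sum_congr rfl fun p _ => by push_cast; ring
    rw [h2, e1, e2]
    push_cast
    ring
  · have := Nat.mul_le_mul_left a (h3 p)
    show a * q p ≤ 4 * (a * c)
    rw [Nat.mul_left_comm 4 a c]
    exact this
  · have := Nat.mul_le_mul_left a (h4 i)
    show a * l i ≤ 4 * (a * c)
    rw [Nat.mul_left_comm 4 a c]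
    exact this

theorem RL.mul {n m : ℕ} {x y : ℝ} (hn : RL B X n x) (hm : RL B X m y) :
    RQ B X (n * m) (x * y) := by
  obtain ⟨d, k, h1, h2, h3⟩ := hn
  obtain ⟨d', k', h1', h2', h3'⟩ := hm
  refine ⟨fun p => d p.1 * d' p.2, fun i => k' * d i + k * d' i, k * k', ?_, ?_, fun p => ?_,
    fun i => ?_⟩
  · have e1 : ∑ p : Fin 12 × Fin 12, d p.1 * d' p.2 * B ^ (mk p.1 + mk p.2) =
        (∑ i, d i * B ^ mk i) * ∑ i, d' i * B ^ mk i := by
      rw [sum_mul_sum, ← univ_product_univ, sum_product]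
      refine sum_congr rfl fun i _ => sum_congr rfl fun j _ => ?_
      rw [pow_add]
      ring
    have e2 : ∑ i, (k' * d i + k * d' i) * B ^ mk i =
        k' * ∑ i, d i * B ^ mk i + k * ∑ i, d' i * B ^ mk i := by
      rw [mul_sum, mul_sum, ← sum_add_distrib]
      exact sum_congr rfl fun i _ => by ring
    rw [h1, h1', e1, e2]
    ring
  · have e1 : ∑ p : Fin 12 × Fin 12, ((d p.1 * d' p.2 : ℕ) : ℝ) * (X p.1 * X p.2) =
        (∑ i, (d i : ℝ) * X i) * ∑ i, (d' i : ℝ) * X i := by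
      rw [sum_mul_sum, ← univ_product_univ, sum_product]
      refine sum_congr rfl fun i _ => sum_congr rfl fun j _ => ?_
      push_cast
      ring
    have e2 : ∑ i, ((k' * d i + k * d' i : ℕ) : ℝ) * X i =
        k' * ∑ i, (d i : ℝ) * X i + k * ∑ i, (d' i : ℝ) * X i := by
      rw [mul_sum, mul_sum, ← sum_add_distrib]
      refine sum_congr rfl fun i _ => ?_
      push_cast
      ring
    have e3 : ∀ (f : Fin 12 → ℕ) (a : ℕ), ∑ i, ((f i : ℝ) - a) * X i =
        ∑ i, (f i : ℝ) * X i - a * ∑ i, X i := by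
      intro f a
      rw [mul_sum, ← sum_sub_distrib]
      exact sum_congr rfl fun i _ => by ring
    rw [h2, h2', e1, e2, e3, e3]
    push_cast
    ring
  · have a1 := h3 p.1
    have a2 := h3' p.2
    have := Nat.mul_le_mul a1 a2
    show d p.1 * d' p.2 ≤ 4 * (k * k')
    nlinarith
  · have a1 := Nat.mul_le_mul_left k' (h3 i)
    have a2 := Nat.mul_le_mul_left k (h3' i)
    show k' * d i + k * d' i ≤ 4 * (k * k')
    nlinarith

/-! ### Soundness of the equality test -/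

theorem ones_eq (B : ℕ) : ones B = ∑ i, B ^ mk i := by
  simp [ones, mk, Fin.sum_univ_succ]
  ring

theorem eqv_sound {n m : ℕ} {x y : ℝ} (hn : RL B X n x) (hm : RL B X m y)
    (h : eqv B n m = true) : x = y := by
  obtain ⟨d, k, h1, h2, h3⟩ := hn
  obtain ⟨d', k', h1', h2', h3'⟩ := hm
  simp only [eqv, Bool.and_eq_true] at h
  obtain ⟨hb, he⟩ := h
  rw [Nat.blt_eq] at hb
  have hb' : 100 * (n / cc B + m / cc B) < B := hb
  have he' := Nat.eq_of_beq_eq_true he
  have hB : 0 < B := lt_of_le_of_lt (Nat.zero_le _) hb'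
  have hC : 0 < cc B := pow_pos hB _
  have k1 : k ≤ n / cc B := by
    rw [Nat.le_div_iff_mul_le hC, h1]
    exact Nat.le_add_left _ _
  have k2 : k' ≤ m / cc B := by
    rw [Nat.le_div_iff_mul_le hC, h1']
    exact Nat.le_add_left _ _
  have s1 : ∑ i, d i ≤ 24 * k := by
    calc ∑ i, d i ≤ ∑ _i : Fin 12, 2 * k := sum_le_sum fun i _ => h3 i
      _ = 24 * k := by simp; ring
  have s2 : ∑ i, d' i ≤ 24 * k' := by
    calc ∑ i, d' i ≤ ∑ _i : Fin 12, 2 * k' := sum_le_sum fun i _ => h3' i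
      _ = 24 * k' := by simp; ring
  have t1 : ∑ i, d i * B ^ mk i < cc B := sum_pos_lt mk 171 mk_lt d (by omega)
  have t2 : ∑ i, d' i * B ^ mk i < cc B := sum_pos_lt mk 171 mk_lt d' (by omega)
  have q1 : n / cc B = k := by
    rw [h1]
    change (∑ i, d i * B ^ mk i + k * cc B) / cc B = k
    rw [Nat.add_mul_div_right _ _ hC, Nat.div_eq_of_lt t1, zero_add]
  have q2 : m / cc B = k' := by
    rw [h1']
    change (∑ i, d' i * B ^ mk i + k' * cc B) / cc B = k'
    rw [Nat.add_mul_div_right _ _ hC, Nat.div_eq_of_lt t2, zero_add]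
  rw [q1, q2] at he' hb'
  have he2 : ∑ i, (d i + k') * B ^ mk i = ∑ i, (d' i + k) * B ^ mk i := by
    have e1 : ∀ (f : Fin 12 → ℕ) (a : ℕ), ∑ i, (f i + a) * B ^ mk i =
        ∑ i, f i * B ^ mk i + a * ones B := by
      intro f a
      rw [ones_eq, mul_sum, ← sum_add_distrib]
      exact sum_congr rfl fun i _ => by ring
    rw [e1, e1]
    rw [h1, h1'] at he'
    change ∑ i, d i * B ^ mk i + k * cc B + k' * (ones B + cc B) =
      ∑ i, d' i * B ^ mk i + k' * cc B + k * (ones B + cc B) at he'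
    have e2 : ∑ i, d i * B ^ mk i + k * cc B + k' * (ones B + cc B) =
        (∑ i, d i * B ^ mk i + k' * ones B) + (k + k') * cc B := by ring
    have e3 : ∑ i, d' i * B ^ mk i + k' * cc B + k * (ones B + cc B) =
        (∑ i, d' i * B ^ mk i + k * ones B) + (k + k') * cc B := by ring
    rw [e2, e3] at he'
    exact Nat.add_right_cancel he'
  have he3 := eq_of_sum_eq mk 171 mk_lt mk_inj (fun i => d i + k') (fun i => d' i + k)
    (by
      rw [sum_add_distrib]
      simp only [sum_const, card_univ, Fintype.card_fin, smul_eq_mul]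
      omega)
    (by
      rw [sum_add_distrib]
      simp only [sum_const, card_univ, Fintype.card_fin, smul_eq_mul]
      omega) he2
  rw [h2, h2']
  refine sum_congr rfl fun i _ => ?_
  have h4 : d i + k' = d' i + k := he3 i
  have h5 : (d i : ℝ) + k' = d' i + k := by exact_mod_cast h4
  have h6 : (d i : ℝ) - k = d' i - k' := by linarith
  rw [h6]

/-! ### Soundness of the comparison of quadratic forms -/

/-- Values of the monomials. -/
theorem exists_Z (hX : ∀ i, 0 ≤ X i) :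
    ∃ Z : ℕ → ℝ, (∀ k, 0 ≤ Z k) ∧ ∀ i j, X i * X j = Z (mk i + mk j) := by
  classical
  refine ⟨fun k => if h : ∃ p : Fin 12 × Fin 12, mk p.1 + mk p.2 = k then
    X h.choose.1 * X h.choose.2 else 0, fun k => ?_, fun i j => ?_⟩
  · by_cases h : ∃ p : Fin 12 × Fin 12, mk p.1 + mk p.2 = k
    · simp only [dif_pos h]
      exact mul_nonneg (hX _) (hX _)
    · simp only [dif_neg h]
      exact le_refl _
  · have h : ∃ p : Fin 12 × Fin 12, mk p.1 + mk p.2 = mk i + mk j := ⟨(i, j), rfl⟩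
    simp only [dif_pos h]
    rcases mk_sidon _ _ _ _ h.choose_spec with ⟨h1, h2⟩ | ⟨h1, h2⟩
    · rw [h1, h2]
    · rw [h1, h2, mul_comm]

theorem cmpQ_sound (hX : ∀ i, 0 ≤ X i) {n m : ℕ} {x y : ℝ} (hn : RQ B X n x) (hm : RQ B X m y)
    (h : cmpQ B n m = true) : y ≤ x := by
  obtain ⟨q, l, c, h1, h2, h3, h4⟩ := hn
  obtain ⟨q', l', c', h1', h2', h3', h4'⟩ := hm
  simp only [cmpQ, Bool.and_eq_true] at h
  obtain ⟨hb, he⟩ := h
  rw [Nat.blt_eq] at hb
  have hb' : 2000 * (n / cc B / cc B + m / cc B / cc B) < B := hb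
  have hB : 0 < B := lt_of_le_of_lt (Nat.zero_le _) hb'
  have hC : 0 < cc B := pow_pos hB _
  have k1 : c ≤ n / cc B / cc B := by
    rw [Nat.div_div_eq_div_mul, Nat.le_div_iff_mul_le (Nat.mul_pos hC hC), h1]
    exact Nat.le_add_left _ _
  have k2 : c' ≤ m / cc B / cc B := by
    rw [Nat.div_div_eq_div_mul, Nat.le_div_iff_mul_le (Nat.mul_pos hC hC), h1']
    exact Nat.le_add_left _ _
  have s1 : ∑ p, q p ≤ 576 * c := by
    calc ∑ p, q p ≤ ∑ _p : Fin 12 × Fin 12, 4 * c := sum_le_sum fun p _ => h3 p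
      _ = 576 * c := by simp; ring
  have s2 : ∑ p, q' p ≤ 576 * c' := by
    calc ∑ p, q' p ≤ ∑ _p : Fin 12 × Fin 12, 4 * c' := sum_le_sum fun p _ => h3' p
      _ = 576 * c' := by simp; ring
  have s3 : ∑ i, l i ≤ 48 * c := by
    calc ∑ i, l i ≤ ∑ _i : Fin 12, 4 * c := sum_le_sum fun i _ => h4 i
      _ = 48 * c := by simp; ring
  have s4 : ∑ i, l' i ≤ 48 * c' := by
    calc ∑ i, l' i ≤ ∑ _i : Fin 12, 4 * c' := sum_le_sum fun i _ => h4' i
      _ = 48 * c' := by simp; ring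
  have mk2' : ∀ p : Fin 12 × Fin 12, mk p.1 + mk p.2 < 171 := fun p => mk2_lt p.1 p.2
  have t1 : ∑ p : Fin 12 × Fin 12, q p * B ^ (mk p.1 + mk p.2) < cc B :=
    sum_pos_lt (fun p : Fin 12 × Fin 12 => mk p.1 + mk p.2) 171 mk2' q (by omega)
  have t2 : ∑ p : Fin 12 × Fin 12, q' p * B ^ (mk p.1 + mk p.2) < cc B :=
    sum_pos_lt (fun p : Fin 12 × Fin 12 => mk p.1 + mk p.2) 171 mk2' q' (by omega)
  have t3 : ∑ i, l i * B ^ mk i < cc B := sum_pos_lt mk 171 mk_lt l (by omega)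
  have t4 : ∑ i, l' i * B ^ mk i < cc B := sum_pos_lt mk 171 mk_lt l' (by omega)
  have key : ∀ (N Q L c : ℕ), N = Q + L * B ^ 171 + c * (B ^ 171 * B ^ 171) → Q < cc B →
      L < cc B → N % cc B = Q ∧ N / cc B % cc B = L ∧ N / cc B / cc B = c := by
    intro N Q L c hN hQ hL
    have e1 : N = Q + cc B * (L + cc B * c) := by
      rw [hN]
      unfold cc
      ring
    have e2 : N / cc B = L + cc B * c := by
      rw [e1, Nat.add_mul_div_left _ _ hC, Nat.div_eq_of_lt hQ, zero_add]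
    refine ⟨?_, ?_, ?_⟩
    · rw [e1, Nat.add_mul_mod_self_left, Nat.mod_eq_of_lt hQ]
    · rw [e2, Nat.add_mul_mod_self_left, Nat.mod_eq_of_lt hL]
    · rw [e2, Nat.add_mul_div_left _ _ hC, Nat.div_eq_of_lt hL, zero_add]
  obtain ⟨r1, r2, r3⟩ := key _ _ _ _ h1 t1 t3
  obtain ⟨r1', r2', r3'⟩ := key _ _ _ _ h1' t2 t4
  rw [r1, r2, r3, r1', r2', r3'] at he
  rw [r3, r3'] at hb'
  -- the two packed numbers as sums
  have e1 : ∀ (Q : Fin 12 × Fin 12 → ℕ) (L : Fin 12 → ℕ) (a : ℕ),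
      ∑ p : Fin 12 × Fin 12, Q p * B ^ (mk p.1 + mk p.2) + (∑ i, L i * B ^ mk i) * ones B +
        a * (ones B * ones B) =
      ∑ p : Fin 12 × Fin 12, (Q p + L p.1 + a) * B ^ (mk p.1 + mk p.2) := by
    intro Q L a
    have f1 : (∑ i, L i * B ^ mk i) * ones B =
        ∑ p : Fin 12 × Fin 12, L p.1 * B ^ (mk p.1 + mk p.2) := by
      rw [ones_eq, sum_mul_sum, ← univ_product_univ, sum_product]
      refine sum_congr rfl fun i _ => sum_congr rfl fun j _ => ?_
      rw [pow_add]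
      ring
    have f2 : a * (ones B * ones B) =
        ∑ p : Fin 12 × Fin 12, a * B ^ (mk p.1 + mk p.2) := by
      rw [ones_eq, sum_mul_sum, ← univ_product_univ, sum_product, mul_sum]
      refine sum_congr rfl fun i _ => ?_
      rw [mul_sum]
      refine sum_congr rfl fun j _ => ?_
      rw [pow_add]
    rw [f1, f2, ← sum_add_distrib, ← sum_add_distrib]
    exact sum_congr rfl fun p _ => by ring
  rw [e1, e1] at he
  have b1 : ∑ p : Fin 12 × Fin 12, (q p + l' p.1 + c) < B := by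
    have g1 : ∑ p : Fin 12 × Fin 12, l' p.1 = 12 * ∑ i, l' i := by
      rw [← univ_product_univ, sum_product]
      simp [mul_sum]
    rw [sum_add_distrib, sum_add_distrib, g1]
    simp only [sum_const, card_univ, Fintype.card_prod, Fintype.card_fin, smul_eq_mul]
    omega
  have b2 : ∑ p : Fin 12 × Fin 12, (q' p + l p.1 + c') < B := by
    have g1 : ∑ p : Fin 12 × Fin 12, l p.1 = 12 * ∑ i, l i := by
      rw [← univ_product_univ, sum_product]
      simp [mul_sum]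
    rw [sum_add_distrib, sum_add_distrib, g1]
    simp only [sum_const, card_univ, Fintype.card_prod, Fintype.card_fin, smul_eq_mul]
    omega
  have he2 := cmpD_sound he
  rw [fib (fun p : Fin 12 × Fin 12 => mk p.1 + mk p.2) 171 mk2' (fun p => q p + l' p.1 + c) B,
    fib (fun p : Fin 12 × Fin 12 => mk p.1 + mk p.2) 171 mk2' (fun p => q' p + l p.1 + c') B]
    at he2
  obtain ⟨Z, hZ, hZ'⟩ := exists_Z hX
  have v1 : x - y = ∑ p : Fin 12 × Fin 12, ((q p + l' p.1 + c : ℕ) : ℝ) * Z (mk p.1 + mk p.2) -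
      ∑ p : Fin 12 × Fin 12, ((q' p + l p.1 + c' : ℕ) : ℝ) * Z (mk p.1 + mk p.2) := by
    have f1 : ∀ (Q : Fin 12 × Fin 12 → ℕ) (L : Fin 12 → ℕ) (a : ℕ),
        ∑ p : Fin 12 × Fin 12, ((Q p + L p.1 + a : ℕ) : ℝ) * Z (mk p.1 + mk p.2) =
        ∑ p, (Q p : ℝ) * (X p.1 * X p.2) + (∑ i, (L i : ℝ) * X i) * (∑ i, X i) +
          a * ((∑ i, X i) * (∑ i, X i)) := by
      intro Q L a
      have g1 : (∑ i, (L i : ℝ) * X i) * (∑ i, X i) =
          ∑ p : Fin 12 × Fin 12, (L p.1 : ℝ) * (X p.1 * X p.2) := by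
        rw [sum_mul_sum, ← univ_product_univ, sum_product]
        exact sum_congr rfl fun i _ => sum_congr rfl fun j _ => by ring
      have g2 : (a : ℝ) * ((∑ i, X i) * (∑ i, X i)) =
          ∑ p : Fin 12 × Fin 12, (a : ℝ) * (X p.1 * X p.2) := by
        rw [sum_mul_sum, ← univ_product_univ, sum_product, mul_sum]
        refine sum_congr rfl fun i _ => ?_
        rw [mul_sum]
      rw [g1, g2, ← sum_add_distrib, ← sum_add_distrib]
      refine sum_congr rfl fun p _ => ?_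
      rw [← hZ']
      push_cast
      ring
    rw [f1, f1, h2, h2']
    ring
  rw [fibR (fun p : Fin 12 × Fin 12 => mk p.1 + mk p.2) 171 mk2' (fun p => q p + l' p.1 + c) Z,
    fibR (fun p : Fin 12 × Fin 12 => mk p.1 + mk p.2) 171 mk2' (fun p => q' p + l p.1 + c') Z,
    ← sum_sub_distrib] at v1
  have v2 : 0 ≤ x - y := by
    rw [v1]
    refine sum_nonneg fun k hk => ?_
    have hk' := mem_range.1 hk
    have w1 := he2 k hk'
    rw [dig_get (fun t => lt_of_le_of_lt (fib_le _ _ t) b1) hk',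
      dig_get (fun t => lt_of_le_of_lt (fib_le _ _ t) b2) hk'] at w1
    rw [← sub_mul]
    refine mul_nonneg (sub_nonneg.2 ?_) (hZ k)
    exact_mod_cast w1
  linarith

/-- Packed forms from explicit coefficients. -/
theorem RL_lf12 {d0 d1 d2 d3 d4 d5 d6 d7 d8 d9 d10 d11 k : ℕ} (h0 : d0 ≤ 2 * k)
    (h1 : d1 ≤ 2 * k) (h2 : d2 ≤ 2 * k) (h3 : d3 ≤ 2 * k) (h4 : d4 ≤ 2 * k) (h5 : d5 ≤ 2 * k)
    (h6 : d6 ≤ 2 * k) (h7 : d7 ≤ 2 * k) (h8 : d8 ≤ 2 * k) (h9 : d9 ≤ 2 * k) (h10 : d10 ≤ 2 * k)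
    (h11 : d11 ≤ 2 * k) :
    RL B X (lf12 B d0 d1 d2 d3 d4 d5 d6 d7 d8 d9 d10 d11 k)
      (((d0 : ℝ) - k) * X 0 + ((d1 : ℝ) - k) * X 1 + ((d2 : ℝ) - k) * X 2 +
        ((d3 : ℝ) - k) * X 3 + ((d4 : ℝ) - k) * X 4 + ((d5 : ℝ) - k) * X 5 +
        ((d6 : ℝ) - k) * X 6 + ((d7 : ℝ) - k) * X 7 + ((d8 : ℝ) - k) * X 8 +
        ((d9 : ℝ) - k) * X 9 + ((d10 : ℝ) - k) * X 10 + ((d11 : ℝ) - k) * X 11) := by
  refine ⟨![d0, d1, d2, d3, d4, d5, d6, d7, d8, d9, d10, d11], k, ?_, ?_, ?_⟩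
  · simp only [lf12, mk, Fin.sum_univ_succ, Fin.sum_univ_zero]
    simp
    ring
  · simp only [Fin.sum_univ_succ, Fin.sum_univ_zero]
    simp
    ring
  · intro i
    fin_cases i <;> simpa

theorem RL_unp {h : ℕ} (hh : 0 < h) (c : ℕ) : ∃ x, RL B X (unp B h c) x := by
  have key : ∀ a : ℕ, a % (2 * h) ≤ 2 * h := fun a => (Nat.mod_lt _ (by omega)).le
  exact ⟨_, RL_lf12 (key _) (key _) (key _) (key _) (key _) (key _) (key _) (key _) (key _)
    (key _) (key _) (key _)⟩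

end Pk

end Aff
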