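import Pool.Agent.helper94.Aff.PkA
import Pool.Agent.helper94.Aff.Chk2

/-!
# Packed certificates: soundness of the checker
-/

namespace Aff

namespace Pk

open Chk (CntE CntO Goal Concl)

variable {B : ℕ} {X : Fin 12 → ℝ}

theorem an_true {a b : Bool} (h : an a b = true) : a = true ∧ b = true := by
  cases a with
  | false => exact absurd h Bool.false_ne_true
  | true => exact ⟨rfl, h⟩

/-- All rows are nonnegative. -/
def Okr (B : ℕ) (X : Fin 12 → ℝ) (rows : List ℕ) : Prop := ∀ n ∈ rows, ∃ x, RL B X n x ∧ 0 ≤ x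

theorem nth_nil (i : ℕ) : nth [] i = 0 := rfl

theorem nth_cons_zero (a : ℕ) (l : List ℕ) : nth (a :: l) 0 = a := rfl

theorem nth_cons_succ (a : ℕ) (l : List ℕ) (i : ℕ) : nth (a :: l) (i + 1) = nth l i := rfl

theorem nth_ok {rows : List ℕ} (h : Okr B X rows) (i : ℕ) :
    ∃ x, RL B X (nth rows i) x ∧ 0 ≤ x := by
  induction rows generalizing i with
  | nil => exact ⟨0, by rw [nth_nil]; exact RL.zero, le_refl _⟩
  | cons a l ih =>
    cases i with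
    | zero => rw [nth_cons_zero]; exact h a (List.mem_cons_self ..)
    | succ i =>
      rw [nth_cons_succ]
      exact ih (fun n hn => h n (List.mem_cons_of_mem _ hn)) i

theorem comb_nil (rows : List ℕ) : comb rows [] = 0 := rfl

theorem comb_cons (rows : List ℕ) (i k : ℕ) (l : List (ℕ × ℕ)) :
    comb rows ((i, k) :: l) = k * nth rows i + comb rows l := rfl

theorem comb_ok {rows : List ℕ} (h : Okr B X rows) (l : List (ℕ × ℕ)) :
    ∃ x, RL B X (comb rows l) x ∧ 0 ≤ x := by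
  induction l with
  | nil => exact ⟨0, by rw [comb_nil]; exact RL.zero, le_refl _⟩
  | cons p l ih =>
    obtain ⟨i, k⟩ := p
    obtain ⟨x, hx, hx0⟩ := nth_ok h i
    obtain ⟨y, hy, hy0⟩ := ih
    refine ⟨k * x + y, ?_, add_nonneg (mul_nonneg (Nat.cast_nonneg k) hx0) hy0⟩
    rw [comb_cons]
    exact (hx.smul k).add hy

theorem prods_nil (rows : List ℕ) : prods rows [] = 0 := rfl

theorem prods_cons (rows : List ℕ) (i : ℕ) (c : List (ℕ × ℕ)) (l : List (ℕ × List (ℕ × ℕ))) :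
    prods rows ((i, c) :: l) = nth rows i * comb rows c + prods rows l := rfl

theorem prods_ok {rows : List ℕ} (h : Okr B X rows) (l : List (ℕ × List (ℕ × ℕ))) :
    ∃ y, RQ B X (prods rows l) y ∧ 0 ≤ y := by
  induction l with
  | nil => exact ⟨0, by rw [prods_nil]; exact RQ.zero, le_refl _⟩
  | cons p l ih =>
    obtain ⟨i, c⟩ := p
    obtain ⟨x, hx, hx0⟩ := nth_ok h i
    obtain ⟨z, hz, hz0⟩ := comb_ok h c
    obtain ⟨y, hy, hy0⟩ := ih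
    refine ⟨x * z + y, ?_, add_nonneg (mul_nonneg hx0 hz0) hy0⟩
    rw [prods_cons]
    exact (hx.mul hz).add hy

theorem sqs_nil (B h : ℕ) : sqs B h [] = 0 := rfl

theorem sqs_cons (B h k c : ℕ) (l : List (ℕ × ℕ)) :
    sqs B h ((k, c) :: l) = k * (unp B h c * unp B h c) + sqs B h l := rfl

theorem sqs_ok {h : ℕ} (hh : 0 < h) (l : List (ℕ × ℕ)) :
    ∃ y, RQ B X (sqs B h l) y ∧ 0 ≤ y := by
  induction l with
  | nil => exact ⟨0, by rw [sqs_nil]; exact RQ.zero, le_refl _⟩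
  | cons p l ih =>
    obtain ⟨k, c⟩ := p
    obtain ⟨x, hx⟩ := RL_unp (B := B) (X := X) hh c
    obtain ⟨y, hy, hy0⟩ := ih
    refine ⟨k * (x * x) + y, ?_,
      add_nonneg (mul_nonneg (Nat.cast_nonneg k) (mul_self_nonneg x)) hy0⟩
    rw [sqs_cons]
    exact ((hx.mul hx).smul k).add hy

/-! ### Bounds -/

theorem okT_sound {rows : List ℕ} (h : Okr B X rows) {a b c k : ℕ} {c1 c2 c3 : List (ℕ × ℕ)}
    {x z y : ℝ} (ha : RL B X a x) (hb : RL B X b z) (hc : RL B X c y)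
    (hok : okT B rows a b k c1 c2 c3 = true) :
    ∃ s t : ℝ, 0 ≤ s ∧ s ≤ x ∧ s ≤ z ∧ RQ B X (tb rows c k c1 c2 c3) t ∧
      (k : ℝ) * k * ((x - s) * (z - s) + s * y) = t := by
  simp only [okT, Bool.and_eq_true] at hok
  obtain ⟨⟨hk, h1⟩, h2⟩ := hok
  rw [Nat.blt_eq] at hk
  obtain ⟨r1, hr1, p1⟩ := comb_ok h c1
  obtain ⟨r2, hr2, p2⟩ := comb_ok h c2
  obtain ⟨r3, hr3, p3⟩ := comb_ok h c3
  have e1 := eqv_sound (ha.smul k) (hr1.add hr2) h1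
  have e2 := eqv_sound (hb.smul k) (hr1.add hr3) h2
  have hk' : (0 : ℝ) < k := by exact_mod_cast hk
  have hx : x = (r1 + r2) / k := by
    rw [eq_div_iff hk'.ne']
    linarith
  have hz : z = (r1 + r3) / k := by
    rw [eq_div_iff hk'.ne']
    linarith
  refine ⟨r1 / k, r2 * r3 + (k * r1) * y, div_nonneg p1 hk'.le, ?_, ?_,
    (hr2.mul hr3).add ((hr1.smul k).mul hc), ?_⟩
  · rw [hx]
    exact div_le_div_of_nonneg_right (by linarith) hk'.le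
  · rw [hz]
    exact div_le_div_of_nonneg_right (by linarith) hk'.le
  · rw [hx, hz]
    field_simp
    ring

theorem bnd_sound {rows : List ℕ} (h : Okr B X rows) {a b c : ℕ} {x z y : ℝ}
    (ha : RL B X a x) (hb : RL B X b z) (hc : RL B X c y) (hx : 0 ≤ x) (hz : 0 ≤ z) (hy : 0 ≤ y)
    {kd : Kd} (hok : okK B rows a b c kd = true) :
    ∃ t, RQ B X (bnd rows a b c kd) t ∧ (den kd : ℝ) * P x z y ≤ t := by
  cases kd with
  | xz =>
    refine ⟨x * z, ha.mul hb, ?_⟩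
    have : ((den Kd.xz : ℕ) : ℝ) = 1 := Nat.cast_one
    rw [this, one_mul]
    exact P_le_mul hx hz hy
  | xy =>
    refine ⟨x * y, ha.mul hc, ?_⟩
    have : ((den Kd.xy : ℕ) : ℝ) = 1 := Nat.cast_one
    rw [this, one_mul]
    exact P_le_mul_ac hx hz hy
  | zy =>
    refine ⟨z * y, hb.mul hc, ?_⟩
    have : ((den Kd.zy : ℕ) : ℝ) = 1 := Nat.cast_one
    rw [this, one_mul]
    exact P_le_mul_bc hx hz hy
  | t1 k c1 c2 c3 =>
    obtain ⟨s, t, h0, h1, h2, ht, he⟩ := okT_sound h ha hb hc hok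
    refine ⟨t, ht, ?_⟩
    have : ((den (Kd.t1 k c1 c2 c3) : ℕ) : ℝ) = k * k := Nat.cast_mul k k
    rw [this, ← he]
    exact mul_le_mul_of_nonneg_left (P_le hx hz hy h0 h1 h2)
      (mul_nonneg (Nat.cast_nonneg k) (Nat.cast_nonneg k))
  | t2 k c1 c2 c3 =>
    obtain ⟨s, t, h0, h1, h2, ht, he⟩ := okT_sound h ha hc hb hok
    refine ⟨t, ht, ?_⟩
    have : ((den (Kd.t2 k c1 c2 c3) : ℕ) : ℝ) = k * k := Nat.cast_mul k k
    rw [this, ← he]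
    exact mul_le_mul_of_nonneg_left (P_le_ac hx hz hy h0 h1 h2)
      (mul_nonneg (Nat.cast_nonneg k) (Nat.cast_nonneg k))
  | t3 k c1 c2 c3 =>
    obtain ⟨s, t, h0, h1, h2, ht, he⟩ := okT_sound h hb hc ha hok
    refine ⟨t, ht, ?_⟩
    have : ((den (Kd.t3 k c1 c2 c3) : ℕ) : ℝ) = k * k := Nat.cast_mul k k
    rw [this, ← he]
    exact mul_le_mul_of_nonneg_left (P_le_bc hx hz hy h0 h1 h2)
      (mul_nonneg (Nat.cast_nonneg k) (Nat.cast_nonneg k))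

theorem wsum_nil : wsum [] = 0 := rfl

theorem wsum_cons (n : ℕ) (k : Kd) (l : List (ℕ × Kd)) :
    wsum ((n, k) :: l) = n * den k + wsum l := rfl

theorem tsum_nil (rows : List ℕ) (a b c : ℕ) : tsum rows a b c [] = 0 := rfl

theorem tsum_cons (rows : List ℕ) (a b c n : ℕ) (k : Kd) (l : List (ℕ × Kd)) :
    tsum rows a b c ((n, k) :: l) = n * bnd rows a b c k + tsum rows a b c l := rfl

theorem okAll_cons {rows : List ℕ} {a b c n : ℕ} {k : Kd} {l : List (ℕ × Kd)}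
    (h : okAll B rows a b c ((n, k) :: l) = true) :
    okK B rows a b c k = true ∧ okAll B rows a b c l = true := by
  change Bool.rec false (okAll B rows a b c l) (okK B rows a b c k) = true at h
  cases hb : okK B rows a b c k with
  | false => rw [hb] at h; exact absurd h Bool.false_ne_true
  | true =>
    rw [hb] at h
    exact ⟨rfl, h⟩

theorem tsum_sound {rows : List ℕ} (h : Okr B X rows) {a b c : ℕ} {x z y : ℝ}
    (ha : RL B X a x) (hb : RL B X b z) (hc : RL B X c y) (hx : 0 ≤ x) (hz : 0 ≤ z) (hy : 0 ≤ y)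
    {l : List (ℕ × Kd)} (hok : okAll B rows a b c l = true) {s : ℝ} (hs : s ≤ P x z y) :
    ∃ t, RQ B X (tsum rows a b c l) t ∧ (wsum l : ℝ) * s ≤ t := by
  induction l with
  | nil => exact ⟨0, by rw [tsum_nil]; exact RQ.zero, by rw [wsum_nil]; simp⟩
  | cons p l ih =>
    obtain ⟨n, k⟩ := p
    obtain ⟨h1, h2⟩ := okAll_cons hok
    obtain ⟨t1, ht1, hb1⟩ := bnd_sound h ha hb hc hx hz hy h1
    obtain ⟨t2, ht2, hb2⟩ := ih h2
    refine ⟨n * t1 + t2, ?_, ?_⟩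
    · rw [tsum_cons]
      exact (ht1.smul n).add ht2
    · rw [wsum_cons]
      push_cast
      have h3 := mul_le_mul_of_nonneg_left hb1 (Nat.cast_nonneg n : (0 : ℝ) ≤ n)
      have h4 := mul_le_mul_of_nonneg_left hs
        (mul_nonneg (Nat.cast_nonneg n) (Nat.cast_nonneg (den k)) : (0 : ℝ) ≤ n * den k)
      have h5 : (n : ℝ) * den k * P x z y = n * (den k * P x z y) := by ring
      rw [h5] at h4
      linarith

/-! ### Columns -/

theorem colE_sound {rows : List ℕ} (hr : Okr B X rows) {W w0 w2 E O U A B' E' : ℕ}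
    {xE xA xB xO x0 x2 : ℝ} (hE : RL B X E xE) (hO : RL B X O xO) (hU : RL B X U (xE + xO))
    (hA : RL B X A xA) (hB : RL B X B' xB) (hE' : RL B X E' (xA + xB)) (h0 : RL B X w0 x0)
    (h2 : RL B X w2 x2) (hW : RL B X W (x0 + x2)) (n1 : 0 ≤ xE) (n2 : 0 ≤ xA) (n3 : 0 ≤ xB)
    (n4 : 0 ≤ xO) (n5 : 0 ≤ x0) (n6 : 0 ≤ x2) {mE mM : ℕ} {c : ColE}
    (h : okE B rows W w0 w2 E O U A B' E' mE mM c = true) (n : CntE xE xA xB xO x0 x2) :
    ∃ t, RQ B X (colE rows W w0 w2 E O U A B' E' c) t ∧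
      (mE : ℝ) * (n.ea + n.eb) + mM * (n.ma + n.mb) ≤ t := by
  obtain ⟨j, bj, ea, eb, ma, mb⟩ := c
  change an (Nat.beq (wsum bj) j) (an (Nat.beq (wsum ea + j) mE)
      (an (Nat.beq (wsum eb + j) mE) (an (Nat.beq (wsum ma + j) mM)
        (an (Nat.beq (wsum mb + j) mM) (an (okAll B rows U E' W bj)
          (an (okAll B rows E A w0 ea) (an (okAll B rows E B' w2 eb)
            (an (okAll B rows O A w2 ma) (okAll B rows O B' w0 mb))))))))) = true at h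
  obtain ⟨g1, h⟩ := an_true h
  obtain ⟨g2, h⟩ := an_true h
  obtain ⟨g3, h⟩ := an_true h
  obtain ⟨g4, h⟩ := an_true h
  obtain ⟨g5, h⟩ := an_true h
  obtain ⟨g6, h⟩ := an_true h
  obtain ⟨g7, h⟩ := an_true h
  obtain ⟨g8, h⟩ := an_true h
  obtain ⟨g9, g10⟩ := an_true h
  have g1 := Nat.eq_of_beq_eq_true g1
  have g2 := Nat.eq_of_beq_eq_true g2
  have g3 := Nat.eq_of_beq_eq_true g3
  have g4 := Nat.eq_of_beq_eq_true g4
  have g5 := Nat.eq_of_beq_eq_true g5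
  obtain ⟨t1, r1, k1⟩ := tsum_sound hr hU hE' hW (add_nonneg n1 n4) (add_nonneg n2 n3)
    (add_nonneg n5 n6) g6 (s := n.ea + n.eb + n.ma + n.mb) n.hj
  obtain ⟨t2, r2, k2⟩ := tsum_sound hr hE hA h0 n1 n2 n5 g7 (s := n.ea) n.hea
  obtain ⟨t3, r3, k3⟩ := tsum_sound hr hE hB h2 n1 n3 n6 g8 (s := n.eb) n.heb
  obtain ⟨t4, r4, k4⟩ := tsum_sound hr hO hA h2 n4 n2 n6 g9 (s := n.ma) n.hma
  obtain ⟨t5, r5, k5⟩ := tsum_sound hr hO hB h0 n4 n3 n5 g10 (s := n.mb) n.hmb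
  refine ⟨t1 + (t2 + (t3 + (t4 + t5))), r1.add (r2.add (r3.add (r4.add r5))), ?_⟩
  rw [g1] at k1
  have e2 : (wsum ea : ℝ) = mE - j := by
    rw [← g2]
    push_cast
    ring
  have e3 : (wsum eb : ℝ) = mE - j := by
    rw [← g3]
    push_cast
    ring
  have e4 : (wsum ma : ℝ) = mM - j := by
    rw [← g4]
    push_cast
    ring
  have e5 : (wsum mb : ℝ) = mM - j := by
    rw [← g5]
    push_cast
    ring
  rw [e2] at k2
  rw [e3] at k3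
  rw [e4] at k4
  rw [e5] at k5
  linarith only [k1, k2, k3, k4, k5]

theorem colO_sound {rows : List ℕ} (hr : Okr B X rows) {v E O U O' : ℕ}
    {xE xO xO' x0 : ℝ} (hE : RL B X E xE) (hO : RL B X O xO) (hU : RL B X U (xE + xO))
    (hO' : RL B X O' xO') (hv : RL B X v x0) (n1 : 0 ≤ xE) (n2 : 0 ≤ xO) (n3 : 0 ≤ xO')
    (n4 : 0 ≤ x0) {mF mG : ℕ} {c : ColO}
    (h : okO B rows v E O U O' mF mG c = true) (n : CntO xE xO xO' x0) :
    ∃ t, RQ B X (colO rows v E O U O' c) t ∧ (mF : ℝ) * n.f + mG * n.g ≤ t := by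
  obtain ⟨j, bj, f, g⟩ := c
  change an (Nat.beq (wsum bj) j) (an (Nat.beq (wsum f + j) mF)
      (an (Nat.beq (wsum g + j) mG) (an (okAll B rows U O' v bj)
        (an (okAll B rows E O' v f) (okAll B rows O O' v g))))) = true at h
  obtain ⟨g1, h⟩ := an_true h
  obtain ⟨g2, h⟩ := an_true h
  obtain ⟨g3, h⟩ := an_true h
  obtain ⟨g4, h⟩ := an_true h
  obtain ⟨g5, g6⟩ := an_true h
  have g1 := Nat.eq_of_beq_eq_true g1
  have g2 := Nat.eq_of_beq_eq_true g2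
  have g3 := Nat.eq_of_beq_eq_true g3
  obtain ⟨t1, r1, k1⟩ := tsum_sound hr hU hO' hv (add_nonneg n1 n2) n3 n4 g4
    (s := n.f + n.g) n.hj
  obtain ⟨t2, r2, k2⟩ := tsum_sound hr hE hO' hv n1 n3 n4 g5 (s := n.f) n.hf
  obtain ⟨t3, r3, k3⟩ := tsum_sound hr hO hO' hv n2 n3 n4 g6 (s := n.g) n.hg
  refine ⟨t1 + (t2 + t3), r1.add (r2.add r3), ?_⟩
  rw [g1] at k1
  have e2 : (wsum f : ℝ) = mF - j := by
    rw [← g2]
    push_cast
    ring
  have e3 : (wsum g : ℝ) = mG - j := by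
    rw [← g3]
    push_cast
    ring
  rw [e2] at k2
  rw [e3] at k3
  linarith only [k1, k2, k3]

/-! ### The forms -/

section forms

variable (A0 A1 A2 B0 B1 B2 O0 O1 O2 w0 w2 v : ℝ)

/-- The point as a function. -/
def pt : Fin 12 → ℝ := ![A0, A1, A2, B0, B1, B2, O0, O1, O2, w0, w2, v]

theorem RLc {d0 d1 d2 d3 d4 d5 d6 d7 d8 d9 d10 d11 : ℕ} (h0 : d0 ≤ 2) (h1 : d1 ≤ 2) (h2 : d2 ≤ 2)
    (h3 : d3 ≤ 2) (h4 : d4 ≤ 2) (h5 : d5 ≤ 2) (h6 : d6 ≤ 2) (h7 : d7 ≤ 2) (h8 : d8 ≤ 2)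
    (h9 : d9 ≤ 2) (h10 : d10 ≤ 2) (h11 : d11 ≤ 2) {x : ℝ}
    (hx : x = ((d0 : ℝ) - 1) * A0 + ((d1 : ℝ) - 1) * A1 + ((d2 : ℝ) - 1) * A2 +
        ((d3 : ℝ) - 1) * B0 + ((d4 : ℝ) - 1) * B1 + ((d5 : ℝ) - 1) * B2 +
        ((d6 : ℝ) - 1) * O0 + ((d7 : ℝ) - 1) * O1 + ((d8 : ℝ) - 1) * O2 +
        ((d9 : ℝ) - 1) * w0 + ((d10 : ℝ) - 1) * w2 + ((d11 : ℝ) - 1) * v) :
    RL B (pt A0 A1 A2 B0 B1 B2 O0 O1 O2 w0 w2 v) (lf12 B d0 d1 d2 d3 d4 d5 d6 d7 d8 d9 d10 d11 1)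
      x := by
  have h := RL_lf12 (B := B) (X := pt A0 A1 A2 B0 B1 B2 O0 O1 O2 w0 w2 v) (k := 1)
    (d0 := d0) (d1 := d1) (d2 := d2) (d3 := d3) (d4 := d4) (d5 := d5) (d6 := d6) (d7 := d7)
    (d8 := d8) (d9 := d9) (d10 := d10) (d11 := d11) (by simpa using h0) (by simpa using h1)
    (by simpa using h2) (by simpa using h3) (by simpa using h4) (by simpa using h5)
    (by simpa using h6) (by simpa using h7) (by simpa using h8) (by simpa using h9)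
    (by simpa using h10) (by simpa using h11)
  rw [hx]
  simpa [pt] using h

theorem RL_fA0 : RL B (pt A0 A1 A2 B0 B1 B2 O0 O1 O2 w0 w2 v) (fA0 B) A0 := by
  apply RLc <;> norm_num
theorem RL_fA1 : RL B (pt A0 A1 A2 B0 B1 B2 O0 O1 O2 w0 w2 v) (fA1 B) A1 := by
  apply RLc <;> norm_num
theorem RL_fA2 : RL B (pt A0 A1 A2 B0 B1 B2 O0 O1 O2 w0 w2 v) (fA2 B) A2 := by
  apply RLc <;> norm_num
theorem RL_fB0 : RL B (pt A0 A1 A2 B0 B1 B2 O0 O1 O2 w0 w2 v) (fB0 B) B0 := by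
  apply RLc <;> norm_num
theorem RL_fB1 : RL B (pt A0 A1 A2 B0 B1 B2 O0 O1 O2 w0 w2 v) (fB1 B) B1 := by
  apply RLc <;> norm_num
theorem RL_fB2 : RL B (pt A0 A1 A2 B0 B1 B2 O0 O1 O2 w0 w2 v) (fB2 B) B2 := by
  apply RLc <;> norm_num
theorem RL_fO0 : RL B (pt A0 A1 A2 B0 B1 B2 O0 O1 O2 w0 w2 v) (fO0 B) O0 := by
  apply RLc <;> norm_num
theorem RL_fO1 : RL B (pt A0 A1 A2 B0 B1 B2 O0 O1 O2 w0 w2 v) (fO1 B) O1 := by
  apply RLc <;> norm_num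
theorem RL_fO2 : RL B (pt A0 A1 A2 B0 B1 B2 O0 O1 O2 w0 w2 v) (fO2 B) O2 := by
  apply RLc <;> norm_num
theorem RL_fw0 : RL B (pt A0 A1 A2 B0 B1 B2 O0 O1 O2 w0 w2 v) (fw0 B) w0 := by
  apply RLc <;> norm_num
theorem RL_fw2 : RL B (pt A0 A1 A2 B0 B1 B2 O0 O1 O2 w0 w2 v) (fw2 B) w2 := by
  apply RLc <;> norm_num
theorem RL_fv : RL B (pt A0 A1 A2 B0 B1 B2 O0 O1 O2 w0 w2 v) (fv B) v := by
  apply RLc <;> norm_num
theorem RL_fE0 : RL B (pt A0 A1 A2 B0 B1 B2 O0 O1 O2 w0 w2 v) (fE0 B) (A0 + B0) := by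
  apply RLc <;> norm_num
theorem RL_fE1 : RL B (pt A0 A1 A2 B0 B1 B2 O0 O1 O2 w0 w2 v) (fE1 B) (A1 + B1) := by
  apply RLc <;> norm_num
theorem RL_fE2 : RL B (pt A0 A1 A2 B0 B1 B2 O0 O1 O2 w0 w2 v) (fE2 B) (A2 + B2) := by
  apply RLc <;> norm_num
theorem RL_fU0 : RL B (pt A0 A1 A2 B0 B1 B2 O0 O1 O2 w0 w2 v) (fU0 B) (A0 + B0 + O0) := by
  apply RLc <;> norm_num
theorem RL_fU1 : RL B (pt A0 A1 A2 B0 B1 B2 O0 O1 O2 w0 w2 v) (fU1 B) (A1 + B1 + O1) := by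
  apply RLc <;> norm_num
theorem RL_fU2 : RL B (pt A0 A1 A2 B0 B1 B2 O0 O1 O2 w0 w2 v) (fU2 B) (A2 + B2 + O2) := by
  apply RLc <;> norm_num
theorem RL_fe : RL B (pt A0 A1 A2 B0 B1 B2 O0 O1 O2 w0 w2 v) (fe B)
    (A0 + A1 + A2 + B0 + B1 + B2) := by
  apply RLc <;> norm_num
theorem RL_fo : RL B (pt A0 A1 A2 B0 B1 B2 O0 O1 O2 w0 w2 v) (fo B) (O0 + O1 + O2) := by
  apply RLc <;> norm_num
theorem RL_fu : RL B (pt A0 A1 A2 B0 B1 B2 O0 O1 O2 w0 w2 v) (fu B)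
    (A0 + A1 + A2 + B0 + B1 + B2 + (O0 + O1 + O2)) := by
  apply RLc <;> norm_num
  ring
theorem RL_fW : RL B (pt A0 A1 A2 B0 B1 B2 O0 O1 O2 w0 w2 v) (fW B) (w0 + w2) := by
  apply RLc <;> norm_num
theorem RL_fw : RL B (pt A0 A1 A2 B0 B1 B2 O0 O1 O2 w0 w2 v) (fw B) (w0 + w2 + v) := by
  apply RLc <;> norm_num
theorem RL_fp : RL B (pt A0 A1 A2 B0 B1 B2 O0 O1 O2 w0 w2 v) (fp B)
    (A0 + A1 + A2 + B0 + B1 + B2 - (w0 + w2)) := by
  apply RLc <;> norm_num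
  ring
theorem RL_fq : RL B (pt A0 A1 A2 B0 B1 B2 O0 O1 O2 w0 w2 v) (fq B) (O0 + O1 + O2 - v) := by
  apply RLc <;> norm_num
  ring
theorem RL_fd : RL B (pt A0 A1 A2 B0 B1 B2 O0 O1 O2 w0 w2 v) (fd B)
    (A0 + A1 + A2 + B0 + B1 + B2 - (O0 + O1 + O2)) := by
  apply RLc <;> norm_num
  ring

end forms

end Pk

end Aff
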