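import Pool.Agent.helper94.Aff.PkDec

/-!
# Packed certificates: trees (definitions)
-/

namespace Aff

namespace Pk

/-- Append a row. -/
noncomputable def snoc (rows : List ℕ) (a : ℕ) : List ℕ :=
  List.rec (motive := fun _ => List ℕ) [a] (fun b _ ih => b :: ih) rows

/-- A branching tree: encoded certificates at the leaves, encoded forms at the nodes. -/
inductive Tree where
  | leaf (w h x : ℕ) : Tree
  | node (c1 c2 : ℕ) (a b : Tree) : Tree

/-- The checker. -/
noncomputable def chk (B h : ℕ) (t : Tree) : List ℕ → Bool :=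
  Tree.rec (motive := fun _ => List ℕ → Bool) (fun w k x rows => leafOk B rows (rdCert w k x))
    (fun c1 c2 _ _ iha ihb rows => an (eqv B (Nat.add (unp B h c1) (unp B h c2)) 0)
      (an (iha (snoc rows (unp B h c1))) (ihb (snoc rows (unp B h c2))))) t

/-- `ΣA - ΣB`. -/
def fAB (B : ℕ) : ℕ := lf12 B 2 2 2 0 0 0 1 1 1 1 1 1 1

/-- The root rows: the variables, `e - o`, `p`, `q`, `ΣA - ΣB`. -/
def rows0 (B : ℕ) : List ℕ :=
  [fA0 B, fA1 B, fA2 B, fB0 B, fB1 B, fB2 B, fO0 B, fO1 B, fO2 B, fw0 B, fw2 B, fv B, fd B, fp B,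
    fq B, fAB B]

/-- Rows of a path (the last row comes first in the list). -/
noncomputable def rwr (B h : ℕ) (l : List ℕ) : List ℕ :=
  List.rec (motive := fun _ => List ℕ) (rows0 B) (fun a _ ih => snoc ih (unp B h a)) l

/-- The check of a box, with the fixed parameters. -/
noncomputable def ck (l : List ℕ) (t : Tree) : Bool :=
  chk (2 ^ 128) 32768 t (rwr (2 ^ 128) 32768 l)

end Pk

end Aff
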