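import Pool.Agent.helper94.Aff.PkB
import Pool.Agent.helper94.Aff.PkTree

/-!
# Packed certificates: leaves and trees
-/

namespace Aff

namespace Pk

open Chk (CntE CntO Goal Concl)

variable {B : ℕ}

theorem leafOk_sound {rows : List ℕ} {c : Cert} {A0 A1 A2 B0 B1 B2 O0 O1 O2 w0 w2 v : ℝ}
    (hX : ∀ i, 0 ≤ pt A0 A1 A2 B0 B1 B2 O0 O1 O2 w0 w2 v i)
    (hr : Okr B (pt A0 A1 A2 B0 B1 B2 O0 O1 O2 w0 w2 v) rows) (h : leafOk B rows c = true) :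
    Goal A0 A1 A2 B0 B1 B2 O0 O1 O2 w0 w2 v := by
  intro m0 m1 m2 p0 p1 p2 D hD1 hD2
  obtain ⟨l2, l3, l4, l5, l6, a0, a1, a2, b0, b1, b2, d1, d2, ps, hh, s⟩ := c
  have nA0 : 0 ≤ A0 := hX 0
  have nA1 : 0 ≤ A1 := hX 1
  have nA2 : 0 ≤ A2 := hX 2
  have nB0 : 0 ≤ B0 := hX 3
  have nB1 : 0 ≤ B1 := hX 4
  have nB2 : 0 ≤ B2 := hX 5
  have nO0 : 0 ≤ O0 := hX 6
  have nO1 : 0 ≤ O1 := hX 7
  have nO2 : 0 ≤ O2 := hX 8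
  have nw0 : 0 ≤ w0 := hX 9
  have nw2 : 0 ≤ w2 := hX 10
  have nv : 0 ≤ v := hX 11
  change an _ (an _ (an _ (an _ (an _ (an _ (an _ (an _ (an _ _)))))))) = true at h
  obtain ⟨gh, h⟩ := an_true h
  obtain ⟨gl, h⟩ := an_true h
  obtain ⟨gd, h⟩ := an_true h
  obtain ⟨gE0, h⟩ := an_true h
  obtain ⟨gE1, h⟩ := an_true h
  obtain ⟨gE2, h⟩ := an_true h
  obtain ⟨gO0, h⟩ := an_true h
  obtain ⟨gO1, h⟩ := an_true h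
  obtain ⟨gO2, h⟩ := an_true h
  rw [Nat.blt_eq] at gh gl
  have gd := Nat.eq_of_beq_eq_true gd
  obtain ⟨t1, r1, k1⟩ := colE_sound hr (RL_fE0 A0 A1 A2 B0 B1 B2 O0 O1 O2 w0 w2 v)
    (RL_fO0 A0 A1 A2 B0 B1 B2 O0 O1 O2 w0 w2 v) (RL_fU0 A0 A1 A2 B0 B1 B2 O0 O1 O2 w0 w2 v)
    (RL_fA1 A0 A1 A2 B0 B1 B2 O0 O1 O2 w0 w2 v) (RL_fB1 A0 A1 A2 B0 B1 B2 O0 O1 O2 w0 w2 v)
    (RL_fE1 A0 A1 A2 B0 B1 B2 O0 O1 O2 w0 w2 v) (RL_fw0 A0 A1 A2 B0 B1 B2 O0 O1 O2 w0 w2 v)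
    (RL_fw2 A0 A1 A2 B0 B1 B2 O0 O1 O2 w0 w2 v) (RL_fW A0 A1 A2 B0 B1 B2 O0 O1 O2 w0 w2 v)
    (add_nonneg nA0 nB0) nA1 nB1 nO0 nw0 nw2 gE0 m0
  obtain ⟨t2, r2, k2⟩ := colE_sound hr (RL_fE1 A0 A1 A2 B0 B1 B2 O0 O1 O2 w0 w2 v)
    (RL_fO1 A0 A1 A2 B0 B1 B2 O0 O1 O2 w0 w2 v) (RL_fU1 A0 A1 A2 B0 B1 B2 O0 O1 O2 w0 w2 v)
    (RL_fA2 A0 A1 A2 B0 B1 B2 O0 O1 O2 w0 w2 v) (RL_fB2 A0 A1 A2 B0 B1 B2 O0 O1 O2 w0 w2 v)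
    (RL_fE2 A0 A1 A2 B0 B1 B2 O0 O1 O2 w0 w2 v) (RL_fw0 A0 A1 A2 B0 B1 B2 O0 O1 O2 w0 w2 v)
    (RL_fw2 A0 A1 A2 B0 B1 B2 O0 O1 O2 w0 w2 v) (RL_fW A0 A1 A2 B0 B1 B2 O0 O1 O2 w0 w2 v)
    (add_nonneg nA1 nB1) nA2 nB2 nO1 nw0 nw2 gE1 m1
  obtain ⟨t3, r3, k3⟩ := colE_sound hr (RL_fE2 A0 A1 A2 B0 B1 B2 O0 O1 O2 w0 w2 v)
    (RL_fO2 A0 A1 A2 B0 B1 B2 O0 O1 O2 w0 w2 v) (RL_fU2 A0 A1 A2 B0 B1 B2 O0 O1 O2 w0 w2 v)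
    (RL_fA0 A0 A1 A2 B0 B1 B2 O0 O1 O2 w0 w2 v) (RL_fB0 A0 A1 A2 B0 B1 B2 O0 O1 O2 w0 w2 v)
    (RL_fE0 A0 A1 A2 B0 B1 B2 O0 O1 O2 w0 w2 v) (RL_fw0 A0 A1 A2 B0 B1 B2 O0 O1 O2 w0 w2 v)
    (RL_fw2 A0 A1 A2 B0 B1 B2 O0 O1 O2 w0 w2 v) (RL_fW A0 A1 A2 B0 B1 B2 O0 O1 O2 w0 w2 v)
    (add_nonneg nA2 nB2) nA0 nB0 nO2 nw0 nw2 gE2 m2
  obtain ⟨t4, r4, k4⟩ := colO_sound hr (RL_fE0 A0 A1 A2 B0 B1 B2 O0 O1 O2 w0 w2 v)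
    (RL_fO0 A0 A1 A2 B0 B1 B2 O0 O1 O2 w0 w2 v) (RL_fU0 A0 A1 A2 B0 B1 B2 O0 O1 O2 w0 w2 v)
    (RL_fO1 A0 A1 A2 B0 B1 B2 O0 O1 O2 w0 w2 v) (RL_fv A0 A1 A2 B0 B1 B2 O0 O1 O2 w0 w2 v)
    (add_nonneg nA0 nB0) nO0 nO1 nv gO0 p0
  obtain ⟨t5, r5, k5⟩ := colO_sound hr (RL_fE1 A0 A1 A2 B0 B1 B2 O0 O1 O2 w0 w2 v)
    (RL_fO1 A0 A1 A2 B0 B1 B2 O0 O1 O2 w0 w2 v) (RL_fU1 A0 A1 A2 B0 B1 B2 O0 O1 O2 w0 w2 v)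
    (RL_fO2 A0 A1 A2 B0 B1 B2 O0 O1 O2 w0 w2 v) (RL_fv A0 A1 A2 B0 B1 B2 O0 O1 O2 w0 w2 v)
    (add_nonneg nA1 nB1) nO1 nO2 nv gO1 p1
  obtain ⟨t6, r6, k6⟩ := colO_sound hr (RL_fE2 A0 A1 A2 B0 B1 B2 O0 O1 O2 w0 w2 v)
    (RL_fO2 A0 A1 A2 B0 B1 B2 O0 O1 O2 w0 w2 v) (RL_fU2 A0 A1 A2 B0 B1 B2 O0 O1 O2 w0 w2 v)
    (RL_fO0 A0 A1 A2 B0 B1 B2 O0 O1 O2 w0 w2 v) (RL_fv A0 A1 A2 B0 B1 B2 O0 O1 O2 w0 w2 v)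
    (add_nonneg nA2 nB2) nO2 nO0 nv gO2 p2
  obtain ⟨t7, r7, k7⟩ := prods_ok hr ps
  obtain ⟨t8, r8, k8⟩ := sqs_ok (B := B) (X := pt A0 A1 A2 B0 B1 B2 O0 O1 O2 w0 w2 v) gh s
  have ze := RL_fe (B := B) A0 A1 A2 B0 B1 B2 O0 O1 O2 w0 w2 v
  have zo := RL_fo (B := B) A0 A1 A2 B0 B1 B2 O0 O1 O2 w0 w2 v
  have zu := RL_fu (B := B) A0 A1 A2 B0 B1 B2 O0 O1 O2 w0 w2 v
  have zw := RL_fw (B := B) A0 A1 A2 B0 B1 B2 O0 O1 O2 w0 w2 v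
  have zW := RL_fW (B := B) A0 A1 A2 B0 B1 B2 O0 O1 O2 w0 w2 v
  have zv := RL_fv (B := B) A0 A1 A2 B0 B1 B2 O0 O1 O2 w0 w2 v
  have zp := RL_fp (B := B) A0 A1 A2 B0 B1 B2 O0 O1 O2 w0 w2 v
  have zq := RL_fq (B := B) A0 A1 A2 B0 B1 B2 O0 O1 O2 w0 w2 v
  have zE0 := RL_fE0 (B := B) A0 A1 A2 B0 B1 B2 O0 O1 O2 w0 w2 v
  have zE1 := RL_fE1 (B := B) A0 A1 A2 B0 B1 B2 O0 O1 O2 w0 w2 v
  have zE2 := RL_fE2 (B := B) A0 A1 A2 B0 B1 B2 O0 O1 O2 w0 w2 v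
  have zO0 := RL_fO0 (B := B) A0 A1 A2 B0 B1 B2 O0 O1 O2 w0 w2 v
  have zO1 := RL_fO1 (B := B) A0 A1 A2 B0 B1 B2 O0 O1 O2 w0 w2 v
  have zO2 := RL_fO2 (B := B) A0 A1 A2 B0 B1 B2 O0 O1 O2 w0 w2 v
  have hpos := ((ze.mul zo).smul (12 * (l2 + l4 + l5 + l6))).add
    (((zu.mul zw).smul (8 * l3)).add (((ze.mul zW).smul (8 * (l4 + l6))).add
      ((zo.mul zv).smul (8 * (l5 + l6)))))
  have hneg := ((zp.mul zq).smul (8 * (l2 + l4 + l5 + l6))).add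
    (((zw.mul zw).smul (4 * l3)).add (((zW.mul zW).smul (4 * (l4 + l6))).add
      (((zv.mul zv).smul (4 * (l5 + l6))).add
        ((((zE0.mul zO0).add ((zE1.mul zO1).add (zE2.mul zO2))).smul
          (6 * (l2 + l4 + l5 + l6) + d1)).add ((zo.mul zo).smul d2)))))
  have hfin := cmpQ_sound hX hpos (hneg.add (r1.add (r2.add (r3.add (r4.add (r5.add
    (r6.add (r7.add r8)))))))) h
  have hd' : (d1 : ℝ) + 2 * d2 = 6 * (l2 + l4 + l5 + l6) := by exact_mod_cast gd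
  have hl' : (0 : ℝ) < (l2 : ℝ) + l3 + l4 + l5 + l6 := by exact_mod_cast gl
  have kk1 := mul_le_mul_of_nonneg_left hD1 (Nat.cast_nonneg d1 : (0 : ℝ) ≤ d1)
  have kk2 := mul_le_mul_of_nonneg_left hD2 (Nat.cast_nonneg d2 : (0 : ℝ) ≤ d2)
  have kk3 : 6 * ((l2 : ℝ) + l4 + l5 + l6) * D = d1 * D + 2 * (d2 * D) := by
    rw [← hd']
    ring
  push_cast at k1 k2 k3 k4 k5 k6 hfin
  have eEO : (A0 + B0) * O0 + ((A1 + B1) * O1 + (A2 + B2) * O2) =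
    (A0 + B0) * O0 + (A1 + B1) * O1 + (A2 + B2) * O2 := by ring
  rw [eEO] at hfin
  unfold Concl
  refine Chk.five (Nat.cast_nonneg l2) (Nat.cast_nonneg l3) (Nat.cast_nonneg l4)
    (Nat.cast_nonneg l5) (Nat.cast_nonneg l6) hl' ?_
  clear hpos hneg ze zo zu zw zW zv zp zq zE0 zE1 zE2 zO0 zO1 zO2 r1 r2 r3 r4 r5 r6 r7 r8 hr hX h
    gE0 gE1 gE2 gO0 gO1 gO2 gd
  generalize (A0 + B0) * O0 + (A1 + B1) * O1 + (A2 + B2) * O2 = EO at *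
  generalize A0 + A1 + A2 + B0 + B1 + B2 = e at *
  generalize O0 + O1 + O2 = o at *
  generalize w0 + w2 = W at *
  linarith only [k1, k2, k3, k4, k5, k6, hfin, k7, k8, kk1, kk2, kk3]

/-! ### Trees -/

/-- The property proved at a node. -/
def HoldsP (B : ℕ) (rows : List ℕ) : Prop :=
  ∀ A0 A1 A2 B0 B1 B2 O0 O1 O2 w0 w2 v : ℝ,
    (∀ i, 0 ≤ pt A0 A1 A2 B0 B1 B2 O0 O1 O2 w0 w2 v i) →
    Okr B (pt A0 A1 A2 B0 B1 B2 O0 O1 O2 w0 w2 v) rows →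
    Goal A0 A1 A2 B0 B1 B2 O0 O1 O2 w0 w2 v

theorem holdsP_leaf {rows : List ℕ} {c : Cert} (h : leafOk B rows c = true) : HoldsP B rows :=
  fun _ _ _ _ _ _ _ _ _ _ _ _ hX hr => leafOk_sound hX hr h

theorem snoc_eq (rows : List ℕ) (a : ℕ) : snoc rows a = rows ++ [a] := by
  induction rows with
  | nil => rfl
  | cons b l ih =>
    change b :: snoc l a = _
    rw [ih]
    rfl

theorem Okr_snoc {X : Fin 12 → ℝ} {rows : List ℕ} (h : Okr B X rows) {a : ℕ} {x : ℝ}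
    (ha : RL B X a x) (hx : 0 ≤ x) : Okr B X (snoc rows a) := by
  intro n hn
  rw [snoc_eq, List.mem_append, List.mem_singleton] at hn
  rcases hn with hn | rfl
  · exact h n hn
  · exact ⟨x, ha, hx⟩

/-- The branching step: `c1` and `c2` encode opposite forms. -/
theorem holdsP_node {rows : List ℕ} (h c1 c2 : ℕ) (hh : Nat.blt 0 h = true)
    (he : eqv B (unp B h c1 + unp B h c2) 0 = true)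
    (ha : HoldsP B (snoc rows (unp B h c1))) (hb : HoldsP B (snoc rows (unp B h c2))) :
    HoldsP B rows := by
  intro A0 A1 A2 B0 B1 B2 O0 O1 O2 w0 w2 v hX hr
  rw [Nat.blt_eq] at hh
  obtain ⟨x, hx⟩ := RL_unp (B := B) (X := pt A0 A1 A2 B0 B1 B2 O0 O1 O2 w0 w2 v) hh c1
  obtain ⟨y, hy⟩ := RL_unp (B := B) (X := pt A0 A1 A2 B0 B1 B2 O0 O1 O2 w0 w2 v) hh c2
  have h1 := eqv_sound (hx.add hy) RL.zero he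
  rcases le_total 0 x with h2 | h2
  · exact ha _ _ _ _ _ _ _ _ _ _ _ _ hX (Okr_snoc hr hx h2)
  · exact hb _ _ _ _ _ _ _ _ _ _ _ _ hX (Okr_snoc hr hy (by linarith))

theorem chk_sound {h : ℕ} (hh : Nat.blt 0 h = true) (t : Tree) {rows : List ℕ}
    (hc : chk B h t rows = true) : HoldsP B rows := by
  induction t generalizing rows with
  | leaf w k x => exact holdsP_leaf (c := rdCert w k x) hc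
  | node c1 c2 a b iha ihb =>
    change an (eqv B (unp B h c1 + unp B h c2) 0)
      (an (chk B h a (snoc rows (unp B h c1))) (chk B h b (snoc rows (unp B h c2)))) = true at hc
    obtain ⟨h1, hc⟩ := an_true hc
    obtain ⟨h2, h3⟩ := an_true hc
    exact holdsP_node h c1 c2 hh h1 (iha h2) (ihb h3)

theorem goal_of_holdsP (h : HoldsP B (rows0 B)) : Chk.GoalAll := by
  intro A0 A1 A2 B0 B1 B2 O0 O1 O2 w0 w2 v hA0 hA1 hA2 hB0 hB1 hB2 hO0 hO1 hO2 hw0 hw2 hv h1 h2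
    h3 h4
  refine h _ _ _ _ _ _ _ _ _ _ _ _ ?_ ?_
  · intro i
    fin_cases i
    · exact hA0
    · exact hA1
    · exact hA2
    · exact hB0
    · exact hB1
    · exact hB2
    · exact hO0
    · exact hO1
    · exact hO2
    · exact hw0
    · exact hw2
    · exact hv
  · intro c hc
    simp only [rows0, List.mem_cons, List.not_mem_nil, or_false] at hc
    rcases hc with rfl | rfl | rfl | rfl | rfl | rfl | rfl | rfl | rfl | rfl | rfl | rfl | rfl |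
      rfl | rfl | rfl
    · exact ⟨_, RL_fA0 A0 A1 A2 B0 B1 B2 O0 O1 O2 w0 w2 v, hA0⟩
    · exact ⟨_, RL_fA1 A0 A1 A2 B0 B1 B2 O0 O1 O2 w0 w2 v, hA1⟩
    · exact ⟨_, RL_fA2 A0 A1 A2 B0 B1 B2 O0 O1 O2 w0 w2 v, hA2⟩
    · exact ⟨_, RL_fB0 A0 A1 A2 B0 B1 B2 O0 O1 O2 w0 w2 v, hB0⟩
    · exact ⟨_, RL_fB1 A0 A1 A2 B0 B1 B2 O0 O1 O2 w0 w2 v, hB1⟩
    · exact ⟨_, RL_fB2 A0 A1 A2 B0 B1 B2 O0 O1 O2 w0 w2 v, hB2⟩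
    · exact ⟨_, RL_fO0 A0 A1 A2 B0 B1 B2 O0 O1 O2 w0 w2 v, hO0⟩
    · exact ⟨_, RL_fO1 A0 A1 A2 B0 B1 B2 O0 O1 O2 w0 w2 v, hO1⟩
    · exact ⟨_, RL_fO2 A0 A1 A2 B0 B1 B2 O0 O1 O2 w0 w2 v, hO2⟩
    · exact ⟨_, RL_fw0 A0 A1 A2 B0 B1 B2 O0 O1 O2 w0 w2 v, hw0⟩
    · exact ⟨_, RL_fw2 A0 A1 A2 B0 B1 B2 O0 O1 O2 w0 w2 v, hw2⟩
    · exact ⟨_, RL_fv A0 A1 A2 B0 B1 B2 O0 O1 O2 w0 w2 v, hv⟩
    · exact ⟨_, RL_fd A0 A1 A2 B0 B1 B2 O0 O1 O2 w0 w2 v, sub_nonneg.2 h1⟩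
    · exact ⟨_, RL_fp A0 A1 A2 B0 B1 B2 O0 O1 O2 w0 w2 v, sub_nonneg.2 h2⟩
    · exact ⟨_, RL_fq A0 A1 A2 B0 B1 B2 O0 O1 O2 w0 w2 v, sub_nonneg.2 h3⟩
    · refine ⟨A0 + A1 + A2 - (B0 + B1 + B2), ?_, sub_nonneg.2 h4⟩
      unfold fAB
      apply RLc <;> norm_num
      ring

end Pk

end Aff
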