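import Pool.Agent.helper94.Aff.PkDef

/-!
# Packed certificates: decoding
-/

namespace Aff

namespace Pk

/-- Read a small number. -/
def rs (x : ℕ) : ℕ × ℕ := (Nat.mod x 256, Nat.div x 256)

/-- Read a number below `w`. -/
def rb (w x : ℕ) : ℕ × ℕ := (Nat.mod x w, Nat.div x w)

/-- Read `n` items. -/
noncomputable def rdN {α : Type} (f : ℕ → α × ℕ) (n : ℕ) : ℕ → List α × ℕ :=
  Nat.rec (motive := fun _ => ℕ → List α × ℕ) (fun x => ([], x))
    (fun _ ih x => Prod.rec (motive := fun _ => List α × ℕ) (fun a x1 =>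
      Prod.rec (motive := fun _ => List α × ℕ) (fun l x2 => (a :: l, x2)) (ih x1)) (f x)) n

/-- Read a list. -/
noncomputable def rdL {α : Type} (f : ℕ → α × ℕ) (x : ℕ) : List α × ℕ :=
  rdN f (Nat.mod x 256) (Nat.div x 256)

/-- Read a pair. -/
noncomputable def rdP {α β : Type} (f : ℕ → α × ℕ) (g : ℕ → β × ℕ) (x : ℕ) : (α × β) × ℕ :=
  Prod.rec (motive := fun _ => (α × β) × ℕ) (fun a x1 =>
    Prod.rec (motive := fun _ => (α × β) × ℕ) (fun b x2 => ((a, b), x2)) (g x1)) (f x)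

/-- Read a combination. -/
noncomputable def rdC (w x : ℕ) : List (ℕ × ℕ) × ℕ := rdL (rdP rs (rb w)) x

/-- Read three combinations. -/
noncomputable def rdK3 (w : ℕ) (c : ℕ → List (ℕ × ℕ) → List (ℕ × ℕ) → List (ℕ × ℕ) → Kd)
    (x : ℕ) : Kd × ℕ :=
  Prod.rec (motive := fun _ => Kd × ℕ) (fun k x1 =>
    Prod.rec (motive := fun _ => Kd × ℕ) (fun c1 x2 =>
      Prod.rec (motive := fun _ => Kd × ℕ) (fun c2 x3 =>
        Prod.rec (motive := fun _ => Kd × ℕ) (fun c3 x4 => (c k c1 c2 c3, x4)) (rdC w x3))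
        (rdC w x2)) (rdC w x1)) (rb w x)

/-- Read a bound. -/
noncomputable def rdK (w x : ℕ) : Kd × ℕ :=
  Nat.rec (motive := fun _ => ℕ → Kd × ℕ) (fun y => (Kd.xz, y))
    (fun n _ => Nat.rec (motive := fun _ => ℕ → Kd × ℕ) (fun y => (Kd.xy, y))
      (fun n _ => Nat.rec (motive := fun _ => ℕ → Kd × ℕ) (fun y => (Kd.zy, y))
        (fun n _ => Nat.rec (motive := fun _ => ℕ → Kd × ℕ) (rdK3 w Kd.t1)
          (fun n _ => Nat.rec (motive := fun _ => ℕ → Kd × ℕ) (rdK3 w Kd.t2)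
            (fun _ _ => rdK3 w Kd.t3) n) n) n) n) (Nat.mod x 256) (Nat.div x 256)

/-- Read a list of bounds. -/
noncomputable def rdB (w x : ℕ) : List (ℕ × Kd) × ℕ := rdL (rdP (rb w) (rdK w)) x

/-- Read an even column. -/
noncomputable def rdColE (w x : ℕ) : ColE × ℕ :=
  Prod.rec (motive := fun _ => ColE × ℕ) (fun j x0 =>
    Prod.rec (motive := fun _ => ColE × ℕ) (fun bj x1 =>
      Prod.rec (motive := fun _ => ColE × ℕ) (fun ea x2 =>
        Prod.rec (motive := fun _ => ColE × ℕ) (fun eb x3 =>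
          Prod.rec (motive := fun _ => ColE × ℕ) (fun ma x4 =>
            Prod.rec (motive := fun _ => ColE × ℕ) (fun mb x5 =>
              (ColE.mk j bj ea eb ma mb, x5)) (rdB w x4)) (rdB w x3)) (rdB w x2)) (rdB w x1))
                (rdB w x0)) (rb w x)

/-- Read an odd column. -/
noncomputable def rdColO (w x : ℕ) : ColO × ℕ :=
  Prod.rec (motive := fun _ => ColO × ℕ) (fun j x0 =>
    Prod.rec (motive := fun _ => ColO × ℕ) (fun bj x1 =>
      Prod.rec (motive := fun _ => ColO × ℕ) (fun f x2 =>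
        Prod.rec (motive := fun _ => ColO × ℕ) (fun g x3 =>
          (ColO.mk j bj f g, x3)) (rdB w x2)) (rdB w x1)) (rdB w x0)) (rb w x)

/-- Bind. -/
noncomputable def bd {α β : Type} (p : α × ℕ) (f : α → ℕ → β) : β :=
  Prod.rec (motive := fun _ => β) f p

/-- Read a certificate. -/
noncomputable def rdCert (w h x : ℕ) : Cert :=
  bd (rb w x) fun l2 x => bd (rb w x) fun l3 x => bd (rb w x) fun l4 x =>
  bd (rb w x) fun l5 x => bd (rb w x) fun l6 x =>
  bd (rdColE w x) fun a0 x => bd (rdColE w x) fun a1 x => bd (rdColE w x) fun a2 x =>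
  bd (rdColO w x) fun b0 x => bd (rdColO w x) fun b1 x => bd (rdColO w x) fun b2 x =>
  bd (rb w x) fun d1 x => bd (rb w x) fun d2 x =>
  bd (rdL (rdP rs (rdC w)) x) fun ps x =>
  bd (rdL (rdP (rb w) (rb ((2 * h) ^ 12))) x) fun s _ =>
    Cert.mk l2 l3 l4 l5 l6 a0 a1 a2 b0 b1 b2 d1 d2 ps h s

end Pk

end Aff
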