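import Mathlib

/-!
# Packed certificates: definitions

Linear forms in twelve nonnegative variables are packed into one natural number in base `B`; the
digit at `mk i` is the (shifted) coefficient, and the multiple of `B ^ 171` is the shift.
-/

namespace Aff

namespace Pk

/-- `Σ B ^ mk i`. -/
def ones (B : ℕ) : ℕ :=
  B ^ 0 + B ^ 2 + B ^ 6 + B ^ 24 + B ^ 29 + B ^ 40 + B ^ 43 + B ^ 55 + B ^ 68 + B ^ 75 + B ^ 76 +
    B ^ 85

/-- The second level base. -/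
def cc (B : ℕ) : ℕ := B ^ 171

/-- A packed linear form. -/
def lf12 (B d0 d1 d2 d3 d4 d5 d6 d7 d8 d9 d10 d11 k : ℕ) : ℕ :=
  d0 * B ^ 0 + d1 * B ^ 2 + d2 * B ^ 6 + d3 * B ^ 24 + d4 * B ^ 29 + d5 * B ^ 40 + d6 * B ^ 43 +
    d7 * B ^ 55 + d8 * B ^ 68 + d9 * B ^ 75 + d10 * B ^ 76 + d11 * B ^ 85 + k * B ^ 171

/-- Unpack a linear form. -/
def unp (B h c : ℕ) : ℕ :=
  lf12 B (c % (2 * h)) (c / (2 * h) % (2 * h)) (c / (2 * h) ^ 2 % (2 * h))
    (c / (2 * h) ^ 3 % (2 * h)) (c / (2 * h) ^ 4 % (2 * h)) (c / (2 * h) ^ 5 % (2 * h))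
    (c / (2 * h) ^ 6 % (2 * h)) (c / (2 * h) ^ 7 % (2 * h)) (c / (2 * h) ^ 8 % (2 * h))
    (c / (2 * h) ^ 9 % (2 * h)) (c / (2 * h) ^ 10 % (2 * h)) (c / (2 * h) ^ 11 % (2 * h)) h

/-- Equality of values of packed linear forms. -/
def eqv (B n m : ℕ) : Bool :=
  Nat.blt (100 * (n / cc B + m / cc B)) B &&
    Nat.beq (n + m / cc B * (ones B + cc B)) (m + n / cc B * (ones B + cc B))

/-- Digitwise comparison. -/
noncomputable def cmpD (B t : ℕ) : ℕ → ℕ → Bool :=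
  Nat.rec (motive := fun _ => ℕ → ℕ → Bool) (fun _ _ => true)
    (fun _ ih u v => Bool.rec false (ih (Nat.div u B) (Nat.div v B))
      (Nat.ble (Nat.mod v B) (Nat.mod u B))) t

/-- Comparison of packed quadratic forms. -/
noncomputable def cmpQ (B n m : ℕ) : Bool :=
  Nat.blt (2000 * (n / cc B / cc B + m / cc B / cc B)) B &&
    cmpD B 171
      (n % cc B + m / cc B % cc B * ones B + n / cc B / cc B * (ones B * ones B))
      (m % cc B + n / cc B % cc B * ones B + m / cc B / cc B * (ones B * ones B))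

/-- Look up a row. -/
noncomputable def nth (rows : List ℕ) : ℕ → ℕ :=
  List.rec (motive := fun _ => ℕ → ℕ) (fun _ => 0)
    (fun a _ ih i => Nat.rec (motive := fun _ => ℕ) a (fun m _ => ih m) i) rows

/-- A combination of rows. -/
noncomputable def comb (rows : List ℕ) (l : List (ℕ × ℕ)) : ℕ :=
  List.rec (motive := fun _ => ℕ) 0
    (fun p _ ih => Prod.rec (motive := fun _ => ℕ)
      (fun i k => Nat.add (Nat.mul k (nth rows i)) ih) p) l

/-- Sum of products. -/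
noncomputable def prods (rows : List ℕ) (l : List (ℕ × List (ℕ × ℕ))) : ℕ :=
  List.rec (motive := fun _ => ℕ) 0
    (fun p _ ih => Prod.rec (motive := fun _ => ℕ)
      (fun i k => Nat.add (Nat.mul (nth rows i) (comb rows k)) ih) p) l

/-- Square of a number. -/
def sq (n : ℕ) : ℕ := Nat.mul n n

/-- Sum of squares. -/
noncomputable def sqs (B h : ℕ) (l : List (ℕ × ℕ)) : ℕ :=
  List.rec (motive := fun _ => ℕ) 0
    (fun p _ ih => Prod.rec (motive := fun _ => ℕ)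
      (fun k c => Nat.add (Nat.mul k (sq (unp B h c))) ih) p) l

/-- Kinds of bounds. -/
inductive Kd where
  | xz : Kd
  | xy : Kd
  | zy : Kd
  | t1 (k : ℕ) (c1 c2 c3 : List (ℕ × ℕ)) : Kd
  | t2 (k : ℕ) (c1 c2 c3 : List (ℕ × ℕ)) : Kd
  | t3 (k : ℕ) (c1 c2 c3 : List (ℕ × ℕ)) : Kd

/-- Denominators. -/
noncomputable def den (kd : Kd) : ℕ :=
  Kd.rec (motive := fun _ => ℕ) 1 1 1 (fun k _ _ _ => Nat.mul k k) (fun k _ _ _ => Nat.mul k k)
    (fun k _ _ _ => Nat.mul k k) kd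

/-- Level bound. -/
noncomputable def tb (rows : List ℕ) (y k : ℕ) (c1 c2 c3 : List (ℕ × ℕ)) : ℕ :=
  Nat.add (Nat.mul (comb rows c2) (comb rows c3)) (Nat.mul (Nat.mul k (comb rows c1)) y)

/-- The bound. -/
noncomputable def bnd (rows : List ℕ) (x z y : ℕ) (kd : Kd) : ℕ :=
  Kd.rec (motive := fun _ => ℕ) (Nat.mul x z) (Nat.mul x y) (Nat.mul z y)
    (fun k c1 c2 c3 => tb rows y k c1 c2 c3) (fun k c1 c2 c3 => tb rows z k c1 c2 c3)
    (fun k c1 c2 c3 => tb rows x k c1 c2 c3) kd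

/-- Validity of a level. -/
noncomputable def okT (B : ℕ) (rows : List ℕ) (a b k : ℕ) (c1 c2 c3 : List (ℕ × ℕ)) : Bool :=
  Nat.blt 0 k && eqv B (Nat.mul k a) (Nat.add (comb rows c1) (comb rows c2)) &&
    eqv B (Nat.mul k b) (Nat.add (comb rows c1) (comb rows c3))

/-- Validity of a bound. -/
noncomputable def okK (B : ℕ) (rows : List ℕ) (x z y : ℕ) (kd : Kd) : Bool :=
  Kd.rec (motive := fun _ => Bool) true true true
    (fun k c1 c2 c3 => okT B rows x z k c1 c2 c3) (fun k c1 c2 c3 => okT B rows x y k c1 c2 c3)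
    (fun k c1 c2 c3 => okT B rows z y k c1 c2 c3) kd

/-- Total weight. -/
noncomputable def wsum (l : List (ℕ × Kd)) : ℕ :=
  List.rec (motive := fun _ => ℕ) 0
    (fun p _ ih => Prod.rec (motive := fun _ => ℕ)
      (fun n k => Nat.add (Nat.mul n (den k)) ih) p) l

/-- Total bound. -/
noncomputable def tsum (rows : List ℕ) (x z y : ℕ) (l : List (ℕ × Kd)) : ℕ :=
  List.rec (motive := fun _ => ℕ) 0
    (fun p _ ih => Prod.rec (motive := fun _ => ℕ)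
      (fun n k => Nat.add (Nat.mul n (bnd rows x z y k)) ih) p) l

/-- Validity of all bounds. -/
noncomputable def okAll (B : ℕ) (rows : List ℕ) (x z y : ℕ) (l : List (ℕ × Kd)) : Bool :=
  List.rec (motive := fun _ => Bool) true
    (fun p _ ih => Prod.rec (motive := fun _ => Bool)
      (fun _ k => Bool.rec false ih (okK B rows x z y k)) p) l

/-- Certificate for an even column. -/
structure ColE where
  /-- joint multiplicity -/
  j : ℕ
  /-- joint bounds -/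
  bj : List (ℕ × Kd)
  /-- even-even, class 0 -/
  ea : List (ℕ × Kd)
  /-- even-even, class 2 -/
  eb : List (ℕ × Kd)
  /-- odd-even, class 0 -/
  ma : List (ℕ × Kd)
  /-- odd-even, class 2 -/
  mb : List (ℕ × Kd)

/-- Certificate for an odd column. -/
structure ColO where
  /-- joint multiplicity -/
  j : ℕ
  /-- joint bounds -/
  bj : List (ℕ × Kd)
  /-- even-odd -/
  f : List (ℕ × Kd)
  /-- odd-odd -/
  g : List (ℕ × Kd)

/-- A certificate for a leaf. -/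
structure Cert where
  /-- multiplier of the parity cut -/
  l2 : ℕ
  /-- multiplier of the direct bound -/
  l3 : ℕ
  /-- multiplier of the parity cut with direct even part -/
  l4 : ℕ
  /-- multiplier of the parity cut with direct odd part -/
  l5 : ℕ
  /-- multiplier of the parity cut with both parts direct -/
  l6 : ℕ
  /-- even column 0 -/
  a0 : ColE
  /-- even column 1 -/
  a1 : ColE
  /-- even column 2 -/
  a2 : ColE
  /-- odd column 0 -/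
  b0 : ColO
  /-- odd column 1 -/
  b1 : ColO
  /-- odd column 2 -/
  b2 : ColO
  /-- first weight for the in-column part -/
  d1 : ℕ
  /-- second weight for the in-column part -/
  d2 : ℕ
  /-- products -/
  ps : List (ℕ × List (ℕ × ℕ))
  /-- half width of square forms -/
  h : ℕ
  /-- squares -/
  sq : List (ℕ × ℕ)

/-! ### The forms -/

/-- `A0`. -/
def fA0 (B : ℕ) : ℕ := lf12 B 2 1 1 1 1 1 1 1 1 1 1 1 1
/-- `A1`. -/
def fA1 (B : ℕ) : ℕ := lf12 B 1 2 1 1 1 1 1 1 1 1 1 1 1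
/-- `A2`. -/
def fA2 (B : ℕ) : ℕ := lf12 B 1 1 2 1 1 1 1 1 1 1 1 1 1
/-- `B0`. -/
def fB0 (B : ℕ) : ℕ := lf12 B 1 1 1 2 1 1 1 1 1 1 1 1 1
/-- `B1`. -/
def fB1 (B : ℕ) : ℕ := lf12 B 1 1 1 1 2 1 1 1 1 1 1 1 1
/-- `B2`. -/
def fB2 (B : ℕ) : ℕ := lf12 B 1 1 1 1 1 2 1 1 1 1 1 1 1
/-- `O0`. -/
def fO0 (B : ℕ) : ℕ := lf12 B 1 1 1 1 1 1 2 1 1 1 1 1 1
/-- `O1`. -/
def fO1 (B : ℕ) : ℕ := lf12 B 1 1 1 1 1 1 1 2 1 1 1 1 1
/-- `O2`. -/
def fO2 (B : ℕ) : ℕ := lf12 B 1 1 1 1 1 1 1 1 2 1 1 1 1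
/-- `w0`. -/
def fw0 (B : ℕ) : ℕ := lf12 B 1 1 1 1 1 1 1 1 1 2 1 1 1
/-- `w2`. -/
def fw2 (B : ℕ) : ℕ := lf12 B 1 1 1 1 1 1 1 1 1 1 2 1 1
/-- `v`. -/
def fv (B : ℕ) : ℕ := lf12 B 1 1 1 1 1 1 1 1 1 1 1 2 1
/-- `E0`. -/
def fE0 (B : ℕ) : ℕ := lf12 B 2 1 1 2 1 1 1 1 1 1 1 1 1
/-- `E1`. -/
def fE1 (B : ℕ) : ℕ := lf12 B 1 2 1 1 2 1 1 1 1 1 1 1 1
/-- `E2`. -/
def fE2 (B : ℕ) : ℕ := lf12 B 1 1 2 1 1 2 1 1 1 1 1 1 1
/-- `U0`. -/
def fU0 (B : ℕ) : ℕ := lf12 B 2 1 1 2 1 1 2 1 1 1 1 1 1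
/-- `U1`. -/
def fU1 (B : ℕ) : ℕ := lf12 B 1 2 1 1 2 1 1 2 1 1 1 1 1
/-- `U2`. -/
def fU2 (B : ℕ) : ℕ := lf12 B 1 1 2 1 1 2 1 1 2 1 1 1 1
/-- `e`. -/
def fe (B : ℕ) : ℕ := lf12 B 2 2 2 2 2 2 1 1 1 1 1 1 1
/-- `o`. -/
def fo (B : ℕ) : ℕ := lf12 B 1 1 1 1 1 1 2 2 2 1 1 1 1
/-- `u`. -/
def fu (B : ℕ) : ℕ := lf12 B 2 2 2 2 2 2 2 2 2 1 1 1 1
/-- `w0 + w2`. -/
def fW (B : ℕ) : ℕ := lf12 B 1 1 1 1 1 1 1 1 1 2 2 1 1
/-- `w`. -/
def fw (B : ℕ) : ℕ := lf12 B 1 1 1 1 1 1 1 1 1 2 2 2 1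
/-- `p = e - w0 - w2`. -/
def fp (B : ℕ) : ℕ := lf12 B 2 2 2 2 2 2 1 1 1 0 0 1 1
/-- `q = o - v`. -/
def fq (B : ℕ) : ℕ := lf12 B 1 1 1 1 1 1 2 2 2 1 1 0 1
/-- `e - o`. -/
def fd (B : ℕ) : ℕ := lf12 B 2 2 2 2 2 2 0 0 0 1 1 1 1

/-- Bound for an even column. -/
noncomputable def colE (rows : List ℕ) (W w0 w2 E O U A B' E' : ℕ) (c : ColE) : ℕ :=
  ColE.rec (motive := fun _ => ℕ) (fun _ bj ea eb ma mb =>
    Nat.add (tsum rows U E' W bj) (Nat.add (tsum rows E A w0 ea) (Nat.add (tsum rows E B' w2 eb)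
      (Nat.add (tsum rows O A w2 ma) (tsum rows O B' w0 mb))))) c

/-- Bound for an odd column. -/
noncomputable def colO (rows : List ℕ) (v E O U O' : ℕ) (c : ColO) : ℕ :=
  ColO.rec (motive := fun _ => ℕ) (fun _ bj f g =>
    Nat.add (tsum rows U O' v bj) (Nat.add (tsum rows E O' v f) (tsum rows O O' v g))) c

/-- Conjunction. -/
noncomputable def an (a b : Bool) : Bool := Bool.rec (motive := fun _ => Bool) false b a

/-- Validity of an even column. -/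
noncomputable def okE (B : ℕ) (rows : List ℕ) (W w0 w2 E O U A B' E' mE mM : ℕ) (c : ColE) :
    Bool :=
  ColE.rec (motive := fun _ => Bool) (fun j bj ea eb ma mb =>
    an (Nat.beq (wsum bj) j) (an (Nat.beq (Nat.add (wsum ea) j) mE)
      (an (Nat.beq (Nat.add (wsum eb) j) mE) (an (Nat.beq (Nat.add (wsum ma) j) mM)
        (an (Nat.beq (Nat.add (wsum mb) j) mM) (an (okAll B rows U E' W bj)
          (an (okAll B rows E A w0 ea) (an (okAll B rows E B' w2 eb)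
            (an (okAll B rows O A w2 ma) (okAll B rows O B' w0 mb)))))))))) c

/-- Validity of an odd column. -/
noncomputable def okO (B : ℕ) (rows : List ℕ) (v E O U O' mF mG : ℕ) (c : ColO) : Bool :=
  ColO.rec (motive := fun _ => Bool) (fun j bj f g =>
    an (Nat.beq (wsum bj) j) (an (Nat.beq (Nat.add (wsum f) j) mF)
      (an (Nat.beq (Nat.add (wsum g) j) mG) (an (okAll B rows U O' v bj)
        (an (okAll B rows E O' v f) (okAll B rows O O' v g)))))) c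

/-- The positive part. -/
noncomputable def posQ (B l2 l3 l4 l5 l6 : ℕ) : ℕ :=
  Nat.add (Nat.mul (12 * (l2 + l4 + l5 + l6)) (Nat.mul (fe B) (fo B)))
    (Nat.add (Nat.mul (8 * l3) (Nat.mul (fu B) (fw B)))
      (Nat.add (Nat.mul (8 * (l4 + l6)) (Nat.mul (fe B) (fW B)))
        (Nat.mul (8 * (l5 + l6)) (Nat.mul (fo B) (fv B)))))

/-- The negative part. -/
noncomputable def negQ (B l2 l3 l4 l5 l6 d1 d2 : ℕ) : ℕ :=
  Nat.add (Nat.mul (8 * (l2 + l4 + l5 + l6)) (Nat.mul (fp B) (fq B)))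
    (Nat.add (Nat.mul (4 * l3) (sq (fw B)))
      (Nat.add (Nat.mul (4 * (l4 + l6)) (sq (fW B)))
        (Nat.add (Nat.mul (4 * (l5 + l6)) (sq (fv B)))
          (Nat.add (Nat.mul (6 * (l2 + l4 + l5 + l6) + d1) (Nat.add (Nat.mul (fE0 B) (fO0 B))
            (Nat.add (Nat.mul (fE1 B) (fO1 B)) (Nat.mul (fE2 B) (fO2 B)))))
            (Nat.mul d2 (sq (fo B)))))))

/-- Validity of a leaf. -/
noncomputable def leafOk (B : ℕ) (rows : List ℕ) (c : Cert) : Bool :=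
  Cert.rec (motive := fun _ => Bool) (fun l2 l3 l4 l5 l6 a0 a1 a2 b0 b1 b2 d1 d2 ps h s =>
    an (Nat.blt 0 h) (an (Nat.blt 0 (l2 + l3 + l4 + l5 + l6))
      (an (Nat.beq (d1 + 2 * d2) (6 * (l2 + l4 + l5 + l6)))
        (an (okE B rows (fW B) (fw0 B) (fw2 B) (fE0 B) (fO0 B) (fU0 B) (fA1 B) (fB1 B) (fE1 B)
          (12 * (l3 + l4 + l6)) (12 * (l2 + l3 + l4 + l5 + l6)) a0)
        (an (okE B rows (fW B) (fw0 B) (fw2 B) (fE1 B) (fO1 B) (fU1 B) (fA2 B) (fB2 B) (fE2 B)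
          (12 * (l3 + l4 + l6)) (12 * (l2 + l3 + l4 + l5 + l6)) a1)
        (an (okE B rows (fW B) (fw0 B) (fw2 B) (fE2 B) (fO2 B) (fU2 B) (fA0 B) (fB0 B) (fE0 B)
          (12 * (l3 + l4 + l6)) (12 * (l2 + l3 + l4 + l5 + l6)) a2)
        (an (okO B rows (fv B) (fE0 B) (fO0 B) (fU0 B) (fO1 B)
          (12 * (l2 + l3 + l4 + l5 + l6)) (12 * (l3 + l5 + l6)) b0)
        (an (okO B rows (fv B) (fE1 B) (fO1 B) (fU1 B) (fO2 B)
          (12 * (l2 + l3 + l4 + l5 + l6)) (12 * (l3 + l5 + l6)) b1)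
        (an (okO B rows (fv B) (fE2 B) (fO2 B) (fU2 B) (fO0 B)
          (12 * (l2 + l3 + l4 + l5 + l6)) (12 * (l3 + l5 + l6)) b2)
        (cmpQ B (posQ B l2 l3 l4 l5 l6)
          (Nat.add (negQ B l2 l3 l4 l5 l6 d1 d2)
          (Nat.add (colE rows (fW B) (fw0 B) (fw2 B) (fE0 B) (fO0 B) (fU0 B) (fA1 B) (fB1 B)
            (fE1 B) a0)
          (Nat.add (colE rows (fW B) (fw0 B) (fw2 B) (fE1 B) (fO1 B) (fU1 B) (fA2 B) (fB2 B)
            (fE2 B) a1)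
          (Nat.add (colE rows (fW B) (fw0 B) (fw2 B) (fE2 B) (fO2 B) (fU2 B) (fA0 B) (fB0 B)
            (fE0 B) a2)
          (Nat.add (colO rows (fv B) (fE0 B) (fO0 B) (fU0 B) (fO1 B) b0)
          (Nat.add (colO rows (fv B) (fE1 B) (fO1 B) (fU1 B) (fO2 B) b1)
          (Nat.add (colO rows (fv B) (fE2 B) (fO2 B) (fU2 B) (fO0 B) b2)
          (Nat.add (prods rows ps) (sqs B h s)))))))))))))))))) ) c

end Pk

end Aff
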