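import Pool.Agent.helper94.Aff.PkC

/-!
# Packed certificates: assembling boxes
-/

namespace Aff

namespace Pk

/-- The inequality in a box, with the fixed parameters. -/
def Q (l : List ℕ) : Prop := HoldsP (2 ^ 128) (rwr (2 ^ 128) 32768 l)

theorem q_leaf {t : Tree} {l : List ℕ} (h : ck l t = true) : Q l := chk_sound (by decide) t h

theorem q_node (c1 c2 : ℕ) {l : List ℕ}
    (he : eqv (2 ^ 128) (unp (2 ^ 128) 32768 c1 + unp (2 ^ 128) 32768 c2) 0 = true)
    (ha : Q (c1 :: l)) (hb : Q (c2 :: l)) : Q l :=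
  holdsP_node 32768 c1 c2 (by decide) he ha hb

theorem goal_of_Q (h : Q []) : Chk.GoalAll := goal_of_holdsP h

end Pk

end Aff
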