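import Mathlib

/-!
# Affine copies of {0,1,3}: Pollard type bounds
-/

open Finset

namespace Aff

/-- Number of pairs `(x, y) ∈ X × Y` with `3 y - 2 x ∈ Z`. -/
def N (X Y Z : Finset ℤ) : ℕ := ((X ×ˢ Y).filter fun p => 3 * p.2 - 2 * p.1 ∈ Z).card

/-- Number of pairs `(u, w) ∈ U × W` with `u + w ∈ V`. -/
def R (U W V : Finset ℤ) : ℕ := ((U ×ˢ W).filter fun p => p.1 + p.2 ∈ V).card

theorem R_step (U W V : Finset ℤ) (hU : U.Nonempty) (hW : W.Nonempty) :
    R U W V ≤ R (U.erase (U.max' hU)) (W.erase (W.min' hW)) V + V.card := by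
  classical
  set u := U.max' hU with hu
  set w := W.min' hW with hw
  set F := (U ×ˢ W).filter fun p => p.1 + p.2 ∈ V with hF
  set G := F.filter fun p => p.1 = u ∨ p.2 = w with hG
  have h1 : G.card ≤ V.card := by
    refine Finset.card_le_card_of_injOn (fun p => p.1 + p.2) ?_ ?_
    · intro p hp
      have := (Finset.mem_filter.1 (Finset.mem_filter.1 (Finset.mem_coe.1 hp)).1).2
      exact this
    · intro p hp q hq hpq
      have hp' := Finset.mem_filter.1 (Finset.mem_coe.1 hp)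
      have hq' := Finset.mem_filter.1 (Finset.mem_coe.1 hq)
      have hpU := Finset.mem_product.1 (Finset.mem_filter.1 hp'.1).1
      have hqU := Finset.mem_product.1 (Finset.mem_filter.1 hq'.1).1
      have a1 := U.le_max' p.1 hpU.1
      have a2 := U.le_max' q.1 hqU.1
      have a3 := W.min'_le p.2 hpU.2
      have a4 := W.min'_le q.2 hqU.2
      simp only at hpq
      have b1 := hp'.2
      have b2 := hq'.2
      have c1 : p.1 = q.1 := by
        rcases b1 with b1 | b1 <;> rcases b2 with b2 | b2 <;> omega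
      have c2 : p.2 = q.2 := by omega
      exact Prod.ext c1 c2
  have h2 : (F.filter fun p => ¬ (p.1 = u ∨ p.2 = w)) ⊆
      (((U.erase u) ×ˢ (W.erase w)).filter fun p => p.1 + p.2 ∈ V) := by
    intro p hp
    obtain ⟨hpF, hne⟩ := Finset.mem_filter.1 hp
    obtain ⟨hpUW, hpV⟩ := Finset.mem_filter.1 hpF
    obtain ⟨hpU, hpW⟩ := Finset.mem_product.1 hpUW
    rw [not_or] at hne
    exact Finset.mem_filter.2 ⟨Finset.mem_product.2
      ⟨Finset.mem_erase.2 ⟨hne.1, hpU⟩, Finset.mem_erase.2 ⟨hne.2, hpW⟩⟩, hpV⟩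
  have h3 : G.card + (F.filter fun p => ¬ (p.1 = u ∨ p.2 = w)).card = F.card :=
    Finset.card_filter_add_card_filter_not (s := F) (fun p => p.1 = u ∨ p.2 = w)
  have h4 := Finset.card_le_card h2
  have h5 : R U W V = F.card := rfl
  have h6 : R (U.erase u) (W.erase w) V =
    (((U.erase u) ×ˢ (W.erase w)).filter fun p => p.1 + p.2 ∈ V).card := rfl
  omega

theorem R_le_mul (U W V : Finset ℤ) : R U W V ≤ U.card * W.card :=
  (Finset.card_filter_le _ _).trans (Finset.card_product _ _).le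

/-- Pollard type inequality in the integers. -/
theorem pollard (V : Finset ℤ) : ∀ (t : ℕ) (U W : Finset ℤ), t ≤ U.card → t ≤ W.card →
    R U W V ≤ (U.card - t) * (W.card - t) + t * V.card := by
  intro t
  induction t with
  | zero => intro U W _ _; simpa using R_le_mul U W V
  | succ t ih =>
    intro U W hU hW
    have hUn : U.Nonempty := Finset.card_pos.1 (by omega)
    have hWn : W.Nonempty := Finset.card_pos.1 (by omega)
    have h1 := R_step U W V hUn hWn
    have hcU : (U.erase (U.max' hUn)).card = U.card - 1 :=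
      Finset.card_erase_of_mem (U.max'_mem hUn)
    have hcW : (W.erase (W.min' hWn)).card = W.card - 1 :=
      Finset.card_erase_of_mem (W.min'_mem hWn)
    have h2 := ih (U.erase (U.max' hUn)) (W.erase (W.min' hWn)) (by omega) (by omega)
    rw [hcU, hcW] at h2
    have e1 : U.card - 1 - t = U.card - (t + 1) := by omega
    have e2 : W.card - 1 - t = W.card - (t + 1) := by omega
    rw [e1, e2] at h2
    have e3 : (t + 1) * V.card = t * V.card + V.card := by ring
    omega

/-- Real valued form, with a loss of `1/4`. -/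
theorem pollard_real (U W V : Finset ℤ) {t : ℝ} (ht0 : 0 ≤ t) (htU : t ≤ U.card)
    (htW : t ≤ W.card) :
    (R U W V : ℝ) ≤ (U.card - t) * (W.card - t) + t * V.card + 1 / 4 := by
  have key : ∀ k : ℕ, k ≤ U.card → k ≤ W.card →
      (R U W V : ℝ) ≤ (U.card - k) * (W.card - k) + k * V.card := by
    intro k hk1 hk2
    have h := pollard V k U W hk1 hk2
    have h' : (R U W V : ℝ) ≤ (((U.card - k) * (W.card - k) + k * V.card : ℕ) : ℝ) := by
      exact_mod_cast h
    rw [Nat.cast_add, Nat.cast_mul, Nat.cast_mul, Nat.cast_sub hk1, Nat.cast_sub hk2] at h'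
    exact h'
  set k := ⌊t⌋₊ with hk
  have hk1 : (k : ℝ) ≤ t := Nat.floor_le ht0
  have hk2 : t < k + 1 := Nat.lt_floor_add_one t
  have hkU : k ≤ U.card := by
    have : (k : ℝ) ≤ U.card := hk1.trans htU
    exact_mod_cast this
  have hkW : k ≤ W.card := by
    have : (k : ℝ) ≤ W.card := hk1.trans htW
    exact_mod_cast this
  have h1 := key k hkU hkW
  rcases eq_or_lt_of_le hk1 with heq | hlt
  · rw [heq] at h1
    linarith
  · have hkU' : k + 1 ≤ U.card := by
      have : (k : ℝ) < U.card := hlt.trans_le htU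
      have : k < U.card := by exact_mod_cast this
      omega
    have hkW' : k + 1 ≤ W.card := by
      have : (k : ℝ) < W.card := hlt.trans_le htW
      have : k < W.card := by exact_mod_cast this
      omega
    have h2 := key (k + 1) hkU' hkW'
    push_cast at h2
    set θ := t - k with hθ
    have hθ0 : 0 ≤ θ := by linarith
    have hθ1 : θ ≤ 1 := by linarith
    have ht : t = k + θ := by rw [hθ]; ring
    rw [ht]
    have h3 : (R U W V : ℝ) = (1 - θ) * R U W V + θ * R U W V := by ring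
    have h4 := mul_le_mul_of_nonneg_left h1 (by linarith : (0 : ℝ) ≤ 1 - θ)
    have h5 := mul_le_mul_of_nonneg_left h2 hθ0
    have h6 : θ * (1 - θ) ≤ 1 / 4 := by nlinarith [sq_nonneg (θ - 1 / 2)]
    rw [h3]
    nlinarith

/-! ### The function `P` -/

/-- Optimal Pollard parameter. -/
noncomputable def tp (a b c : ℝ) : ℝ := max 0 (min ((a + b - c) / 2) (min a b))

/-- The Pollard bound. -/
noncomputable def P (a b c : ℝ) : ℝ := (a - tp a b c) * (b - tp a b c) + tp a b c * c

theorem tp_nonneg (a b c : ℝ) : 0 ≤ tp a b c := le_max_left _ _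

theorem tp_le_left {a b : ℝ} (c : ℝ) (ha : 0 ≤ a) : tp a b c ≤ a :=
  max_le ha ((min_le_right _ _).trans (min_le_left _ _))

theorem tp_le_right {a b : ℝ} (c : ℝ) (hb : 0 ≤ b) : tp a b c ≤ b :=
  max_le hb ((min_le_right _ _).trans (min_le_right _ _))

theorem P_cases {a b c : ℝ} (ha : 0 ≤ a) (hb : 0 ≤ b) (_hc : 0 ≤ c) :
    (a + b ≤ c ∧ P a b c = a * b) ∨ (a + c ≤ b ∧ P a b c = a * c) ∨
      (b + c ≤ a ∧ P a b c = b * c) ∨
      (c ≤ a + b ∧ b ≤ a + c ∧ a ≤ b + c ∧ P a b c = a * b - ((a + b - c) / 2) ^ 2) := by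
  unfold P tp
  rcases le_total ((a + b - c) / 2) 0 with h | h
  · left
    have : min ((a + b - c) / 2) (min a b) ≤ 0 := (min_le_left _ _).trans h
    rw [max_eq_left this]
    exact ⟨by linarith, by ring⟩
  · right
    have h0 : 0 ≤ min ((a + b - c) / 2) (min a b) := le_min h (le_min ha hb)
    rw [max_eq_right h0]
    rcases le_total (min a b) ((a + b - c) / 2) with h1 | h1
    · rw [min_eq_right h1]
      rcases le_total a b with h2 | h2
      · rw [min_eq_left h2] at h1 ⊢
        left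
        exact ⟨by linarith, by ring⟩
      · rw [min_eq_right h2] at h1 ⊢
        right; left
        exact ⟨by linarith, by ring⟩
    · rw [min_eq_left h1]
      right; right
      have h2 := h1.trans (min_le_left a b)
      have h3 := h1.trans (min_le_right a b)
      exact ⟨by linarith, by linarith, by linarith, by ring⟩

theorem P_le {a b c : ℝ} (ha : 0 ≤ a) (hb : 0 ≤ b) (hc : 0 ≤ c) {t : ℝ} (h0 : 0 ≤ t)
    (h1 : t ≤ a) (h2 : t ≤ b) : P a b c ≤ (a - t) * (b - t) + t * c := by
  rcases P_cases ha hb hc with ⟨h, e⟩ | ⟨h, e⟩ | ⟨h, e⟩ | ⟨-, -, -, e⟩ <;> rw [e]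
  · nlinarith
  · nlinarith
  · nlinarith
  · nlinarith [sq_nonneg (t - (a + b - c) / 2)]

theorem P_le_ac {a b c : ℝ} (ha : 0 ≤ a) (hb : 0 ≤ b) (hc : 0 ≤ c) {t : ℝ} (h0 : 0 ≤ t)
    (h1 : t ≤ a) (h2 : t ≤ c) : P a b c ≤ (a - t) * (c - t) + t * b := by
  rcases P_cases ha hb hc with ⟨h, e⟩ | ⟨h, e⟩ | ⟨h, e⟩ | ⟨-, -, -, e⟩ <;> rw [e]
  · nlinarith
  · nlinarith
  · nlinarith
  · nlinarith [sq_nonneg (t - (a + c - b) / 2)]

theorem P_le_bc {a b c : ℝ} (ha : 0 ≤ a) (hb : 0 ≤ b) (hc : 0 ≤ c) {t : ℝ} (h0 : 0 ≤ t)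
    (h1 : t ≤ b) (h2 : t ≤ c) : P a b c ≤ (b - t) * (c - t) + t * a := by
  rcases P_cases ha hb hc with ⟨h, e⟩ | ⟨h, e⟩ | ⟨h, e⟩ | ⟨-, -, -, e⟩ <;> rw [e]
  · nlinarith
  · nlinarith
  · nlinarith
  · nlinarith [sq_nonneg (t - (b + c - a) / 2)]

/-! ### Bounds for `N` -/

theorem N_le_R_xy (X Y Z : Finset ℤ) :
    N X Y Z ≤ R (X.image fun x => -2 * x) (Y.image fun y => 3 * y) Z := by
  classical
  refine Finset.card_le_card_of_injOn (fun p => (-2 * p.1, 3 * p.2)) ?_ ?_
  · intro p hp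
    obtain ⟨hp1, hp2⟩ := Finset.mem_filter.1 (Finset.mem_coe.1 hp)
    obtain ⟨hpX, hpY⟩ := Finset.mem_product.1 hp1
    refine Finset.mem_coe.2 (Finset.mem_filter.2 ⟨Finset.mem_product.2
      ⟨Finset.mem_image_of_mem _ hpX, Finset.mem_image_of_mem _ hpY⟩, ?_⟩)
    have : -2 * p.1 + 3 * p.2 = 3 * p.2 - 2 * p.1 := by ring
    simp only [this]
    exact hp2
  · intro p _ q _ h
    simp only [Prod.mk.injEq] at h
    exact Prod.ext (by omega) (by omega)

theorem N_le_P (X Y Z : Finset ℤ) : (N X Y Z : ℝ) ≤ P X.card Y.card Z.card + 1 / 4 := by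
  classical
  have h1 : (N X Y Z : ℝ) ≤ R (X.image fun x => -2 * x) (Y.image fun y => 3 * y) Z := by
    exact_mod_cast N_le_R_xy X Y Z
  have e1 : (X.image fun x => -2 * x).card = X.card :=
    Finset.card_image_of_injective _ fun a b (h : _ = _) => by simpa using h
  have e2 : (Y.image fun y => 3 * y).card = Y.card :=
    Finset.card_image_of_injective _ fun a b (h : _ = _) => by simpa using h
  have hX : (0 : ℝ) ≤ X.card := Nat.cast_nonneg _
  have hY : (0 : ℝ) ≤ Y.card := Nat.cast_nonneg _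
  have h2 := pollard_real (X.image fun x => -2 * x) (Y.image fun y => 3 * y) Z
    (tp_nonneg (X.card : ℝ) Y.card Z.card) (by rw [e1]; exact tp_le_left _ hX)
    (by rw [e2]; exact tp_le_right _ hY)
  rw [e1, e2] at h2
  exact h1.trans h2

end Aff
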